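import Pool.Agent.Lib.Pf720ae.Rab

/-!
From bounded real functions to complex essentially bounded functions; boxes starting at one;
actions given by commuting permutations.
-/

set_option autoImplicit false
set_option linter.unusedSectionVars false

open MeasureTheory Filter Topology ProbabilityTheory Finset
open scoped ENNReal NNReal

namespace Pool.Agent.Lib.Pf720ae

variable {κ : Type} [Fintype κ] [DecidableEq κ]
variable {X : Type} [MeasurableSpace X] {μ : Measure X} [IsProbabilityMeasure μ]

/-- representation of a complex essentially bounded function -/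
lemma exists_rep {f : X → ℂ} (hf : MemLp f ⊤ μ) :
    ∃ (C : ℝ) (F : Fin 2 → X → ℝ), (∀ i, Measurable (F i)) ∧ (∀ i x, |F i x| ≤ 1) ∧
      ∀ᵐ x ∂μ, f x = (C : ℂ) * ((F 0 x : ℂ) + (F 1 x : ℂ) * Complex.I) := by
  obtain ⟨C₀, hC₀⟩ : ∃ C₀ : ℝ, ∀ᵐ x ∂μ, ‖f x‖ ≤ C₀ := by
    have hlt : eLpNormEssSup f μ < ∞ := by
      have := hf.2
      rwa [eLpNorm_exponent_top] at this
    refine ⟨(eLpNormEssSup f μ).toReal, ?_⟩
    filter_upwards [enorm_ae_le_eLpNormEssSup f μ] with x hx
    have h1 := ENNReal.toReal_mono hlt.ne hx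
    rwa [toReal_enorm] at h1
  set C : ℝ := max C₀ 1 with hC
  have hCpos : 0 < C := lt_of_lt_of_le one_pos (le_max_right _ _)
  set g := hf.1.mk f with hg
  have hgm : Measurable g := hf.1.stronglyMeasurable_mk.measurable
  have hgf := hf.1.ae_eq_mk
  set cl : ℝ → ℝ := fun t => max (-1) (min (t / C) 1) with hcl
  have hclm : Measurable cl :=
    measurable_const.max ((measurable_id.div_const C).min measurable_const)
  have hcl1 : ∀ t, |cl t| ≤ 1 := by
    intro t
    rw [abs_le]
    exact ⟨le_max_left _ _, max_le (by norm_num) (min_le_right _ _)⟩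
  have hcl2 : ∀ t, |t| ≤ C → C * cl t = t := by
    intro t ht
    have h1 := abs_le.1 ht
    have h2 : t / C ≤ 1 := (div_le_one hCpos).2 h1.2
    have h3 : -1 ≤ t / C := by rw [le_div_iff₀ hCpos]; linarith [h1.1]
    simp only [hcl]
    rw [min_eq_left h2, max_eq_right h3]
    field_simp
  refine ⟨C, ![fun x => cl (g x).re, fun x => cl (g x).im], ?_, ?_, ?_⟩
  · intro i
    fin_cases i
    · exact hclm.comp (Complex.measurable_re.comp hgm)
    · exact hclm.comp (Complex.measurable_im.comp hgm)
  · intro i x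
    fin_cases i
    · exact hcl1 _
    · exact hcl1 _
  · filter_upwards [hC₀, hgf] with x hx hx2
    have h0 : ‖f x‖ ≤ C := hx.trans (le_max_left _ _)
    rw [hx2] at h0 ⊢
    have hre : |(g x).re| ≤ C := (Complex.abs_re_le_norm _).trans h0
    have him : |(g x).im| ≤ C := (Complex.abs_im_le_norm _).trans h0
    have e1 := hcl2 _ hre
    have e2 := hcl2 _ him
    show g x = (C : ℂ) * ((cl (g x).re : ℂ) + (cl (g x).im : ℂ) * Complex.I)
    rw [mul_add, ← mul_assoc, ← Complex.ofReal_mul, ← Complex.ofReal_mul, e1, e2]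
    exact (Complex.re_add_im _).symm

/-- Lifting to complex functions. -/
theorem lift_complex {J : Type} [Fintype J] [DecidableEq J] (U : J → (κ → ℕ) → X → X)
    (hU : ∀ j m, MeasurePreserving (U j m) μ μ)
    (h : ∀ F : J → X → ℝ, (∀ j, Measurable (F j)) → (∀ j x, |F j x| ≤ 1) →
      ∀ᵐ x ∂μ, Cvg fun m => ∏ j, F j (U j m x))
    (f : J → X → ℂ) (hf : ∀ j, MemLp (f j) ⊤ μ) :
    ∀ᵐ x ∂μ, ∃ L : ℂ, Tendsto (fun M : κ → ℕ => (∏ l, (M l : ℂ))⁻¹ *
      ∑ m ∈ Fintype.piFinset (fun l => Finset.range (M l)), ∏ j, f j (U j m x)) atTop (𝓝 L) := by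
  choose C F hFm hF1 hFe using fun j => exists_rep (hf j)
  have hall : ∀ᵐ x ∂μ, ∀ e : J → Fin 2, Cvg fun m => ∏ j, F j (e j) (U j m x) :=
    ae_all_iff.2 fun e => h (fun j => F j (e j)) (fun j => hFm j _) (fun j => hF1 j _)
  have hrep : ∀ᵐ x ∂μ, ∀ j m, f j (U j m x)
      = (C j : ℂ) * ((F j 0 (U j m x) : ℂ) + (F j 1 (U j m x) : ℂ) * Complex.I) := by
    simp only [ae_all_iff]
    exact fun j m => (hU j m).quasiMeasurePreserving.ae (hFe j)
  filter_upwards [hall, hrep] with x hx hr
  choose L hL using hx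
  set w : J → Fin 2 → ℂ := fun j i => (C j : ℂ) * ![1, Complex.I] i with hw
  have hprod : ∀ m, ∏ j, f j (U j m x)
      = ∑ e : J → Fin 2, (∏ j, w j (e j)) * ((∏ j, F j (e j) (U j m x) : ℝ) : ℂ) := by
    intro m
    have h1 : ∀ j, f j (U j m x) = ∑ i : Fin 2, w j i * (F j i (U j m x) : ℂ) := by
      intro j
      rw [hr j m, Fin.sum_univ_two]
      simp only [hw, Matrix.cons_val_zero, Matrix.cons_val_one]
      ring
    simp_rw [h1]
    rw [Finset.prod_univ_sum]
    simp only [Finset.prod_mul_distrib, Complex.ofReal_prod, Fintype.piFinset_univ]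
  refine ⟨∑ e : J → Fin 2, (∏ j, w j (e j)) * (L e : ℂ), ?_⟩
  have h2 : ∀ e : J → Fin 2, Tendsto (fun M : κ → ℕ => (∏ j, w j (e j)) *
      ((avg M fun m => ∏ j, F j (e j) (U j m x) : ℝ) : ℂ)) atTop
      (𝓝 ((∏ j, w j (e j)) * (L e : ℂ))) := by
    intro e
    exact ((Complex.continuous_ofReal.tendsto _).comp (hL e)).const_mul _
  have h3 := tendsto_finsetSum (Finset.univ : Finset (J → Fin 2)) fun e _ => h2 e
  refine h3.congr fun M => ?_
  simp only [hprod]
  rw [Finset.sum_comm, Finset.mul_sum]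
  refine Finset.sum_congr rfl fun e _ => ?_
  unfold avg box
  push_cast
  rw [Finset.mul_sum, Finset.mul_sum, Finset.mul_sum]
  refine Finset.sum_congr rfl fun m _ => ?_
  ring

/-- boxes starting at one -/
lemma sum_Icc_eq (M : κ → ℕ) (G : (κ → ℕ) → ℂ) :
    ∑ m ∈ Fintype.piFinset (fun l => Finset.Icc 1 (M l)), G m
      = ∑ m ∈ Fintype.piFinset (fun l => Finset.range (M l)), G (m + 1) := by
  symm
  refine Finset.sum_bij' (fun m _ => m + 1) (fun m _ => fun l => m l - 1) ?_ ?_ ?_ ?_ ?_
  · intro m hm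
    simp only [Fintype.mem_piFinset, Finset.mem_range, Finset.mem_Icc] at hm ⊢
    intro l
    have := hm l
    simp only [Pi.add_apply, Pi.one_apply]
    omega
  · intro m hm
    simp only [Fintype.mem_piFinset, Finset.mem_range, Finset.mem_Icc] at hm ⊢
    intro l
    have := hm l
    omega
  · intro m hm
    funext l
    simp
  · intro m hm
    simp only [Fintype.mem_piFinset, Finset.mem_Icc] at hm
    funext l
    have := hm l
    simp only [Pi.add_apply, Pi.one_apply]
    omega
  · intro m hm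
    rfl

section perm

/-- ordered product of powers -/
def pw {d : ℕ} (T : Fin d → Equiv.Perm X) (γ : Fin d → ℤ) : Equiv.Perm X :=
  (List.ofFn fun i => T i ^ γ i).prod

lemma pw_zero {d : ℕ} (T : Fin d → Equiv.Perm X) : pw T 0 = 1 := by
  unfold pw
  simp

lemma pw_add {d : ℕ} (T : Fin d → Equiv.Perm X) (hT : ∀ i j, T i * T j = T j * T i)
    (γ γ' : Fin d → ℤ) : pw T (γ + γ') = pw T γ * pw T γ' := by
  unfold pw
  induction d with
  | zero => simp
  | succ d ih =>
    have h := ih (fun i => T i.succ) (fun i j => hT _ _) (fun i => γ i.succ) (fun i => γ' i.succ)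
    rw [List.ofFn_succ, List.ofFn_succ, List.ofFn_succ, List.prod_cons, List.prod_cons,
      List.prod_cons]
    have h' : (List.ofFn fun i : Fin d => T i.succ ^ ((γ + γ') i.succ)).prod
        = (List.ofFn fun i : Fin d => T i.succ ^ (γ i.succ)).prod
          * (List.ofFn fun i : Fin d => T i.succ ^ (γ' i.succ)).prod := h
    rw [h']
    have hcm : Commute (T 0 ^ γ' 0) (List.ofFn fun i : Fin d => T i.succ ^ (γ i.succ)).prod := by
      refine Commute.list_prod_right _ _ fun y hy => ?_
      rw [List.mem_ofFn] at hy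
      obtain ⟨i, rfl⟩ := hy
      exact ((show Commute (T 0) (T i.succ) from hT _ _).zpow_left _).zpow_right _
    rw [Pi.add_apply, zpow_add]
    have e := hcm.eq
    calc T 0 ^ γ 0 * T 0 ^ γ' 0 * ((List.ofFn fun i : Fin d => T i.succ ^ (γ i.succ)).prod
          * (List.ofFn fun i : Fin d => T i.succ ^ (γ' i.succ)).prod)
        = T 0 ^ γ 0 * (T 0 ^ γ' 0 * (List.ofFn fun i : Fin d => T i.succ ^ (γ i.succ)).prod)
          * (List.ofFn fun i : Fin d => T i.succ ^ (γ' i.succ)).prod := by group
      _ = _ := by rw [e]; group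

lemma mp_zpow {T : Equiv.Perm X} (h1 : Measurable T) (h2 : Measurable T.symm)
    (h3 : MeasurePreserving T μ μ) (z : ℤ) :
    MeasurePreserving ((T ^ z : Equiv.Perm X) : X → X) μ μ := by
  have h4 : MeasurePreserving T.symm μ μ := by
    refine ⟨h2, ?_⟩
    conv_lhs => rw [← h3.map_eq]
    rw [Measure.map_map h2 h1]
    simp
  have hn : ∀ (S : Equiv.Perm X), MeasurePreserving S μ μ → ∀ n : ℕ,
      MeasurePreserving ((S ^ n : Equiv.Perm X) : X → X) μ μ := by
    intro S hS n
    induction n with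
    | zero => exact MeasurePreserving.id μ
    | succ n ih =>
      rw [pow_succ]
      exact ih.comp hS
  cases z with
  | ofNat n => exact hn T h3 n
  | negSucc n =>
    rw [zpow_negSucc, ← inv_pow]
    exact hn T⁻¹ h4 (n + 1)

lemma mp_pw {d : ℕ} (T : Fin d → Equiv.Perm X)
    (hT : ∀ i, Measurable (T i) ∧ Measurable (T i).symm ∧ MeasurePreserving (T i) μ μ)
    (γ : Fin d → ℤ) : MeasurePreserving (pw T γ) μ μ := by
  unfold pw
  induction d with
  | zero =>
    simp only [List.ofFn_zero, List.prod_nil]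
    exact MeasurePreserving.id μ
  | succ d ih =>
    rw [List.ofFn_succ, List.prod_cons]
    exact (mp_zpow (hT 0).1 (hT 0).2.1 (hT 0).2.2 _).comp
      (ih (fun i => T i.succ) (fun i => hT _) (fun i => γ i.succ))

/-- the action of `ℤ^d` given by commuting permutations -/
def permAct {d : ℕ} (T : Fin d → Equiv.Perm X)
    (hT : ∀ i, Measurable (T i) ∧ Measurable (T i).symm ∧ MeasurePreserving (T i) μ μ)
    (hc : ∀ i j, T i * T j = T j * T i) : MAct (Fin d → ℤ) X μ where
  S γ := pw T γ
  zero x := by rw [pw_zero]; rfl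
  add a b x := by rw [pw_add T hc]; rfl
  mp γ := mp_pw T hT γ

end perm

/-- the trivial relative system -/
noncomputable def relId {Q : Type} [AddCommGroup Q] (act : MAct Q X μ) : Rel μ X Q where
  ν := μ
  K := Kernel.id
  markov := inferInstance
  hν := by rw [Measure.id_comp]
  aX := act
  aZ := act
  p := id
  pm := measurable_id
  pS _ _ := rfl
  fib f hf := by
    refine Eventually.of_forall fun x => ?_
    rw [Kernel.id_apply]
    have hs : MeasurableSet {z | f (id z) = f x} :=
      hf (measurableSet_singleton (f x))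
    exact (ae_dirac_iff hs).2 rfl
  eqv q := by
    refine Eventually.of_forall fun x => ?_
    rw [Kernel.id_apply, Kernel.id_apply, Measure.map_dirac' (act.mp q).measurable]

end Pool.Agent.Lib.Pf720ae
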