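import Pool.Agent.Lib.Pf720ae.Ext

/-!
Relative systems: a space over a base with a common commutative acting group.
-/

set_option autoImplicit false
set_option linter.unusedSectionVars false

open MeasureTheory Filter Topology ProbabilityTheory Finset
open scoped ENNReal NNReal

namespace Pool.Agent.Lib.Pf720ae

/-- relative system -/
structure Rel {X : Type} [MeasurableSpace X] (μ : Measure X) (Z : Type) [MeasurableSpace Z]
    (Q : Type) [AddCommGroup Q] where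
  /-- measure upstairs -/
  ν : Measure Z
  /-- fibre measures -/
  K : Kernel X Z
  markov : IsMarkovKernel K
  hν : ν = K ∘ₘ μ
  /-- action on the base -/
  aX : MAct Q X μ
  /-- action upstairs -/
  aZ : MAct Q Z ν
  /-- projection -/
  p : Z → X
  pm : Measurable p
  pS : ∀ q z, p (aZ.S q z) = aX.S q (p z)
  fib : ∀ f : X → ℝ, Measurable f → ∀ᵐ x ∂μ, ∀ᵐ z ∂(K x), f (p z) = f x
  eqv : ∀ q, ∀ᵐ x ∂μ, K (aX.S q x) = (K x).map (aZ.S q)

variable {κ : Type} [Fintype κ] [DecidableEq κ]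
variable {X : Type} [MeasurableSpace X] {μ : Measure X} [IsProbabilityMeasure μ]
variable {Z : Type} [MeasurableSpace Z] {Q : Type} [AddCommGroup Q]

section EE

variable (R : Rel μ Z Q)

lemma Rel.prob : IsProbabilityMeasure R.ν := by
  have := R.markov
  rw [R.hν]
  infer_instance

lemma Rel.ae {P : Z → Prop} (h : ∀ᵐ z ∂(R.ν), P z) : ∀ᵐ x ∂μ, ∀ᵐ z ∂(R.K x), P z := by
  rw [R.hν] at h
  exact Measure.ae_ae_of_ae_comp h

/-- fibre integral of the absolute value -/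
noncomputable def EE (φ : Z → ℝ) (x : X) : ℝ≥0∞ := ∫⁻ z, ‖φ z‖ₑ ∂(R.K x)

variable {R}

lemma measurable_EE {φ : Z → ℝ} (hφ : Measurable φ) : Measurable (EE R φ) :=
  hφ.enorm.lintegral_kernel

lemma lintegral_ν {f : Z → ℝ≥0∞} (hf : Measurable f) :
    ∫⁻ z, f z ∂(R.ν) = ∫⁻ x, ∫⁻ z, f z ∂(R.K x) ∂μ := by
  rw [R.hν]
  exact Measure.lintegral_bind R.K.measurable.aemeasurable hf.aemeasurable

lemma sq_lintegral_le {α : Type} [MeasurableSpace α] (ρ : Measure α) [IsProbabilityMeasure ρ]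
    {f : α → ℝ≥0∞} (hf : Measurable f) : (∫⁻ a, f a ∂ρ) ^ 2 ≤ ∫⁻ a, (f a) ^ 2 ∂ρ := by
  have h := ENNReal.lintegral_mul_le_Lp_mul_Lq ρ Real.HolderConjugate.two_two
    hf.aemeasurable (measurable_const (a := (1 : ℝ≥0∞))).aemeasurable
  simp only [Pi.mul_apply, mul_one, ENNReal.one_rpow, lintegral_const, measure_univ] at h
  calc (∫⁻ a, f a ∂ρ) ^ 2 ≤ ((∫⁻ a, f a ^ (2 : ℝ) ∂ρ) ^ (1 / 2 : ℝ)) ^ 2 :=
        pow_le_pow_left' h 2
    _ = ∫⁻ a, (f a) ^ 2 ∂ρ := by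
        rw [← ENNReal.rpow_natCast, ← ENNReal.rpow_mul]
        norm_num

lemma lintegral_EE_sq {φ : Z → ℝ} (hφ : Measurable φ) :
    ∫⁻ x, (EE R φ x) ^ 2 ∂μ ≤ ∫⁻ z, ‖φ z‖ₑ ^ 2 ∂(R.ν) := by
  rw [lintegral_ν (hφ.enorm.pow_const 2)]
  refine lintegral_mono fun x => ?_
  have := R.markov
  exact sq_lintegral_le _ hφ.enorm

lemma EE_S [Countable Q] {φ : Z → ℝ} (hφ : Measurable φ) :
    ∀ᵐ x ∂μ, ∀ q, ∫⁻ z, ‖φ (R.aZ.S q z)‖ₑ ∂(R.K x) = EE R φ (R.aX.S q x) := by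
  rw [ae_all_iff]
  intro q
  filter_upwards [R.eqv q] with x hx
  unfold EE
  rw [hx, lintegral_map hφ.enorm (R.aZ.mp q).measurable]

lemma EE_add_le {φ ψ : Z → ℝ} (hφ : Measurable φ) (x : X) :
    EE R (fun z => φ z + ψ z) x ≤ EE R φ x + EE R ψ x := by
  unfold EE
  rw [← lintegral_add_left hφ.enorm]
  exact lintegral_mono fun z => enorm_add_le _ _

lemma EE_lt_top {φ : Z → ℝ} (hφm : Measurable φ) (hφ : MemLp φ 2 R.ν) [Countable Q] :
    ∀ᵐ x ∂μ, ∀ q, EE R φ (R.aX.S q x) < ∞ := by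
  rw [ae_all_iff]
  intro q
  have h1 : ∫⁻ x, (EE R φ x) ^ 2 ∂μ < ∞ := by
    refine (lintegral_EE_sq hφm).trans_lt ?_
    have h2 := hφ.eLpNorm_lt_top
    rw [eLpNorm_eq_lintegral_rpow_enorm_toReal (by norm_num) (by norm_num)] at h2
    simp only [ENNReal.toReal_ofNat] at h2
    have h3 := (ENNReal.rpow_lt_top_iff_of_pos (by norm_num : (0 : ℝ) < 1 / 2)).1 h2
    convert h3 using 3
    norm_cast
  have h2 : ∀ᵐ x ∂μ, (EE R φ x) ^ 2 < ∞ :=
    ae_lt_top ((measurable_EE hφm).pow_const 2) h1.ne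
  have h3 : ∀ᵐ x ∂μ, EE R φ x < ∞ := by
    filter_upwards [h2] with x hx
    by_contra hcon
    rw [not_lt, top_le_iff] at hcon
    rw [hcon] at hx
    simp at hx
  exact (R.aX.mp q).quasiMeasurePreserving.ae h3

end EE

lemma ofReal_avg_le_NS' {U : (κ → ℕ) → X → X} {M : κ → ℕ} (hM : ∀ l, 0 < M l)
    (e : (κ → ℕ) → ℝ) (he : ∀ m, 0 ≤ e m) (G : X → ℝ≥0∞) (x : X)
    (h : ∀ m, ENNReal.ofReal (e m) ≤ G (U m x)) :
    ENNReal.ofReal (avg M e) ≤ NS U G x := by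
  unfold NS PN
  refine le_trans ?_ (le_iSup _ (fun l => M l - 1))
  have hM1 : ∀ l, M l - 1 + 1 = M l := fun l => Nat.sub_add_cancel (hM l)
  have hM2 : ∀ l, ((M l - 1 : ℕ) : ℝ≥0∞) + 1 = (M l : ℝ≥0∞) := fun l => by
    have := congrArg (Nat.cast : ℕ → ℝ≥0∞) (hM1 l)
    simpa using this
  simp only [hM1, hM2, boxs_univ]
  unfold avg
  rw [ENNReal.ofReal_mul (inv_prod_nonneg M), ENNReal.ofReal_sum_of_nonneg fun m _ => he _,
    ENNReal.ofReal_inv_of_pos (prod_cast_pos hM),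
    ENNReal.ofReal_prod_of_nonneg fun l _ => by positivity]
  simp only [ENNReal.ofReal_natCast]
  gcongr with m _
  exact h m

section principle

variable (R : Rel μ Z Q) (B₀ : (κ → ℤ) →+ Q) (wt : (κ → ℕ) → Z → ℝ)

/-- the functionals -/
noncomputable def Tm (m : κ → ℕ) (φ : Z → ℝ) (x : X) : ℝ :=
  ∫ z, φ (R.aZ.S (B₀ (toZ m)) z) * wt m z ∂(R.K x)

/-- relative convergence -/
def RCv (φ : Z → ℝ) : Prop := ∀ᵐ x ∂μ, Cvg fun m => Tm R B₀ wt m φ x

variable {R B₀ wt}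

lemma integrable_sec [Countable Q] (hwm : ∀ m, Measurable (wt m))
    (hw : ∀ m z, |wt m z| ≤ 1) {φ : Z → ℝ} (hφm : Measurable φ) (hφ : MemLp φ 2 R.ν) :
    ∀ᵐ x ∂μ, ∀ m, Integrable (fun z => φ (R.aZ.S (B₀ (toZ m)) z) * wt m z) (R.K x) := by
  filter_upwards [EE_lt_top hφm hφ, EE_S (R := R) hφm] with x h1 h2 m
  have h3 : Integrable (fun z => φ (R.aZ.S (B₀ (toZ m)) z)) (R.K x) := by
    refine ⟨(hφm.comp (R.aZ.mp _).measurable).aestronglyMeasurable, ?_⟩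
    unfold HasFiniteIntegral
    rw [h2]
    exact h1 _
  refine h3.mul_bdd (c := 1) (hwm m).aestronglyMeasurable ?_
  exact Eventually.of_forall fun z => by rw [Real.norm_eq_abs]; exact hw m z

lemma abs_Tm_sub_le [Countable Q] (hwm : ∀ m, Measurable (wt m))
    (hw : ∀ m z, |wt m z| ≤ 1) {φ ψ : Z → ℝ} (hφm : Measurable φ) (hφ : MemLp φ 2 R.ν)
    (hψm : Measurable ψ) (hψ : MemLp ψ 2 R.ν) :
    ∀ᵐ x ∂μ, ∀ m, ENNReal.ofReal |Tm R B₀ wt m φ x - Tm R B₀ wt m ψ x|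
      ≤ EE R (fun z => φ z - ψ z) (orb R.aX B₀ m x) := by
  filter_upwards [integrable_sec (B₀ := B₀) hwm hw hφm hφ, integrable_sec (B₀ := B₀) hwm hw hψm hψ,
    EE_S (R := R) (φ := fun z => φ z - ψ z) (hφm.sub hψm)] with x h1 h2 h3 m
  unfold Tm
  rw [← integral_sub (h1 m) (h2 m)]
  unfold orb
  rw [← h3]
  rw [← Real.enorm_eq_ofReal_abs]
  refine (enorm_integral_le_lintegral_enorm _).trans (lintegral_mono fun z => ?_)
  rw [← sub_mul, enorm_mul]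
  have : ‖wt m z‖ₑ ≤ 1 := by
    rw [Real.enorm_eq_ofReal_abs, ENNReal.ofReal_le_one]
    exact hw m z
  calc ‖φ (R.aZ.S (B₀ (toZ m)) z) - ψ (R.aZ.S (B₀ (toZ m)) z)‖ₑ * ‖wt m z‖ₑ
      ≤ ‖φ (R.aZ.S (B₀ (toZ m)) z) - ψ (R.aZ.S (B₀ (toZ m)) z)‖ₑ * 1 := by gcongr
    _ = _ := mul_one _

lemma RCv.congr [Countable Q] {φ ψ : Z → ℝ} (h : φ =ᵐ[R.ν] ψ) (hφ : RCv R B₀ wt φ) :
    RCv R B₀ wt ψ := by
  have h1 : ∀ᵐ z ∂(R.ν), ∀ m : κ → ℕ, φ (R.aZ.S (B₀ (toZ m)) z) = ψ (R.aZ.S (B₀ (toZ m)) z) :=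
    ae_all_iff.2 fun m => (R.aZ.mp _).quasiMeasurePreserving.ae h
  filter_upwards [hφ, R.ae h1] with x hx h2
  refine hx.congr fun m => ?_
  unfold Tm
  refine integral_congr_ae ?_
  filter_upwards [h2] with z hz
  rw [hz m]

lemma RCv.add [Countable Q] (hwm : ∀ m, Measurable (wt m))
    (hw : ∀ m z, |wt m z| ≤ 1) {φ ψ : Z → ℝ} (hφm : Measurable φ) (hφ : MemLp φ 2 R.ν)
    (hψm : Measurable ψ) (hψ : MemLp ψ 2 R.ν) (h1 : RCv R B₀ wt φ) (h2 : RCv R B₀ wt ψ) :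
    RCv R B₀ wt (fun z => φ z + ψ z) := by
  filter_upwards [h1, h2, integrable_sec (B₀ := B₀) hwm hw hφm hφ,
    integrable_sec (B₀ := B₀) hwm hw hψm hψ] with x a1 a2 a3 a4
  refine (a1.add a2).congr fun m => ?_
  unfold Tm
  rw [← integral_add (a3 m) (a4 m)]
  refine integral_congr_ae (Eventually.of_forall fun z => ?_)
  simp only
  ring

lemma RCv.smul {φ : Z → ℝ} (h1 : RCv R B₀ wt φ) (c : ℝ) :
    RCv R B₀ wt (fun z => c * φ z) := by
  filter_upwards [h1] with x a1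
  refine (a1.smul c).congr fun m => ?_
  unfold Tm
  rw [← integral_const_mul]
  refine integral_congr_ae (Eventually.of_forall fun z => ?_)
  simp only
  ring

lemma RCv.zero : RCv R B₀ wt (fun _ => 0) := by
  filter_upwards with x
  exact (Cvg.const 0).congr fun m => by simp [Tm]

lemma RCv.of_tendsto [Countable Q] (hwm : ∀ m, Measurable (wt m))
    (hw : ∀ m z, |wt m z| ≤ 1) {φ : Z → ℝ} (hφm : Measurable φ) (hφ : MemLp φ 2 R.ν)
    {ψ : ℕ → Z → ℝ} (hψm : ∀ n, Measurable (ψ n)) (hψ : ∀ n, MemLp (ψ n) 2 R.ν)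
    (hC : ∀ n, RCv R B₀ wt (ψ n))
    (ht : Tendsto (fun n => ∫⁻ z, ‖φ z - ψ n z‖ₑ ^ 2 ∂(R.ν)) atTop (𝓝 0)) :
    RCv R B₀ wt φ := by
  have hUm : ∀ m, Measurable (orb R.aX B₀ m) := fun m => (R.aX.mp _).measurable
  set g : ℕ → X → ℝ≥0∞ := fun n => EE R (fun z => φ z - ψ n z) with hg
  have hgm : ∀ n, Measurable (g n) := fun n => measurable_EE (hφm.sub (hψm n))
  have hlim : ∫⁻ x, liminf (fun n => (NS (orb R.aX B₀) (g n) x) ^ 2) atTop ∂μ = 0 := by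
    have h1 : ∫⁻ x, liminf (fun n => (NS (orb R.aX B₀) (g n) x) ^ 2) atTop ∂μ
        ≤ liminf (fun n => ∫⁻ x, (NS (orb R.aX B₀) (g n) x) ^ 2 ∂μ) atTop :=
      lintegral_liminf_le fun n => (measurable_NS hUm (hgm n)).pow_const 2
    have h2 : Tendsto (fun n => ∫⁻ x, (NS (orb R.aX B₀) (g n) x) ^ 2 ∂μ) atTop (𝓝 0) := by
      have h3 : Tendsto (fun n => 4 ^ (Fintype.card κ) * ∫⁻ z, ‖φ z - ψ n z‖ₑ ^ 2 ∂(R.ν)) atTop
          (𝓝 (4 ^ (Fintype.card κ) * 0)) :=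
        ENNReal.Tendsto.const_mul ht (Or.inr (by finiteness))
      rw [mul_zero] at h3
      refine tendsto_of_tendsto_of_tendsto_of_le_of_le tendsto_const_nhds h3
        (fun _ => zero_le) (fun n => ?_)
      refine (lintegral_NS_sq (fun x => orb_zero x) orb_add orb_mp (hgm n)).trans ?_
      gcongr
      exact lintegral_EE_sq (hφm.sub (hψm n))
    rw [h2.liminf_eq] at h1
    exact le_antisymm h1 zero_le
  have hae : ∀ᵐ x ∂μ, liminf (fun n => (NS (orb R.aX B₀) (g n) x) ^ 2) atTop = 0 := by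
    rw [lintegral_eq_zero_iff (Measurable.liminf fun n =>
      (measurable_NS hUm (hgm n)).pow_const 2)] at hlim
    exact hlim
  have hCall : ∀ᵐ x ∂μ, ∀ n, Cvg fun m => Tm R B₀ wt m (ψ n) x := ae_all_iff.2 hC
  have hdiff : ∀ᵐ x ∂μ, ∀ n, ∀ m, ENNReal.ofReal |Tm R B₀ wt m φ x - Tm R B₀ wt m (ψ n) x|
      ≤ g n (orb R.aX B₀ m x) :=
    ae_all_iff.2 fun n => abs_Tm_sub_le hwm hw hφm hφ (hψm n) (hψ n)
  filter_upwards [hae, hCall, hdiff] with x hx hCx hdx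
  refine exists_tendsto_of_approx _ fun ε hε => ?_
  have h1 : liminf (fun n => (NS (orb R.aX B₀) (g n) x) ^ 2) atTop < (ENNReal.ofReal ε) ^ 2 := by
    rw [hx]
    have : 0 < ENNReal.ofReal ε := ENNReal.ofReal_pos.2 hε
    positivity
  obtain ⟨n, hn⟩ := (frequently_lt_of_liminf_lt (by isBoundedDefault) h1).exists
  have hn' : NS (orb R.aX B₀) (g n) x < ENNReal.ofReal ε := by
    by_contra hcon
    exact absurd hn (not_lt.2 (pow_le_pow_left' (not_lt.1 hcon) 2))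
  refine ⟨fun M => avg M fun m => Tm R B₀ wt m (ψ n) x, hCx n, ?_⟩
  filter_upwards [eventually_pos] with M hM
  rw [← avg_sub]
  refine (abs_avg_le _ _).trans ?_
  have h3 := ofReal_avg_le_NS' (U := orb R.aX B₀) hM
    (fun m => |Tm R B₀ wt m φ x - Tm R B₀ wt m (ψ n) x|) (fun m => abs_nonneg _) (g n) x (hdx n)
  exact ((ENNReal.ofReal_lt_ofReal_iff hε).1 (lt_of_le_of_lt h3 hn')).le

/-- relative principle -/
theorem rel_principle [Countable Q] (hwm : ∀ m, Measurable (wt m))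
    (hw : ∀ m z, |wt m z| ≤ 1)
    (h : ∀ φ : Z → ℝ, Measurable φ → MemLp φ 2 R.ν →
      (∀ ψ : Z → ℝ, Measurable ψ → (∀ z, |ψ z| ≤ 1) → RCv R B₀ wt ψ →
        ∫ z, φ z * ψ z ∂(R.ν) = 0) → RCv R B₀ wt φ)
    (φ : Z → ℝ) (hφ : MemLp φ 2 R.ν) : RCv R B₀ wt φ := by
  have hprob := R.prob
  have hmeas : ∀ f : Lp ℝ 2 R.ν, Measurable (fun z => f z) := fun f =>
    (Lp.stronglyMeasurable f).measurable
  let V : Submodule ℝ (Lp ℝ 2 R.ν) :=
    { carrier := {f | RCv R B₀ wt f}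
      add_mem' := by
        intro f g hf hg
        exact RCv.congr (Lp.coeFn_add f g).symm
          (RCv.add hwm hw (hmeas f) (Lp.memLp f) (hmeas g) (Lp.memLp g) hf hg)
      zero_mem' := RCv.congr (Lp.coeFn_zero ℝ 2 R.ν).symm RCv.zero
      smul_mem' := by
        intro c f hf
        exact RCv.congr (Lp.coeFn_smul c f).symm (RCv.smul hf c) }
  have hVmem : ∀ f : Lp ℝ 2 R.ν, f ∈ V ↔ RCv R B₀ wt f := fun f => Iff.rfl
  have hVclosed : IsClosed (V : Set (Lp ℝ 2 R.ν)) := by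
    refine IsSeqClosed.isClosed ?_
    intro fn f hfn hlim
    refine RCv.of_tendsto hwm hw (hmeas f) (Lp.memLp f) (fun n => hmeas (fn n))
      (fun n => Lp.memLp (fn n)) hfn ?_
    rw [Lp.tendsto_Lp_iff_tendsto_eLpNorm'] at hlim
    have h1 : ∀ n, ∫⁻ x, ‖f x - fn n x‖ₑ ^ 2 ∂(R.ν)
        = (eLpNorm (⇑(fn n) - ⇑f) 2 R.ν) ^ 2 := by
      intro n
      rw [eLpNorm_eq_lintegral_rpow_enorm_toReal (by norm_num) (by norm_num)]
      simp only [ENNReal.toReal_ofNat, Pi.sub_apply]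
      rw [← ENNReal.rpow_natCast, ← ENNReal.rpow_mul]
      norm_num
      refine lintegral_congr fun x => ?_
      rw [← enorm_neg, neg_sub]
    simp_rw [h1]
    have h2 := (ENNReal.continuous_pow 2).tendsto 0 |>.comp hlim
    simpa [Function.comp_def] using h2
  have hVperp : Vᗮ = ⊥ := by
    rw [Submodule.eq_bot_iff]
    intro f hf
    have hfV : f ∈ V := by
      refine (hVmem f).2 (h _ (hmeas f) (Lp.memLp f) ?_)
      intro ψ hψ hψ1 hCψ
      have hψL : MemLp ψ 2 R.ν := MemLp.of_bound hψ.aestronglyMeasurable 1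
        (Eventually.of_forall fun x => by simpa using hψ1 x)
      have h1 : hψL.toLp ψ ∈ V := (hVmem _).2 (RCv.congr hψL.coeFn_toLp.symm hCψ)
      have h2 := (Submodule.mem_orthogonal _ _).1 hf _ h1
      rw [L2.inner_def] at h2
      rw [← h2]
      refine integral_congr_ae ?_
      filter_upwards [hψL.coeFn_toLp] with x hx
      rw [hx]
      simp [mul_comm]
    have h3 := (Submodule.mem_orthogonal _ _).1 hf _ hfV
    exact inner_self_eq_zero.1 h3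
  have hVtop : V = ⊤ := by
    have h1 := (Submodule.topologicalClosure_eq_top_iff (K := V)).2 hVperp
    rwa [IsClosed.submodule_topologicalClosure_eq hVclosed] at h1
  have h1 : hφ.toLp φ ∈ V := by rw [hVtop]; trivial
  exact RCv.congr hφ.coeFn_toLp ((hVmem _).1 h1)

end principle

end Pool.Agent.Lib.Pf720ae
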