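import Pool.Agent.Lib.Pf720ae.Max2

/-!
The closed subspace of functions for which the averages converge.
-/

set_option autoImplicit false
set_option linter.unusedSectionVars false

open MeasureTheory Filter Topology Finset
open scoped ENNReal NNReal

namespace Pool.Agent.Lib.Pf720ae

variable {κ : Type} [Fintype κ] [DecidableEq κ]

/-- convergence of all box averages along `atTop` -/
def Cvg (u : (κ → ℕ) → ℝ) : Prop :=
  ∃ L : ℝ, Tendsto (fun M : κ → ℕ => avg M u) atTop (𝓝 L)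

lemma eventually_pos : ∀ᶠ M : κ → ℕ in atTop, ∀ l, 0 < M l :=
  (eventually_ge_atTop (fun _ : κ => 1)).mono fun _ hM l => hM l

lemma eventually_ge (N : ℕ) : ∀ᶠ M : κ → ℕ in atTop, ∀ l, N ≤ M l :=
  (eventually_ge_atTop (fun _ : κ => N)).mono fun _ hM l => hM l

lemma Cvg.add {u v : (κ → ℕ) → ℝ} (hu : Cvg u) (hv : Cvg v) : Cvg fun m => u m + v m := by
  obtain ⟨L, hL⟩ := hu
  obtain ⟨L', hL'⟩ := hv
  refine ⟨L + L', ?_⟩
  simp_rw [avg_add]
  exact hL.add hL'

lemma Cvg.smul {u : (κ → ℕ) → ℝ} (hu : Cvg u) (c : ℝ) : Cvg fun m => c * u m := by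
  obtain ⟨L, hL⟩ := hu
  refine ⟨c * L, ?_⟩
  simp_rw [avg_smul]
  exact hL.const_mul c

lemma Cvg.sum {ι : Type*} (s : Finset ι) {u : ι → (κ → ℕ) → ℝ} (hu : ∀ i ∈ s, Cvg (u i)) :
    Cvg fun m => ∑ i ∈ s, u i m := by
  classical
  induction s using Finset.induction_on with
  | empty =>
    refine ⟨0, ?_⟩
    simp [avg]
  | insert a s ha ih =>
    have h1 := (hu a (Finset.mem_insert_self _ _)).add
      (ih fun i hi => hu i (Finset.mem_insert_of_mem hi))
    simpa [Finset.sum_insert ha] using h1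

lemma Cvg.congr {u v : (κ → ℕ) → ℝ} (hu : Cvg u) (h : ∀ m, u m = v m) : Cvg v := by
  have : u = v := funext h
  rwa [← this]

lemma Cvg.const (c : ℝ) : Cvg (fun _ : κ → ℕ => c) := by
  refine ⟨c, ?_⟩
  refine tendsto_const_nhds.congr' ?_
  filter_upwards [eventually_pos] with M hM
  rw [avg_const hM]

/-- approximation criterion for convergence -/
lemma exists_tendsto_of_approx (u : (κ → ℕ) → ℝ)
    (h : ∀ ε > 0, ∃ v : (κ → ℕ) → ℝ, (∃ L, Tendsto v atTop (𝓝 L)) ∧
      ∀ᶠ M in atTop, |u M - v M| ≤ ε) :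
    ∃ L, Tendsto u atTop (𝓝 L) := by
  refine cauchySeq_tendsto_of_complete ?_
  rw [Metric.cauchySeq_iff']
  intro ε hε
  obtain ⟨v, ⟨L, hL⟩, hv⟩ := h (ε / 5) (by positivity)
  have h1 : ∀ᶠ M in atTop, |v M - L| < ε / 5 := by
    have := (Metric.tendsto_nhds.1 hL) (ε / 5) (by positivity)
    simpa [Real.dist_eq] using this
  obtain ⟨N, hN⟩ := (hv.and h1).exists_forall_of_atTop
  refine ⟨N, fun M hM => ?_⟩
  have hA := hN M hM
  have hB := hN N le_rfl
  rw [Real.dist_eq]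
  have e : u M - u N = (u M - v M) + (v M - L) + (L - v N) + (v N - u N) := by ring
  rw [e]
  have t1 : |L - v N| < ε / 5 := by rw [abs_sub_comm]; exact hB.2
  have t2 : |v N - u N| ≤ ε / 5 := by rw [abs_sub_comm]; exact hB.1
  calc |(u M - v M) + (v M - L) + (L - v N) + (v N - u N)|
      ≤ |u M - v M| + |v M - L| + |L - v N| + |v N - u N| := by
        refine (abs_add_le _ _).trans (add_le_add ((abs_add_le _ _).trans (add_le_add (abs_add_le _ _) le_rfl)) le_rfl)
    _ < ε := by linarith [hA.1, hA.2]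

variable {X : Type} [MeasurableSpace X] (μ : Measure X) (U : (κ → ℕ) → X → X)
  (W : X → Set ((κ → ℕ) → ℝ))

/-- a.e. convergence of the weighted averages, for all weights in the class -/
def Cv (φ : X → ℝ) : Prop :=
  ∀ᵐ x ∂μ, ∀ w ∈ W x, Cvg fun m => φ (U m x) * w m

variable {μ U W}

lemma ae_comp {U : (κ → ℕ) → X → X} (hU : ∀ m, MeasurePreserving (U m) μ μ) {p : X → Prop}
    (h : ∀ᵐ x ∂μ, p x) : ∀ᵐ x ∂μ, ∀ m, p (U m x) :=
  ae_all_iff.2 fun m => (hU m).quasiMeasurePreserving.ae h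

lemma Cv.congr (hU : ∀ m, MeasurePreserving (U m) μ μ) {φ ψ : X → ℝ} (h : φ =ᵐ[μ] ψ)
    (hφ : Cv μ U W φ) : Cv μ U W ψ := by
  filter_upwards [hφ, ae_comp hU h] with x h1 h2 w hw
  exact (h1 w hw).congr fun m => by rw [h2 m]

lemma Cv.add {φ ψ : X → ℝ} (hφ : Cv μ U W φ) (hψ : Cv μ U W ψ) :
    Cv μ U W (fun x => φ x + ψ x) := by
  filter_upwards [hφ, hψ] with x h1 h2 w hw
  exact ((h1 w hw).add (h2 w hw)).congr fun m => by ring

lemma Cv.smul {φ : X → ℝ} (hφ : Cv μ U W φ) (c : ℝ) : Cv μ U W (fun x => c * φ x) := by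
  filter_upwards [hφ] with x h1 w hw
  exact ((h1 w hw).smul c).congr fun m => by ring

lemma Cv.zero : Cv μ U W (fun _ => 0) := by
  filter_upwards with x w hw
  exact (Cvg.const 0).congr fun m => by simp

/-- closedness -/
lemma Cv.of_tendsto [IsFiniteMeasure μ] (hU0 : ∀ x, U 0 x = x)
    (hUadd : ∀ m n x, U (m + n) x = U m (U n x)) (hU : ∀ m, MeasurePreserving (U m) μ μ)
    (hW : ∀ x, ∀ w ∈ W x, ∀ m, |w m| ≤ 1)
    {φ : X → ℝ} (hφ : Measurable φ) {ψ : ℕ → X → ℝ} (hψ : ∀ n, Measurable (ψ n))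
    (hC : ∀ n, Cv μ U W (ψ n))
    (ht : Tendsto (fun n => ∫⁻ x, (ENNReal.ofReal |φ x - ψ n x|) ^ 2 ∂μ) atTop (𝓝 0)) :
    Cv μ U W φ := by
  set g : ℕ → X → ℝ≥0∞ := fun n x => ENNReal.ofReal |φ x - ψ n x| with hg
  have hgm : ∀ n, Measurable (g n) := fun n =>
    (continuous_abs.measurable.comp (hφ.sub (hψ n))).ennreal_ofReal
  have hUm : ∀ m, Measurable (U m) := fun m => (hU m).measurable
  -- lower limit of the maximal functions vanishes a.e.
  have hlim : ∫⁻ x, liminf (fun n => (NS U (g n) x) ^ 2) atTop ∂μ = 0 := by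
    have h1 : ∫⁻ x, liminf (fun n => (NS U (g n) x) ^ 2) atTop ∂μ
        ≤ liminf (fun n => ∫⁻ x, (NS U (g n) x) ^ 2 ∂μ) atTop :=
      lintegral_liminf_le fun n => (measurable_NS hUm (hgm n)).pow_const 2
    have h2 : Tendsto (fun n => ∫⁻ x, (NS U (g n) x) ^ 2 ∂μ) atTop (𝓝 0) := by
      have h3 : Tendsto (fun n => 4 ^ (Fintype.card κ) * ∫⁻ x, (g n x) ^ 2 ∂μ) atTop
          (𝓝 (4 ^ (Fintype.card κ) * 0)) :=
        ENNReal.Tendsto.const_mul ht (Or.inr (by finiteness))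
      rw [mul_zero] at h3
      exact tendsto_of_tendsto_of_tendsto_of_le_of_le tendsto_const_nhds h3
        (fun _ => zero_le) (fun n => lintegral_NS_sq hU0 hUadd hU (hgm n))
    rw [h2.liminf_eq] at h1
    exact le_antisymm h1 zero_le
  have hae : ∀ᵐ x ∂μ, liminf (fun n => (NS U (g n) x) ^ 2) atTop = 0 := by
    rw [lintegral_eq_zero_iff (Measurable.liminf fun n =>
      (measurable_NS hUm (hgm n)).pow_const 2)] at hlim
    exact hlim
  have hCall : ∀ᵐ x ∂μ, ∀ n, ∀ w ∈ W x, Cvg fun m => ψ n (U m x) * w m := ae_all_iff.2 hC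
  filter_upwards [hae, hCall] with x hx hCx w hw
  refine exists_tendsto_of_approx _ fun ε hε => ?_
  have h1 : liminf (fun n => (NS U (g n) x) ^ 2) atTop < (ENNReal.ofReal ε) ^ 2 := by
    rw [hx]
    have : 0 < ENNReal.ofReal ε := ENNReal.ofReal_pos.2 hε
    positivity
  obtain ⟨n, hn⟩ := (frequently_lt_of_liminf_lt (by isBoundedDefault) h1).exists
  have hn' : NS U (g n) x < ENNReal.ofReal ε := by
    by_contra hcon
    exact absurd hn (not_lt.2 (pow_le_pow_left' (not_lt.1 hcon) 2))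
  refine ⟨fun M => avg M fun m => ψ n (U m x) * w m, hCx n w hw, ?_⟩
  filter_upwards [eventually_pos] with M hM
  rw [← avg_sub]
  have h2 : |avg M fun m => φ (U m x) * w m - ψ n (U m x) * w m|
      ≤ avg M fun m => |φ (U m x) - ψ n (U m x)| := by
    refine (abs_avg_le _ _).trans (avg_mono M fun m => ?_)
    rw [← sub_mul, abs_mul]
    exact mul_le_of_le_one_right (abs_nonneg _) (hW x w hw m)
  refine h2.trans ?_
  have h3 := ofReal_avg_le_NS (U := U) hM (fun x => |φ x - ψ n x|) (fun x => abs_nonneg _) x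
  have h4 : ENNReal.ofReal (avg M fun m => |φ (U m x) - ψ n (U m x)|) < ENNReal.ofReal ε :=
    lt_of_le_of_lt h3 hn'
  exact ((ENNReal.ofReal_lt_ofReal_iff hε).1 h4).le

/-- The principle: to show convergence for all square integrable functions it is enough to show
it for those orthogonal to all bounded good functions. -/
theorem principle [IsFiniteMeasure μ] (hU0 : ∀ x, U 0 x = x)
    (hUadd : ∀ m n x, U (m + n) x = U m (U n x)) (hU : ∀ m, MeasurePreserving (U m) μ μ)
    (hW : ∀ x, ∀ w ∈ W x, ∀ m, |w m| ≤ 1)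
    (h : ∀ φ : X → ℝ, Measurable φ → MemLp φ 2 μ →
      (∀ ψ : X → ℝ, Measurable ψ → (∀ x, |ψ x| ≤ 1) → Cv μ U W ψ → ∫ x, φ x * ψ x ∂μ = 0) →
      Cv μ U W φ)
    (φ : X → ℝ) (hφ : MemLp φ 2 μ) : Cv μ U W φ := by
  -- the subspace
  let V : Submodule ℝ (Lp ℝ 2 μ) :=
    { carrier := {f | Cv μ U W f}
      add_mem' := by
        intro f g hf hg
        exact Cv.congr hU (Lp.coeFn_add f g).symm (Cv.add hf hg)
      zero_mem' := Cv.congr hU (Lp.coeFn_zero ℝ 2 μ).symm Cv.zero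
      smul_mem' := by
        intro c f hf
        exact Cv.congr hU (Lp.coeFn_smul c f).symm (Cv.smul hf c) }
  have hVmem : ∀ f : Lp ℝ 2 μ, f ∈ V ↔ Cv μ U W f := fun f => Iff.rfl
  have hVclosed : IsClosed (V : Set (Lp ℝ 2 μ)) := by
    refine IsSeqClosed.isClosed ?_
    intro fn f hfn hlim
    have hmf : Measurable (fun x => f x) := (Lp.stronglyMeasurable f).measurable
    have hmfn : ∀ n, Measurable (fun x => fn n x) := fun n =>
      (Lp.stronglyMeasurable (fn n)).measurable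
    refine Cv.of_tendsto hU0 hUadd hU hW hmf hmfn hfn ?_
    rw [Lp.tendsto_Lp_iff_tendsto_eLpNorm'] at hlim
    have h1 : ∀ n, ∫⁻ x, (ENNReal.ofReal |f x - fn n x|) ^ 2 ∂μ
        = (eLpNorm (⇑(fn n) - ⇑f) 2 μ) ^ 2 := by
      intro n
      rw [eLpNorm_eq_lintegral_rpow_enorm_toReal (by norm_num) (by norm_num)]
      simp only [ENNReal.toReal_ofNat, Pi.sub_apply]
      rw [← ENNReal.rpow_natCast, ← ENNReal.rpow_mul]
      norm_num
      refine lintegral_congr fun x => ?_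
      rw [← Real.enorm_eq_ofReal_abs, ← enorm_neg, neg_sub]
    simp_rw [h1]
    have h2 := (ENNReal.continuous_pow 2).tendsto 0 |>.comp hlim
    simpa [Function.comp_def] using h2
  have hVperp : Vᗮ = ⊥ := by
    rw [Submodule.eq_bot_iff]
    intro f hf
    have hmf : Measurable (fun x => f x) := (Lp.stronglyMeasurable f).measurable
    have hfV : f ∈ V := by
      refine (hVmem f).2 (h _ hmf (Lp.memLp f) ?_)
      intro ψ hψ hψ1 hCψ
      have hψL : MemLp ψ 2 μ := MemLp.of_bound hψ.aestronglyMeasurable 1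
        (Eventually.of_forall fun x => by simpa using hψ1 x)
      have h1 : hψL.toLp ψ ∈ V := (hVmem _).2 (Cv.congr hU hψL.coeFn_toLp.symm hCψ)
      have h2 := (Submodule.mem_orthogonal _ _).1 hf _ h1
      rw [L2.inner_def] at h2
      rw [← h2]
      refine integral_congr_ae ?_
      filter_upwards [hψL.coeFn_toLp] with x hx
      rw [hx]
      simp [mul_comm]
    have h3 := (Submodule.mem_orthogonal _ _).1 hf _ hfV
    exact inner_self_eq_zero.1 h3
  have hVtop : V = ⊤ := by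
    have h1 := (Submodule.topologicalClosure_eq_top_iff (K := V)).2 hVperp
    rwa [IsClosed.submodule_topologicalClosure_eq hVclosed] at h1
  have h1 : hφ.toLp φ ∈ V := by rw [hVtop]; trivial
  exact Cv.congr hU hφ.coeFn_toLp ((hVmem _).1 h1)

end Pool.Agent.Lib.Pf720ae
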