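import Pool.Agent.Lib.Pf720ae.Maximal

/-!
General `L²` maximal inequality, one parameter and several parameters.
-/

set_option autoImplicit false
set_option linter.unusedSectionVars false

open MeasureTheory Filter Topology Finset
open scoped ENNReal NNReal

namespace Pool.Agent.Lib.Pf720ae

variable {X : Type} [MeasurableSpace X] {μ : Measure X}

/-- truncation -/
noncomputable def trunc (g : X → ℝ≥0∞) (K : ℕ) (x : X) : ℝ≥0 := (min (g x) (K : ℝ≥0∞)).toNNReal

lemma coe_trunc (g : X → ℝ≥0∞) (K : ℕ) (x : X) : (trunc g K x : ℝ≥0∞) = min (g x) K := by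
  unfold trunc
  rw [ENNReal.coe_toNNReal]
  exact ((min_le_right _ _).trans_lt (ENNReal.natCast_lt_top K)).ne

lemma trunc_le (g : X → ℝ≥0∞) (K : ℕ) (x : X) : trunc g K x ≤ (K : ℝ≥0) := by
  have : (trunc g K x : ℝ≥0∞) ≤ ((K : ℝ≥0) : ℝ≥0∞) := by
    rw [coe_trunc]; simp
  exact_mod_cast this

lemma measurable_trunc {g : X → ℝ≥0∞} (hg : Measurable g) (K : ℕ) : Measurable (trunc g K) :=
  (hg.min measurable_const).ennreal_toNNReal

lemma trunc_mono (g : X → ℝ≥0∞) (x : X) : Monotone fun K : ℕ => (trunc g K x : ℝ≥0∞) := by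
  intro a b hab
  simp only [coe_trunc]
  exact min_le_min le_rfl (by exact_mod_cast hab)

lemma iSup_trunc (g : X → ℝ≥0∞) (x : X) : ⨆ K : ℕ, (trunc g K x : ℝ≥0∞) = g x := by
  simp only [coe_trunc]
  have : (⨆ K : ℕ, min (g x) (K : ℝ≥0∞)) = min (g x) (⨆ K : ℕ, (K : ℝ≥0∞)) := by
    rw [inf_iSup_eq]
  rw [this, ENNReal.iSup_natCast]
  simp

lemma Am_trunc {T : X → X} (g : X → ℝ≥0∞) (n : ℕ) (x : X) :
    Am T g n x = ⨆ K : ℕ, Am T (fun x => (trunc g K x : ℝ≥0∞)) n x := by
  unfold Am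
  rw [← ENNReal.mul_iSup]
  congr 1
  rw [← ENNReal.finsetSum_iSup_of_monotone fun i => trunc_mono g _]
  exact Finset.sum_congr rfl fun i _ => (iSup_trunc g _).symm

lemma Mx_trunc {T : X → X} (g : X → ℝ≥0∞) (x : X) :
    Mx T g x = ⨆ K : ℕ, Mx T (fun x => (trunc g K x : ℝ≥0∞)) x := by
  unfold Mx
  rw [iSup_comm]
  exact iSup_congr fun n => Am_trunc g n x

/-- `L²` maximal inequality. -/
theorem strong [IsFiniteMeasure μ] {T : X → X} (hT : MeasurePreserving T μ μ) {g : X → ℝ≥0∞}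
    (hg : Measurable g) :
    ∫⁻ x, (Mx T g x) ^ 2 ∂μ ≤ 4 * ∫⁻ x, (g x) ^ 2 ∂μ := by
  have h1 : ∀ x, (Mx T g x) ^ 2 = ⨆ K : ℕ, (Mx T (fun x => (trunc g K x : ℝ≥0∞)) x) ^ 2 := by
    intro x
    rw [Mx_trunc, ENNReal.iSup_pow]
  simp_rw [h1]
  rw [lintegral_iSup]
  · refine iSup_le fun K => ?_
    refine (strong_bdd hT (measurable_trunc hg K) (K := K) (trunc_le g K)).trans ?_
    gcongr with x
    rw [coe_trunc]
    exact min_le_left _ _
  · intro K
    exact (measurable_Mx hT.measurable (measurable_trunc hg K).coe_nnreal_ennreal).pow_const 2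
  · intro a b hab x
    simp only
    gcongr
    exact Mx_mono (fun x => trunc_mono g x hab) x

section multi

variable {κ : Type} [Fintype κ] [DecidableEq κ]

/-- box over a set of coordinates -/
def boxs (s : Finset κ) (M : κ → ℕ) : Finset (κ → ℕ) :=
  Fintype.piFinset fun l => if l ∈ s then range (M l) else {0}

lemma mem_boxs {s : Finset κ} {M m : κ → ℕ} :
    m ∈ boxs s M ↔ ∀ l, if l ∈ s then m l < M l else m l = 0 := by
  unfold boxs
  rw [Fintype.mem_piFinset]
  refine forall_congr' fun l => ?_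
  by_cases h : l ∈ s <;> simp [h]

lemma boxs_univ (M : κ → ℕ) : boxs Finset.univ M = box M := by
  ext m
  rw [mem_boxs, mem_box]
  simp

lemma sum_boxs_insert {s : Finset κ} {a : κ} (ha : a ∉ s) (M : κ → ℕ) {β : Type*}
    [AddCommMonoid β] (Φ : (κ → ℕ) → β) :
    ∑ m ∈ boxs (insert a s) M, Φ m
      = ∑ t ∈ range (M a), ∑ m ∈ boxs s M, Φ (m + Pi.single a t) := by
  rw [← Finset.sum_product']
  symm
  refine Finset.sum_bij' (fun p _ => p.2 + Pi.single a p.1)
    (fun m _ => (m a, Function.update m a 0)) ?_ ?_ ?_ ?_ ?_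
  · rintro ⟨t, m⟩ h
    simp only [Finset.mem_product, mem_boxs, Finset.mem_range] at h ⊢
    intro l
    have h2 := h.2 l
    by_cases hl : l = a
    · subst hl
      simp only [ha, if_false] at h2
      simp [h2, h.1]
    · have h3 : (l ∈ insert a s) ↔ l ∈ s := by simp [hl]
      simp only [h3, Pi.add_apply, Pi.single_eq_of_ne hl, add_zero]
      exact h2
  · intro m h
    simp only [Finset.mem_product, mem_boxs, Finset.mem_range] at h ⊢
    refine ⟨by simpa using h a, fun l => ?_⟩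
    by_cases hl : l = a
    · subst hl; simp [ha]
    · have h3 : (l ∈ insert a s) ↔ l ∈ s := by simp [hl]
      have h2 := h l
      simp only [h3] at h2
      simpa [Function.update_of_ne hl] using h2
  · rintro ⟨t, m⟩ h
    simp only [Finset.mem_product, mem_boxs, Finset.mem_range] at h
    have h2 := h.2 a
    simp only [ha, if_false] at h2
    ext l
    · simp [h2]
    · by_cases hl : l = a
      · subst hl; simp [h2]
      · simp [Function.update_of_ne hl, Pi.single_eq_of_ne hl]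
  · intro m h
    ext l
    by_cases hl : l = a
    · subst hl; simp
    · simp [Function.update_of_ne hl, Pi.single_eq_of_ne hl]
  · intro p _; rfl

variable (U : (κ → ℕ) → X → X)

/-- partial maximal function -/
noncomputable def PN (s : Finset κ) (g : X → ℝ≥0∞) (x : X) : ℝ≥0∞ :=
  ⨆ M : κ → ℕ, (∏ l ∈ s, ((M l : ℝ≥0∞) + 1))⁻¹ * ∑ m ∈ boxs s (fun l => M l + 1), g (U m x)

variable {U}

lemma measurable_PN (hUm : ∀ m, Measurable (U m)) (s : Finset κ) {g : X → ℝ≥0∞}
    (hg : Measurable g) : Measurable (PN U s g) :=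
  Measurable.iSup fun _ => (Finset.measurable_fun_sum _ fun m _ => hg.comp (hUm m)).const_mul _

lemma U_iter (hU0 : ∀ x, U 0 x = x) (hUadd : ∀ m n x, U (m + n) x = U m (U n x))
    (a : κ) (t : ℕ) (x : X) : U (Pi.single a t) x = (U (Pi.single a 1))^[t] x := by
  induction t with
  | zero => simp [hU0]
  | succ t ih =>
    rw [Function.iterate_succ_apply', ← ih, ← hUadd, add_comm, ← Pi.single_add]

lemma PN_insert_le (hU0 : ∀ x, U 0 x = x) (hUadd : ∀ m n x, U (m + n) x = U m (U n x))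
    {s : Finset κ} {a : κ} (ha : a ∉ s) (g : X → ℝ≥0∞) (x : X) :
    PN U (insert a s) g x ≤ Mx (U (Pi.single a 1)) (PN U s g) x := by
  refine iSup_le fun M => ?_
  refine le_trans ?_ (le_iSup _ (M a))
  rw [Finset.prod_insert ha, ENNReal.mul_inv (Or.inl (by simp)) (Or.inl (by finiteness)),
    sum_boxs_insert ha, mul_assoc, Finset.mul_sum]
  unfold Am
  gcongr with t _
  rw [← U_iter hU0 hUadd]
  refine le_trans (le_of_eq ?_) (le_iSup _ M)
  congr 1
  refine Finset.sum_congr rfl fun m _ => ?_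
  rw [hUadd]

lemma lintegral_PN_sq [IsFiniteMeasure μ] (hU0 : ∀ x, U 0 x = x)
    (hUadd : ∀ m n x, U (m + n) x = U m (U n x)) (hUmp : ∀ m, MeasurePreserving (U m) μ μ)
    (s : Finset κ) {g : X → ℝ≥0∞} (hg : Measurable g) :
    ∫⁻ x, (PN U s g x) ^ 2 ∂μ ≤ 4 ^ s.card * ∫⁻ x, (g x) ^ 2 ∂μ := by
  induction s using Finset.induction_on with
  | empty =>
    have : ∀ x, PN U ∅ g x = g x := by
      intro x
      have h1 : ∀ M : κ → ℕ, boxs (∅ : Finset κ) M = {0} := by
        intro M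
        ext m
        rw [mem_boxs]
        simp [funext_iff]
      simp [PN, h1, hU0]
    simp [this]
  | insert a s ha ih =>
    have hPm := measurable_PN (fun m => (hUmp m).measurable) s hg
    calc ∫⁻ x, (PN U (insert a s) g x) ^ 2 ∂μ
        ≤ ∫⁻ x, (Mx (U (Pi.single a 1)) (PN U s g) x) ^ 2 ∂μ := by
          gcongr with x
          exact PN_insert_le hU0 hUadd ha g x
      _ ≤ 4 * ∫⁻ x, (PN U s g x) ^ 2 ∂μ := strong (hUmp _) hPm
      _ ≤ 4 * (4 ^ s.card * ∫⁻ x, (g x) ^ 2 ∂μ) := by gcongr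
      _ = 4 ^ (insert a s).card * ∫⁻ x, (g x) ^ 2 ∂μ := by
          rw [Finset.card_insert_of_notMem ha, pow_succ]; ring

/-- full multiparameter maximal function -/
noncomputable def NS (U : (κ → ℕ) → X → X) (g : X → ℝ≥0∞) : X → ℝ≥0∞ := PN U Finset.univ g

lemma measurable_NS (hUm : ∀ m, Measurable (U m)) {g : X → ℝ≥0∞}
    (hg : Measurable g) : Measurable (NS U g) := measurable_PN hUm _ hg

theorem lintegral_NS_sq [IsFiniteMeasure μ] (hU0 : ∀ x, U 0 x = x)
    (hUadd : ∀ m n x, U (m + n) x = U m (U n x)) (hUmp : ∀ m, MeasurePreserving (U m) μ μ)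
    {g : X → ℝ≥0∞} (hg : Measurable g) :
    ∫⁻ x, (NS U g x) ^ 2 ∂μ ≤ 4 ^ (Fintype.card κ) * ∫⁻ x, (g x) ^ 2 ∂μ :=
  lintegral_PN_sq hU0 hUadd hUmp Finset.univ hg

/-- averages of a nonnegative function are bounded by the maximal function -/
lemma ofReal_avg_le_NS {M : κ → ℕ} (hM : ∀ l, 0 < M l) (g : X → ℝ) (hg : ∀ x, 0 ≤ g x) (x : X) :
    ENNReal.ofReal (avg M fun m => g (U m x)) ≤ NS U (fun x => ENNReal.ofReal (g x)) x := by
  unfold NS PN
  refine le_trans (le_of_eq ?_) (le_iSup _ (fun l => M l - 1))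
  have hM1 : ∀ l, M l - 1 + 1 = M l := fun l => Nat.sub_add_cancel (hM l)
  have hM2 : ∀ l, ((M l - 1 : ℕ) : ℝ≥0∞) + 1 = (M l : ℝ≥0∞) := fun l => by
    have := congrArg (Nat.cast : ℕ → ℝ≥0∞) (hM1 l)
    simpa using this
  simp only [hM1, hM2, boxs_univ]
  unfold avg
  rw [ENNReal.ofReal_mul (inv_prod_nonneg M), ENNReal.ofReal_sum_of_nonneg fun m _ => hg _,
    ENNReal.ofReal_inv_of_pos (prod_cast_pos hM), ENNReal.ofReal_prod_of_nonneg fun l _ => by positivity]
  simp

end multi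

end Pool.Agent.Lib.Pf720ae
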