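import Pool.Agent.Lib.Pf720ae.RelExt

/-!
Admissible families over a relative system, and their stability under extension.
-/

set_option autoImplicit false
set_option linter.unusedSectionVars false

open MeasureTheory Filter Topology ProbabilityTheory Finset
open scoped ENNReal NNReal

namespace Pool.Agent.Lib.Pf720ae

variable {κ : Type} [Fintype κ] [DecidableEq κ]
variable {X : Type} [MeasurableSpace X] {μ : Measure X} [IsProbabilityMeasure μ]

lemma dz (act : MAct (κ → ℤ) X μ) {F : X → ℝ} (hF : Measurable F) (hF1 : ∀ x, |F x| ≤ 1) :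
    ∀ᵐ x ∂μ, Cvg fun m => F (act.S (toZ m) x) := by
  have h := thmA (κ := κ) (AddMonoidHom.id (κ → ℤ)) 1 (fun _ => AddMonoidHom.id (κ → ℤ))
    (fun _ _ => rfl) X μ act (fun _ => F) (fun _ => hF) (fun _ => hF1)
  filter_upwards [h] with x hx
  exact hx.congr fun m => by simp

variable {Z : Type} [MeasurableSpace Z] {Q : Type} [AddCommGroup Q]

/-- the elements acting trivially on the base -/
def triv (R : Rel μ Z Q) : AddSubgroup Q where
  carrier := {v | ∀ x, R.aX.S v x = x}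
  zero_mem' := fun x => R.aX.zero x
  add_mem' := by
    intro a b ha hb x
    rw [R.aX.add, hb, ha]
  neg_mem' := by
    intro a ha x
    have h := R.aX.add (-a) a x
    rw [neg_add_cancel, R.aX.zero, ha] at h
    exact h.symm

lemma mem_triv {R : Rel μ Z Q} {v : Q} : v ∈ triv R ↔ ∀ x, R.aX.S v x = x := Iff.rfl

variable {ι : Type} [DecidableEq ι] {Γ₀ : Type} [AddCommGroup Γ₀] {J : Type}

/-- admissible families -/
structure Adm (N : ℕ) (s : Γ₀ →+ (κ → ℤ)) (π : Finset ι → Γ₀ →+ Γ₀) (R : Rel μ Z Q)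
    (b : Γ₀ →+ Q) (E : J → Finset ι) (t : J → (κ → ℤ) →+ Γ₀) (B : J → (κ → ℤ) →+ Q) :
    Prop where
  h1 : ∀ j m, π (E j) (t j m) = t j m
  h2 : ∀ j γ, t j (s γ) = N • π (E j) γ
  h3 : ∀ j γ, B j (s (π (E j) γ)) = b (π (E j) γ)
  h4 : ∀ j m, N • B j m - b (t j m) ∈ triv R

section ext

variable {N : ℕ} {s : Γ₀ →+ (κ → ℤ)} {π : Finset ι → Γ₀ →+ Γ₀} {R : Rel μ Z Q}
  {b : Γ₀ →+ Q} {E : J → Finset ι} {t : J → (κ → ℤ) →+ Γ₀} {B : J → (κ → ℤ) →+ Q}

variable (E) in
/-- the remaining indices -/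
abbrev J1 (j₀ : J) : Type := {j : J // j ≠ j₀}

variable (E) in
/-- the remaining indices with a new label -/
abbrev J2 (j₀ : J) : Type := {j : {j : J // j ≠ j₀} // ¬ E j₀ ⊆ E j}

variable (E) in
/-- new labels -/
def newE (j₀ : J) : {j : J // j ≠ j₀} ⊕ J2 E j₀ → Finset ι :=
  Sum.elim (fun j => E j) fun j => E j₀ ∪ E j.1

variable (E π t) in
/-- new linear maps -/
def newt (j₀ : J) : {j : J // j ≠ j₀} ⊕ J2 E j₀ → (κ → ℤ) →+ Γ₀ :=
  Sum.elim (fun j => t j) fun j => (π (E j₀)).comp (t j.1)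

variable (E π t N s b B) in
/-- new positions -/
def newB (j₀ : J) : {j : J // j ≠ j₀} ⊕ J2 E j₀ → (κ → ℤ) →+ ((κ → ℤ) × Q) :=
  Sum.elim
    (fun j => AddMonoidHom.prod (s.comp ((π (E j₀)).comp (t j)))
      (N • B j - b.comp ((π (E j₀)).comp (t j))))
    (fun j => AddMonoidHom.prod (s.comp (t j.1)) (N • B j.1 - b.comp (t j.1)))

variable (E π N s b) in
/-- new base point map -/
def newb (j₀ : J) : Γ₀ →+ ((κ → ℤ) × Q) :=
  AddMonoidHom.prod (N • s.comp (π (E j₀))) (N • (b - b.comp (π (E j₀))))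

lemma adm_ext (hπ : ∀ E F γ, π (E ∪ F) γ = π E (π F γ)) (hA : Adm N s π R b E t B) (j₀ : J)
    {K' : Kernel Z (Om {j : J // j ≠ j₀} Q Q)}
    (hK : EqKer R.aZ (B j₀) (fun j : {j : J // j ≠ j₀} => B j) K') :
    Adm N s π (relExt R hK) (newb N s π b E j₀) (newE E j₀) (newt π E t j₀)
      (newB N s π b E t B j₀) := by
  have hπc : ∀ E F γ, π E (π F γ) = π F (π E γ) := by
    intro E F γ
    rw [← hπ, ← hπ, Finset.union_comm]
  have hπi : ∀ E γ, π E (π E γ) = π E γ := by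
    intro E γ
    rw [← hπ, Finset.union_self]
  have htr : ∀ q : (κ → ℤ) × Q, q ∈ triv (relExt R hK) ↔ B j₀ q.1 + q.2 ∈ triv R := fun q => Iff.rfl
  constructor
  · rintro (j | j) m
    · exact hA.h1 j m
    · show π (E j₀ ∪ E j.1) (π (E j₀) (t j.1 m)) = π (E j₀) (t j.1 m)
      rw [hπ, hπc (E j.1), hA.h1, hπi]
  · rintro (j | j) γ
    · exact hA.h2 j γ
    · show π (E j₀) (t j.1 (s γ)) = N • π (E j₀ ∪ E j.1) γ
      rw [hA.h2, map_nsmul, hπ]
  · rintro (j | j) γ
    · show (s (π (E j₀) (t j (s (π (E j) γ)))), N • B j (s (π (E j) γ))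
          - b (π (E j₀) (t j (s (π (E j) γ)))))
        = (N • s (π (E j₀) (π (E j) γ)), N • (b (π (E j) γ) - b (π (E j₀) (π (E j) γ))))
      rw [hA.h2, hA.h3, hπi, map_nsmul, map_nsmul, map_nsmul, smul_sub]
    · show (s (t j.1 (s (π (E j₀ ∪ E j.1) γ))), N • B j.1 (s (π (E j₀ ∪ E j.1) γ))
          - b (t j.1 (s (π (E j₀ ∪ E j.1) γ))))
        = (N • s (π (E j₀) (π (E j₀ ∪ E j.1) γ)), N • (b (π (E j₀ ∪ E j.1) γ)
          - b (π (E j₀) (π (E j₀ ∪ E j.1) γ))))
      have e1 : π (E j₀ ∪ E j.1) γ = π (E j.1) (π (E j₀) γ) := by rw [hπ, hπc]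
      have e2 : π (E j₀) (π (E j₀ ∪ E j.1) γ) = π (E j.1) (π (E j₀) γ) := by
        rw [e1, hπc (E j₀), hπi]
      rw [e2, e1, hA.h2, hA.h3, hπi, map_nsmul, map_nsmul, smul_sub]
  · rintro (j | j) m
    · rw [htr]
      show B j₀ (N • s (π (E j₀) (t j m)) - N • s (π (E j₀) (t j m)))
        + (N • (N • B j m - b (π (E j₀) (t j m))) - N • (b (t j m) - b (π (E j₀) (t j m))))
        ∈ triv R
      have e : B j₀ (N • s (π (E j₀) (t j m)) - N • s (π (E j₀) (t j m)))
        + (N • (N • B j m - b (π (E j₀) (t j m))) - N • (b (t j m) - b (π (E j₀) (t j m))))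
        = N • (N • B j m - b (t j m)) := by
        rw [sub_self, map_zero, zero_add]
        simp only [smul_sub]
        abel
      rw [e]
      exact (triv R).nsmul_mem (hA.h4 j m) N
    · rw [htr]
      show B j₀ (N • s (t j.1 m) - N • s (π (E j₀) (π (E j₀) (t j.1 m))))
        + (N • (N • B j.1 m - b (t j.1 m)) - N • (b (π (E j₀) (t j.1 m))
          - b (π (E j₀) (π (E j₀) (t j.1 m))))) ∈ triv R
      have e : B j₀ (N • s (t j.1 m) - N • s (π (E j₀) (π (E j₀) (t j.1 m))))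
        + (N • (N • B j.1 m - b (t j.1 m)) - N • (b (π (E j₀) (t j.1 m))
          - b (π (E j₀) (π (E j₀) (t j.1 m)))))
        = (N • B j₀ (s (t j.1 m - π (E j₀) (t j.1 m)))
            - b (t j₀ (s (t j.1 m - π (E j₀) (t j.1 m)))))
          + N • (N • B j.1 m - b (t j.1 m)) := by
        rw [hπi, sub_self, smul_zero, sub_zero, hA.h2]
        have e3 : π (E j₀) (t j.1 m - π (E j₀) (t j.1 m)) = 0 := by
          rw [map_sub, hπi, sub_self]
        rw [e3, smul_zero, map_zero, sub_zero]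
        congr 1
        simp only [map_sub, map_nsmul, smul_sub]
      rw [e]
      exact (triv R).add_mem (hA.h4 j₀ _) ((triv R).nsmul_mem (hA.h4 j.1 m) N)

end ext

end Pool.Agent.Lib.Pf720ae
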