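import Mathlib

/-!
Box averages over `κ → ℕ`, basic algebra.
-/

set_option autoImplicit false
set_option linter.unusedSectionVars false

open Finset Filter Topology

namespace Pool.Agent.Lib.Pf720ae

variable {κ : Type} [Fintype κ] [DecidableEq κ]

/-- the box `∏ [0, M l)` -/
def box (M : κ → ℕ) : Finset (κ → ℕ) := Fintype.piFinset fun l => Finset.range (M l)

lemma mem_box {M : κ → ℕ} {m : κ → ℕ} : m ∈ box M ↔ ∀ l, m l < M l := by
  simp [box, Fintype.mem_piFinset]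

lemma card_box (M : κ → ℕ) : (box M).card = ∏ l, M l := by
  simp [box, Fintype.card_piFinset]

/-- box average -/
noncomputable def avg (M : κ → ℕ) (Φ : (κ → ℕ) → ℝ) : ℝ :=
  (∏ l, (M l : ℝ))⁻¹ * ∑ m ∈ box M, Φ m

lemma avg_add (M : κ → ℕ) (Φ Ψ : (κ → ℕ) → ℝ) :
    avg M (fun m => Φ m + Ψ m) = avg M Φ + avg M Ψ := by
  simp only [avg, Finset.sum_add_distrib, mul_add]

lemma avg_sub (M : κ → ℕ) (Φ Ψ : (κ → ℕ) → ℝ) :
    avg M (fun m => Φ m - Ψ m) = avg M Φ - avg M Ψ := by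
  simp only [avg, Finset.sum_sub_distrib, mul_sub]

lemma avg_smul (M : κ → ℕ) (c : ℝ) (Φ : (κ → ℕ) → ℝ) :
    avg M (fun m => c * Φ m) = c * avg M Φ := by
  simp only [avg, ← Finset.mul_sum]; ring

lemma avg_neg (M : κ → ℕ) (Φ : (κ → ℕ) → ℝ) :
    avg M (fun m => - Φ m) = - avg M Φ := by
  simp only [avg, Finset.sum_neg_distrib, mul_neg]

lemma prod_cast_pos {M : κ → ℕ} (hM : ∀ l, 0 < M l) : 0 < ∏ l, (M l : ℝ) :=
  Finset.prod_pos fun l _ => by exact_mod_cast hM l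

lemma inv_prod_nonneg (M : κ → ℕ) : 0 ≤ (∏ l, (M l : ℝ))⁻¹ :=
  inv_nonneg.2 (Finset.prod_nonneg fun l _ => by positivity)

lemma avg_mono (M : κ → ℕ) {Φ Ψ : (κ → ℕ) → ℝ} (h : ∀ m, Φ m ≤ Ψ m) :
    avg M Φ ≤ avg M Ψ :=
  mul_le_mul_of_nonneg_left (Finset.sum_le_sum fun m _ => h m) (inv_prod_nonneg M)

lemma avg_nonneg (M : κ → ℕ) {Φ : (κ → ℕ) → ℝ} (h : ∀ m, 0 ≤ Φ m) : 0 ≤ avg M Φ :=
  mul_nonneg (inv_prod_nonneg M) (Finset.sum_nonneg fun m _ => h m)

lemma avg_const {M : κ → ℕ} (hM : ∀ l, 0 < M l) (c : ℝ) : avg M (fun _ => c) = c := by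
  have h := (prod_cast_pos hM).ne'
  simp only [avg, Finset.sum_const, card_box, nsmul_eq_mul]
  push_cast
  field_simp

lemma abs_avg_le (M : κ → ℕ) (Φ : (κ → ℕ) → ℝ) : |avg M Φ| ≤ avg M (fun m => |Φ m|) := by
  unfold avg
  rw [abs_mul, abs_of_nonneg (inv_prod_nonneg M)]
  exact mul_le_mul_of_nonneg_left (Finset.abs_sum_le_sum_abs _ _) (inv_prod_nonneg M)

lemma avg_le_of_le {M : κ → ℕ} {Φ : (κ → ℕ) → ℝ} {R : ℝ} (hR : 0 ≤ R)
    (h : ∀ m, Φ m ≤ R) : avg M Φ ≤ R := by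
  by_cases hM : ∀ l, 0 < M l
  · calc avg M Φ ≤ avg M (fun _ => R) := avg_mono M h
      _ = R := avg_const hM R
  · push Not at hM
    obtain ⟨l, hl⟩ := hM
    have : ∏ l, (M l : ℝ) = 0 := Finset.prod_eq_zero (Finset.mem_univ l) (by
      have : M l = 0 := by omega
      simp [this])
    simp [avg, this, hR]

lemma abs_avg_le_of_le {M : κ → ℕ} {Φ : (κ → ℕ) → ℝ} {R : ℝ} (hR : 0 ≤ R)
    (h : ∀ m, |Φ m| ≤ R) : |avg M Φ| ≤ R :=
  (abs_avg_le M Φ).trans (avg_le_of_le hR h)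

lemma avg_congr {M : κ → ℕ} {Φ Ψ : (κ → ℕ) → ℝ} (h : ∀ m, m ∈ box M → Φ m = Ψ m) :
    avg M Φ = avg M Ψ := by
  unfold avg
  rw [Finset.sum_congr rfl h]

lemma avg_mono' (M : κ → ℕ) {Φ Ψ : (κ → ℕ) → ℝ} (h : ∀ m, m ∈ box M → Φ m ≤ Ψ m) :
    avg M Φ ≤ avg M Ψ :=
  mul_le_mul_of_nonneg_left (Finset.sum_le_sum h) (inv_prod_nonneg M)

/-- replacing coordinate `a` by an independent copy does not change the sum -/
lemma sum_box_update (M : κ → ℕ) (a : κ) {β : Type*} [AddCommMonoid β] (Φ : (κ → ℕ) → β) :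
    (∑ m ∈ box M, ∑ t ∈ range (M a), Φ (Function.update m a t)) = (M a) • ∑ m ∈ box M, Φ m := by
  have key : (∑ m ∈ box M, ∑ t ∈ range (M a), Φ (Function.update m a t))
      = ∑ m ∈ box M, ∑ _t ∈ range (M a), Φ m := by
    rw [← Finset.sum_product', ← Finset.sum_product']
    refine Finset.sum_bij' (fun p _ => (Function.update p.1 a p.2, p.1 a))
      (fun p _ => (Function.update p.1 a p.2, p.1 a)) ?_ ?_ ?_ ?_ ?_
    · rintro ⟨m, t⟩ h
      simp only [Finset.mem_product, mem_box, Finset.mem_range] at h ⊢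
      refine ⟨fun l => ?_, h.1 a⟩
      by_cases hl : l = a
      · subst hl; simpa using h.2
      · simpa [Function.update_of_ne hl] using h.1 l
    · rintro ⟨m, t⟩ h
      simp only [Finset.mem_product, mem_box, Finset.mem_range] at h ⊢
      refine ⟨fun l => ?_, h.1 a⟩
      by_cases hl : l = a
      · subst hl; simpa using h.2
      · simpa [Function.update_of_ne hl] using h.1 l
    · rintro ⟨m, t⟩ h; simp
    · rintro ⟨m, t⟩ h; simp
    · rintro ⟨m, t⟩ h; rfl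
  rw [key]
  simp [Finset.sum_const, Finset.smul_sum]

lemma sum_range_shift_le (N : ℕ) (φ : ℕ → ℝ) {R : ℝ} (hR : ∀ t, |φ t| ≤ R) :
    |∑ t ∈ range N, (φ (t + 1) - φ t)| ≤ 2 * R := by
  rw [Finset.sum_range_sub]
  have h1 := hR N
  have h2 := hR 0
  calc |φ N - φ 0| ≤ |φ N| + |φ 0| := abs_sub _ _
    _ ≤ 2 * R := by linarith

/-- shift by one unit in the coordinate `a` -/
lemma avg_shift_one (M : κ → ℕ) (a : κ) (Φ : (κ → ℕ) → ℝ) {R : ℝ} (hR : ∀ m, |Φ m| ≤ R)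
    (hM : ∀ l, 0 < M l) :
    |avg M (fun m => Φ (m + Pi.single a 1)) - avg M Φ| ≤ 2 * R / M a := by
  have hMa : (0 : ℝ) < M a := by exact_mod_cast hM a
  have hP := prod_cast_pos hM
  have h1 : ∀ Ψ : (κ → ℕ) → ℝ, ∑ m ∈ box M, Ψ m
      = (M a : ℝ)⁻¹ * ∑ m ∈ box M, ∑ t ∈ range (M a), Ψ (Function.update m a t) := by
    intro Ψ
    rw [sum_box_update, nsmul_eq_mul, ← mul_assoc, inv_mul_cancel₀ hMa.ne', one_mul]
  rw [← avg_sub]
  unfold avg
  rw [h1, abs_mul, abs_mul, abs_of_pos (inv_pos.2 hP), abs_of_pos (inv_pos.2 hMa)]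
  have h2 : |∑ m ∈ box M, ∑ t ∈ range (M a), (Φ (Function.update m a t + Pi.single a 1)
      - Φ (Function.update m a t))| ≤ (∏ l, (M l : ℝ)) * (2 * R) := by
    refine (Finset.abs_sum_le_sum_abs _ _).trans ?_
    have : ∀ m ∈ box M, |∑ t ∈ range (M a), (Φ (Function.update m a t + Pi.single a 1)
      - Φ (Function.update m a t))| ≤ 2 * R := by
      intro m _
      have h3 : ∀ t, Function.update m a t + Pi.single a 1 = Function.update m a (t + 1) := by
        intro t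
        funext l
        by_cases hl : l = a
        · subst hl; simp
        · simp [Function.update_of_ne hl, Pi.single_eq_of_ne hl]
      simp_rw [h3]
      exact sum_range_shift_le (M a) (fun t => Φ (Function.update m a t)) (fun t => hR _)
    refine (Finset.sum_le_sum this).trans ?_
    rw [Finset.sum_const, card_box, nsmul_eq_mul]
    push_cast
    exact le_rfl
  calc (∏ l, (M l : ℝ))⁻¹ * ((M a : ℝ)⁻¹ * |∑ m ∈ box M, ∑ t ∈ range (M a),
        (Φ (Function.update m a t + Pi.single a 1) - Φ (Function.update m a t))|)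
      ≤ (∏ l, (M l : ℝ))⁻¹ * ((M a : ℝ)⁻¹ * ((∏ l, (M l : ℝ)) * (2 * R))) := by
        gcongr
    _ = 2 * R / M a := by field_simp

/-- shift by a general nonnegative vector -/
lemma avg_shift (M : κ → ℕ) (h : κ → ℕ) (Φ : (κ → ℕ) → ℝ) {R : ℝ} (hR : ∀ m, |Φ m| ≤ R)
    (hM : ∀ l, 0 < M l) :
    |avg M (fun m => Φ (m + h)) - avg M Φ| ≤ ∑ l, 2 * R * h l / M l := by
  have hR0 : 0 ≤ R := (abs_nonneg _).trans (hR 0)
  have tri : ∀ a b c : ℝ, |a - c| ≤ |a - b| + |b - c| := fun a b c => abs_sub_le a b c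
  -- multiples of a single unit
  have hmul : ∀ (a : κ) (n : ℕ) (Φ : (κ → ℕ) → ℝ), (∀ m, |Φ m| ≤ R) →
      |avg M (fun m => Φ (m + Pi.single a n)) - avg M Φ| ≤ 2 * R * n / M a := by
    intro a n
    induction n with
    | zero => intro Φ _; simp
    | succ n ih =>
      intro Φ hΦ
      obtain ⟨Ψ, hΨ⟩ : ∃ Ψ : (κ → ℕ) → ℝ, Ψ = fun m => Φ (m + Pi.single a 1) := ⟨_, rfl⟩
      have hΨR : ∀ m, |Ψ m| ≤ R := fun m => by rw [hΨ]; exact hΦ _
      have h1 : (fun m : κ → ℕ => Φ (m + Pi.single a (n + 1)))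
          = fun m => Ψ (m + Pi.single a n) := by
        funext m
        rw [hΨ]
        simp only [add_assoc, ← Pi.single_add]
      have h2 := ih Ψ hΨR
      have h3 := avg_shift_one M a Φ hΦ hM
      rw [← hΨ] at h3
      have h4 : (2 * R * ((n + 1 : ℕ) : ℝ) / M a) = 2 * R * n / M a + 2 * R / M a := by
        push_cast; ring
      rw [h4, h1]
      exact (tri _ (avg M Ψ) _).trans (add_le_add h2 h3)
  -- decompose
  have hdec : ∀ (s : Finset κ) (Φ : (κ → ℕ) → ℝ), (∀ m, |Φ m| ≤ R) →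
      |avg M (fun m => Φ (m + ∑ l ∈ s, Pi.single l (h l))) - avg M Φ|
        ≤ ∑ l ∈ s, 2 * R * h l / M l := by
    intro s
    induction s using Finset.induction_on with
    | empty => intro Φ _; simp
    | insert a s ha ih =>
      intro Φ hΦ
      obtain ⟨Ψ, hΨ⟩ : ∃ Ψ : (κ → ℕ) → ℝ, Ψ = fun m => Φ (m + Pi.single a (h a)) := ⟨_, rfl⟩
      have hΨR : ∀ m, |Ψ m| ≤ R := fun m => by rw [hΨ]; exact hΦ _
      have h1 : (fun m : κ → ℕ => Φ (m + ∑ l ∈ insert a s, Pi.single l (h l)))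
          = fun m => Ψ (m + ∑ l ∈ s, Pi.single l (h l)) := by
        funext m
        rw [hΨ, Finset.sum_insert ha]
        have : m + (Pi.single a (h a) + ∑ l ∈ s, Pi.single l (h l))
            = m + ∑ l ∈ s, Pi.single l (h l) + Pi.single a (h a) := by abel
        rw [this]
      have h2 := ih Ψ hΨR
      have h3 := hmul a (h a) Φ hΦ
      rw [← hΨ] at h3
      rw [h1, Finset.sum_insert ha, add_comm]
      exact (tri _ (avg M Ψ) _).trans (add_le_add h2 h3)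
  have h5 : h = ∑ l, Pi.single l (h l) := (Finset.univ_sum_single h).symm
  have h6 := hdec Finset.univ Φ hR
  rwa [← h5] at h6

end Pool.Agent.Lib.Pf720ae
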