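import Pool.Agent.Lib.Pf720ae.ThmA

/-!
Convergence along cosets.
-/

set_option autoImplicit false
set_option linter.unusedSectionVars false

open MeasureTheory Filter Topology ProbabilityTheory Finset
open scoped ENNReal NNReal

namespace Pool.Agent.Lib.Pf720ae

variable {κ : Type} [Fintype κ] [DecidableEq κ]

/-- number of `p` with `N p + c < M` -/
def cs (N : ℕ) (c M : ℕ) : ℕ := (M - c + (N - 1)) / N

lemma lt_cs {N : ℕ} (hN : 0 < N) (c M p : ℕ) : p < cs N c M ↔ N * p + c < M := by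
  unfold cs
  rw [Nat.lt_iff_add_one_le, Nat.le_div_iff_mul_le hN, Nat.add_mul, one_mul, mul_comm p N]
  omega

lemma cs_tendsto {N : ℕ} (hN : 0 < N) (c : κ → ℕ) :
    Tendsto (fun M : κ → ℕ => fun l => cs N (c l) (M l)) atTop atTop := by
  rw [tendsto_atTop]
  intro b
  filter_upwards [eventually_ge_atTop (fun l => N * b l + c l + 1)] with M hM l
  have h := hM l
  by_contra hcon
  push Not at hcon
  have h1 : ¬ (N * (cs N (c l) (M l)) + c l < M l) := by
    rw [← lt_cs hN]; exact lt_irrefl _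
  apply h1
  have h2 : N * (cs N (c l) (M l)) ≤ N * b l := Nat.mul_le_mul_left N hcon.le
  have h3 : N * b l + c l + 1 ≤ M l := h
  omega

lemma cs_ratio {N : ℕ} (hN : 0 < N) (c : ℕ) :
    Tendsto (fun M : ℕ => (cs N c M : ℝ) / M) atTop (𝓝 ((N : ℝ)⁻¹)) := by
  have hNr : (0 : ℝ) < N := by exact_mod_cast hN
  have h1 : Tendsto (fun M : ℕ => (N : ℝ)⁻¹ - ((c : ℝ) + N) / M) atTop (𝓝 ((N : ℝ)⁻¹)) := by
    have := (tendsto_const_nhds (x := (N : ℝ)⁻¹)).sub
      (tendsto_const_div_atTop_nhds_zero_nat ((c : ℝ) + N))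
    simpa using this
  have h2 : Tendsto (fun M : ℕ => (N : ℝ)⁻¹ + ((c : ℝ) + N) / M) atTop (𝓝 ((N : ℝ)⁻¹)) := by
    have := (tendsto_const_nhds (x := (N : ℝ)⁻¹)).add
      (tendsto_const_div_atTop_nhds_zero_nat ((c : ℝ) + N))
    simpa using this
  have hN1 : (1 : ℝ) ≤ N := by exact_mod_cast hN
  refine tendsto_of_tendsto_of_tendsto_of_le_of_le' h1 h2 ?_ ?_
  · filter_upwards [eventually_gt_atTop 0] with M hM
    have hMr : (0 : ℝ) < M := by exact_mod_cast hM
    have h3 : M ≤ N * cs N c M + c := by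
      by_contra hcon
      push Not at hcon
      exact absurd ((lt_cs hN c M _).2 hcon) (lt_irrefl _)
    have h4 : (M : ℝ) ≤ N * cs N c M + c := by exact_mod_cast h3
    rw [← sub_nonneg]
    have e : (cs N c M : ℝ) / M - ((N : ℝ)⁻¹ - ((c : ℝ) + N) / M)
        = (N * cs N c M - M + N * ((c : ℝ) + N)) / (N * M) := by
      field_simp
      ring
    rw [e]
    apply div_nonneg _ (by positivity)
    have hc : (0 : ℝ) ≤ c := Nat.cast_nonneg c
    nlinarith
  · filter_upwards [eventually_gt_atTop 0] with M hM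
    have hMr : (0 : ℝ) < M := by exact_mod_cast hM
    have h3 : N * cs N c M ≤ M + N := by
      unfold cs
      have := Nat.mul_div_le (M - c + (N - 1)) N
      omega
    have h4 : (N : ℝ) * cs N c M ≤ M + N := by exact_mod_cast h3
    rw [← sub_nonneg]
    have e : (N : ℝ)⁻¹ + ((c : ℝ) + N) / M - (cs N c M : ℝ) / M
        = (M - N * cs N c M + N * ((c : ℝ) + N)) / (N * M) := by
      field_simp
      ring
    rw [e]
    apply div_nonneg _ (by positivity)
    have hc : (0 : ℝ) ≤ c := Nat.cast_nonneg c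
    nlinarith

lemma sum_box_coset {N : ℕ} (hN : 0 < N) (M : κ → ℕ) (u : (κ → ℕ) → ℝ) :
    ∑ m ∈ box M, u m = ∑ c ∈ box (fun _ : κ => N),
      ∑ p ∈ box (fun l => cs N (c l) (M l)), u (N • p + c) := by
  rw [Finset.sum_sigma']
  symm
  refine Finset.sum_bij' (fun x _ => N • x.2 + x.1)
    (fun m _ => (⟨fun l => m l % N, fun l => m l / N⟩ : Σ _ : κ → ℕ, κ → ℕ)) ?_ ?_ ?_ ?_ ?_
  · intro x hx
    rw [Finset.mem_sigma, mem_box, mem_box] at hx
    rw [mem_box]
    intro l
    have := (lt_cs hN (x.1 l) (M l) (x.2 l)).1 (hx.2 l)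
    simpa using this
  · intro m hm
    rw [mem_box] at hm
    rw [Finset.mem_sigma, mem_box, mem_box]
    refine ⟨fun l => Nat.mod_lt _ hN, fun l => ?_⟩
    rw [lt_cs hN]
    simp only
    rw [Nat.div_add_mod]
    exact hm l
  · intro x hx
    rw [Finset.mem_sigma, mem_box, mem_box] at hx
    have h1 : (fun l => (N • x.2 + x.1) l % N) = x.1 := by
      funext l
      simp only [Pi.add_apply, Pi.smul_apply, smul_eq_mul]
      rw [Nat.mul_add_mod, Nat.mod_eq_of_lt (hx.1 l)]
    have h2 : (fun l => (N • x.2 + x.1) l / N) = x.2 := by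
      funext l
      simp only [Pi.add_apply, Pi.smul_apply, smul_eq_mul]
      rw [Nat.mul_add_div hN, Nat.div_eq_of_lt (hx.1 l), add_zero]
    refine Sigma.ext h1 ?_
    simp only [heq_eq_eq]
    exact h2
  · intro m hm
    funext l
    simp only [Pi.add_apply, Pi.smul_apply, smul_eq_mul]
    exact Nat.div_add_mod _ _
  · intro x hx
    rfl

/-- The coset lemma. -/
lemma Cvg.of_cosets {N : ℕ} (hN : 0 < N) {u : (κ → ℕ) → ℝ}
    (h : ∀ c : κ → ℕ, Cvg fun p => u (N • p + c)) : Cvg u := by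
  choose L hL using h
  refine ⟨∑ c ∈ box (fun _ : κ => N), (∏ _l : κ, (N : ℝ)⁻¹) * L c, ?_⟩
  have h1 : ∀ c : κ → ℕ, Tendsto (fun M : κ → ℕ => (∏ l, (cs N (c l) (M l) : ℝ) / M l) *
      avg (fun l => cs N (c l) (M l)) (fun p => u (N • p + c))) atTop
      (𝓝 ((∏ _l : κ, (N : ℝ)⁻¹) * L c)) := by
    intro c
    refine Tendsto.mul ?_ ((hL c).comp (cs_tendsto hN c))
    refine tendsto_finsetProd _ fun l _ => ?_
    have h2 : Tendsto (fun M : κ → ℕ => M l) atTop atTop := by
      rw [tendsto_atTop]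
      intro b
      filter_upwards [eventually_ge_atTop (fun _ => b)] with M hM using hM l
    exact (cs_ratio hN (c l)).comp h2
  have h2 := tendsto_finsetSum (box (fun _ : κ => N)) fun c _ => h1 c
  refine h2.congr' ?_
  have h3 : ∀ c : κ → ℕ, ∀ᶠ M : κ → ℕ in atTop, ∀ l, 0 < cs N (c l) (M l) := fun c =>
    (cs_tendsto hN c).eventually eventually_pos
  have h4 : ∀ᶠ M : κ → ℕ in atTop, ∀ c ∈ box (fun _ : κ => N), ∀ l, 0 < cs N (c l) (M l) :=
    (Finset.eventually_all _).2 fun c _ => h3 c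
  filter_upwards [h4] with M hM
  have h6 : avg M u = ∑ c ∈ box (fun _ : κ => N), (∏ l, (M l : ℝ))⁻¹ *
      ∑ p ∈ box (fun l => cs N (c l) (M l)), u (N • p + c) := by
    unfold avg
    rw [sum_box_coset hN, Finset.mul_sum]
  rw [h6]
  refine Finset.sum_congr rfl fun c hc => ?_
  unfold avg
  have h5 : (∏ l, (cs N (c l) (M l) : ℝ)) ≠ 0 := by
    refine Finset.prod_ne_zero_iff.2 fun l _ => ?_
    exact_mod_cast (hM c hc l).ne'
  rw [Finset.prod_div_distrib, div_eq_mul_inv]
  field_simp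

end Pool.Agent.Lib.Pf720ae
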