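import Pool.Agent.Lib.Pf720ae.Indep

/-!
The unified theorem in terms of ordered products of powers of given transformations.
-/

set_option autoImplicit false
set_option linter.unusedSectionVars false

open MeasureTheory Filter Topology ProbabilityTheory Finset
open scoped ENNReal NNReal

namespace Pool.Agent.Lib.Pf720ae

variable {X : Type} [MeasurableSpace X] {μ : Measure X} [IsProbabilityMeasure μ]

lemma pw_add' {d : ℕ} (T : Fin d → Equiv.Perm X) (e e' : Fin d → ℤ)
    (h : ∀ i j, e i ≠ 0 → e' j ≠ 0 → T i * T j = T j * T i) :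
    pw T (e + e') = pw T e * pw T e' := by
  unfold pw
  rw [← ofFn_prod_mul]
  · congr 2
    funext i
    rw [Pi.add_apply, zpow_add]
  · intro i j
    by_cases hi : e i = 0
    · rw [hi, zpow_zero]; exact Commute.one_left _
    · by_cases hj : e' j = 0
      · rw [hj, zpow_zero]; exact Commute.one_right _
      · exact ((show Commute (T i) (T j) from h i j hi hj).zpow_left _).zpow_right _

section

variable {d k : ℕ} (T : Fin d → Equiv.Perm X)

lemma row_ne {A : Matrix (Fin d) (Fin k) ℤ} {m : Fin k → ℤ} {i : Fin d}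
    (h : A.mulVec m i ≠ 0) : A i ≠ 0 := by
  intro h0
  apply h
  simp [Matrix.mulVec, h0]

/-- the homomorphism attached to a matrix whose relevant factors commute -/
def hom1 (A : Matrix (Fin d) (Fin k) ℤ)
    (hA : ∀ i i', A i ≠ 0 → A i' ≠ 0 → T i * T i' = T i' * T i) :
    Multiplicative (Fin k → ℤ) →* Equiv.Perm X where
  toFun m := pw T (A.mulVec m.toAdd)
  map_one' := by
    rw [toAdd_one, Matrix.mulVec_zero, pw_zero]
  map_mul' a b := by
    rw [toAdd_mul, Matrix.mulVec_add]
    exact pw_add' T _ _ fun i j hi hj => hA i j (row_ne hi) (row_ne hj)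

lemma hom1_apply {A : Matrix (Fin d) (Fin k) ℤ}
    (hA : ∀ i i', A i ≠ 0 → A i' ≠ 0 → T i * T i' = T i' * T i) (m : Fin k → ℤ) :
    hom1 T A hA (Multiplicative.ofAdd m) = pw T (A.mulVec m) := rfl

/-- the action attached to a matrix -/
def act1 (hT : ∀ i, Measurable (T i) ∧ Measurable (T i).symm ∧ MeasurePreserving (T i) μ μ)
    (A : Matrix (Fin d) (Fin k) ℤ)
    (hA : ∀ i i', A i ≠ 0 → A i' ≠ 0 → T i * T i' = T i' * T i) : MAct (Fin k → ℤ) X μ where
  S m := pw T (A.mulVec m)
  zero x := by rw [Matrix.mulVec_zero, pw_zero]; rfl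
  add a b x := by
    rw [Matrix.mulVec_add, pw_add' T _ _ fun i j hi hj => hA i j (row_ne hi) (row_ne hj)]
    rfl
  mp m := mp_pw T hT _

lemma hom1_lin {r : ℕ} {A : Matrix (Fin d) (Fin k) ℤ}
    (hA : ∀ i i', A i ≠ 0 → A i' ≠ 0 → T i * T i' = T i' * T i) (v : Fin r → Fin k → ℤ)
    (γ : Fin r → ℤ) :
    pw T (A.mulVec (lin v γ)) = (List.ofFn fun α => pw T (A.mulVec (v α)) ^ γ α).prod := by
  have h1 : Multiplicative.ofAdd (lin v γ)
      = (List.ofFn fun α => Multiplicative.ofAdd (v α) ^ γ α).prod := by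
    rw [List.prod_ofFn, lin_apply, ofAdd_sum]
    refine Finset.prod_congr rfl fun α _ => ?_
    rw [← ofAdd_zsmul]
  rw [← hom1_apply T hA, h1, map_list_prod, List.map_ofFn]
  congr 2
  funext α
  simp only [Function.comp_apply, map_zpow, hom1_apply]

end

/-- Theorem H3, bounded real functions. -/
theorem thmH3_real (d k n r : ℕ) (T : Fin d → Equiv.Perm X)
    (hT : ∀ i, Measurable (T i) ∧ Measurable (T i).symm ∧ MeasurePreserving (T i) μ μ)
    (A : Fin n → Matrix (Fin d) (Fin k) ℤ)
    (hA : ∀ j i i', A j i ≠ 0 → A j i' ≠ 0 → T i * T i' = T i' * T i)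
    (v : Fin r → Fin k → ℤ) (hv : LinearIndependent ℤ v)
    (ha : ∀ α i j, pw T ((A i).mulVec (v α)) = 1 ∨ pw T ((A j).mulVec (v α)) = 1 ∨
      pw T ((A i).mulVec (v α)) = pw T ((A j).mulVec (v α)))
    (hb : ∀ α i j m, Commute (pw T ((A i).mulVec (v α))) (pw T ((A j).mulVec m)))
    (hfin : ∀ i j, (∃ m, pw T ((A i).mulVec m) ≠ pw T ((A j).mulVec m)) →
      (AddSubgroup.closure (Set.range v ∪ {m | pw T ((A i).mulVec m) = 1} ∪
        {m | pw T ((A j).mulVec m) = 1})).FiniteIndex)
    (F : Fin n → X → ℝ) (hFm : ∀ j, Measurable (F j)) (hF1 : ∀ j x, |F j x| ≤ 1) :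
    ∀ᵐ x ∂μ, Cvg fun m : Fin k → ℕ => ∏ j, F j (pw T ((A j).mulVec (toZ m)) x) := by
  classical
  -- distinct homomorphisms
  set cl : Fin n → ((Fin k → ℤ) → Equiv.Perm X) := fun j m => pw T ((A j).mulVec m) with hcl
  let J : Type := {h // h ∈ Set.range cl}
  have hJfin : Fintype J := Fintype.ofFinite _
  have hJdec : DecidableEq J := Classical.decEq _
  set rep : J → Fin n := fun q => q.2.choose with hrep
  have hrepq : ∀ q : J, cl (rep q) = (q : (Fin k → ℤ) → Equiv.Perm X) := fun q => q.2.choose_spec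
  set pr : Fin n → J := fun j => ⟨cl j, j, rfl⟩ with hpr
  have hreppr : ∀ j m, pw T ((A (rep (pr j))).mulVec m) = pw T ((A j).mulVec m) := by
    intro j m
    exact congrFun (hrepq (pr j)) m
  -- common transformations
  set Rr : Fin r → Equiv.Perm X := fun α =>
    if h : ∃ j, pw T ((A j).mulVec (v α)) ≠ 1 then pw T ((A h.choose).mulVec (v α)) else 1 with hRr
  have hR1 : ∀ α j, pw T ((A j).mulVec (v α)) ≠ 1 → Rr α = pw T ((A j).mulVec (v α)) := by
    intro α j hj
    have h : ∃ j, pw T ((A j).mulVec (v α)) ≠ 1 := ⟨j, hj⟩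
    simp only [hRr]
    rw [dif_pos h]
    rcases ha α h.choose j with h1 | h1 | h1
    · exact absurd h1 h.choose_spec
    · exact absurd h1 hj
    · exact h1
  have hR2 : ∀ α j m, Commute (Rr α) (pw T ((A j).mulVec m)) := by
    intro α j m
    by_cases h : ∃ j, pw T ((A j).mulVec (v α)) ≠ 1
    · obtain ⟨j', hj'⟩ := h
      rw [hR1 α j' hj']
      exact hb _ _ _ _
    · simp only [hRr]
      rw [dif_neg h]
      exact Commute.one_left _
  have hR3 : ∀ α β, Rr α * Rr β = Rr β * Rr α := by
    intro α β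
    by_cases h : ∃ j, pw T ((A j).mulVec (v β)) ≠ 1
    · obtain ⟨j', hj'⟩ := h
      rw [hR1 β j' hj']
      exact hR2 _ _ _
    · have : Rr β = 1 := by
        simp only [hRr]
        rw [dif_neg h]
      rw [this, one_mul, mul_one]
  have hR4 : ∀ α, Measurable (Rr α) ∧ Measurable (Rr α).symm ∧ MeasurePreserving (Rr α) μ μ := by
    intro α
    have key : ∀ e : Fin d → ℤ, Measurable (pw T e) ∧ Measurable (pw T e).symm ∧
        MeasurePreserving (pw T e) μ μ := by
      intro e
      refine ⟨(mp_pw T hT e).measurable, ?_, mp_pw T hT e⟩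
      -- the inverse of an ordered product of powers is measurable
      have hinv : ∀ {d : ℕ} (T : Fin d → Equiv.Perm X)
          (_ : ∀ i, Measurable (T i) ∧ Measurable (T i).symm ∧ MeasurePreserving (T i) μ μ)
          (e : Fin d → ℤ), Measurable ((pw T e)⁻¹ : Equiv.Perm X) := by
        intro d T hT e
        induction d with
        | zero =>
          unfold pw
          simp only [List.ofFn_zero, List.prod_nil, inv_one]
          exact measurable_id
        | succ d ih =>
          have h1 := ih (fun i => T i.succ) (fun i => hT _) (fun i => e i.succ)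
          have e2 : pw T e = T 0 ^ e 0 * pw (fun i => T i.succ) (fun i => e i.succ) := by
            unfold pw
            rw [List.ofFn_succ, List.prod_cons]
          rw [e2, mul_inv_rev]
          have h2 : Measurable ((T 0 ^ e 0)⁻¹ : Equiv.Perm X) := by
            rw [← zpow_neg]
            exact (mp_zpow (hT 0).1 (hT 0).2.1 (hT 0).2.2 (-(e 0))).measurable
          exact h1.comp h2
      exact hinv T hT e
    by_cases h : ∃ j, pw T ((A j).mulVec (v α)) ≠ 1
    · obtain ⟨j', hj'⟩ := h
      rw [hR1 α j' hj']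
      exact key _
    · have : Rr α = 1 := by
        simp only [hRr]
        rw [dif_neg h]
      rw [this]
      exact ⟨measurable_id, measurable_id, MeasurePreserving.id μ⟩
  -- the data
  set D : Dat J (Fin k) r μ :=
    { aS := fun q => act1 T hT (A (rep q)) (hA (rep q))
      aR := permAct Rr hR4 hR3
      comm := by
        intro q m γ x
        show pw T ((A (rep q)).mulVec m) (pw Rr γ x) = pw Rr γ (pw T ((A (rep q)).mulVec m) x)
        have hc : Commute (pw T ((A (rep q)).mulVec m)) (pw Rr γ) := by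
          unfold pw
          refine Commute.list_prod_right _ _ fun y hy => ?_
          rw [List.mem_ofFn] at hy
          obtain ⟨α, rfl⟩ := hy
          exact ((hR2 α (rep q) m).symm).zpow_right _
        exact Equiv.congr_fun hc.eq x
      v := lin v
      E := fun q => Finset.univ.filter fun α => pw T ((A (rep q)).mulVec (v α)) = 1
      hv := by
        intro q γ x
        show pw T ((A (rep q)).mulVec (lin v γ)) x = pw Rr (cp _ γ) x
        rw [hom1_lin T (hA (rep q))]
        have e : (fun α => pw T ((A (rep q)).mulVec (v α)) ^ γ α) = fun α =>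
            Rr α ^ (cp (Finset.univ.filter fun α => pw T ((A (rep q)).mulVec (v α)) = 1) γ α) := by
          funext α
          rw [cp_apply]
          by_cases h : pw T ((A (rep q)).mulVec (v α)) = 1
          · rw [h, one_zpow, if_pos (by simp [h]), zpow_zero]
          · rw [hR1 α (rep q) h, if_neg (by simp [h])]
        rw [e]
        rfl } with hD
  obtain ⟨N₁, hN₁, ρ, hρ⟩ := exists_rho v hv
  have hKmem : ∀ (q : J) (m : Fin k → ℤ), m ∈ D.K q ↔ pw T ((A (rep q)).mulVec m) = 1 := by
    intro q m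
    constructor
    · intro h
      ext x
      exact h x
    · intro h x
      show pw T ((A (rep q)).mulVec m) x = x
      rw [h]; rfl
  obtain ⟨N, hN, ⟨P⟩⟩ := Dat.exists_pos (D := D) hN₁ ρ hρ (by
    intro q q' hqq
    have hne : ∃ m, pw T ((A (rep q)).mulVec m) ≠ pw T ((A (rep q')).mulVec m) := by
      by_contra hcon
      push Not at hcon
      apply hqq
      apply Subtype.ext
      rw [← hrepq q, ← hrepq q']
      funext m
      exact hcon m
    have := hfin (rep q) (rep q') hne
    refine AddSubgroup.finiteIndex_of_le (H := AddSubgroup.closure (Set.range v ∪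
      {m | pw T ((A (rep q)).mulVec m) = 1} ∪ {m | pw T ((A (rep q')).mulVec m) = 1})) ?_
    rw [AddSubgroup.closure_le]
    rintro m ((⟨α, rfl⟩ | hm) | hm)
    · refine AddSubgroup.mem_sup_left (AddSubgroup.mem_sup_left ⟨Pi.single α 1, ?_⟩)
      show lin v (Pi.single α 1) = v α
      rw [lin_apply, Finset.sum_eq_single α]
      · simp
      · intro β _ hβ
        simp [hβ]
      · simp
    · exact AddSubgroup.mem_sup_left (AddSubgroup.mem_sup_right ((hKmem q m).2 hm))
    · exact AddSubgroup.mem_sup_right ((hKmem q' m).2 hm))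
  have hmain := Dat.uni_real hN P (fun q x => ∏ j ∈ Finset.univ.filter (fun j => pr j = q), F j x)
    (fun q => Finset.measurable_fun_prod _ fun j _ => hFm j)
    (fun q x => abs_prod_le_one _ _ fun j => hF1 j x)
  filter_upwards [hmain] with x hx
  refine hx.congr fun m => ?_
  rw [← Finset.prod_fiberwise Finset.univ pr]
  refine Finset.prod_congr rfl fun q _ => Finset.prod_congr rfl fun j hj => ?_
  have hj' : pr j = q := (Finset.mem_filter.1 hj).2
  rw [← hj']
  show F j (pw T ((A (rep (pr j))).mulVec (toZ m)) x) = _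
  rw [hreppr]

/-- Theorem H3. -/
theorem thmH3 (d k n r : ℕ) (T : Fin d → Equiv.Perm X)
    (hT : ∀ i, Measurable (T i) ∧ Measurable (T i).symm ∧ MeasurePreserving (T i) μ μ)
    (A : Fin n → Matrix (Fin d) (Fin k) ℤ) (c : Fin n → Fin d → ℤ)
    (hA : ∀ j i i', (A j i ≠ 0 ∨ c j i ≠ 0) → (A j i' ≠ 0 ∨ c j i' ≠ 0) → T i * T i' = T i' * T i)
    (v : Fin r → Fin k → ℤ) (hv : LinearIndependent ℤ v)
    (ha : ∀ α i j, pw T ((A i).mulVec (v α)) = 1 ∨ pw T ((A j).mulVec (v α)) = 1 ∨
      pw T ((A i).mulVec (v α)) = pw T ((A j).mulVec (v α)))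
    (hb : ∀ α i j m, Commute (pw T ((A i).mulVec (v α))) (pw T ((A j).mulVec m)))
    (hfin : ∀ i j, (∃ m, pw T ((A i).mulVec m) ≠ pw T ((A j).mulVec m)) →
      (AddSubgroup.closure (Set.range v ∪ {m | pw T ((A i).mulVec m) = 1} ∪
        {m | pw T ((A j).mulVec m) = 1})).FiniteIndex)
    (f : Fin n → X → ℂ) (hf : ∀ j, MemLp (f j) ⊤ μ) :
    ∀ᵐ x ∂μ, ∃ L : ℂ, Tendsto (fun M : Fin k → ℕ => (∏ l, (M l : ℂ))⁻¹ *
      ∑ m ∈ Fintype.piFinset (fun l => Finset.Icc 1 (M l)), ∏ j, f j
        (pw T (fun i => (A j).mulVec (fun l => (m l : ℤ)) i + c j i) x))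
      atTop (𝓝 L) := by
  set c' : Fin n → Fin d → ℤ := fun j => (A j).mulVec 1 + c j with hc'
  have hc1 : ∀ j i, c' j i ≠ 0 → (A j i ≠ 0 ∨ c j i ≠ 0) := by
    intro j i h
    by_contra hcon
    push Not at hcon
    apply h
    simp only [hc', Pi.add_apply]
    rw [hcon.2, add_zero]
    simp [Matrix.mulVec, hcon.1]
  have h1 := lift_complex (μ := μ) (κ := Fin k)
    (fun j m => pw T ((A j).mulVec (toZ m) + c' j)) (fun j m => mp_pw T hT _) ?_ f hf
  · filter_upwards [h1] with x hx
    obtain ⟨L, hL⟩ := hx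
    refine ⟨L, hL.congr fun M => ?_⟩
    rw [sum_Icc_eq]
    congr 1
    refine Finset.sum_congr rfl fun m _ => Finset.prod_congr rfl fun j _ => ?_
    have e : ((A j).mulVec (toZ m) + c' j)
        = fun i => (A j).mulVec (fun l => (((m + 1) l : ℕ) : ℤ)) i + c j i := by
      funext i
      have e2 : (fun l => (((m + 1) l : ℕ) : ℤ)) = toZ m + 1 := by
        funext l
        simp [toZ]
      rw [e2, Matrix.mulVec_add]
      simp only [hc', Pi.add_apply]
      ring
    rw [e]
  · intro F hFm hF1
    have h2 := thmH3_real d k n r T hT A (fun j i i' hi hi' => hA j i i' (Or.inl hi) (Or.inl hi'))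
      v hv ha hb hfin (fun j x => F j (pw T (c' j) x))
      (fun j => (hFm j).comp (mp_pw T hT _).measurable) (fun j x => hF1 j _)
    filter_upwards [h2] with x hx
    refine hx.congr fun m => Finset.prod_congr rfl fun j _ => ?_
    rw [add_comm ((A j).mulVec (toZ m)) (c' j), pw_add' T (c' j)]
    · rfl
    · intro i i' hi hi'
      exact hA j i i' (hc1 j i hi) (Or.inl (row_ne hi'))

end Pool.Agent.Lib.Pf720ae
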