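import Pool.Agent.Lib.Pf720ae.DatG2
import Pool.Agent.Lib.Pf720ae.H3

/-!
The equalizer criterion in terms of ordered products of powers of given transformations.
-/

set_option autoImplicit false
set_option linter.unusedSectionVars false

open MeasureTheory Filter Topology ProbabilityTheory Finset
open scoped ENNReal NNReal

namespace Pool.Agent.Lib.Pf720ae

variable {X : Type} [MeasurableSpace X] {μ : Measure X} [IsProbabilityMeasure μ]

section group

variable {κ : Type} [Fintype κ] {J : Type} [Fintype J] [DecidableEq J]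

/-- the elements whose image is central -/
def cen (H : J → Multiplicative (κ → ℤ) →* Equiv.Perm X) (j : J) : AddSubgroup (κ → ℤ) where
  carrier := {m | ∀ l p, Commute (H j (Multiplicative.ofAdd m)) (H l p)}
  zero_mem' := fun l p => by
    rw [ofAdd_zero, map_one]
    exact Commute.one_left _
  add_mem' := by
    intro a b ha hb l p
    rw [ofAdd_add, map_mul]
    exact (ha l p).mul_left (hb l p)
  neg_mem' := by
    intro a ha l p
    rw [ofAdd_neg, map_inv]
    exact (ha l p).inv_left

/-- the restricted homomorphisms -/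
def phi (H : J → Multiplicative (κ → ℤ) →* Equiv.Perm X) (j : J) :
    Multiplicative (cen H j) →* Equiv.Perm X :=
  (H j).comp (AddMonoidHom.toMultiplicative (cen H j).subtype)

lemma phi_apply (H : J → Multiplicative (κ → ℤ) →* Equiv.Perm X) (j : J) (c : cen H j) :
    phi H j (Multiplicative.ofAdd c) = H j (Multiplicative.ofAdd (c : κ → ℤ)) := rfl

lemma phi_comm (H : J → Multiplicative (κ → ℤ) →* Equiv.Perm X) :
    Pairwise fun i j => ∀ x y, Commute (phi H i x) (phi H j y) := by
  intro i j _ x y
  exact x.toAdd.2 j _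

/-- the joint central action as a homomorphism -/
def psi (H : J → Multiplicative (κ → ℤ) →* Equiv.Perm X) :
    ((j : J) → Multiplicative (cen H j)) →* Equiv.Perm X :=
  MonoidHom.noncommPiCoprod (phi H) (phi_comm H)

lemma psi_single (H : J → Multiplicative (κ → ℤ) →* Equiv.Perm X) (j : J)
    (c : Multiplicative (cen H j)) : psi H (Pi.mulSingle j c) = phi H j c := by
  unfold psi
  exact MonoidHom.noncommPiCoprod_mulSingle _ _ _

/-- reinterpretation -/
def toM (H : J → Multiplicative (κ → ℤ) →* Equiv.Perm X) (g : (j : J) → cen H j) :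
    (j : J) → Multiplicative (cen H j) := fun j => Multiplicative.ofAdd (g j)

lemma toM_zero (H : J → Multiplicative (κ → ℤ) →* Equiv.Perm X) : toM H 0 = 1 := rfl

lemma toM_add (H : J → Multiplicative (κ → ℤ) →* Equiv.Perm X) (a b : (j : J) → cen H j) :
    toM H (a + b) = toM H a * toM H b := rfl

lemma toM_single (H : J → Multiplicative (κ → ℤ) →* Equiv.Perm X) (j : J) (c : cen H j) :
    toM H (Pi.single j c) = Pi.mulSingle j (Multiplicative.ofAdd c) := by
  funext l
  unfold toM
  by_cases h : l = j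
  · subst h
    rw [Pi.mulSingle_eq_same, Pi.single_eq_same]
  · rw [Pi.mulSingle_eq_of_ne h, Pi.single_eq_of_ne h]
    rfl

/-- the measure preserving permutations -/
def mps (μ : Measure X) : Submonoid (Equiv.Perm X) where
  carrier := {σ | MeasurePreserving σ μ μ}
  one_mem' := MeasurePreserving.id μ
  mul_mem' := by
    intro a b ha hb
    have ha' : MeasurePreserving a μ μ := ha
    have hb' : MeasurePreserving b μ μ := hb
    exact ha'.comp hb'

lemma psi_mp (H : J → Multiplicative (κ → ℤ) →* Equiv.Perm X)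
    (hH : ∀ j p, MeasurePreserving (H j p) μ μ) (g : (j : J) → Multiplicative (cen H j)) :
    MeasurePreserving (psi H g) μ μ := by
  have h : psi H g ∈ mps μ :=
    Submonoid.noncommProd_mem _ _ _ (fun _ _ _ _ h => phi_comm H h _ _) fun j _ => hH j _
  exact h

lemma psi_comm (H : J → Multiplicative (κ → ℤ) →* Equiv.Perm X) (j : J)
    (m : Multiplicative (κ → ℤ)) (g : (j : J) → Multiplicative (cen H j)) :
    Commute (H j m) (psi H g) :=
  Finset.noncommProd_commute _ _ (fun _ _ _ _ h => phi_comm H h _ _) _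
    fun l _ => ((g l).toAdd.2 j m).symm

/-- the embeddings -/
def ee (H : J → Multiplicative (κ → ℤ) →* Equiv.Perm X) (j : J) :
    cen H j →+ ((j : J) → cen H j) := AddMonoidHom.single (fun j => cen H j) j

lemma psi_ee (H : J → Multiplicative (κ → ℤ) →* Equiv.Perm X) (j : J) (c : cen H j) :
    psi H (toM H (ee H j c)) = H j (Multiplicative.ofAdd (c : κ → ℤ)) := by
  have e : ee H j c = Pi.single j c := rfl
  rw [e, toM_single, psi_single, phi_apply]

/-- the data attached to homomorphisms -/
def datH (H : J → Multiplicative (κ → ℤ) →* Equiv.Perm X)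
    (hH : ∀ j p, MeasurePreserving (H j p) μ μ) : DatG J κ μ ((j : J) → cen H j) where
  aS j :=
    { S := fun m => H j (Multiplicative.ofAdd m)
      zero := fun x => by rw [ofAdd_zero, map_one]; rfl
      add := fun a b x => by rw [ofAdd_add, map_mul]; rfl
      mp := fun m => hH j _ }
  aG :=
    { S := fun g => psi H (toM H g)
      zero := fun x => by
        rw [toM_zero, map_one]
        rfl
      add := fun a b x => by
        rw [toM_add, map_mul]
        rfl
      mp := fun g => psi_mp H hH _ }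
  comm j m γ x := Equiv.congr_fun (psi_comm H j (Multiplicative.ofAdd m) (toM H γ)).eq x
  C := cen H
  e := ee H
  he j c x := by
    have e := psi_ee H j c
    show psi H (toM H (ee H j c)) x = H j (Multiplicative.ofAdd (c : κ → ℤ)) x
    rw [e]

end group

/-- The criterion for finitely many homomorphisms, bounded real functions. -/
theorem hom_conv {κ : Type} [Fintype κ] [DecidableEq κ] {J : Type} [Fintype J] [DecidableEq J]
    (H : J → Multiplicative (κ → ℤ) →* Equiv.Perm X)
    (hH : ∀ j p, MeasurePreserving (H j p) μ μ)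
    (hfin : ∀ I : Finset J, 2 ≤ I.card →
      (AddSubgroup.closure ({m | (∀ i ∈ I, ∀ j ∈ I, H i (Multiplicative.ofAdd m)
          = H j (Multiplicative.ofAdd m)) ∧
          ∀ i ∈ I, ∀ l p, Commute (H i (Multiplicative.ofAdd m)) (H l p)} ∪
        {m | ∃ i ∈ I, H i (Multiplicative.ofAdd m) = 1})).FiniteIndex)
    (F : J → X → ℝ) (hFm : ∀ j, Measurable (F j)) (hF1 : ∀ j x, |F j x| ≤ 1) :
    ∀ᵐ x ∂μ, Cvg fun m : κ → ℕ => ∏ j, F j (H j (Multiplicative.ofAdd (toZ m)) x) := by
  set D := datH H hH with hD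
  rcases Nat.lt_or_ge (Fintype.card J) 2 with hJ | hJ
  · rcases isEmpty_or_nonempty J with hemp | ⟨⟨j₀⟩⟩
    · exact Eventually.of_forall fun x => (Cvg.const 1).congr fun m => by simp
    · have hsub : ∀ j : J, j = j₀ := by
        intro j
        have : Subsingleton J := Fintype.card_le_one_iff_subsingleton.1 (by omega)
        exact Subsingleton.elim _ _
      have h1 := dz (D.aS j₀) (hFm j₀) (hF1 j₀)
      filter_upwards [h1] with x hx
      refine hx.congr fun m => ?_
      have e : (Finset.univ : Finset J) = {j₀} := by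
        ext j
        simp [hsub j]
      rw [e, Finset.prod_singleton]
      rfl
  · have hG : Module.Finite ℤ ((j : J) → cen H j) := inferInstance
    obtain ⟨P⟩ := DatG.exists_ch D (by
      intro I hI
      have := hfin I hI
      refine AddSubgroup.finiteIndex_of_le (H := AddSubgroup.closure
        ({m | (∀ i ∈ I, ∀ j ∈ I, H i (Multiplicative.ofAdd m)
          = H j (Multiplicative.ofAdd m)) ∧
          ∀ i ∈ I, ∀ l p, Commute (H i (Multiplicative.ofAdd m)) (H l p)} ∪
        {m | ∃ i ∈ I, H i (Multiplicative.ofAdd m) = 1})) ?_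
      rw [AddSubgroup.closure_le]
      rintro m (hm | ⟨i, hi, hm⟩)
      · refine AddSubgroup.mem_sup_left ⟨fun i hi l p => hm.2 i hi l p, fun i hi j hj x => ?_⟩
        exact Equiv.congr_fun (hm.1 i hi j hj) x
      · refine AddSubgroup.mem_sup_right ?_
        have h1 : m ∈ D.K i := by
          intro x
          show H i (Multiplicative.ofAdd m) x = x
          rw [hm]
          rfl
        exact (Finset.le_sup (f := D.K) hi) h1)
    exact DatG.real_conv P hJ F hFm hF1

/-- The criterion, bounded real functions. -/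
theorem thmH8_real (d k n : ℕ) (T : Fin d → Equiv.Perm X)
    (hT : ∀ i, Measurable (T i) ∧ Measurable (T i).symm ∧ MeasurePreserving (T i) μ μ)
    (A : Fin n → Matrix (Fin d) (Fin k) ℤ)
    (hA : ∀ j i i', A j i ≠ 0 → A j i' ≠ 0 → T i * T i' = T i' * T i)
    (hfin : ∀ I : Finset (Fin n), 2 ≤ I.card →
      (∀ i ∈ I, ∀ j ∈ I, i ≠ j → ∃ m, pw T ((A i).mulVec m) ≠ pw T ((A j).mulVec m)) →
      (AddSubgroup.closure ({m | (∀ i ∈ I, ∀ j ∈ I, pw T ((A i).mulVec m)
          = pw T ((A j).mulVec m)) ∧
          ∀ i ∈ I, ∀ l p, Commute (pw T ((A i).mulVec m)) (pw T ((A l).mulVec p))} ∪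
        {m | ∃ i ∈ I, pw T ((A i).mulVec m) = 1})).FiniteIndex)
    (F : Fin n → X → ℝ) (hFm : ∀ j, Measurable (F j)) (hF1 : ∀ j x, |F j x| ≤ 1) :
    ∀ᵐ x ∂μ, Cvg fun m : Fin k → ℕ => ∏ j, F j (pw T ((A j).mulVec (toZ m)) x) := by
  classical
  -- distinct homomorphisms
  set cl : Fin n → ((Fin k → ℤ) → Equiv.Perm X) := fun j m => pw T ((A j).mulVec m) with hcl
  let J : Type := {h // h ∈ Set.range cl}
  have hJfin : Fintype J := Fintype.ofFinite _
  have hJdec : DecidableEq J := Classical.decEq _
  set rep : J → Fin n := fun q => q.2.choose with hrep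
  have hrepq : ∀ q : J, cl (rep q) = (q : (Fin k → ℤ) → Equiv.Perm X) := fun q => q.2.choose_spec
  have hrepinj : Function.Injective rep := by
    intro q q' h
    apply Subtype.ext
    rw [← hrepq q, ← hrepq q', h]
  set pr : Fin n → J := fun j => ⟨cl j, j, rfl⟩ with hpr
  have hreppr : ∀ j m, pw T ((A (rep (pr j))).mulVec m) = pw T ((A j).mulVec m) := by
    intro j m
    exact congrFun (hrepq (pr j)) m
  have hmain := hom_conv (μ := μ) (fun q : J => hom1 T (A (rep q)) (hA (rep q)))
    (fun q p => mp_pw T hT _) (by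
      intro I hI
      have h1 := hfin (I.image rep) (by rw [Finset.card_image_of_injective _ hrepinj]; exact hI) (by
        intro i hi j hj hij
        obtain ⟨q, _, rfl⟩ := Finset.mem_image.1 hi
        obtain ⟨q', _, rfl⟩ := Finset.mem_image.1 hj
        by_contra hcon
        push Not at hcon
        apply hij
        congr 1
        apply Subtype.ext
        rw [← hrepq q, ← hrepq q']
        funext m
        exact hcon m)
      have e : ({m | (∀ i ∈ I.image rep, ∀ j ∈ I.image rep, pw T ((A i).mulVec m)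
          = pw T ((A j).mulVec m)) ∧
          ∀ i ∈ I.image rep, ∀ l p, Commute (pw T ((A i).mulVec m)) (pw T ((A l).mulVec p))} ∪
        {m | ∃ i ∈ I.image rep, pw T ((A i).mulVec m) = 1})
        = ({m | (∀ i ∈ I, ∀ j ∈ I, hom1 T (A (rep i)) (hA (rep i)) (Multiplicative.ofAdd m)
          = hom1 T (A (rep j)) (hA (rep j)) (Multiplicative.ofAdd m)) ∧
          ∀ i ∈ I, ∀ (l : J) p, Commute
            (hom1 T (A (rep i)) (hA (rep i)) (Multiplicative.ofAdd m))
            (hom1 T (A (rep l)) (hA (rep l)) p)} ∪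
        {m | ∃ i ∈ I, hom1 T (A (rep i)) (hA (rep i)) (Multiplicative.ofAdd m) = 1}) := by
        ext m
        constructor
        · rintro (⟨h1, h2⟩ | ⟨i, hi, h1⟩)
          · refine Or.inl ⟨fun i hi j hj => ?_, fun i hi l p => ?_⟩
            · exact h1 _ (Finset.mem_image_of_mem _ hi) _ (Finset.mem_image_of_mem _ hj)
            · exact h2 _ (Finset.mem_image_of_mem _ hi) (rep l) p.toAdd
          · obtain ⟨q, hq, rfl⟩ := Finset.mem_image.1 hi
            exact Or.inr ⟨q, hq, h1⟩
        · rintro (⟨h1, h2⟩ | ⟨q, hq, h1⟩)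
          · refine Or.inl ⟨fun i hi j hj => ?_, fun i hi l p => ?_⟩
            · obtain ⟨q, hq, rfl⟩ := Finset.mem_image.1 hi
              obtain ⟨q', hq', rfl⟩ := Finset.mem_image.1 hj
              exact h1 q hq q' hq'
            · obtain ⟨q, hq, rfl⟩ := Finset.mem_image.1 hi
              have h3 := h2 q hq (pr l) (Multiplicative.ofAdd p)
              rw [← hreppr l]
              exact h3
          · exact Or.inr ⟨rep q, Finset.mem_image_of_mem _ hq, h1⟩
      rw [e] at h1
      exact h1)
    (fun q x => ∏ j ∈ Finset.univ.filter (fun j => pr j = q), F j x)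
    (fun q => Finset.measurable_fun_prod _ fun j _ => hFm j)
    (fun q x => abs_prod_le_one _ _ fun j => hF1 j x)
  filter_upwards [hmain] with x hx
  refine hx.congr fun m => ?_
  rw [← Finset.prod_fiberwise Finset.univ pr]
  refine Finset.prod_congr rfl fun q _ => Finset.prod_congr rfl fun j hj => ?_
  have hj' : pr j = q := (Finset.mem_filter.1 hj).2
  rw [← hj']
  show F j (pw T ((A (rep (pr j))).mulVec (toZ m)) x) = _
  rw [hreppr]

/-- Theorem H8. -/
theorem thmH8 (d k n : ℕ) (T : Fin d → Equiv.Perm X)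
    (hT : ∀ i, Measurable (T i) ∧ Measurable (T i).symm ∧ MeasurePreserving (T i) μ μ)
    (A : Fin n → Matrix (Fin d) (Fin k) ℤ) (c : Fin n → Fin d → ℤ)
    (hA : ∀ j i i', (A j i ≠ 0 ∨ c j i ≠ 0) → (A j i' ≠ 0 ∨ c j i' ≠ 0) → T i * T i' = T i' * T i)
    (hfin : ∀ I : Finset (Fin n), 2 ≤ I.card →
      (∀ i ∈ I, ∀ j ∈ I, i ≠ j → ∃ m, pw T ((A i).mulVec m) ≠ pw T ((A j).mulVec m)) →
      (AddSubgroup.closure ({m | (∀ i ∈ I, ∀ j ∈ I, pw T ((A i).mulVec m)
          = pw T ((A j).mulVec m)) ∧
          ∀ i ∈ I, ∀ l p, Commute (pw T ((A i).mulVec m)) (pw T ((A l).mulVec p))} ∪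
        {m | ∃ i ∈ I, pw T ((A i).mulVec m) = 1})).FiniteIndex)
    (f : Fin n → X → ℂ) (hf : ∀ j, MemLp (f j) ⊤ μ) :
    ∀ᵐ x ∂μ, ∃ L : ℂ, Tendsto (fun M : Fin k → ℕ => (∏ l, (M l : ℂ))⁻¹ *
      ∑ m ∈ Fintype.piFinset (fun l => Finset.Icc 1 (M l)), ∏ j, f j
        (pw T (fun i => (A j).mulVec (fun l => (m l : ℤ)) i + c j i) x))
      atTop (𝓝 L) := by
  set c' : Fin n → Fin d → ℤ := fun j => (A j).mulVec 1 + c j with hc'
  have hc1 : ∀ j i, c' j i ≠ 0 → (A j i ≠ 0 ∨ c j i ≠ 0) := by
    intro j i h
    by_contra hcon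
    push Not at hcon
    apply h
    simp only [hc', Pi.add_apply]
    rw [hcon.2, add_zero]
    simp [Matrix.mulVec, hcon.1]
  have h1 := lift_complex (μ := μ) (κ := Fin k)
    (fun j m => pw T ((A j).mulVec (toZ m) + c' j)) (fun j m => mp_pw T hT _) ?_ f hf
  · filter_upwards [h1] with x hx
    obtain ⟨L, hL⟩ := hx
    refine ⟨L, hL.congr fun M => ?_⟩
    rw [sum_Icc_eq]
    congr 1
    refine Finset.sum_congr rfl fun m _ => Finset.prod_congr rfl fun j _ => ?_
    have e : ((A j).mulVec (toZ m) + c' j)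
        = fun i => (A j).mulVec (fun l => (((m + 1) l : ℕ) : ℤ)) i + c j i := by
      funext i
      have e2 : (fun l => (((m + 1) l : ℕ) : ℤ)) = toZ m + 1 := by
        funext l
        simp [toZ]
      rw [e2, Matrix.mulVec_add]
      simp only [hc', Pi.add_apply]
      ring
    rw [e]
  · intro F hFm hF1
    have h2 := thmH8_real d k n T hT A (fun j i i' hi hi' => hA j i i' (Or.inl hi) (Or.inl hi'))
      hfin (fun j x => F j (pw T (c' j) x))
      (fun j => (hFm j).comp (mp_pw T hT _).measurable) (fun j x => hF1 j _)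
    filter_upwards [h2] with x hx
    refine hx.congr fun m => Finset.prod_congr rfl fun j _ => ?_
    rw [add_comm ((A j).mulVec (toZ m)) (c' j), pw_add' T (c' j)]
    · rfl
    · intro i i' hi hi'
      exact hA j i i' (hc1 j i hi) (Or.inl (row_ne hi'))

end Pool.Agent.Lib.Pf720ae
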