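import Pool.Agent.Lib.Pf720ae.Limit
import Pool.Agent.Lib.Pf720ae.Principle

/-!
The limiting kernel of a family of choices along an action.
-/

set_option autoImplicit false
set_option linter.unusedSectionVars false

open MeasureTheory Filter Topology ProbabilityTheory Finset
open scoped ENNReal NNReal BoundedContinuousFunction

namespace Pool.Agent.Lib.Pf720ae

/-- measure preserving action of an additive commutative group -/
structure MAct (Γ X : Type) [AddCommGroup Γ] [MeasurableSpace X] (μ : Measure X) where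
  /-- the maps -/
  S : Γ → X → X
  zero : ∀ x, S 0 x = x
  add : ∀ a b x, S (a + b) x = S a (S b x)
  mp : ∀ a, MeasurePreserving (S a) μ μ

lemma MAct.integral_comp {Γ X : Type} [AddCommGroup Γ] [MeasurableSpace X] {μ : Measure X}
    (act : MAct Γ X μ) (γ : Γ) {f : X → ℝ} (hf : Measurable f) :
    ∫ x, f (act.S γ x) ∂μ = ∫ x, f x ∂μ := by
  conv_rhs => rw [← (act.mp γ).map_eq]
  rw [integral_map (act.mp γ).measurable.aemeasurable hf.aestronglyMeasurable]

/-- the compact interval -/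
abbrev Ic : Type := Set.Icc (-1 : ℝ) 1

/-- the space of records -/
abbrev Om (J Λ Γ : Type) : Type := J → Λ → Γ → Ic

section

variable {κ : Type} [Fintype κ] [DecidableEq κ]

/-- cast -/
def toZ (h : κ → ℕ) : κ → ℤ := fun l => (h l : ℤ)

lemma toZ_add (h h' : κ → ℕ) : toZ (h + h') = toZ h + toZ h' := by
  funext l; simp [toZ]

lemma toZ_zero : toZ (0 : κ → ℕ) = 0 := by
  funext l; simp [toZ]

lemma exists_toZ_sub (r : κ → ℤ) : ∃ h₁ h₂ : κ → ℕ, r = toZ h₁ - toZ h₂ := by
  refine ⟨fun l => (r l).toNat, fun l => (-r l).toNat, ?_⟩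
  funext l
  simp only [toZ, Pi.sub_apply]
  omega

/-- integer shifts do not matter -/
lemma avg_shift_int (r : κ → ℤ) : ∃ C : ℝ, 0 ≤ C ∧ ∀ (N : ℕ), 0 < N → ∀ (M : κ → ℕ), (∀ l, N ≤ M l) →
    ∀ (Φ : (κ → ℤ) → ℝ) (R : ℝ), (∀ h, |Φ h| ≤ R) →
      |avg M (fun h => Φ (toZ h + r)) - avg M (fun h => Φ (toZ h))| ≤ C * R / N := by
  obtain ⟨h₁, h₂, rfl⟩ := exists_toZ_sub r
  refine ⟨∑ l, 2 * (h₁ l : ℝ) + ∑ l, 2 * (h₂ l : ℝ), by positivity, ?_⟩
  intro N hN M hM Φ R hR
  have hR0 : 0 ≤ R := (abs_nonneg _).trans (hR 0)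
  have hMpos : ∀ l, 0 < M l := fun l => lt_of_lt_of_le hN (hM l)
  set Ψ : (κ → ℕ) → ℝ := fun h => Φ (toZ h - toZ h₂) with hΨ
  have hΨR : ∀ m, |Ψ m| ≤ R := fun m => hR _
  have e1 : (fun h => Φ (toZ h + (toZ h₁ - toZ h₂))) = fun h => Ψ (h + h₁) := by
    funext h
    simp only [hΨ, toZ_add]
    congr 1; abel
  have e2 : (fun h => Φ (toZ h)) = fun h => Ψ (h + h₂) := by
    funext h
    simp only [hΨ, toZ_add]
    congr 1; abel
  rw [e1, e2]
  have b : ∀ g : κ → ℕ, ∑ l, 2 * R * (g l : ℝ) / (M l : ℝ) ≤ (∑ l, 2 * (g l : ℝ)) * R / N := by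
    intro g
    rw [Finset.sum_mul, Finset.sum_div]
    refine Finset.sum_le_sum fun l _ => ?_
    have h1 : (N : ℝ) ≤ M l := by exact_mod_cast hM l
    have h2 : (0 : ℝ) < N := by exact_mod_cast hN
    calc 2 * R * (g l : ℝ) / (M l : ℝ) ≤ 2 * R * (g l : ℝ) / N := by gcongr
      _ = 2 * (g l : ℝ) * R / N := by ring
  have s1 := (avg_shift M h₁ Ψ hΨR hMpos).trans (b h₁)
  have s2 := (avg_shift M h₂ Ψ hΨR hMpos).trans (b h₂)
  have e3 : (∑ l, 2 * (h₁ l : ℝ) + ∑ l, 2 * (h₂ l : ℝ)) * R / N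
      = (∑ l, 2 * (h₁ l : ℝ)) * R / N + (∑ l, 2 * (h₂ l : ℝ)) * R / N := by ring
  rw [e3]
  calc |avg M (fun h => Ψ (h + h₁)) - avg M (fun h => Ψ (h + h₂))|
      ≤ |avg M (fun h => Ψ (h + h₁)) - avg M Ψ| + |avg M Ψ - avg M (fun h => Ψ (h + h₂))| :=
        abs_sub_le _ _ _
    _ ≤ _ := by
        rw [abs_sub_comm (avg M Ψ)]
        exact add_le_add s1 s2

variable {J Λ Γ : Type} [AddCommGroup Γ] [AddCommGroup Λ]

/-- shift of the records in the second variable -/
def shP (A : J → (κ → ℤ) →+ Λ) (r : κ → ℤ) (β : Om J Λ Γ) : Om J Λ Γ :=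
  fun i g γ => β i (g + A i r) γ

/-- shift of the records in the third variable -/
def shG (γ₀ : Γ) (β : Om J Λ Γ) : Om J Λ Γ := fun i g γ => β i g (γ + γ₀)

lemma continuous_shP (A : J → (κ → ℤ) →+ Λ) (r : κ → ℤ) :
    Continuous (shP A r : Om J Λ Γ → Om J Λ Γ) := by
  unfold shP; fun_prop

lemma continuous_shG (γ₀ : Γ) : Continuous (shG γ₀ : Om J Λ Γ → Om J Λ Γ) := by
  unfold shG; fun_prop

/-- shift homeomorphism of the model space -/
def shY (γ₀ : Γ) : (Γ → EReal) ≃ₜ (Γ → EReal) where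
  toFun y := fun γ => y (γ + γ₀)
  invFun y := fun γ => y (γ - γ₀)
  left_inv y := by funext γ; simp
  right_inv y := by funext γ; simp
  continuous_toFun := by fun_prop
  continuous_invFun := by fun_prop

variable {X : Type} [MeasurableSpace X] {μ : Measure X}

/-- the model map -/
noncomputable def modl (act : MAct Γ X μ) (φ : X → ℝ) (x : X) : Γ → EReal :=
  fun γ => ((φ (act.S γ x) : ℝ) : EReal)

lemma measurable_modl (act : MAct Γ X μ) {φ : X → ℝ} (hφ : Measurable φ) :
    Measurable (modl act φ) :=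
  measurable_pi_iff.2 fun γ => measurable_coe_real_ereal.comp (hφ.comp (act.mp γ).measurable)

lemma modl_S (act : MAct Γ X μ) (φ : X → ℝ) (γ₀ : Γ) (x : X) :
    modl act φ (act.S γ₀ x) = shY γ₀ (modl act φ x) := by
  funext γ
  show ((φ (act.S γ (act.S γ₀ x)) : ℝ) : EReal) = ((φ (act.S (γ + γ₀) x) : ℝ) : EReal)
  rw [act.add]

/-- the record map attached to a choice `c` -/
def rec (act : MAct Γ X μ) (A₀ : (κ → ℤ) →+ Γ) (A : J → (κ → ℤ) →+ Λ)
    (c : X → J → Λ → Ic) (h : κ → ℤ) (x : X) : Om J Λ Γ :=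
  fun i g γ => c (act.S (γ - A₀ h) x) i (A i h + g)

lemma measurable_rec (act : MAct Γ X μ) (A₀ : (κ → ℤ) →+ Γ) (A : J → (κ → ℤ) →+ Λ)
    {c : X → J → Λ → Ic} (hc : ∀ i g, Measurable fun x => c x i g) (h : κ → ℤ) :
    Measurable (rec act A₀ A c h) := by
  refine measurable_pi_iff.2 fun i => measurable_pi_iff.2 fun g => measurable_pi_iff.2 fun γ => ?_
  exact (hc i _).comp (act.mp _).measurable

lemma rec_S_P (act : MAct Γ X μ) (A₀ : (κ → ℤ) →+ Γ) (A : J → (κ → ℤ) →+ Λ)
    (c : X → J → Λ → Ic) (h r : κ → ℤ) (x : X) :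
    rec act A₀ A c (h + r) (act.S (A₀ r) x) = shP A r (rec act A₀ A c h x) := by
  funext i g γ
  show c (act.S (γ - A₀ (h + r)) (act.S (A₀ r) x)) i (A i (h + r) + g)
    = c (act.S (γ - A₀ h) x) i (A i h + (g + A i r))
  have e1 : γ - A₀ (h + r) + A₀ r = γ - A₀ h := by rw [map_add]; abel
  have e2 : A i (h + r) + g = A i h + (g + A i r) := by rw [map_add]; abel
  rw [← act.add, e1, e2]

lemma rec_S_G (act : MAct Γ X μ) (A₀ : (κ → ℤ) →+ Γ) (A : J → (κ → ℤ) →+ Λ)
    (c : X → J → Λ → Ic) (h : κ → ℤ) (γ₀ : Γ) (x : X) :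
    rec act A₀ A c h (act.S γ₀ x) = shG γ₀ (rec act A₀ A c h x) := by
  funext i g γ
  show c (act.S (γ - A₀ h) (act.S γ₀ x)) i (A i h + g)
    = c (act.S (γ + γ₀ - A₀ h) x) i (A i h + g)
  have e1 : γ - A₀ h + γ₀ = γ + γ₀ - A₀ h := by abel
  rw [← act.add, e1]

/-- side `H + 1` -/
noncomputable def avgb (H : ℕ) (Φ : (κ → ℤ) → ℝ) : ℝ :=
  avg (fun _ : κ => H + 1) fun h => Φ (toZ h)

/-- the empirical joint law -/
noncomputable def jl (μ : Measure X) {Z : Type} [MeasurableSpace Z] (θ : (κ → ℤ) → X → Z)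
    (H : ℕ) : Measure Z :=
  (((box (fun _ : κ => H + 1)).card : ℝ≥0∞)⁻¹) • ∑ h ∈ box (fun _ : κ => H + 1), μ.map (θ (toZ h))

lemma card_pos (H : ℕ) : 0 < (box (fun _ : κ => H + 1)).card := by
  rw [card_box]
  exact Finset.prod_pos fun _ _ => Nat.succ_pos _

lemma jl_prob [IsProbabilityMeasure μ] {Z : Type} [MeasurableSpace Z] {θ : (κ → ℤ) → X → Z}
    (hθ : ∀ h, Measurable (θ h)) (H : ℕ) : IsProbabilityMeasure (jl μ θ H) := by
  constructor
  unfold jl
  rw [Measure.smul_apply, Measure.finsetSum_apply]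
  have : ∀ h ∈ box (fun _ : κ => H + 1), (μ.map (θ (toZ h))) Set.univ = 1 := by
    intro h _
    rw [Measure.map_apply (hθ _) MeasurableSet.univ]
    simp
  rw [Finset.sum_congr rfl this]
  simp only [Finset.sum_const, nsmul_eq_mul, mul_one, smul_eq_mul]
  exact ENNReal.inv_mul_cancel (by exact_mod_cast (card_pos H).ne') (by finiteness)

lemma integral_jl [IsProbabilityMeasure μ] {Z : Type} [MeasurableSpace Z]
    {θ : (κ → ℤ) → X → Z} (hθ : ∀ h, Measurable (θ h)) (H : ℕ) {ψ : Z → ℝ} (hψ : Measurable ψ)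
    (hint : ∀ h, Integrable (fun x => ψ (θ h x)) μ) :
    ∫ z, ψ z ∂(jl μ θ H) = avgb H fun h => ∫ x, ψ (θ h x) ∂μ := by
  unfold jl avgb avg
  rw [integral_smul_measure, integral_finsetSum_measure]
  · have h1 : (((box (fun _ : κ => H + 1)).card : ℝ≥0∞)⁻¹).toReal
        = (∏ _l : κ, ((H + 1 : ℕ) : ℝ))⁻¹ := by
      have h0 : ((H : ℝ≥0∞) + 1).toReal = (H : ℝ) + 1 := by
        rw [ENNReal.toReal_add (by finiteness) (by finiteness)]; simp
      rw [card_box, ENNReal.toReal_inv]
      simp [h0]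
    rw [h1, smul_eq_mul]
    congr 1
    refine Finset.sum_congr rfl fun h _ => ?_
    rw [integral_map (hθ _).aemeasurable hψ.aestronglyMeasurable]
  · intro h _
    rw [integrable_map_measure hψ.aestronglyMeasurable (hθ _).aemeasurable]
    exact hint _

lemma jl_fst [IsProbabilityMeasure μ] {Y Z : Type} [MeasurableSpace Y] [MeasurableSpace Z]
    {p : X → Y} (hp : Measurable p) {θ : (κ → ℤ) → X → Z}
    (hθ : ∀ h, Measurable (θ h)) (H : ℕ) :
    (jl μ (fun h x => (p x, θ h x)) H).fst = μ.map p := by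
  ext B hB
  unfold jl
  rw [Measure.fst_apply hB, Measure.smul_apply, Measure.finsetSum_apply]
  have : ∀ h ∈ box (fun _ : κ => H + 1),
      (μ.map (fun x => (p x, θ (toZ h) x))) (Prod.fst ⁻¹' B) = (μ.map p) B := by
    intro h _
    rw [Measure.map_apply (hp.prodMk (hθ _)) (measurable_fst hB), Measure.map_apply hp hB]
    rfl
  rw [Finset.sum_congr rfl this]
  simp only [Finset.sum_const, nsmul_eq_mul, smul_eq_mul]
  rw [← mul_assoc, ENNReal.inv_mul_cancel (by exact_mod_cast (card_pos H).ne') (by finiteness),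
    one_mul]

/-- The limiting kernel. -/
theorem core [Countable Γ] [Countable Λ] [Finite J] [IsProbabilityMeasure μ]
    (act : MAct Γ X μ) (A₀ : (κ → ℤ) →+ Γ) (A : J → (κ → ℤ) →+ Λ)
    {φ : X → ℝ} (hφm : Measurable φ) (hφ : Integrable φ μ)
    (c : ℕ → X → J → Λ → Ic) (hc : ∀ H i g, Measurable fun x => c H x i g)
    (𝒰 : Ultrafilter ℕ) (h𝒰 : (𝒰 : Filter ℕ) ≤ atTop) :
    ∃ K : Kernel X (Om J Λ Γ), IsMarkovKernel K ∧
      (∀ r, ∀ᵐ x ∂μ, K (act.S (A₀ r) x) = (K x).map (shP A r)) ∧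
      (∀ γ, ∀ᵐ x ∂μ, K (act.S γ x) = (K x).map (shG γ)) ∧
      (∀ a : C(Om J Λ Γ, ℝ), (∀ ω, |a ω| ≤ 1) →
        Tendsto (fun H => avgb H fun h => ∫ x, φ x * a (rec act A₀ A (c H) h x) ∂μ) 𝒰
          (𝓝 (∫ x, φ x * ∫ ω, a ω ∂(K x) ∂μ))) ∧
      (∀ a : C(Om J Λ Γ, ℝ), (∀ ω, 0 ≤ a ω) → (∀ ω, a ω ≤ 1) →
        (∀ H h, ∀ᵐ x ∂μ, a (rec act A₀ A (c H) h x) = 0) → ∀ᵐ x ∂μ, ∀ᵐ ω ∂(K x), a ω = 0) := by
  set p : X → Γ → EReal := modl act φ with hp
  have hpm : Measurable p := measurable_modl act hφm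
  have hrm : ∀ H h, Measurable (rec act A₀ A (c H) h) := fun H h =>
    measurable_rec act A₀ A (hc H) h
  set θ : ℕ → (κ → ℤ) → X → (Γ → EReal) × Om J Λ Γ :=
    fun H h x => (p x, rec act A₀ A (c H) h x) with hθ
  have hθm : ∀ H h, Measurable (θ H h) := fun H h => hpm.prodMk (hrm H h)
  set ρ : ℕ → Measure ((Γ → EReal) × Om J Λ Γ) := fun H => jl μ (θ H) H with hρ
  have hρp : ∀ H, IsProbabilityMeasure (ρ H) := fun H => jl_prob (hθm H) H
  have hYp : IsProbabilityMeasure (μ.map p) := Measure.isProbabilityMeasure_map hpm.aemeasurable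
  have hsb : StandardBorelSpace (Om J Λ Γ) := by
    have : PolishSpace Ic := isClosed_Icc.polishSpace
    infer_instance
  have hne : Nonempty (Om J Λ Γ) := ⟨fun _ _ _ => ⟨0, by norm_num, by norm_num⟩⟩
  obtain ⟨K, hK, hlim, heq⟩ := exists_limit_kernel ρ (μ.map p)
    (fun H => jl_fst hpm (hrm H) H) 𝒰
  have hev : (fun y : Γ → EReal => (y 0).toReal) ∘ p = φ := by
    funext x
    show (((φ (act.S 0 x) : ℝ) : EReal)).toReal = φ x
    rw [EReal.toReal_coe, act.zero]
  have hevm : Measurable (fun y : Γ → EReal => (y 0).toReal) :=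
    measurable_ereal_toReal.comp (measurable_pi_apply 0)
  refine ⟨K.comap p hpm, inferInstance, ?_, ?_, ?_, ?_⟩
  · -- equivariance under `P`
    intro r
    have h1 := heq (shY (A₀ r)) (shP A r) (continuous_shP A r) ?_
    · have h2 := ae_of_ae_map hpm.aemeasurable h1
      filter_upwards [h2] with x hx
      rw [Kernel.comap_apply, Kernel.comap_apply, hp, modl_S]
      exact hx
    · intro ψ
      obtain ⟨C, hC0, hC⟩ := avg_shift_int (κ := κ) r
      have hψb : ∀ z, |ψ z| ≤ ‖ψ‖ := fun z => by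
        rw [← Real.norm_eq_abs]; exact ψ.norm_coe_le_norm z
      have hst : Measurable (fun z : (Γ → EReal) × Om J Λ Γ => (shY (A₀ r) z.1, shP A r z.2)) :=
        ((shY (A₀ r)).continuous.measurable.comp measurable_fst).prodMk
          ((continuous_shP A r).measurable.comp measurable_snd)
      have hψm : Measurable ψ := ψ.continuous.measurable
      have key : ∀ H, |∫ z, ψ (shY (A₀ r) z.1, shP A r z.2) ∂(ρ H) - ∫ z, ψ z ∂(ρ H)|
          ≤ C * ‖ψ‖ / ((H + 1 : ℕ) : ℝ) := by
        intro H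
        have i1 := integral_jl (μ := μ) (hθm H) H
          (ψ := fun z => ψ (shY (A₀ r) z.1, shP A r z.2)) (hψm.comp hst) fun h =>
          Integrable.of_bound ((hψm.comp hst).comp (hθm H h)).aestronglyMeasurable ‖ψ‖
            (Eventually.of_forall fun x => hψb _)
        have i2 := integral_jl (μ := μ) (hθm H) H (ψ := fun z => ψ z) hψm fun h =>
          Integrable.of_bound (hψm.comp (hθm H h)).aestronglyMeasurable ‖ψ‖
            (Eventually.of_forall fun x => hψb _)
        have e : ∀ h, ∫ x, ψ (shY (A₀ r) (θ H h x).1, shP A r (θ H h x).2) ∂μ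
            = ∫ x, ψ (θ H (h + r) x) ∂μ := by
          intro h
          rw [← act.integral_comp (A₀ r) (f := fun x => ψ (θ H (h + r) x))
            (hψm.comp (hθm H (h + r)))]
          refine integral_congr_ae (Eventually.of_forall fun x => ?_)
          simp only [hθ, hp, modl_S, rec_S_P]
        have i3 : ∫ z, ψ (shY (A₀ r) z.1, shP A r z.2) ∂(ρ H)
            = avgb H fun h => ∫ x, ψ (θ H (h + r) x) ∂μ := by
          rw [← funext e]; exact i1
        have i4 : ∫ z, ψ z ∂(ρ H) = avgb H fun h => ∫ x, ψ (θ H h x) ∂μ := i2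
        rw [i3, i4]
        refine hC (H + 1) (Nat.succ_pos _) _ (fun _ => le_rfl)
          (fun h => ∫ x, ψ (θ H h x) ∂μ) ‖ψ‖ fun h => ?_
        calc |∫ x, ψ (θ H h x) ∂μ| ≤ ∫ x, |ψ (θ H h x)| ∂μ := abs_integral_le_integral_abs
          _ ≤ ∫ _x, ‖ψ‖ ∂μ := by
              refine integral_mono_of_nonneg (Eventually.of_forall fun x => abs_nonneg _)
                (integrable_const _) (Eventually.of_forall fun x => hψb _)
          _ = ‖ψ‖ := by simp
      rw [tendsto_zero_iff_abs_tendsto_zero]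
      refine Tendsto.mono_left ?_ h𝒰
      refine tendsto_of_tendsto_of_tendsto_of_le_of_le tendsto_const_nhds ?_
        (fun _ => abs_nonneg _) key
      have := (tendsto_const_div_atTop_nhds_zero_nat (C * ‖ψ‖)).comp (tendsto_add_atTop_nat 1)
      exact this
  · intro γ
    have h1 := heq (shY γ) (shG γ) (continuous_shG γ) ?_
    · have h2 := ae_of_ae_map hpm.aemeasurable h1
      filter_upwards [h2] with x hx
      rw [Kernel.comap_apply, Kernel.comap_apply, hp, modl_S]
      exact hx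
    · intro ψ
      have hψb : ∀ z, |ψ z| ≤ ‖ψ‖ := fun z => by
        rw [← Real.norm_eq_abs]; exact ψ.norm_coe_le_norm z
      have hst : Measurable (fun z : (Γ → EReal) × Om J Λ Γ => (shY γ z.1, shG γ z.2)) :=
        ((shY γ).continuous.measurable.comp measurable_fst).prodMk
          ((continuous_shG γ).measurable.comp measurable_snd)
      have hψm : Measurable ψ := ψ.continuous.measurable
      have key : ∀ H, ∫ z, ψ (shY γ z.1, shG γ z.2) ∂(ρ H) - ∫ z, ψ z ∂(ρ H) = 0 := by
        intro H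
        have i1 := integral_jl (μ := μ) (hθm H) H
          (ψ := fun z => ψ (shY γ z.1, shG γ z.2)) (hψm.comp hst) fun h =>
          Integrable.of_bound ((hψm.comp hst).comp (hθm H h)).aestronglyMeasurable ‖ψ‖
            (Eventually.of_forall fun x => hψb _)
        have i2 := integral_jl (μ := μ) (hθm H) H (ψ := fun z => ψ z) hψm fun h =>
          Integrable.of_bound (hψm.comp (hθm H h)).aestronglyMeasurable ‖ψ‖
            (Eventually.of_forall fun x => hψb _)
        have e : ∀ h, ∫ x, ψ (shY γ (θ H h x).1, shG γ (θ H h x).2) ∂μ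
            = ∫ x, ψ (θ H h x) ∂μ := by
          intro h
          rw [← act.integral_comp γ (f := fun x => ψ (θ H h x)) (hψm.comp (hθm H h))]
          refine integral_congr_ae (Eventually.of_forall fun x => ?_)
          simp only [hθ, hp, modl_S, rec_S_G]
        have i3 : ∫ z, ψ (shY γ z.1, shG γ z.2) ∂(ρ H)
            = avgb H fun h => ∫ x, ψ (θ H h x) ∂μ := by
          rw [← funext e]; exact i1
        have i4 : ∫ z, ψ z ∂(ρ H) = avgb H fun h => ∫ x, ψ (θ H h x) ∂μ := i2
        rw [i3, i4, sub_self]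
      simp_rw [key]
      exact tendsto_const_nhds
  · intro a ha
    have h1 := hlim (fun y => (y 0).toReal) hevm ?_ a ha
    · have e1 : ∀ H, ∫ z, (z.1 0).toReal * a z.2 ∂(ρ H)
          = avgb H fun h => ∫ x, φ x * a (rec act A₀ A (c H) h x) ∂μ := by
        intro H
        rw [hρ]
        simp only
        have hm : Measurable (fun z : (Γ → EReal) × Om J Λ Γ => (z.1 0).toReal * a z.2) :=
          (hevm.comp measurable_fst).mul (a.continuous.measurable.comp measurable_snd)
        rw [integral_jl (hθm H) H hm]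
        · congr 1
          funext h
          refine integral_congr_ae (Eventually.of_forall fun x => ?_)
          simp only [hθ]
          rw [← congrFun hev x]; rfl
        · intro h
          have : (fun x => ((θ H h x).1 0).toReal * a (θ H h x).2)
              = fun x => φ x * a (rec act A₀ A (c H) h x) := by
            funext x
            simp only [hθ]
            rw [← congrFun hev x]; rfl
          rw [this]
          refine hφ.mul_bdd (c := 1) (a.continuous.measurable.comp (hrm H h)).aestronglyMeasurable ?_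
          exact Eventually.of_forall fun x => by simpa using ha _
      simp_rw [e1] at h1
      convert h1 using 2
      rw [integral_map hpm.aemeasurable]
      · refine integral_congr_ae (Eventually.of_forall fun x => ?_)
        simp only [Kernel.comap_apply]
        rw [← congrFun hev x]; rfl
      · refine Measurable.aestronglyMeasurable ?_
        refine hevm.mul ?_
        exact (StronglyMeasurable.integral_kernel (κ := K)
          (f := fun ω => a ω) a.continuous.stronglyMeasurable).measurable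
    · rw [integrable_map_measure hevm.aestronglyMeasurable hpm.aemeasurable, hev]
      exact hφ
  · intro a ha0 ha1 har
    have ha : ∀ ω, |a ω| ≤ 1 := fun ω => by rw [abs_of_nonneg (ha0 ω)]; exact ha1 ω
    have h1 := hlim (fun _ => 1) measurable_const (integrable_const _) a ha
    have hz : ∀ H, ∫ z : (Γ → EReal) × Om J Λ Γ, 1 * a z.2 ∂(ρ H) = 0 := by
      intro H
      have i1 := integral_jl (μ := μ) (hθm H) H (ψ := fun z => 1 * a z.2)
        ((measurable_const (a := (1 : ℝ))).mul (a.continuous.measurable.comp measurable_snd)) fun h =>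
          Integrable.of_bound
            (((measurable_const (a := (1 : ℝ))).mul (a.continuous.measurable.comp measurable_snd)).comp
              (hθm H h)).aestronglyMeasurable 1
            (Eventually.of_forall fun x => by simpa using ha _)
      have i2 : ∫ z : (Γ → EReal) × Om J Λ Γ, 1 * a z.2 ∂(ρ H)
          = avgb H fun h => ∫ x, 1 * a (rec act A₀ A (c H) h x) ∂μ := i1
      rw [i2]
      have i3 : ∀ h, ∫ x, 1 * a (rec act A₀ A (c H) h x) ∂μ = 0 := by
        intro h
        refine integral_eq_zero_of_ae ?_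
        filter_upwards [har H h] with x hx
        rw [hx, mul_zero]
        rfl
      simp only [i3]
      unfold avgb avg
      simp
    simp_rw [hz] at h1
    have h2 := tendsto_nhds_unique tendsto_const_nhds h1
    simp only [one_mul] at h2
    -- the inner integral vanishes a.e.
    have hm : Measurable fun y => ∫ ω, a ω ∂(K y) :=
      (StronglyMeasurable.integral_kernel (κ := K)
          (f := fun ω => a ω) a.continuous.stronglyMeasurable).measurable
    have hnn : ∀ y, 0 ≤ ∫ ω, a ω ∂(K y) := fun y => integral_nonneg ha0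
    have hb : ∀ y, |∫ ω, a ω ∂(K y)| ≤ 1 := by
      intro y
      calc |∫ ω, a ω ∂(K y)| ≤ ∫ ω, |a ω| ∂(K y) := abs_integral_le_integral_abs
        _ ≤ ∫ _ω, (1 : ℝ) ∂(K y) := by
          refine integral_mono_of_nonneg (Eventually.of_forall fun x => abs_nonneg _)
            (integrable_const _) (Eventually.of_forall fun ω => ha ω)
        _ = 1 := by simp
    have hi : Integrable (fun y => ∫ ω, a ω ∂(K y)) (μ.map p) :=
      Integrable.of_bound hm.aestronglyMeasurable 1
        (Eventually.of_forall fun y => by rw [Real.norm_eq_abs]; exact hb y)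
    have h3 := (integral_eq_zero_iff_of_nonneg hnn hi).1 h2.symm
    have h4 := ae_of_ae_map hpm.aemeasurable h3
    filter_upwards [h4] with x hx
    rw [Kernel.comap_apply]
    have hai : Integrable (fun ω => a ω) (K (p x)) :=
      Integrable.of_bound a.continuous.measurable.aestronglyMeasurable 1
        (Eventually.of_forall fun ω => by rw [Real.norm_eq_abs]; exact ha ω)
    have h5 : ∫ ω, a ω ∂(K (p x)) = 0 := hx
    exact (integral_eq_zero_iff_of_nonneg ha0 hai).1 h5

/-- coordinates that agree on all records agree almost surely -/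
lemma coord_eq_of_core {K : Kernel X (Om J Λ Γ)} {act : MAct Γ X μ} {A₀ : (κ → ℤ) →+ Γ}
    {A : J → (κ → ℤ) →+ Λ} {c : ℕ → X → J → Λ → Ic}
    (h5 : ∀ a : C(Om J Λ Γ, ℝ), (∀ ω, 0 ≤ a ω) → (∀ ω, a ω ≤ 1) →
        (∀ H h, ∀ᵐ x ∂μ, a (rec act A₀ A (c H) h x) = 0) → ∀ᵐ x ∂μ, ∀ᵐ ω ∂(K x), a ω = 0)
    (i : J) (g : Λ) (γ : Γ) (g' : Λ) (γ' : Γ)
    (h : ∀ H h, ∀ᵐ x ∂μ, rec act A₀ A (c H) h x i g γ = rec act A₀ A (c H) h x i g' γ') :
    ∀ᵐ x ∂μ, ∀ᵐ ω ∂(K x), ω i g γ = ω i g' γ' := by
  set a : C(Om J Λ Γ, ℝ) := ⟨fun ω => min 1 |((ω i g γ : Ic) : ℝ)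
      - ((ω i g' γ' : Ic) : ℝ)|, by fun_prop⟩ with ha
  have h3 := h5 a (fun ω => le_min zero_le_one (abs_nonneg _)) (fun ω => min_le_left _ _)
    (fun H h' => by
      filter_upwards [h H h'] with x hx
      simp only [ha, ContinuousMap.coe_mk]
      rw [hx]
      simp)
  filter_upwards [h3] with z hz
  filter_upwards [hz] with ω hω
  simp only [ha, ContinuousMap.coe_mk] at hω
  have h4 : |((ω i g γ : Ic) : ℝ) - ((ω i g' γ' : Ic) : ℝ)| = 0 := by
    rcases min_choice (1 : ℝ) |((ω i g γ : Ic) : ℝ) - ((ω i g' γ' : Ic) : ℝ)| with h | h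
    · rw [h] at hω; norm_num at hω
    · rw [h] at hω; exact hω
  rw [abs_eq_zero, sub_eq_zero] at h4
  exact Subtype.ext h4

end

end Pool.Agent.Lib.Pf720ae
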