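import Pool.Agent.Lib.Pf720ae.InvElim

/-!
The first stage: data with a common central group.
-/

set_option autoImplicit false
set_option linter.unusedSectionVars false

open MeasureTheory Filter Topology ProbabilityTheory Finset
open scoped ENNReal NNReal

namespace Pool.Agent.Lib.Pf720ae

variable {κ : Type} [Fintype κ] [DecidableEq κ]
variable {X : Type} [MeasurableSpace X] {μ : Measure X} [IsProbabilityMeasure μ]
variable {G : Type} [AddCommGroup G]

/-- linear actions together with an action of a common central group -/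
structure DatG (J κ : Type) [Fintype κ] {X : Type} [MeasurableSpace X] (μ : Measure X)
    (G : Type) [AddCommGroup G] where
  /-- the actions -/
  aS : J → MAct (κ → ℤ) X μ
  /-- the common action -/
  aG : MAct G X μ
  comm : ∀ j m γ x, (aS j).S m (aG.S γ x) = aG.S γ ((aS j).S m x)
  /-- the central elements -/
  C : J → AddSubgroup (κ → ℤ)
  /-- the embeddings -/
  e : (j : J) → C j →+ G
  he : ∀ j (c : C j) x, aG.S (e j c) x = (aS j).S c x

variable {J : Type} [Fintype J] [DecidableEq J]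

namespace DatG

variable (D : DatG J κ μ G)

/-- the combined actions -/
def act (j : J) : MAct ((κ → ℤ) × G) X μ where
  S q x := (D.aS j).S q.1 (D.aG.S q.2 x)
  zero x := by
    rw [Prod.fst_zero, Prod.snd_zero, (D.aG).zero, (D.aS j).zero]
  add a b x := by
    rw [Prod.fst_add, Prod.snd_add, (D.aG).add, (D.aS j).add, ← D.comm j b.1 a.2]
  mp q := ((D.aS j).mp q.1).comp (D.aG.mp q.2)

/-- the kernels of the actions -/
def K (i : J) : AddSubgroup (κ → ℤ) where
  carrier := {m | ∀ x, (D.aS i).S m x = x}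
  zero_mem' := fun x => (D.aS i).zero x
  add_mem' := by
    intro a b ha hb x
    rw [(D.aS i).add, hb, ha]
  neg_mem' := by
    intro a ha x
    have h := (D.aS i).add (-a) a x
    rw [neg_add_cancel, (D.aS i).zero, ha] at h
    exact h.symm

lemma mem_K {i : J} {m : κ → ℤ} : m ∈ D.K i ↔ ∀ x, (D.aS i).S m x = x := Iff.rfl

/-- the kernel of the common action -/
def KG : AddSubgroup G where
  carrier := {m | ∀ x, D.aG.S m x = x}
  zero_mem' := fun x => D.aG.zero x
  add_mem' := by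
    intro a b ha hb x
    rw [D.aG.add, hb, ha]
  neg_mem' := by
    intro a ha x
    have h := D.aG.add (-a) a x
    rw [neg_add_cancel, D.aG.zero, ha] at h
    exact h.symm

/-- sums of kernels -/
def Kr (F : Finset J) : AddSubgroup (κ → ℤ) := F.sup D.K

/-- the equalizers -/
def Sg (F : Finset J) : AddSubgroup (κ → ℤ) where
  carrier := {m | (∀ i ∈ F, m ∈ D.C i) ∧ ∀ i ∈ F, ∀ j ∈ F, ∀ x, (D.aS i).S m x = (D.aS j).S m x}
  zero_mem' := ⟨fun i _ => (D.C i).zero_mem, fun i _ j _ x => by rw [(D.aS i).zero, (D.aS j).zero]⟩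
  add_mem' := by
    rintro a b ⟨ha, ha'⟩ ⟨hb, hb'⟩
    refine ⟨fun i hi => (D.C i).add_mem (ha i hi) (hb i hi), fun i hi j hj x => ?_⟩
    rw [(D.aS i).add, (D.aS j).add, hb' i hi j hj, ha' i hi j hj]
  neg_mem' := by
    rintro a ⟨ha, ha'⟩
    refine ⟨fun i hi => (D.C i).neg_mem (ha i hi), fun i hi j hj x => ?_⟩
    have h1 : x = (D.aS i).S a ((D.aS i).S (-a) x) := by
      rw [← (D.aS i).add, add_neg_cancel, (D.aS i).zero]
    conv_rhs => rw [h1, ha' i hi j hj, ← (D.aS j).add, neg_add_cancel, (D.aS j).zero]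

/-- the group of records -/
abbrev Lm : Type := (i : J) → (κ → ℤ) ⧸ D.K i

/-- the positions in the group of records -/
def A (j i : J) : (κ → ℤ) →+ D.Lm :=
  if i = j then 0 else (AddMonoidHom.single _ i).comp (QuotientAddGroup.mk' (D.K i))

lemma A_self (j : J) : D.A j j = 0 := if_pos rfl

lemma A_of_ne {j i : J} (h : i ≠ j) :
    D.A j i = (AddMonoidHom.single _ i).comp (QuotientAddGroup.mk' (D.K i)) := if_neg h

lemma A_eq_zero {j i : J} {m : κ → ℤ} (h : i ≠ j → m ∈ D.K i) : D.A j i m = 0 := by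
  by_cases hij : i = j
  · subst hij
    rw [A_self]
    rfl
  · rw [D.A_of_ne hij]
    simp only [AddMonoidHom.comp_apply]
    rw [QuotientAddGroup.mk'_apply, (QuotientAddGroup.eq_zero_iff m).2 (h hij), map_zero]

/-- the base point embedding -/
def A₀ (κ : Type) (G : Type) [AddCommGroup G] : (κ → ℤ) →+ (κ → ℤ) × G := AddMonoidHom.inl _ _

/-- the record spaces -/
abbrev Rec : Type := Om J D.Lm ((κ → ℤ) × G)

/-- the acting group on the product -/
abbrev Qd : Type := G × ((j : J) → D.C j × D.K j)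

/-- the action on one record -/
def tau (j : J) (q : D.Qd) (ω : D.Rec) : D.Rec :=
  shP (D.A j) (((q.2 j).1 : κ → ℤ) + ((q.2 j).2 : κ → ℤ)) (shG (0, q.1 - D.e j (q.2 j).1) ω)

lemma measurable_tau (j : J) (q : D.Qd) : Measurable (D.tau j q) :=
  (Dat.measurable_shP' _ _).comp (Dat.measurable_shG' _)

lemma tau_zero (j : J) (ω : D.Rec) : D.tau j 0 ω = ω := by
  unfold tau
  simp only [Prod.fst_zero, Prod.snd_zero, Pi.zero_apply, ZeroMemClass.coe_zero, map_zero,
    add_zero, sub_zero]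
  rw [shP_zero]
  exact shG_zero ω

lemma tau_add (j : J) (a b : D.Qd) (ω : D.Rec) :
    D.tau j (a + b) ω = D.tau j a (D.tau j b ω) := by
  unfold tau
  have e1 : ((((a + b).2 j).1 : D.C j) : κ → ℤ) + ((((a + b).2 j).2 : D.K j) : κ → ℤ)
      = (((a.2 j).1 : κ → ℤ) + ((a.2 j).2 : κ → ℤ)) + (((b.2 j).1 : κ → ℤ) + ((b.2 j).2 : κ → ℤ)) := by
    simp only [Prod.snd_add, Pi.add_apply, Prod.fst_add, AddSubgroup.coe_add]
    abel
  have e2 : ((0 : κ → ℤ), (a + b).1 - D.e j ((a + b).2 j).1)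
      = ((0 : κ → ℤ), a.1 - D.e j (a.2 j).1) + ((0 : κ → ℤ), b.1 - D.e j (b.2 j).1) := by
    simp only [Prod.fst_add, Prod.snd_add, Pi.add_apply, map_add, Prod.mk_add_mk, add_zero]
    congr 1
    abel
  rw [e1, e2, shG_add, shP_add, shP_shG]

/-- equivariance of the kernels under the common group -/
lemma ker_tau (j : J) {Kj : Kernel X D.Rec} (hK : EqKer (D.act j) (A₀ κ G) (D.A j) Kj)
    (q : D.Qd) : ∀ᵐ x ∂μ, Kj (D.aG.S q.1 x) = (Kj x).map (D.tau j q) := by
  have h1 := hK.eqP (((q.2 j).1 : κ → ℤ) + ((q.2 j).2 : κ → ℤ))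
  have h2 := hK.eqG (0, q.1 - D.e j (q.2 j).1)
  have h3 := ((D.act j).mp (0, q.1 - D.e j (q.2 j).1)).quasiMeasurePreserving.ae h1
  filter_upwards [h3, h2] with x hx1 hx2
  have e : (D.act j).S (A₀ κ G (((q.2 j).1 : κ → ℤ) + ((q.2 j).2 : κ → ℤ)))
      ((D.act j).S (0, q.1 - D.e j (q.2 j).1) x) = D.aG.S q.1 x := by
    show (D.aS j).S (((q.2 j).1 : κ → ℤ) + ((q.2 j).2 : κ → ℤ)) (D.aG.S 0
      ((D.aS j).S 0 (D.aG.S (q.1 - D.e j (q.2 j).1) x))) = D.aG.S q.1 x
    rw [D.aG.zero, (D.aS j).zero, (D.aS j).add, (q.2 j).2.2, ← D.he, ← D.aG.add]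
    congr 1
    abel
  rw [← e, hx1, hx2, Measure.map_map (Dat.measurable_shP' _ _) (Dat.measurable_shG' _)]
  rfl

instance : Countable D.Lm := by
  have : ∀ i, Countable ((κ → ℤ) ⧸ D.K i) := fun i =>
    (QuotientAddGroup.mk_surjective (s := D.K i)).countable
  infer_instance

/-- labels of pairs -/
def lab (_D : DatG J κ μ G) (ji : J × J) : Finset J :=
  if ji.2 = ji.1 then Finset.univ else {ji.1, ji.2}

/-- choices of decompositions -/
structure Ch where
  /-- a positive integer -/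
  N : ℕ
  hN : 0 < N
  /-- the part in the equalizer -/
  sg : Finset J → (κ → ℤ) →+ (κ → ℤ)
  /-- the part in the equalizer, for pairs -/
  sp : (j : J) → J → (κ → ℤ) →+ D.C j
  /-- the part in the kernels -/
  kr : Finset J → (κ → ℤ) →+ (κ → ℤ)
  /-- the part in one kernel -/
  kp : (j : J) → J → (κ → ℤ) →+ D.K j
  msg : ∀ F, 2 ≤ F.card → ∀ p, sg F p ∈ D.Sg F
  mkr : ∀ F, 2 ≤ F.card → ∀ p, kr F p ∈ D.Kr F
  sum : ∀ F, 2 ≤ F.card → ∀ p, N • p = sg F p + kr F p
  hsp : ∀ j i, i ≠ j → ∀ p, (sp j i p : κ → ℤ) = sg {j, i} p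
  pair : ∀ j i, i ≠ j → ∀ p, kr {j, i} p - (kp j i p : κ → ℤ) ∈ D.K i

variable {D}

lemma Kr_union (E F : Finset J) : D.Kr (E ∪ F) = D.Kr E ⊔ D.Kr F := Finset.sup_union

lemma Kr_pair (i j : J) : D.Kr {j, i} = D.K j ⊔ D.K i := by
  unfold Kr
  rw [Finset.sup_insert, Finset.sup_singleton]

/-- the associated data -/
def ks (P : D.Ch) : KS κ J where
  Kr := D.Kr
  Sg := D.Sg
  N := P.N
  hN := P.hN
  sg := P.sg
  kr := P.kr
  un E F k hk := by
    rw [Kr_union] at hk
    obtain ⟨a, ha, b, hb, hab⟩ := AddSubgroup.mem_sup.1 hk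
    exact ⟨a, ha, b, hb, hab.symm⟩
  msg E hE p := P.msg E hE p
  mkr E hE p := P.mkr E hE p
  sum E hE p := P.sum E hE p

/-- the positions -/
def posB (P : D.Ch) (ji : J × J) : (κ → ℤ) →+ D.Qd :=
  if ji.2 = ji.1 then 0 else
    ((D.e ji.1).comp (P.sp ji.1 ji.2)).prod
      ((AddMonoidHom.single (fun l => D.C l × D.K l) ji.1).comp
          ((P.sp ji.1 ji.2).prod (P.kp ji.1 ji.2)))

lemma posB_self (P : D.Ch) (j : J) : posB P (j, j) = 0 := if_pos rfl

lemma posB_fst (P : D.Ch) {j i : J} (h : i ≠ j) (p : κ → ℤ) :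
    (posB P (j, i) p).1 = D.e j (P.sp j i p) := by
  unfold posB
  rw [if_neg h]
  rfl

lemma posB_snd (P : D.Ch) {j i : J} (h : i ≠ j) (p : κ → ℤ) :
    (posB P (j, i) p).2 j = (P.sp j i p, P.kp j i p) := by
  unfold posB
  rw [if_neg h]
  show (Pi.single j (P.sp j i p, P.kp j i p) : (l : J) → D.C l × D.K l) j = _
  rw [Pi.single_eq_same]

variable (D) in
/-- the product system -/
noncomputable def prel (Ks : J → Kernel X D.Rec)
    (hK : ∀ j, EqKer (D.act j) (A₀ κ G) (D.A j) (Ks j)) [∀ j, IsMarkovKernel (Ks j)] :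
    Rel μ (X × (J → D.Rec)) D.Qd :=
  relExtG (relId D.aG) (AddMonoidHom.fst _ _) (kpi Ks) (fun q ω j => D.tau j q (ω j))
    (fun q => measurable_pi_iff.2 fun j => (D.measurable_tau j q).comp (measurable_pi_apply j))
    (fun ω => funext fun j => D.tau_zero j (ω j))
    (fun a b ω => funext fun j => D.tau_add j a b (ω j))
    (fun q => by
      filter_upwards [ae_all_iff.2 fun j => D.ker_tau j (hK j) q] with x hx
      exact kpi_map (fun j => D.measurable_tau j q) hx)

variable (D) in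
/-- coordinate functions -/
noncomputable def cf (c : κ → ℕ) (ji : J × J) (w : X × (J → D.Rec)) : ℝ :=
  ((w.2 ji.1 ji.2 (D.A ji.1 ji.2 (toZ c)) 0 : Ic) : ℝ)

lemma measurable_cf (c : κ → ℕ) (ji : J × J) : Measurable (D.cf c ji) := by
  unfold cf
  fun_prop

lemma mem_triv_prel {Ks : J → Kernel X D.Rec}
    {hK : ∀ j, EqKer (D.act j) (A₀ κ G) (D.A j) (Ks j)} [∀ j, IsMarkovKernel (Ks j)] {q : D.Qd} :
    q ∈ triv (D.prel Ks hK) ↔ ∀ x, D.aG.S q.1 x = x := Iff.rfl

/-- stabilisers of the coordinate functions -/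
lemma stab_cf {Ks : J → Kernel X D.Rec}
    {hK : ∀ j, EqKer (D.act j) (A₀ κ G) (D.A j) (Ks j)} [∀ j, IsMarkovKernel (Ks j)]
    (c : κ → ℕ) (j i : J) {q : D.Qd}
    (h1 : D.A j i (((q.2 j).1 : κ → ℤ) + ((q.2 j).2 : κ → ℤ)) = 0)
    (h2 : q.1 - D.e j (q.2 j).1 ∈ D.KG) :
    q ∈ stab (D.prel Ks hK) (D.cf c (j, i)) := by
  have hq : ∀ x, (D.act j).S (0, q.1 - D.e j (q.2 j).1) x = x := by
    intro x
    show (D.aS j).S 0 (D.aG.S (q.1 - D.e j (q.2 j).1) x) = x
    rw [(D.aS j).zero]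
    exact h2 x
  have h3 : ∀ᵐ x ∂μ, ∀ᵐ ω ∂(kpi Ks x), ω j i (D.A j i (toZ c)) (0 + (0, q.1 - D.e j (q.2 j).1))
      = ω j i (D.A j i (toZ c)) 0 := by
    filter_upwards [(hK j).tr _ hq i (D.A j i (toZ c)) 0] with x hx
    have h4 : MeasurePreserving (Function.eval j) (kpi Ks x) (Ks j x) := by
      rw [kpi_apply]
      exact measurePreserving_eval (fun j => Ks j x) j
    exact h4.quasiMeasurePreserving.ae hx
  have h5 : ∀ᵐ w ∂(μ ⊗ₘ (kpi Ks)), w.2 j i (D.A j i (toZ c)) (0 + (0, q.1 - D.e j (q.2 j).1))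
      = w.2 j i (D.A j i (toZ c)) 0 := by
    refine Measure.ae_compProd_of_ae_ae ?_ h3
    exact measurableSet_eq_fun (by fun_prop) (by fun_prop)
  have h6 : ∀ᵐ w ∂(μ ⊗ₘ (kpi Ks)),
      ((w.2 j i (D.A j i (toZ c) + D.A j i (((q.2 j).1 : κ → ℤ) + ((q.2 j).2 : κ → ℤ)))
        (0 + (0, q.1 - D.e j (q.2 j).1)) : Ic) : ℝ)
      = ((w.2 j i (D.A j i (toZ c)) 0 : Ic) : ℝ) := by
    filter_upwards [h5] with w hw
    rw [h1, add_zero, hw]
  exact h6

lemma e_sub_mem {F : Finset J} {σ : κ → ℤ} (hσ : σ ∈ D.Sg F) {i j : J} (hi : i ∈ F)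
    (hj : j ∈ F) : D.e i ⟨σ, hσ.1 i hi⟩ - D.e j ⟨σ, hσ.1 j hj⟩ ∈ D.KG := by
  intro x
  rw [sub_eq_add_neg, add_comm, D.aG.add, D.he, ← map_neg]
  have h1 : (D.aS i).S σ x = (D.aS j).S σ x := hσ.2 i hi j hj x
  simp only
  rw [h1, D.he, ← (D.aS j).add, AddSubgroup.coe_neg, neg_add_cancel, (D.aS j).zero]

/-- the first family -/
lemma st_first (P : D.Ch) {Ks : J → Kernel X D.Rec}
    {hK : ∀ j, EqKer (D.act j) (A₀ κ G) (D.A j) (Ks j)} [∀ j, IsMarkovKernel (Ks j)]
    (c : κ → ℕ) : St (ks P) (D.prel Ks hK) (D.cf c) D.lab (posB P) := by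
  have hpc : ∀ {j i : J}, i ≠ j → 2 ≤ ({j, i} : Finset J).card := by
    intro j i h
    rw [Finset.card_pair (Ne.symm h)]
  constructor
  · rintro ⟨j, i⟩ k hk
    by_cases hij : i = j
    · subst hij
      refine ⟨0, AddSubgroup.zero_mem _, ?_⟩
      rw [posB_self, AddMonoidHom.zero_apply, sub_zero]
      exact AddSubgroup.zero_mem _
    · have hk' : k ∈ D.Kr {j, i} := by
        have : D.lab (j, i) = {j, i} := if_neg hij
        rw [← this]
        exact hk
      have hs : P.sg {j, i} k ∈ D.Kr {j, i} := by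
        have e : P.sg {j, i} k = P.N • k - P.kr {j, i} k := by
          rw [P.sum _ (hpc hij) k]
          abel
        rw [e]
        exact AddSubgroup.sub_mem _ (AddSubgroup.nsmul_mem _ hk' _) (P.mkr _ (hpc hij) _)
      rw [Kr_pair] at hs
      obtain ⟨a, ha, b, hb, hab⟩ := AddSubgroup.mem_sup.1 hs
      set a' : D.K j := ⟨a, ha⟩ with ha'
      set v₀ : D.Qd := (0, Pi.single j (0, a' + P.kp j i k)) with hv₀
      refine ⟨v₀, ?_, ?_⟩
      · rw [mem_triv_prel]
        intro x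
        exact D.aG.zero x
      · have e : ((posB P (j, i) k - v₀).2 j) = (P.sp j i k, -a') := by
          have e0 : v₀.2 j = (0, a' + P.kp j i k) := by
            rw [hv₀]
            exact Pi.single_eq_same _ _
          rw [Prod.snd_sub, Pi.sub_apply, posB_snd P hij, e0]
          refine Prod.ext ?_ ?_
          · simp
          · simp only [Prod.snd_sub]
            abel
        refine stab_cf c j i ?_ ?_
        · rw [e]
          apply D.A_eq_zero
          intro _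
          show (P.sp j i k : κ → ℤ) + (-a' : D.K j) ∈ D.K i
          rw [P.hsp j i hij, AddSubgroup.coe_neg, ← hab]
          have e2 : a + b + -a = b := by abel
          rw [e2]
          exact hb
        · rw [e, Prod.fst_sub, posB_fst P hij, hv₀, sub_zero, sub_self]
          exact AddSubgroup.zero_mem _
  · intro F σ hσ
    rcases F.eq_empty_or_nonempty with hF | ⟨i₀, hi₀⟩
    · refine ⟨0, ?_⟩
      rintro ⟨j, i⟩ hjF
      exfalso
      subst hF
      have h1 : j ∈ D.lab (j, i) := by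
        unfold lab
        split_ifs <;> simp
      exact absurd (hjF h1) (Finset.notMem_empty _)
    · have hσF : σ ∈ D.Sg F := hσ
      refine ⟨(P.N • D.e i₀ ⟨σ, hσF.1 i₀ hi₀⟩, fun l =>
        if h : l ∈ F then (P.N • ⟨σ, hσF.1 l h⟩, 0) else 0), ?_⟩
      rintro ⟨j, i⟩ hjF
      have hj : j ∈ F := by
        apply hjF
        unfold lab
        split_ifs <;> simp
      by_cases hij : i = j
      · subst hij
        refine stab_cf c i i ?_ ?_
        · rw [D.A_self]
          rfl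
        · rw [posB_self, AddMonoidHom.zero_apply]
          simp only [Prod.fst_sub, Prod.snd_sub, Prod.fst_zero, Prod.snd_zero, Pi.sub_apply,
            Pi.zero_apply, dif_pos hj]
          have e : (0 - P.N • D.e i₀ ⟨σ, hσF.1 i₀ hi₀⟩) - D.e i (0 - P.N • ⟨σ, hσF.1 i hj⟩)
              = P.N • (D.e i ⟨σ, hσF.1 i hj⟩ - D.e i₀ ⟨σ, hσF.1 i₀ hi₀⟩) := by
            rw [zero_sub, zero_sub, map_neg, map_nsmul, smul_sub]
            abel
          rw [e]
          exact AddSubgroup.nsmul_mem _ (e_sub_mem hσF hj hi₀) _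
      · have hi : i ∈ F := by
          apply hjF
          unfold lab
          rw [if_neg hij]
          simp
        refine stab_cf c j i ?_ ?_
        · rw [Prod.snd_sub, Pi.sub_apply, posB_snd P hij]
          apply D.A_eq_zero
          intro _
          simp only [dif_pos hj]
          show ((P.sp j i σ : κ → ℤ) - P.N • σ) + ((P.kp j i σ : κ → ℤ) - 0) ∈ D.K i
          have e : ((P.sp j i σ : κ → ℤ) - P.N • σ) + ((P.kp j i σ : κ → ℤ) - 0)
              = -(P.kr {j, i} σ - (P.kp j i σ : κ → ℤ)) := by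
            rw [P.hsp j i hij, P.sum _ (hpc hij) σ]
            abel
          rw [e]
          exact AddSubgroup.neg_mem _ (P.pair j i hij σ)
        · rw [Prod.snd_sub, Pi.sub_apply, posB_snd P hij, Prod.fst_sub, posB_fst P hij]
          simp only [dif_pos hj]
          have e : (D.e j (P.sp j i σ) - P.N • D.e i₀ ⟨σ, hσF.1 i₀ hi₀⟩)
              - D.e j (P.sp j i σ - P.N • ⟨σ, hσF.1 j hj⟩)
              = P.N • (D.e j ⟨σ, hσF.1 j hj⟩ - D.e i₀ ⟨σ, hσF.1 i₀ hi₀⟩) := by
            rw [map_sub, map_nsmul, smul_sub]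
            abel
          show (D.e j (P.sp j i σ) - P.N • D.e i₀ ⟨σ, hσF.1 i₀ hi₀⟩)
              - D.e j (P.sp j i σ - P.N • ⟨σ, hσF.1 j hj⟩) ∈ D.KG
          rw [e]
          exact AddSubgroup.nsmul_mem _ (e_sub_mem hσF hj hi₀) _

end DatG

end Pool.Agent.Lib.Pf720ae
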