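import Pool.Agent.Lib.Pf720ae.DatG

/-!
The first stage: dual functions, and bounded real functions.
-/

set_option autoImplicit false
set_option linter.unusedSectionVars false

open MeasureTheory Filter Topology ProbabilityTheory Finset
open scoped ENNReal NNReal

namespace Pool.Agent.Lib.Pf720ae

variable {κ : Type} [Fintype κ] [DecidableEq κ]
variable {X : Type} [MeasurableSpace X] {μ : Measure X} [IsProbabilityMeasure μ]
variable {G : Type} [AddCommGroup G]
variable {J : Type} [Fintype J] [DecidableEq J]

namespace DatG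

variable {D : DatG J κ μ G}

instance instFinSub (S : AddSubgroup (κ → ℤ)) : Module.Finite ℤ S :=
  Module.Finite.of_injective S.subtype.toIntLinearMap Subtype.val_injective

/-- the case of dual functions -/
lemma all_dual [Countable G] [Module.Finite ℤ G] (P : D.Ch) (hJ : 2 ≤ Fintype.card J)
    (Ks : J → Kernel X D.Rec)
    (hK : ∀ j, EqKer (D.act j) (A₀ κ G) (D.A j) (Ks j)) :
    ∀ᵐ x ∂μ, Cvg fun m => ∏ j, dual (Ks j) ((D.aS j).S (toZ m) x) := by
  have hmk : ∀ j, IsMarkovKernel (Ks j) := fun j => (hK j).markov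
  have hg1 : ∀ c ji w, |D.cf c ji w| ≤ 1 := fun c ji w => abs_Ic _
  have hlab : ∀ ji : J × J, 2 ≤ (D.lab ji).card := by
    rintro ⟨j, i⟩
    unfold lab
    split_ifs with h
    · rw [Finset.card_univ]
      exact hJ
    · rw [Finset.card_pair (Ne.symm h)]
  have hrab : ∀ᵐ x ∂μ, ∀ c : κ → ℕ, Cvg fun m => ∫ w, ∏ ji, D.cf c ji
      ((D.prel Ks hK).aZ.S (posB P ji (toZ m)) w) ∂((D.prel Ks hK).K x) :=
    ae_all_iff.2 fun c => inv_conv (ks P) (st_first P (hK := hK) c) hlab
      (fun ji => measurable_cf c ji) (hg1 c)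
  filter_upwards [hrab, ae_all_iff.2 fun j => dual_shift (hK j)] with x hx hd
  refine Cvg.of_cosets P.hN fun c => (hx c).congr fun p => ?_
  have hcast : toZ (P.N • p + c) = P.N • toZ p + toZ c := by
    funext l
    simp [toZ]
  -- pointwise identity
  have hpt : ∀ w : X × (J → D.Rec), (∏ ji, D.cf c ji ((D.prel Ks hK).aZ.S (posB P ji (toZ p)) w))
      = ∏ j, ∏ i, ((w.2 j i (D.A j i (toZ (P.N • p + c))) 0 : Ic) : ℝ) := by
    intro w
    rw [Fintype.prod_prod_type]
    refine Finset.prod_congr rfl fun j _ => Finset.prod_congr rfl fun i _ => ?_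
    by_cases hij : i = j
    · subst hij
      rw [posB_self, AddMonoidHom.zero_apply, (D.prel Ks hK).aZ.zero]
      unfold cf
      simp only
      rw [D.A_self, AddMonoidHom.zero_apply, AddMonoidHom.zero_apply]
    · show ((w.2 j i (D.A j i (toZ c) + D.A j i ((((posB P (j, i) (toZ p)).2 j).1 : κ → ℤ)
        + (((posB P (j, i) (toZ p)).2 j).2 : κ → ℤ)))
        (0 + (0, (posB P (j, i) (toZ p)).1 - D.e j ((posB P (j, i) (toZ p)).2 j).1)) : Ic) : ℝ) = _
      rw [posB_snd P hij, posB_fst P hij]
      simp only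
      have e0 : D.A j i (toZ (P.N • p + c)) = D.A j i (toZ c)
          + D.A j i ((P.sp j i (toZ p) : κ → ℤ) + (P.kp j i (toZ p) : κ → ℤ)) := by
        have e1 : D.A j i (P.kr {j, i} (toZ p) - (P.kp j i (toZ p) : κ → ℤ)) = 0 :=
          D.A_eq_zero fun _ => P.pair j i hij _
        have e2 : toZ (P.N • p + c) = toZ c
            + ((P.sp j i (toZ p) : κ → ℤ) + (P.kp j i (toZ p) : κ → ℤ))
            + (P.kr {j, i} (toZ p) - (P.kp j i (toZ p) : κ → ℤ)) := by
          rw [P.hsp j i hij, hcast, P.sum {j, i} (by rw [Finset.card_pair (Ne.symm hij)])]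
          abel
        rw [e2, map_add, e1, add_zero, map_add]
      have e3 : (0 : (κ → ℤ) × G) + ((0 : κ → ℤ), (0 : G)) = 0 := add_zero _
      rw [e0, sub_self, e3]
  simp only [hpt]
  have hmk2 : IsMarkovKernel (relId (μ := μ) D.aG).K := (relId D.aG).markov
  have hKx : (D.prel Ks hK).K x = (Kernel.id x) ⊗ₘ (kpi Ks) := kk_apply _ _ x
  set F : X × (J → D.Rec) → ℝ := fun w =>
    ∏ j, ∏ i, ((w.2 j i (D.A j i (toZ (P.N • p + c))) 0 : Ic) : ℝ) with hF
  have hFm : Measurable F := by
    refine Finset.measurable_fun_prod _ fun j _ => Finset.measurable_fun_prod _ fun i _ => ?_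
    fun_prop
  have hF1 : ∀ w, |F w| ≤ 1 := fun w => abs_prod_le_one _ _ fun j =>
    abs_prod_le_one _ _ fun i => abs_Ic _
  have hint : Integrable F ((Kernel.id x) ⊗ₘ (kpi Ks)) :=
    Integrable.of_bound hFm.aestronglyMeasurable 1
      (Eventually.of_forall fun w => by rw [Real.norm_eq_abs]; exact hF1 w)
  rw [hKx, Measure.integral_compProd hint, Kernel.id_apply, integral_dirac']
  · simp only [hF]
    rw [kpi_apply]
    have h2 := integral_fintype_prod_eq_prod (𝕜 := ℝ) (μ := fun j => Ks j x)
      (fun (j : J) (ω : D.Rec) => ∏ i, ((ω i (D.A j i (toZ (P.N • p + c))) 0 : Ic) : ℝ))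
    rw [h2]
    refine Finset.prod_congr rfl fun j _ => ?_
    rw [← hd j (toZ (P.N • p + c))]
    congr 1
    show (D.aS j).S (toZ (P.N • p + c)) (D.aG.S 0 x) = _
    rw [D.aG.zero]
  · exact StronglyMeasurable.integral_kernel_prod_right' hFm.stronglyMeasurable

/-- The theorem for bounded real functions. -/
theorem real_conv [Countable G] [Module.Finite ℤ G] (P : D.Ch) (hJ : 2 ≤ Fintype.card J)
    (F : J → X → ℝ) (hFm : ∀ j, Measurable (F j)) (hF1 : ∀ j x, |F j x| ≤ 1) :
    ∀ᵐ x ∂μ, Cvg fun m => ∏ j, F j ((D.aS j).S (toZ m) x) := by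
  classical
  have key : ∀ (U : Finset J) (F : J → X → ℝ) (_ : ∀ j, Measurable (F j))
      (_ : ∀ j x, |F j x| ≤ 1)
      (_ : ∀ j ∉ U, ∃ K : Kernel X D.Rec, EqKer (D.act j) (A₀ κ G) (D.A j) K ∧ F j = dual K),
      ∀ᵐ x ∂μ, Cvg fun m => ∏ j, F j ((D.aS j).S (toZ m) x) := by
    intro U
    induction U using Finset.induction_on with
    | empty =>
      intro F _ _ hd
      choose Ks hK hFK using fun j => hd j (Finset.notMem_empty j)
      have h := all_dual P hJ Ks hK
      filter_upwards [h] with x hx
      refine hx.congr fun m => Finset.prod_congr rfl fun j _ => ?_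
      rw [hFK j]
    | insert j U hjU ih =>
      intro F hFm hF1 hd
      have hne : Nonempty J := ⟨j⟩
      set W : X → Set ((κ → ℕ) → ℝ) := fun x =>
        {fun m => ∏ i ∈ Finset.univ.erase j, F i ((D.aS i).S (toZ m) x)} with hWdef
      have horb : ∀ (m : κ → ℕ) (x : X), orb (D.act j) (A₀ κ G) m x = (D.aS j).S (toZ m) x := by
        intro m x
        show (D.aS j).S (toZ m) (D.aG.S 0 x) = _
        rw [D.aG.zero]
      have hmain := master (D.act j) (A₀ κ G) (D.A j) W ?_ ?_ (F j) (memLp_of_bdd (hFm j) (hF1 j))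
      · filter_upwards [hmain] with x hx
        refine (hx _ rfl).congr fun m => ?_
        rw [horb, Finset.mul_prod_erase Finset.univ (fun i => F i ((D.aS i).S (toZ m) x))
          (Finset.mem_univ j)]
      · intro x w hw
        rw [hWdef, Set.mem_singleton_iff] at hw
        subst hw
        refine ⟨fun i g => if i = j then 1 else F i ((D.aS i).S (Quotient.out (g i)) x), ?_, ?_⟩
        · intro i g
          dsimp only
          split_ifs
          · simp
          · exact hF1 _ _
        · intro m
          dsimp only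
          rw [← Finset.mul_prod_erase Finset.univ _ (Finset.mem_univ j), if_pos rfl, one_mul]
          refine Finset.prod_congr rfl fun i hi => ?_
          have hij : i ≠ j := Finset.ne_of_mem_erase hi
          rw [if_neg hij]
          congr 1
          have e1 : (D.A j i (toZ m)) i = (QuotientAddGroup.mk' (D.K i)) (toZ m) := by
            rw [D.A_of_ne hij]
            simp
          have e2 : toZ m - Quotient.out ((D.A j i (toZ m)) i) ∈ D.K i := by
            rw [e1]
            have h3 : (QuotientAddGroup.mk' (D.K i)) (Quotient.out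
              ((QuotientAddGroup.mk' (D.K i)) (toZ m))) = (QuotientAddGroup.mk' (D.K i)) (toZ m) :=
              Quotient.out_eq _
            rw [QuotientAddGroup.mk'_apply, QuotientAddGroup.mk'_apply, QuotientAddGroup.eq] at h3
            rwa [neg_add_eq_sub] at h3
          have e3 : toZ m = (toZ m - Quotient.out ((D.A j i (toZ m)) i))
              + Quotient.out ((D.A j i (toZ m)) i) := by abel
          conv_lhs => rw [e3, (D.aS i).add]
          exact e2 _
      · intro K hK
        have hmk := hK.markov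
        have h1 := ih (Function.update F j (dual K)) ?_ ?_ ?_
        · filter_upwards [h1] with x hx w hw
          rw [hWdef, Set.mem_singleton_iff] at hw
          subst hw
          refine hx.congr fun m => ?_
          rw [horb, ← Finset.mul_prod_erase Finset.univ _ (Finset.mem_univ j),
            Function.update_self]
          congr 1
          refine Finset.prod_congr rfl fun i hi => ?_
          rw [Function.update_of_ne (Finset.ne_of_mem_erase hi)]
        · intro i
          by_cases hij : i = j
          · subst hij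
            rw [Function.update_self]
            exact measurable_dual K
          · rw [Function.update_of_ne hij]
            exact hFm i
        · intro i x
          by_cases hij : i = j
          · subst hij
            rw [Function.update_self]
            exact abs_dual_le K x
          · rw [Function.update_of_ne hij]
            exact hF1 i x
        · intro i hi
          by_cases hij : i = j
          · subst hij
            exact ⟨K, hK, by rw [Function.update_self]⟩
          · rw [Function.update_of_ne hij]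
            exact hd i (by simp [hij, hi])
  exact key Finset.univ F hFm hF1 fun j hj => absurd (Finset.mem_univ j) hj

/-- existence of decompositions -/
theorem exists_ch (D : DatG J κ μ G)
    (hfin : ∀ F : Finset J, 2 ≤ F.card → (D.Sg F ⊔ D.Kr F).FiniteIndex) : Nonempty D.Ch := by
  classical
  have hb : ∀ p : κ → ℤ, (p : κ → ℤ) = ∑ l, p l • (Pi.single l (1 : ℤ) : κ → ℤ) := by
    intro p
    funext q
    simp [Finset.sum_apply, Pi.single_apply]
  -- a common multiple of the indices
  obtain ⟨N, hN, hidx⟩ : ∃ N : ℕ, 0 < N ∧ ∀ F : Finset J, 2 ≤ F.card → ∀ p : κ → ℤ,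
      N • p ∈ D.Sg F ⊔ D.Kr F := by
    refine ⟨∏ F : Finset J, (if 2 ≤ F.card then (D.Sg F ⊔ D.Kr F).index else 1), ?_, ?_⟩
    · refine Finset.prod_pos fun F _ => ?_
      split_ifs with h
      · exact Nat.pos_of_ne_zero (hfin F h).index_ne_zero
      · exact one_pos
    · intro F hF p
      obtain ⟨t, ht⟩ := Finset.dvd_prod_of_mem (fun F : Finset J =>
        (if 2 ≤ F.card then (D.Sg F ⊔ D.Kr F).index else 1)) (Finset.mem_univ F)
      rw [ht, mul_comm, mul_smul]
      refine AddSubgroup.nsmul_mem _ ?_ _
      rw [if_pos hF]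
      exact AddSubgroup.nsmul_index_mem (D.Sg F ⊔ D.Kr F) p
  -- decomposition of the basis vectors
  have hdec : ∀ (F : Finset J) (l : κ), ∃ (s : κ → ℤ) (k : κ → ℤ), 2 ≤ F.card →
      (s ∈ D.Sg F ∧ k ∈ D.Kr F ∧
        N • (Pi.single l (1 : ℤ) : κ → ℤ) = s + k) := by
    intro F l
    by_cases hF : 2 ≤ F.card
    · obtain ⟨s, hs, k, hk, hsk⟩ := AddSubgroup.mem_sup.1 (hidx F hF (Pi.single l 1))
      exact ⟨s, k, fun _ => ⟨hs, hk, hsk.symm⟩⟩
    · exact ⟨0, 0, fun h => absurd h hF⟩
  choose s k hsk using hdec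
  have hsp : ∀ (j i : J) (l : κ), ∃ a : D.C j, i ≠ j → (a : κ → ℤ) = s {j, i} l := by
    intro j i l
    by_cases hij : i = j
    · exact ⟨0, fun h => absurd hij h⟩
    · have h2 : 2 ≤ ({j, i} : Finset J).card := by rw [Finset.card_pair (Ne.symm hij)]
      exact ⟨⟨s {j, i} l, (hsk {j, i} l h2).1.1 j (by simp)⟩, fun _ => rfl⟩
  choose sp hsp using hsp
  have hpair : ∀ (j i : J) (l : κ), ∃ a : D.K j, i ≠ j →
      k {j, i} l - (a : κ → ℤ) ∈ D.K i := by
    intro j i l
    by_cases hij : i = j
    · exact ⟨0, fun h => absurd hij h⟩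
    · have h2 : 2 ≤ ({j, i} : Finset J).card := by rw [Finset.card_pair (Ne.symm hij)]
      have h := (hsk {j, i} l h2).2.1
      rw [Kr_pair] at h
      obtain ⟨a, ha, b, hb, hab⟩ := AddSubgroup.mem_sup.1 h
      refine ⟨⟨a, ha⟩, fun _ => ?_⟩
      rw [← hab]
      have e : a + b - a = b := by abel
      simp only
      rw [e]
      exact hb
  choose a ha using hpair
  refine ⟨⟨N, hN, fun F => lin (s F), fun j i => lin (sp j i), fun F => lin (k F),
    fun j i => lin (a j i), ?_, ?_, ?_, ?_, ?_⟩⟩
  · intro F hF p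
    rw [lin_apply]
    exact AddSubgroup.sum_mem _ fun l _ => AddSubgroup.zsmul_mem _ (hsk F l hF).1 _
  · intro F hF p
    rw [lin_apply]
    exact AddSubgroup.sum_mem _ fun l _ => AddSubgroup.zsmul_mem _ (hsk F l hF).2.1 _
  · intro F hF p
    rw [lin_apply, lin_apply, ← Finset.sum_add_distrib]
    conv_lhs => rw [hb p, Finset.smul_sum]
    refine Finset.sum_congr rfl fun l _ => ?_
    rw [← smul_add, ← (hsk F l hF).2.2, smul_comm]
  · intro j i hij p
    rw [lin_apply, lin_apply, AddSubgroup.val_finsetSum]
    refine Finset.sum_congr rfl fun l _ => ?_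
    rw [AddSubgroup.coe_zsmul, hsp j i l hij]
  · intro j i hij p
    rw [lin_apply, lin_apply, AddSubgroup.val_finsetSum, ← Finset.sum_sub_distrib]
    refine AddSubgroup.sum_mem _ fun l _ => ?_
    rw [AddSubgroup.coe_zsmul, ← smul_sub]
    exact AddSubgroup.zsmul_mem _ (ha j i l hij) _

end DatG

end Pool.Agent.Lib.Pf720ae
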