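import Pool.Agent.Lib.Pf720ae.Vertex

/-!
The elimination theorem.
-/

set_option autoImplicit false
set_option linter.unusedSectionVars false

open MeasureTheory Filter Topology ProbabilityTheory Finset
open scoped ENNReal NNReal

namespace Pool.Agent.Lib.Pf720ae

variable {κ : Type} [Fintype κ] [DecidableEq κ]
variable {J Λ Γ : Type} [AddCommGroup Γ] [AddCommGroup Λ] [Fintype J] [DecidableEq J]
  [DecidableEq Λ]
variable {X : Type} [MeasurableSpace X] {μ : Measure X}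

lemma abs_prod_le_one {ι : Type*} (s : Finset ι) (f : ι → ℝ) (hf : ∀ i, |f i| ≤ 1) :
    |∏ i ∈ s, f i| ≤ 1 := by
  rw [Finset.abs_prod]
  exact Finset.prod_le_one (fun i _ => abs_nonneg _) fun i _ => hf i

lemma abs_Ic (t : Ic) : |(t : ℝ)| ≤ 1 := abs_le.2 ⟨t.2.1, t.2.2⟩

lemma avgb_const (H : ℕ) (c : ℝ) : avgb (κ := κ) H (fun _ => c) = c :=
  avg_const (fun _ => Nat.succ_pos _) c

lemma avgb_mono (H : ℕ) {Φ Ψ : (κ → ℤ) → ℝ} (h : ∀ m, Φ m ≤ Ψ m) : avgb H Φ ≤ avgb H Ψ :=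
  avg_mono _ fun _ => h _

lemma avgb_add (H : ℕ) (Φ Ψ : (κ → ℤ) → ℝ) :
    avgb H (fun m => Φ m + Ψ m) = avgb H Φ + avgb H Ψ := avg_add _ _ _

lemma abs_avgb_le_of_le (H : ℕ) {Φ : (κ → ℤ) → ℝ} {R : ℝ} (hR : 0 ≤ R) (h : ∀ m, |Φ m| ≤ R) :
    |avgb H Φ| ≤ R := abs_avg_le_of_le hR fun _ => h _

variable (act : MAct Γ X μ) (A₀ : (κ → ℤ) →+ Γ) (A : J → (κ → ℤ) →+ Λ)

/-- the signed average of a candidate -/
noncomputable def Psi (φ : X → ℝ) (H : ℕ) (c : J → Finset Λ) (x : X) : ℝ :=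
  avgb H fun h => φ (act.S (A₀ h) x) * ∏ i, ((sv c i (A i h) : Ic) : ℝ)

/-- candidates at level `H` -/
noncomputable def candH (H : ℕ) : Finset (J → Finset Λ) :=
  cand (box (fun _ : κ => H + 1)) fun i h => A i (toZ h)

lemma candH_nonempty (H : ℕ) : (candH A H).Nonempty := cand_nonempty _ _

/-- the best signed average -/
noncomputable def Lam (φ : X → ℝ) (H : ℕ) (x : X) : ℝ :=
  (candH A H).sup' (candH_nonempty A H) fun c => Psi act A₀ A φ H c x

variable {act A₀ A}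

lemma measurable_Psi {φ : X → ℝ} (hφ : Measurable φ) (H : ℕ) (c : J → Finset Λ) :
    Measurable (Psi act A₀ A φ H c) := by
  unfold Psi avgb avg
  exact (Finset.measurable_fun_sum _ fun h _ =>
    (hφ.comp (act.mp _).measurable).mul_const _).const_mul _

lemma measurable_Lam {φ : X → ℝ} (hφ : Measurable φ) (H : ℕ) :
    Measurable (Lam act A₀ A φ H) := by
  have h := Finset.measurable_sup' (candH_nonempty A H) (f := fun c => Psi act A₀ A φ H c)
    fun c _ => measurable_Psi hφ H c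
  convert h using 1
  funext x
  rw [Finset.sup'_apply]
  rfl

lemma Psi_le_Lam (φ : X → ℝ) (H : ℕ) {c : J → Finset Λ} (hc : c ∈ candH A H) (x : X) :
    Psi act A₀ A φ H c x ≤ Lam act A₀ A φ H x :=
  Finset.le_sup' (fun c => Psi act A₀ A φ H c x) hc

lemma avgb_le_Lam (φ : X → ℝ) (H : ℕ) (x : X) (a : J → Λ → ℝ) (ha : ∀ i g, |a i g| ≤ 1) :
    (avgb H fun h => φ (act.S (A₀ h) x) * ∏ i, a i (A i h)) ≤ Lam act A₀ A φ H x := by
  obtain ⟨c, hc, hle⟩ := vertex (box (fun _ : κ => H + 1))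
    (fun h => φ (act.S (A₀ (toZ h)) x)) (fun i h => A i (toZ h)) a ha
  refine le_trans ?_ (Psi_le_Lam φ H (c := c) hc x)
  unfold Psi avgb avg
  exact mul_le_mul_of_nonneg_left hle (inv_prod_nonneg _)

lemma abs_avgb_le_Lam [Nonempty J] (φ : X → ℝ) (H : ℕ) (x : X) (a : J → Λ → ℝ)
    (ha : ∀ i g, |a i g| ≤ 1) :
    |avgb H fun h => φ (act.S (A₀ h) x) * ∏ i, a i (A i h)| ≤ Lam act A₀ A φ H x := by
  refine abs_le'.2 ⟨avgb_le_Lam φ H x a ha, ?_⟩
  obtain ⟨i₀⟩ := (inferInstance : Nonempty J)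
  have h1 := avgb_le_Lam (act := act) (A₀ := A₀) (A := A) φ H x
    (fun i g => if i = i₀ then - a i g else a i g) (by
      intro i g
      by_cases h : i = i₀ <;> simp [h, ha])
  refine le_trans (le_of_eq ?_) h1
  unfold avgb
  rw [← avg_neg]
  congr 1
  funext h
  rw [← mul_neg]
  congr 1
  rw [← Finset.mul_prod_erase Finset.univ _ (Finset.mem_univ i₀),
    ← Finset.mul_prod_erase Finset.univ _ (Finset.mem_univ i₀)]
  simp only [if_true]
  rw [neg_mul]
  congr 2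
  refine Finset.prod_congr rfl fun i hi => ?_
  rw [if_neg (Finset.ne_of_mem_erase hi)]

lemma Lam_nonneg [Nonempty J] (φ : X → ℝ) (H : ℕ) (x : X) : 0 ≤ Lam act A₀ A φ H x :=
  (abs_nonneg _).trans (abs_avgb_le_Lam φ H x (fun _ _ => 0) (by simp))

lemma Lam_le {φ : X → ℝ} {R : ℝ} (hR : 0 ≤ R) (hφ : ∀ x, |φ x| ≤ R) (H : ℕ) (x : X) :
    Lam act A₀ A φ H x ≤ R := by
  unfold Lam
  refine Finset.sup'_le _ _ fun c _ => ?_
  refine (le_abs_self _).trans (abs_avgb_le_of_le H hR fun h => ?_)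
  rw [abs_mul]
  exact (mul_le_of_le_one_right (abs_nonneg _) (abs_prod_le_one _ _ fun i => abs_Ic _)).trans (hφ _)

lemma Lam_le_add (φ ψ : X → ℝ) (H : ℕ) (x : X) :
    Lam act A₀ A φ H x ≤ Lam act A₀ A ψ H x
      + avgb H fun h => |φ (act.S (A₀ h) x) - ψ (act.S (A₀ h) x)| := by
  unfold Lam
  refine Finset.sup'_le _ _ fun c hc => ?_
  have h1 : Psi act A₀ A φ H c x ≤ Psi act A₀ A ψ H c x
      + avgb H fun h => |φ (act.S (A₀ h) x) - ψ (act.S (A₀ h) x)| := by
    unfold Psi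
    rw [← avgb_add]
    refine avgb_mono H fun h => ?_
    set P := ∏ i, ((sv c i (A i h) : Ic) : ℝ)
    have hP : |P| ≤ 1 := abs_prod_le_one _ _ fun i => abs_Ic _
    have : φ (act.S (A₀ h) x) * P - ψ (act.S (A₀ h) x) * P
        ≤ |φ (act.S (A₀ h) x) - ψ (act.S (A₀ h) x)| := by
      rw [← sub_mul]
      refine (le_abs_self _).trans ?_
      rw [abs_mul]
      exact mul_le_of_le_one_right (abs_nonneg _) hP
    linarith
  exact h1.trans (add_le_add (Finset.le_sup' (fun c => Psi act A₀ A ψ H c x) hc) le_rfl)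

/-- equivariant kernels -/
structure EqKer (act : MAct Γ X μ) (A₀ : (κ → ℤ) →+ Γ) (A : J → (κ → ℤ) →+ Λ)
    (K : Kernel X (Om J Λ Γ)) : Prop where
  markov : IsMarkovKernel K
  eqP : ∀ r, ∀ᵐ x ∂μ, K (act.S (A₀ r) x) = (K x).map (shP A r)
  eqG : ∀ γ, ∀ᵐ x ∂μ, K (act.S γ x) = (K x).map (shG γ)
  tr : ∀ e, (∀ x, act.S e x = x) → ∀ i g γ, ∀ᵐ x ∂μ, ∀ᵐ ω ∂(K x), ω i g (γ + e) = ω i g γ

omit [DecidableEq Λ] in
/-- elements acting trivially do not change the records -/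
lemma rec_triv (c : X → J → Λ → Ic) (h : κ → ℤ) (x : X) (i : J) (g : Λ) (γ e : Γ)
    (he : ∀ x, act.S e x = x) :
    rec act A₀ A c h x i g (γ + e) = rec act A₀ A c h x i g γ := by
  show c (act.S (γ + e - A₀ h) x) i (A i h + g) = c (act.S (γ - A₀ h) x) i (A i h + g)
  have e1 : γ + e - A₀ h = e + (γ - A₀ h) := by abel
  rw [e1, act.add, he]

/-- the dual function -/
noncomputable def dual (K : Kernel X (Om J Λ Γ)) (x : X) : ℝ :=
  ∫ ω, ∏ i, ((ω i 0 0 : Ic) : ℝ) ∂(K x)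

/-- the coordinate product as a continuous function -/
noncomputable def cprod : C(Om J Λ Γ, ℝ) :=
  ⟨fun ω => ∏ i, ((ω i 0 0 : Ic) : ℝ), by fun_prop⟩

lemma Lam_tendsto [Nonempty J] [Countable Γ] [Countable Λ] [IsProbabilityMeasure μ]
    {φ : X → ℝ} (hφm : Measurable φ) (hφ : Integrable φ μ)
    (horth : ∀ K : Kernel X (Om J Λ Γ), EqKer act A₀ A K → ∫ x, φ x * dual K x ∂μ = 0)
    (𝒰 : Ultrafilter ℕ) (h𝒰 : (𝒰 : Filter ℕ) ≤ atTop) :
    Tendsto (fun H => ∫ x, Lam act A₀ A φ H x ∂μ) 𝒰 (𝓝 0) := by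
  -- measurable maximisers
  have hsel : ∀ H, ∃ sel : X → (J → Finset Λ), (∀ c₀, MeasurableSet {x | sel x = c₀}) ∧
      (∀ x, sel x ∈ candH A H) ∧ ∀ x, ∀ c ∈ candH A H, Psi act A₀ A φ H c x
        ≤ Psi act A₀ A φ H (sel x) x := fun H =>
    exists_measurable_argmax (candH A H) (candH_nonempty A H) (fun c x => Psi act A₀ A φ H c x)
      fun c => measurable_Psi hφm H c
  choose sel hs1 hs2 hs3 using hsel
  have hLam : ∀ H x, Lam act A₀ A φ H x = Psi act A₀ A φ H (sel H x) x := by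
    intro H x
    refine le_antisymm ?_ (Psi_le_Lam φ H (hs2 H x) x)
    exact Finset.sup'_le _ _ fun c hc => hs3 H x c hc
  set c : ℕ → X → J → Λ → Ic := fun H x => sv (sel H x) with hc
  have hcm : ∀ H i g, Measurable fun x => c H x i g := by
    intro H i g
    have hset : MeasurableSet {x | g ∈ sel H x i} := by
      have : {x | g ∈ sel H x i}
          = ⋃ c₀ ∈ {c₀ ∈ (candH A H : Finset (J → Finset Λ)) | g ∈ c₀ i}, {x | sel H x = c₀} := by
        ext x
        simp only [Set.mem_ofPred_eq, Set.mem_iUnion, exists_prop]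
        constructor
        · intro h
          exact ⟨sel H x, Finset.mem_filter.2 ⟨hs2 H x, h⟩, rfl⟩
        · rintro ⟨c₀, hc₀, rfl⟩
          exact (Finset.mem_filter.1 hc₀).2
      rw [this]
      exact MeasurableSet.biUnion (Set.to_countable _) fun c₀ _ => hs1 H c₀
    exact Measurable.ite hset measurable_const measurable_const
  obtain ⟨K, hK1, hK2, hK3, hK4, hK5⟩ := core act A₀ A hφm hφ c hcm 𝒰 h𝒰
  have h1 := hK4 cprod (fun ω => abs_prod_le_one _ _ fun i => abs_Ic _)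
  have h2 : ∫ x, φ x * ∫ ω, (cprod : C(Om J Λ Γ, ℝ)) ω ∂(K x) ∂μ = 0 :=
    horth K ⟨hK1, hK2, hK3, fun e he i g γ => coord_eq_of_core hK5 i g (γ + e) g γ
      fun H h => Eventually.of_forall fun x => rec_triv (c H) h x i g γ e he⟩
  rw [h2] at h1
  refine h1.congr fun H => ?_
  -- identity of integrals
  have e1 : ∀ h : κ → ℤ, ∫ x, φ x * (cprod : C(Om J Λ Γ, ℝ)) (rec act A₀ A (c H) h x) ∂μ
      = ∫ x, φ (act.S (A₀ h) x) * ∏ i, ((c H x i (A i h) : Ic) : ℝ) ∂μ := by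
    intro h
    have hm : Measurable fun x => φ (act.S (A₀ h) x) * ∏ i, ((c H x i (A i h) : Ic) : ℝ) :=
      (hφm.comp (act.mp _).measurable).mul
        (Finset.measurable_fun_prod _ fun i _ => measurable_subtype_coe.comp (hcm H i _))
    rw [← act.integral_comp (-(A₀ h)) hm]
    refine integral_congr_ae (Eventually.of_forall fun x => ?_)
    simp only [cprod, ContinuousMap.coe_mk, rec]
    rw [← act.add, add_neg_cancel, act.zero]
    simp
  simp_rw [e1]
  have hint : ∀ h : κ → ℤ, Integrable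
      (fun x => φ (act.S (A₀ h) x) * ∏ i, ((c H x i (A i h) : Ic) : ℝ)) μ := by
    intro h
    refine Integrable.mul_bdd (c := 1) ((act.mp _).integrable_comp_of_integrable hφ)
      (Finset.measurable_fun_prod _ fun i _ =>
        measurable_subtype_coe.comp (hcm H i _)).aestronglyMeasurable ?_
    refine Eventually.of_forall fun x => ?_
    rw [Real.norm_eq_abs]
    exact abs_prod_le_one _ _ fun i => abs_Ic _
  unfold avgb avg
  rw [← integral_finsetSum _ fun h _ => hint _, ← integral_const_mul]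
  refine integral_congr_ae (Eventually.of_forall fun x => ?_)
  simp only [hLam]
  rfl

end Pool.Agent.Lib.Pf720ae
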