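import Pool.Agent.Lib.Pf720ae.Master2

/-!
The extension attached to an equivariant kernel.
-/

set_option autoImplicit false
set_option linter.unusedSectionVars false

open MeasureTheory Filter Topology ProbabilityTheory Finset
open scoped ENNReal NNReal

namespace Pool.Agent.Lib.Pf720ae

variable {κ : Type} [Fintype κ] [DecidableEq κ]
variable {J Λ Γ : Type} [AddCommGroup Γ] [AddCommGroup Λ]
variable {X : Type} [MeasurableSpace X] {μ : Measure X}
variable {act : MAct Γ X μ} {A₀ : (κ → ℤ) →+ Γ} {A : J → (κ → ℤ) →+ Λ}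

/-- pull back of an action along a homomorphism -/
def MAct.comap {Γ' : Type} [AddCommGroup Γ'] (act : MAct Γ X μ) (f : Γ' →+ Γ) :
    MAct Γ' X μ where
  S γ := act.S (f γ)
  zero x := by rw [map_zero, act.zero]
  add a b x := by rw [map_add, act.add]
  mp a := act.mp _

lemma mp_ext {Ω : Type} [MeasurableSpace Ω] [IsProbabilityMeasure μ] {K : Kernel X Ω}
    [IsMarkovKernel K] {s : X → X} (hs : MeasurePreserving s μ μ) {t : Ω → Ω} (ht : Measurable t)
    (h : ∀ᵐ x ∂μ, K (s x) = (K x).map t) :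
    MeasurePreserving (fun z : X × Ω => (s z.1, t z.2)) (μ ⊗ₘ K) (μ ⊗ₘ K) := by
  have hst : Measurable (fun z : X × Ω => (s z.1, t z.2)) :=
    (hs.measurable.comp measurable_fst).prodMk (ht.comp measurable_snd)
  refine ⟨hst, ?_⟩
  ext B hB
  rw [Measure.map_apply hst hB, Measure.compProd_apply (hst hB), Measure.compProd_apply hB]
  have hm : Measurable fun x => K x (Prod.mk x ⁻¹' B) := Kernel.measurable_kernel_prodMk_left hB
  conv_rhs => rw [← hs.map_eq]
  rw [lintegral_map hm hs.measurable]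
  refine lintegral_congr_ae ?_
  filter_upwards [h] with x hx
  rw [hx, Measure.map_apply ht (measurable_prodMk_left hB)]
  rfl

lemma shP_zero (ω : Om J Λ Γ) : shP A 0 ω = ω := by
  funext i g γ
  simp [shP]

lemma shG_zero (ω : Om J Λ Γ) : shG 0 ω = ω := by
  funext i g γ
  simp [shG]

lemma shP_add (r r' : κ → ℤ) (ω : Om J Λ Γ) : shP A (r + r') ω = shP A r (shP A r' ω) := by
  funext i g γ
  simp [shP, add_assoc]

lemma shG_add (r r' : Γ) (ω : Om J Λ Γ) : shG (r + r') ω = shG r (shG r' ω) := by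
  funext i g γ
  simp [shG, add_assoc]

lemma shP_shG (r : κ → ℤ) (γ : Γ) (ω : Om J Λ Γ) : shP A r (shG γ ω) = shG γ (shP A r ω) := by
  funext i g γ'
  simp [shP, shG]

/-- the action of `P × Γ` on the extension -/
noncomputable def extAct [IsProbabilityMeasure μ] {K : Kernel X (Om J Λ Γ)}
    (hK : EqKer act A₀ A K) : MAct ((κ → ℤ) × Γ) (X × Om J Λ Γ) (μ ⊗ₘ K) where
  S p z := (act.S (A₀ p.1 + p.2) z.1, shP A p.1 (shG p.2 z.2))
  zero z := by
    rw [Prod.fst_zero, Prod.snd_zero, map_zero, add_zero, act.zero, shG_zero, shP_zero]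
  add a b z := by
    simp only [Prod.fst_add, Prod.snd_add]
    refine Prod.ext ?_ ?_
    · simp only
      rw [← act.add, map_add]
      congr 1
      abel
    · simp only
      rw [shG_add, shP_add, shP_shG b.1 a.2]
  mp p := by
    have := hK.markov
    have h1 : MeasurePreserving (fun z : X × Om J Λ Γ => (act.S (A₀ p.1) z.1, shP A p.1 z.2))
        (μ ⊗ₘ K) (μ ⊗ₘ K) :=
      mp_ext (act.mp _) (measurable_pi_iff.2 fun i => measurable_pi_iff.2 fun g =>
        measurable_pi_iff.2 fun γ => by unfold shP; fun_prop) (hK.eqP p.1)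
    have h2 : MeasurePreserving (fun z : X × Om J Λ Γ => (act.S p.2 z.1, shG p.2 z.2))
        (μ ⊗ₘ K) (μ ⊗ₘ K) :=
      mp_ext (act.mp _) (measurable_pi_iff.2 fun i => measurable_pi_iff.2 fun g =>
        measurable_pi_iff.2 fun γ => by unfold shG; fun_prop) (hK.eqG p.2)
    have h3 := h1.comp h2
    convert h3 using 1
    funext z
    simp only [Function.comp_apply]
    rw [← act.add]

/-- integrating out the fibre -/
lemma Cvg_integral {Ω : Type} [MeasurableSpace Ω] [IsProbabilityMeasure μ] {K : Kernel X Ω}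
    [IsMarkovKernel K] (G : (κ → ℕ) → X × Ω → ℝ) (hGm : ∀ m, Measurable (G m))
    (hG : ∀ m z, |G m z| ≤ 1) (h : ∀ᵐ z ∂(μ ⊗ₘ K), Cvg fun m => G m z) :
    ∀ᵐ x ∂μ, Cvg fun m => ∫ ω, G m (x, ω) ∂(K x) := by
  have h1 := Measure.ae_ae_of_ae_compProd h
  filter_upwards [h1] with x hx
  have hx' : ∀ᵐ ω ∂(K x), ∃ L : ℝ, Tendsto (fun M : κ → ℕ => avg M fun m => G m (x, ω)) atTop (𝓝 L) := hx
  classical
  set f : Ω → ℝ := fun ω => if hω : ∃ L : ℝ, Tendsto (fun M : κ → ℕ => avg M fun m => G m (x, ω))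
    atTop (𝓝 L) then hω.choose else 0 with hf
  have hGx : ∀ m, Measurable fun ω => G m (x, ω) := fun m => (hGm m).comp measurable_prodMk_left
  refine ⟨∫ ω, f ω ∂(K x), ?_⟩
  have h2 : ∀ M : κ → ℕ, (avg M fun m => ∫ ω, G m (x, ω) ∂(K x))
      = ∫ ω, avg M (fun m => G m (x, ω)) ∂(K x) := by
    intro M
    unfold avg
    rw [integral_const_mul, integral_finsetSum]
    intro m _
    exact Integrable.of_bound (hGx m).aestronglyMeasurable 1
      (Eventually.of_forall fun ω => hG _ _)
  simp_rw [h2]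
  refine tendsto_integral_filter_of_dominated_convergence (fun _ => (1 : ℝ)) ?_ ?_
    (integrable_const _) ?_
  · refine Eventually.of_forall fun M => Measurable.aestronglyMeasurable ?_
    unfold avg
    exact (Finset.measurable_fun_sum _ fun m _ => hGx m).const_mul _
  · refine Eventually.of_forall fun M => Eventually.of_forall fun ω => ?_
    rw [Real.norm_eq_abs]
    exact abs_avg_le_of_le zero_le_one fun m => hG _ _
  · filter_upwards [hx'] with ω hω
    simp only [hf]
    rw [dif_pos hω]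
    exact hω.choose_spec

lemma dual_shift [Countable Γ] [Countable Λ] [Fintype J]
    {K : Kernel X (Om J Λ Γ)} (hK : EqKer act A₀ A K) :
    ∀ᵐ x ∂μ, ∀ r : κ → ℤ, dual K (act.S (A₀ r) x)
      = ∫ ω, ∏ i, ((ω i (A i r) 0 : Ic) : ℝ) ∂(K x) := by
  rw [ae_all_iff]
  intro r
  filter_upwards [hK.eqP r] with x hx
  unfold dual
  have h := integral_map (μ := K x) (f := fun ω : Om J Λ Γ => ∏ i, ((ω i 0 0 : Ic) : ℝ))
    (continuous_shP A r).measurable.aemeasurable
    (cprod (J := J) (Λ := Λ) (Γ := Γ)).continuous.aestronglyMeasurable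
  rw [hx, h]
  simp [shP]

end Pool.Agent.Lib.Pf720ae
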