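import Pool.Agent.Lib.Pf720ae.Rat

/-!
Commuting transformations, linear exponents with a common generalized inverse.
-/

set_option autoImplicit false
set_option linter.unusedSectionVars false

open MeasureTheory Filter Topology ProbabilityTheory Finset
open scoped ENNReal NNReal

namespace Pool.Agent.Lib.Pf720ae

variable {X : Type} [MeasurableSpace X] {μ : Measure X} [IsProbabilityMeasure μ]

section

variable {d k n : ℕ} (A : Fin n → Matrix (Fin d) (Fin k) ℤ) (s : Matrix (Fin k) (Fin d) ℚ)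

/-- cast of an integer matrix -/
def mq (M : Matrix (Fin d) (Fin k) ℤ) : Matrix (Fin d) (Fin k) ℚ := M.map (Int.cast : ℤ → ℚ)

lemma mq_mulVec (M : Matrix (Fin d) (Fin k) ℤ) (v : Fin k → ℤ) :
    (mq M).mulVec (fun l => (v l : ℚ)) = fun i => ((M.mulVec v i : ℤ) : ℚ) := by
  funext i
  simp [mq, Matrix.mulVec, dotProduct]

theorem thmH1_real
    (hs : ∀ j, mq (A j) * s * mq (A j) = mq (A j))
    (hc : ∀ i j, Commute (mq (A i) * s) (mq (A j) * s))
    (act : MAct (Fin d → ℤ) X μ) (F : Fin n → X → ℝ) (hFm : ∀ j, Measurable (F j))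
    (hF1 : ∀ j x, |F j x| ≤ 1) :
    ∀ᵐ x ∂μ, Cvg fun m : Fin k → ℕ => ∏ j, F j (act.S ((A j).mulVec (toZ m)) x) := by
  set p : Fin n → Matrix (Fin d) (Fin d) ℚ := fun j => mq (A j) * s with hp
  have hi : ∀ i, p i * p i = p i := by
    intro i
    simp only [hp]
    rw [← Matrix.mul_assoc, hs]
  -- common denominators
  obtain ⟨D₁, hD₁, h₁⟩ := lat_denom (p := p) (LinearMap.id : (Fin d → ℚ) →ₗ[ℚ] (Fin d → ℚ))
  obtain ⟨D₂, hD₂, h₂⟩ := lat_denom (p := p) (Matrix.mulVecLin s)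
  set N : ℕ := D₁ * D₂ with hN
  have hNpos : 0 < N := Nat.mul_pos hD₁ hD₂
  have hN1 : ∀ v ∈ lat p, ∀ i, ∃ z : ℤ, (N : ℚ) * v i = z := by
    intro v hv i
    obtain ⟨z, hz⟩ := h₁ v hv i
    refine ⟨D₂ * z, ?_⟩
    push_cast
    rw [← hz, hN]
    push_cast
    simp only [id_eq]
    ring
  have hN2 : ∀ v ∈ lat p, ∀ i, ∃ z : ℤ, (N : ℚ) * s.mulVec v i = z := by
    intro v hv i
    obtain ⟨z, hz⟩ := h₂ v hv i
    refine ⟨D₁ * z, ?_⟩
    push_cast
    rw [← hz, hN]
    push_cast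
    simp only [Matrix.mulVecLin_apply]
    ring
  -- the homomorphisms
  obtain ⟨sZ, hsZ⟩ : ∃ sZ : lat p →+ (Fin k → ℤ), ∀ γ i, ((sZ γ i : ℤ) : ℚ)
      = (N : ℚ) * s.mulVec (γ : Fin d → ℚ) i := by
    obtain ⟨f', hf'⟩ := exists_int_hom (((N : ℕ) • (Matrix.mulVecLin s).toAddMonoidHom).comp
      (lat p).subtype) (by
        intro γ i
        obtain ⟨z, hz⟩ := hN2 γ γ.2 i
        exact ⟨z, by simpa using hz⟩)
    exact ⟨f', fun γ i => by rw [hf']; simp⟩
  obtain ⟨bZ, hbZ⟩ : ∃ bZ : lat p →+ (Fin d → ℤ), ∀ γ i, ((bZ γ i : ℤ) : ℚ)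
      = (N : ℚ) * (γ : Fin d → ℚ) i := by
    obtain ⟨f', hf'⟩ := exists_int_hom ((N : ℕ) • (lat p).subtype) (by
        intro γ i
        obtain ⟨z, hz⟩ := hN1 γ γ.2 i
        exact ⟨z, by simpa using hz⟩)
    exact ⟨f', fun γ i => by rw [hf']; simp⟩
  set π : Finset (Fin n) → lat p →+ lat p := fun E =>
    { toFun := fun γ => ⟨(pE p E).mulVec (γ : Fin d → ℚ), lat_stable hi hc E γ.2⟩
      map_zero' := by ext1; simp
      map_add' := fun a b => by ext1; simp [Matrix.mulVec_add] } with hπ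
  have hπv : ∀ E (γ : lat p), ((π E γ : lat p) : Fin d → ℚ) = (pE p E).mulVec (γ : Fin d → ℚ) :=
    fun E γ => rfl
  have hπu : ∀ E F γ, π (E ∪ F) γ = π E (π F γ) := by
    intro E F γ
    ext1
    rw [hπv, hπv, hπv, pE_union p hi hc, Matrix.mulVec_mulVec]
  set t : Fin n → (Fin k → ℤ) →+ lat p := fun j =>
    { toFun := fun m => ⟨fun i => (((A j).mulVec m i : ℤ) : ℚ), int_mem_lat _⟩
      map_zero' := by ext1; funext i; simp
      map_add' := fun a b => by ext1; funext i; simp [Matrix.mulVec_add] } with ht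
  have htv : ∀ j m, ((t j m : lat p) : Fin d → ℚ) = fun i => (((A j).mulVec m i : ℤ) : ℚ) :=
    fun j m => rfl
  set B : Fin n → (Fin k → ℤ) →+ (Fin d → ℤ) := fun j => (Matrix.mulVecLin (A j)).toAddMonoidHom
    with hB
  have hBv : ∀ j m, B j m = (A j).mulVec m := fun j m => rfl
  have hA : Adm N sZ π (relId act) bZ (fun j => ({j} : Finset (Fin n))) t B := by
    constructor
    · intro j m
      ext1
      rw [hπv, htv, pE_singleton, ← mq_mulVec, Matrix.mulVec_mulVec]
      simp only [hp]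
      rw [hs]
    · intro j γ
      ext1
      rw [htv, ← mq_mulVec]
      have e : (fun l => ((sZ γ l : ℤ) : ℚ)) = (N : ℚ) • s.mulVec (γ : Fin d → ℚ) := by
        funext l
        rw [hsZ]; simp
      rw [e, Matrix.mulVec_smul, Matrix.mulVec_mulVec]
      show (N : ℚ) • (mq (A j) * s).mulVec (γ : Fin d → ℚ) = (((N • π {j} γ : lat p)) : Fin d → ℚ)
      rw [AddSubgroup.coe_nsmul, hπv, pE_singleton]
      funext i
      simp [hp]
    · intro j γ
      funext i
      have e1 : ((B j (sZ (π {j} γ)) i : ℤ) : ℚ)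
          = (mq (A j)).mulVec (fun l => ((sZ (π {j} γ) l : ℤ) : ℚ)) i := by
        rw [mq_mulVec, hBv]
      have e : (fun l => ((sZ (π {j} γ) l : ℤ) : ℚ))
          = (N : ℚ) • s.mulVec ((π {j} γ : lat p) : Fin d → ℚ) := by
        funext l
        rw [hsZ]; simp
      have e2 : ((B j (sZ (π {j} γ)) i : ℤ) : ℚ) = ((bZ (π {j} γ) i : ℤ) : ℚ) := by
        rw [e1, e, hbZ, Matrix.mulVec_smul, Matrix.mulVec_mulVec, hπv, pE_singleton,
          Matrix.mulVec_mulVec]
        have e3 : mq (A j) * s * p j = p j := hi j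
        rw [e3]
        simp
      exact_mod_cast e2
    · intro j m
      have e : N • B j m - bZ (t j m) = 0 := by
        funext i
        have e1 : ((((N • B j m - bZ (t j m)) i : ℤ)) : ℚ) = 0 := by
          rw [Pi.sub_apply, Int.cast_sub, hbZ, htv, hBv]
          simp
        exact_mod_cast e1
      rw [e]
      exact (triv _).zero_mem
  have h := rab hNpos hπu hA hFm hF1
  filter_upwards [h] with x hx
  refine hx.congr fun m => ?_
  have hm : Measurable fun z => ∏ j, F j ((relId act).aZ.S (B j (toZ m)) z) :=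
    Finset.measurable_fun_prod _ fun j _ => (hFm j).comp (act.mp _).measurable
  show ∫ z, ∏ j, F j ((relId act).aZ.S (B j (toZ m)) z) ∂(Kernel.id x) = _
  rw [Kernel.id_apply, integral_dirac' _ _ hm.stronglyMeasurable]
  rfl

end

/-- Theorem H1. -/
theorem thmH1 (d k n : ℕ) (T : Fin d → Equiv.Perm X)
    (hT : ∀ i, Measurable (T i) ∧ Measurable (T i).symm ∧ MeasurePreserving (T i) μ μ)
    (hcomm : ∀ i j, T i * T j = T j * T i)
    (A : Fin n → Matrix (Fin d) (Fin k) ℤ) (c : Fin n → Fin d → ℤ)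
    (s : Matrix (Fin k) (Fin d) ℚ)
    (hs : ∀ j, (A j).map (Int.cast : ℤ → ℚ) * s * (A j).map (Int.cast : ℤ → ℚ)
      = (A j).map (Int.cast : ℤ → ℚ))
    (hc : ∀ i j, Commute ((A i).map (Int.cast : ℤ → ℚ) * s) ((A j).map (Int.cast : ℤ → ℚ) * s))
    (f : Fin n → X → ℂ) (hf : ∀ j, MemLp (f j) ⊤ μ) :
    ∀ᵐ x ∂μ, ∃ L : ℂ, Tendsto (fun M : Fin k → ℕ => (∏ l, (M l : ℂ))⁻¹ *
      ∑ m ∈ Fintype.piFinset (fun l => Finset.Icc 1 (M l)), ∏ j, f j
        ((List.ofFn fun i => T i ^ ((A j).mulVec (fun l => (m l : ℤ)) i + c j i)).prod x))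
      atTop (𝓝 L) := by
  set c' : Fin n → Fin d → ℤ := fun j => (A j).mulVec 1 + c j with hc'
  have h1 := lift_complex (μ := μ) (κ := Fin k)
    (fun j m => pw T ((A j).mulVec (toZ m) + c' j)) (fun j m => mp_pw T hT _) ?_ f hf
  · filter_upwards [h1] with x hx
    obtain ⟨L, hL⟩ := hx
    refine ⟨L, hL.congr fun M => ?_⟩
    rw [sum_Icc_eq]
    congr 1
    refine Finset.sum_congr rfl fun m _ => Finset.prod_congr rfl fun j _ => ?_
    unfold pw
    have e : ∀ i, ((A j).mulVec (toZ m) + c' j) i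
        = (A j).mulVec (fun l => (((m + 1) l : ℕ) : ℤ)) i + c j i := by
      intro i
      have e2 : (fun l => (((m + 1) l : ℕ) : ℤ)) = toZ m + 1 := by
        funext l
        simp [toZ]
      rw [e2, Matrix.mulVec_add]
      simp only [hc', Pi.add_apply]
      ring
    simp only [e]
  · intro F hFm hF1
    have h2 := thmH1_real A s hs hc (permAct T hT hcomm) (fun j x => F j (pw T (c' j) x))
      (fun j => (hFm j).comp (mp_pw T hT _).measurable) (fun j x => hF1 j _)
    filter_upwards [h2] with x hx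
    refine hx.congr fun m => Finset.prod_congr rfl fun j _ => ?_
    show F j (pw T (c' j) (pw T ((A j).mulVec (toZ m)) x)) = _
    rw [add_comm ((A j).mulVec (toZ m)) (c' j), pw_add T hcomm (c' j)]
    rfl

end Pool.Agent.Lib.Pf720ae
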