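import Pool.Agent.Lib.Pf720ae.Lift

/-!
Rational common generalized inverses: the invariant lattice.
-/

set_option autoImplicit false
set_option linter.unusedSectionVars false

open MeasureTheory Filter Topology ProbabilityTheory Finset
open scoped ENNReal NNReal

namespace Pool.Agent.Lib.Pf720ae

lemma ofFn_prod_mul {M : Type*} [Monoid M] {n : ℕ} (a b : Fin n → M)
    (h : ∀ i j, Commute (a i) (b j)) :
    (List.ofFn fun i => a i * b i).prod = (List.ofFn a).prod * (List.ofFn b).prod := by
  induction n with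
  | zero => simp
  | succ n ih =>
    have h1 := ih (fun i => a i.succ) (fun i => b i.succ) (fun i j => h _ _)
    rw [List.ofFn_succ, List.ofFn_succ, List.ofFn_succ, List.prod_cons, List.prod_cons,
      List.prod_cons, h1]
    have hcm : Commute (b 0) (List.ofFn fun i : Fin n => a i.succ).prod := by
      refine Commute.list_prod_right _ _ fun y hy => ?_
      rw [List.mem_ofFn] at hy
      obtain ⟨i, rfl⟩ := hy
      exact (h _ _).symm
    calc a 0 * b 0 * ((List.ofFn fun i => a i.succ).prod * (List.ofFn fun i => b i.succ).prod)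
        = a 0 * (b 0 * (List.ofFn fun i => a i.succ).prod) * (List.ofFn fun i => b i.succ).prod := by
          simp only [mul_assoc]
      _ = _ := by rw [hcm.eq]; simp only [mul_assoc]

section idem

variable {R : Type*} [Monoid R] {n : ℕ} (p : Fin n → R)

/-- product of the idempotents indexed by `E` -/
def pE (E : Finset (Fin n)) : R := (List.ofFn fun i => if i ∈ E then p i else 1).prod

lemma pE_union (hi : ∀ i, p i * p i = p i) (hc : ∀ i j, Commute (p i) (p j))
    (E F : Finset (Fin n)) : pE p (E ∪ F) = pE p E * pE p F := by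
  unfold pE
  rw [← ofFn_prod_mul]
  · congr 2
    funext i
    by_cases h1 : i ∈ E <;> by_cases h2 : i ∈ F <;> simp [h1, h2, hi]
  · intro i j
    split_ifs
    · exact hc _ _
    · exact Commute.one_right _
    · exact Commute.one_left _
    · exact Commute.one_left _

lemma pE_empty : pE p ∅ = 1 := by
  unfold pE
  simp

lemma pE_singleton (j : Fin n) : pE p {j} = p j := by
  unfold pE
  induction n with
  | zero => exact j.elim0
  | succ n ih =>
    rw [List.ofFn_succ, List.prod_cons]
    refine Fin.cases ?_ (fun j => ?_) j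
    · have : (fun i : Fin n => if i.succ ∈ ({0} : Finset (Fin (n + 1))) then p i.succ else 1)
          = fun _ => 1 := by
        funext i
        simp [Fin.succ_ne_zero]
      rw [this]
      simp
    · have h1 := ih (fun i => p i.succ) j
      have h2 : (fun i : Fin n => if i.succ ∈ ({j.succ} : Finset (Fin (n + 1))) then p i.succ else 1)
          = fun i => if i ∈ ({j} : Finset (Fin n)) then p i.succ else 1 := by
        funext i
        simp [Fin.succ_inj]
      rw [h2, h1]
      simp [(Fin.succ_ne_zero j).symm]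

end idem

lemma exists_denom {ι : Type*} [Finite ι] (f : ι → ℚ) : ∃ D : ℕ, 0 < D ∧ ∀ i, ∃ z : ℤ,
    (D : ℚ) * f i = z := by
  classical
  have := Fintype.ofFinite ι
  refine ⟨∏ i, (f i).den, Finset.prod_pos fun i _ => (f i).den_pos, fun i => ?_⟩
  obtain ⟨r, hr⟩ := Finset.dvd_prod_of_mem (fun i => (f i).den) (Finset.mem_univ i)
  refine ⟨(r : ℤ) * (f i).num, ?_⟩
  rw [hr]
  push_cast
  have h1 : ((f i).den : ℚ) * f i = (f i).num := by
    rw [mul_comm]; exact Rat.mul_den_eq_num _
  calc ((f i).den : ℚ) * r * f i = r * (((f i).den : ℚ) * f i) := by ring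
    _ = _ := by rw [h1]

/-- integral homomorphisms -/
lemma exists_int_hom {G ι : Type*} [AddCommGroup G] (f : G →+ (ι → ℚ))
    (h : ∀ g i, ∃ z : ℤ, f g i = z) : ∃ f' : G →+ (ι → ℤ), ∀ g i, ((f' g i : ℤ) : ℚ) = f g i := by
  choose F hF using h
  refine ⟨⟨⟨F, ?_⟩, ?_⟩, ?_⟩
  · funext i
    have h1 := hF 0 i
    rw [map_zero] at h1
    have h2 : ((F 0 i : ℤ) : ℚ) = 0 := h1.symm
    exact_mod_cast h2
  · intro a b
    funext i
    have h1 := hF (a + b) i
    rw [map_add, Pi.add_apply, hF a i, hF b i] at h1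
    have h2 : F a i + F b i = F (a + b) i := by exact_mod_cast h1
    exact h2.symm
  · intro g i
    exact (hF g i).symm

section lattice

variable {n d k : ℕ} (p : Fin n → Matrix (Fin d) (Fin d) ℚ)

/-- the invariant lattice -/
def lat : AddSubgroup (Fin d → ℚ) :=
  AddSubgroup.closure {v | ∃ (E : Finset (Fin n)) (i : Fin d), v = (pE p E).mulVec (Pi.single i 1)}

variable {p}

lemma lat_stable (hi : ∀ i, p i * p i = p i) (hc : ∀ i j, Commute (p i) (p j))
    (F : Finset (Fin n)) {v : Fin d → ℚ} (hv : v ∈ lat p) : (pE p F).mulVec v ∈ lat p := by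
  unfold lat at hv
  induction hv using AddSubgroup.closure_induction with
  | mem x hx =>
    obtain ⟨E, i, rfl⟩ := hx
    refine AddSubgroup.subset_closure ⟨F ∪ E, i, ?_⟩
    rw [pE_union p hi hc, Matrix.mulVec_mulVec]
  | zero => rw [Matrix.mulVec_zero]; exact (lat p).zero_mem
  | add x y _ _ hx hy => rw [Matrix.mulVec_add]; exact (lat p).add_mem hx hy
  | neg x _ hx => rw [Matrix.mulVec_neg]; exact (lat p).neg_mem hx

lemma int_mem_lat (v : Fin d → ℤ) : (fun i => (v i : ℚ)) ∈ lat p := by
  have h : (fun i => (v i : ℚ)) = ∑ i, v i • (pE p ∅).mulVec (Pi.single i (1 : ℚ)) := by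
    rw [pE_empty]
    simp only [Matrix.one_mulVec]
    funext j
    simp [Finset.sum_apply, Pi.single_apply]
  rw [h]
  exact (lat p).sum_mem fun i _ => (lat p).zsmul_mem (AddSubgroup.subset_closure ⟨∅, i, rfl⟩) _

lemma lat_denom {ι : Type*} [Finite ι] (L : (Fin d → ℚ) →ₗ[ℚ] (ι → ℚ)) :
    ∃ D : ℕ, 0 < D ∧ ∀ v ∈ lat p, ∀ i, ∃ z : ℤ, (D : ℚ) * L v i = z := by
  obtain ⟨D, hD, h⟩ := exists_denom
    (fun q : (Finset (Fin n) × Fin d) × ι => L ((pE p q.1.1).mulVec (Pi.single q.1.2 1)) q.2)
  refine ⟨D, hD, fun v hv => ?_⟩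
  unfold lat at hv
  induction hv using AddSubgroup.closure_induction with
  | mem x hx =>
    obtain ⟨E, i, rfl⟩ := hx
    intro j
    exact h ((E, i), j)
  | zero => intro i; exact ⟨0, by simp⟩
  | add x y _ _ hx hy =>
    intro i
    obtain ⟨a, ha⟩ := hx i
    obtain ⟨b, hb⟩ := hy i
    exact ⟨a + b, by rw [map_add, Pi.add_apply, mul_add, ha, hb]; push_cast; ring⟩
  | neg x _ hx =>
    intro i
    obtain ⟨a, ha⟩ := hx i
    exact ⟨-a, by rw [map_neg, Pi.neg_apply, mul_neg, ha]; push_cast; ring⟩

end lattice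

end Pool.Agent.Lib.Pf720ae
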