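import Pool.Agent.Lib.Pf720ae.Uni3
import Pool.Agent.Lib.Pf720ae.Rat

/-!
Linearly independent integer vectors have an integral quasi-inverse.
-/

set_option autoImplicit false
set_option linter.unusedSectionVars false

open MeasureTheory Filter Topology ProbabilityTheory Finset
open scoped ENNReal NNReal

namespace Pool.Agent.Lib.Pf720ae

variable {κ : Type} [Fintype κ] [DecidableEq κ] {r : ℕ}

lemma exists_rho (v : Fin r → κ → ℤ) (hv : LinearIndependent ℤ v) :
    ∃ N₁ : ℕ, 0 < N₁ ∧ ∃ ρ : (κ → ℤ) →+ (Fin r → ℤ), ∀ γ, ρ (lin v γ) = N₁ • γ := by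
  classical
  -- cast to the rationals
  set cst : (κ → ℤ) →ₗ[ℤ] (κ → ℚ) :=
    { toFun := fun p l => (p l : ℚ)
      map_add' := fun p q => by funext l; simp
      map_smul' := fun a p => by funext l; simp } with hcst
  have hinj : Function.Injective cst := by
    intro p q h
    funext l
    have := congrFun h l
    simp only [hcst, LinearMap.coe_mk, AddHom.coe_mk] at this
    exact_mod_cast this
  have h1 : LinearIndependent ℤ (cst ∘ v) := hv.map' cst (LinearMap.ker_eq_bot.2 hinj)
  have h2 : LinearIndependent ℚ (cst ∘ v) := (LinearIndependent.iff_fractionRing ℤ ℚ).1 h1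
  have h3 : Function.Injective (Fintype.linearCombination ℚ (cst ∘ v)) :=
    linearIndependent_iff_injective_fintypeLinearCombination.1 h2
  obtain ⟨L, hL⟩ := (Fintype.linearCombination ℚ (cst ∘ v)).exists_leftInverse_of_injective
    (LinearMap.ker_eq_bot.2 h3)
  have hLv : ∀ γ : Fin r → ℤ, L (cst (lin v γ)) = fun α => (γ α : ℚ) := by
    intro γ
    have e : cst (lin v γ) = Fintype.linearCombination ℚ (cst ∘ v) (fun α => (γ α : ℚ)) := by
      rw [lin_apply, map_sum, Fintype.linearCombination_apply]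
      refine Finset.sum_congr rfl fun α _ => ?_
      rw [map_zsmul]
      funext l
      simp
    rw [e]
    exact LinearMap.congr_fun hL _
  obtain ⟨D, hD, hDz⟩ := exists_denom (fun q : κ × Fin r => L (Pi.single q.1 1) q.2)
  have hint : ∀ (p : κ → ℤ) (α : Fin r), ∃ z : ℤ, (D : ℚ) * L (cst p) α = z := by
    intro p α
    choose z hz using fun l => hDz (l, α)
    refine ⟨∑ l, p l * z l, ?_⟩
    have e : cst p = ∑ l, (p l : ℚ) • (Pi.single l (1 : ℚ) : κ → ℚ) := by
      funext q
      simp [hcst, Finset.sum_apply, Pi.single_apply]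
    rw [e, map_sum, Finset.sum_apply, Finset.mul_sum]
    push_cast
    refine Finset.sum_congr rfl fun l _ => ?_
    rw [map_smul, Pi.smul_apply, smul_eq_mul, ← hz l]
    ring
  obtain ⟨ρ, hρ⟩ := exists_int_hom (((D : ℕ) • L.toAddMonoidHom).comp cst.toAddMonoidHom) (by
    intro p α
    obtain ⟨z, hz⟩ := hint p α
    exact ⟨z, by rw [← hz]; simp⟩)
  refine ⟨D, hD, ρ, fun γ => ?_⟩
  funext α
  have h4 := hρ (lin v γ) α
  have h5 : ((ρ (lin v γ) α : ℤ) : ℚ) = ((D • γ) α : ℤ) := by
    rw [h4]
    show (D • L (cst (lin v γ))) α = _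
    rw [hLv]
    simp
  exact_mod_cast h5

end Pool.Agent.Lib.Pf720ae
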