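import Pool.Agent.Lib.Pf720ae.InvMaster

/-!
Families with invariances over a relative system, and their extension.
-/

set_option autoImplicit false
set_option linter.unusedSectionVars false

open MeasureTheory Filter Topology ProbabilityTheory Finset
open scoped ENNReal NNReal

namespace Pool.Agent.Lib.Pf720ae

variable {κ : Type} [Fintype κ] [DecidableEq κ]
variable {X : Type} [MeasurableSpace X] {μ : Measure X} [IsProbabilityMeasure μ]
variable {ι : Type} [DecidableEq ι]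

/-- kernels and equalizers -/
structure KS (κ ι : Type) [DecidableEq ι] where
  /-- sums of kernels -/
  Kr : Finset ι → AddSubgroup (κ → ℤ)
  /-- equalizers -/
  Sg : Finset ι → AddSubgroup (κ → ℤ)
  /-- a positive integer -/
  N : ℕ
  hN : 0 < N
  /-- the part in the equalizer -/
  sg : Finset ι → (κ → ℤ) →+ (κ → ℤ)
  /-- the part in the kernels -/
  kr : Finset ι → (κ → ℤ) →+ (κ → ℤ)
  un : ∀ E F, ∀ k ∈ Kr (E ∪ F), ∃ k₁ ∈ Kr E, ∃ k₂ ∈ Kr F, k = k₁ + k₂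
  msg : ∀ E, 2 ≤ E.card → ∀ p, sg E p ∈ Sg E
  mkr : ∀ E, 2 ≤ E.card → ∀ p, kr E p ∈ Kr E
  sum : ∀ E, 2 ≤ E.card → ∀ p, N • p = sg E p + kr E p

variable {Z : Type} [MeasurableSpace Z] {Q : Type} [AddCommGroup Q] {J : Type}

/-- families with invariances -/
structure St (D : KS κ ι) (R : Rel μ Z Q) (g : J → Z → ℝ) (E : J → Finset ι)
    (B : J → (κ → ℤ) →+ Q) : Prop where
  h1 : ∀ j, ∀ k ∈ D.Kr (E j), ∃ v ∈ triv R, B j k - v ∈ stab R (g j)
  h2 : ∀ F, ∀ σ ∈ D.Sg F, ∃ β : Q, ∀ j, E j ⊆ F → B j σ - β ∈ stab R (g j)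

/-- choices for merging -/
lemma St.choices {D : KS κ ι} {R : Rel μ Z Q} {g : J → Z → ℝ} {E : J → Finset ι}
    {B : J → (κ → ℤ) →+ Q} (hS : St D R g E B) (j₀ : J) (hE : 2 ≤ (E j₀).card) :
    ∃ (t : (κ → ℤ) →+ stab R (g j₀)) (v : J → (κ → ℤ) →+ Q),
      (∀ j, E j = E j₀ → ∀ p, B j (D.sg (E j₀) p) - B j₀ (D.sg (E j₀) p) - (t p : Q)
        ∈ stab R (g j)) ∧
      (∀ j, E j = E j₀ → ∀ p, v j p ∈ triv R) ∧
      (∀ j, E j = E j₀ → ∀ p, B j (D.kr (E j₀) p) - v j p ∈ stab R (g j)) := by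
  classical
  have hb : ∀ p : κ → ℤ, (p : κ → ℤ) = ∑ l, p l • (Pi.single l (1 : ℤ) : κ → ℤ) := by
    intro p
    funext q
    simp [Finset.sum_apply, Pi.single_apply]
  have hlin : ∀ (f : (κ → ℤ) →+ Q) (p : κ → ℤ), f p = ∑ l, p l • f (Pi.single l 1) := by
    intro f p
    conv_lhs => rw [hb p, map_sum]
    exact Finset.sum_congr rfl fun l _ => map_zsmul _ _ _
  have hlin2 : ∀ (f : (κ → ℤ) →+ Q) (s : (κ → ℤ) →+ (κ → ℤ)) (p : κ → ℤ),
      f (s p) = ∑ l, p l • f (s (Pi.single l 1)) := fun f s p => hlin (f.comp s) p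
  choose β hβ using fun l : κ => hS.h2 (E j₀) (D.sg (E j₀) (Pi.single l 1)) (D.msg _ hE _)
  have ht : ∀ l, β l - B j₀ (D.sg (E j₀) (Pi.single l 1)) ∈ stab R (g j₀) := by
    intro l
    have h := (stab R (g j₀)).neg_mem (hβ l j₀ (Finset.Subset.refl _))
    rwa [neg_sub] at h
  have hv : ∀ (j : J) (l : κ), ∃ v : Q, E j = E j₀ → v ∈ triv R ∧
      B j (D.kr (E j₀) (Pi.single l 1)) - v ∈ stab R (g j) := by
    intro j l
    by_cases h : E j = E j₀
    · obtain ⟨v, hv1, hv2⟩ := hS.h1 j (D.kr (E j₀) (Pi.single l 1))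
        (by rw [h]; exact D.mkr _ hE _)
      exact ⟨v, fun _ => ⟨hv1, hv2⟩⟩
    · exact ⟨0, fun h' => absurd h' h⟩
  choose v hv using hv
  refine ⟨lin fun l => ⟨_, ht l⟩, fun j => lin (v j), ?_, ?_, ?_⟩
  · intro j hj p
    have e : B j (D.sg (E j₀) p) - B j₀ (D.sg (E j₀) p)
        - ((lin (fun l => (⟨_, ht l⟩ : stab R (g j₀))) p : stab R (g j₀)) : Q)
        = ∑ l, p l • (B j (D.sg (E j₀) (Pi.single l 1)) - β l) := by
      rw [lin_apply, AddSubgroup.val_finsetSum, hlin2 (B j) (D.sg (E j₀)) p,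
        hlin2 (B j₀) (D.sg (E j₀)) p, ← Finset.sum_sub_distrib, ← Finset.sum_sub_distrib]
      refine Finset.sum_congr rfl fun l _ => ?_
      rw [AddSubgroup.coe_zsmul, ← smul_sub, ← smul_sub]
      congr 1
      show B j (D.sg (E j₀) (Pi.single l 1)) - B j₀ (D.sg (E j₀) (Pi.single l 1))
        - (β l - B j₀ (D.sg (E j₀) (Pi.single l 1))) = B j (D.sg (E j₀) (Pi.single l 1)) - β l
      abel
    rw [e]
    exact AddSubgroup.sum_mem _ fun l _ => AddSubgroup.zsmul_mem _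
      (hβ l j (by rw [hj])) _
  · intro j hj p
    rw [lin_apply]
    exact AddSubgroup.sum_mem _ fun l _ => AddSubgroup.zsmul_mem _ (hv j l hj).1 _
  · intro j hj p
    have e : B j (D.kr (E j₀) p) - lin (v j) p
        = ∑ l, p l • (B j (D.kr (E j₀) (Pi.single l 1)) - v j l) := by
      rw [lin_apply, hlin2 (B j) (D.kr (E j₀)) p, ← Finset.sum_sub_distrib]
      refine Finset.sum_congr rfl fun l _ => ?_
      rw [← smul_sub]
    rw [e]
    exact AddSubgroup.sum_mem _ fun l _ => AddSubgroup.zsmul_mem _ (hv j l hj).2 _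

end Pool.Agent.Lib.Pf720ae
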