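import Pool.Agent.Lib.Pf720ae.InvExt

/-!
Convergence for families with invariances.
-/

set_option autoImplicit false
set_option linter.unusedSectionVars false

open MeasureTheory Filter Topology ProbabilityTheory Finset
open scoped ENNReal NNReal

namespace Pool.Agent.Lib.Pf720ae

variable {κ : Type} [Fintype κ] [DecidableEq κ]
variable {X : Type} [MeasurableSpace X] {μ : Measure X} [IsProbabilityMeasure μ]
variable {ι : Type} [DecidableEq ι]
variable {Z : Type} [MeasurableSpace Z] {Q : Type} [AddCommGroup Q] {J : Type}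

/-- the pointwise identity behind the elimination -/
lemma key_identityI [Fintype J] [DecidableEq J] {R : Rel μ Z Q} {g : J → Z → ℝ}
    {B : J → (κ → ℤ) →+ Q} {j₀ : J}
    {K' : Kernel Z (Om {j : J // j ≠ j₀} Q Q)}
    {hK : EqKer R.aZ (B j₀) (fun j : {j : J // j ≠ j₀} => B j) K'}
    {hinv : ∀ i ∈ stab R (g j₀), ∀ᵐ z ∂(R.ν), K' (R.aZ.S i z) = K' z}
    {E : J → Finset ι} {D : KS κ ι} (hE : 2 ≤ (E j₀).card)
    {t : (κ → ℤ) →+ stab R (g j₀)} {v : J → (κ → ℤ) →+ Q}
    (P1 : ∀ j, E j = E j₀ → ∀ p, B j (D.sg (E j₀) p) - B j₀ (D.sg (E j₀) p) - (t p : Q)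
        ∈ stab R (g j))
    (P2 : ∀ j, E j = E j₀ → ∀ p, v j p ∈ triv R)
    (P3 : ∀ j, E j = E j₀ → ∀ p, B j (D.kr (E j₀) p) - v j p ∈ stab R (g j))
    (c p : κ → ℕ) (z : Z) (ω : Om {j : J // j ≠ j₀} Q Q)
    (hz : ∀ (j : J) (θ : Q), ∀ i ∈ stab R (g j), g j (R.aZ.S (θ + i) z) = g j (R.aZ.S θ z))
    (hω1 : ∀ (j : {j : J // j ≠ j₀}) (q : Q), ∀ u ∈ triv R, ω j q (0 + u) = ω j (q + u) 0)
    (hω2 : ∀ (j : {j : J // j ≠ j₀}) (q : Q), ∀ i ∈ stab R (g j), ω j (q + i) 0 = ω j q 0) :
    ∏ j : {j : J // j ≠ j₀}, (((ω j (B j (toZ (D.N • p + c))) 0 : Ic) : ℝ)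
        * g j (R.aZ.S (B j (toZ (D.N • p + c))) z))
      = ∏ j', newgI R g B j₀ E c j' ((relI R g B j₀ hK hinv).aZ.S
          (newBI R g B j₀ E D t v j' (toZ p)) (z, ω)) := by
  have hcast : toZ (D.N • p + c) = D.N • toZ p + toZ c := by
    funext l
    simp [toZ]
  set W : {j : J // j ≠ j₀} → ℝ := fun j => ((ω j (B j (toZ (D.N • p + c))) 0 : Ic) : ℝ) with hW
  set G : {j : J // j ≠ j₀} → ℝ := fun j => g j (R.aZ.S (B j (toZ (D.N • p + c))) z) with hG
  have hinr : ∀ j : {j : {j : J // j ≠ j₀} // E j ≠ E j₀}, newgI R g B j₀ E c (Sum.inr j)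
      ((relI R g B j₀ hK hinv).aZ.S (newBI R g B j₀ E D t v (Sum.inr j) (toZ p)) (z, ω)) = W j.1 := by
    intro j
    show ((ω j.1 (B j.1 (toZ c) + B j.1 (D.N • toZ p)) (0 + 0) : Ic) : ℝ) = W j.1
    simp only [hW]
    rw [hcast, map_add, add_zero, add_comm]
  have hinl : ∀ j : {j : J // j ≠ j₀}, newgI R g B j₀ E c (Sum.inl j)
      ((relI R g B j₀ hK hinv).aZ.S (newBI R g B j₀ E D t v (Sum.inl j) (toZ p)) (z, ω))
        = G j * (if E j = E j₀ then W j else 1) := by
    intro j
    by_cases hj : E j = E j₀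
    · have e : newBI R g B j₀ E D t v (Sum.inl j) (toZ p)
          = (D.sg (E j₀) (toZ p), t (toZ p), v j (toZ p)) := by
        show (if E j = E j₀ then (D.sg (E j₀)).prod (t.prod (v j)) else _) (toZ p) = _
        rw [if_pos hj]
        rfl
      rw [e]
      show g j (R.aZ.S (B j (toZ c)) (R.aZ.S (B j₀ (D.sg (E j₀) (toZ p))
          + ((t (toZ p) : Q) + v j (toZ p))) z)) *
        (if E j = E j₀ then ((ω j (B j (toZ c) + B j (D.sg (E j₀) (toZ p)))
          (0 + v j (toZ p)) : Ic) : ℝ) else 1) = _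
      rw [if_pos hj, if_pos hj]
      have e1 : B j (toZ (D.N • p + c)) = (B j (toZ c) + (B j₀ (D.sg (E j₀) (toZ p))
          + ((t (toZ p) : Q) + v j (toZ p))))
          + ((B j (D.sg (E j₀) (toZ p)) - B j₀ (D.sg (E j₀) (toZ p)) - (t (toZ p) : Q))
            + (B j (D.kr (E j₀) (toZ p)) - v j (toZ p))) := by
        rw [hcast, map_add, D.sum (E j₀) hE, map_add]
        abel
      have e2 : B j (toZ (D.N • p + c)) = (B j (toZ c) + B j (D.sg (E j₀) (toZ p))
          + v j (toZ p)) + (B j (D.kr (E j₀) (toZ p)) - v j (toZ p)) := by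
        rw [hcast, map_add, D.sum (E j₀) hE, map_add]
        abel
      congr 1
      · simp only [hG]
        rw [e1, hz j _ _ (AddSubgroup.add_mem _ (P1 j hj _) (P3 j hj _)), ← R.aZ.add]
      · simp only [hW]
        rw [e2, hω2 j _ _ (P3 j hj _), hω1 j _ _ (P2 j hj _)]
    · have e : newBI R g B j₀ E D t v (Sum.inl j) (toZ p)
            = (D.N • toZ p, 0, D.N • (B j (toZ p) - B j₀ (toZ p))) := by
        show (if E j = E j₀ then _ else (D.N • AddMonoidHom.id _).prod
          (AddMonoidHom.prod 0 (D.N • (B j - B j₀)))) (toZ p) = _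
        rw [if_neg hj]
        rfl
      rw [e]
      show g j (R.aZ.S (B j (toZ c)) (R.aZ.S (B j₀ (D.N • toZ p)
          + (((0 : stab R (g j₀)) : Q) + D.N • (B j (toZ p) - B j₀ (toZ p)))) z)) *
        (if E j = E j₀ then ((ω j (B j (toZ c) + B j (D.N • toZ p))
          (0 + D.N • (B j (toZ p) - B j₀ (toZ p))) : Ic) : ℝ) else 1) = _
      rw [if_neg hj, if_neg hj]
      simp only [hG]
      rw [← R.aZ.add, hcast, map_add, map_nsmul, map_nsmul, smul_sub, ZeroMemClass.coe_zero]
      congr 3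
      abel
  rw [Fintype.prod_sum_type]
  simp only [hinl, hinr]
  rw [Finset.prod_mul_distrib, Finset.prod_mul_distrib, mul_comm (∏ j, W j), mul_assoc]
  congr 1
  have h1 : ∏ j : {j : {j : J // j ≠ j₀} // E j ≠ E j₀}, W j.1
      = ∏ j : {j : J // j ≠ j₀}, if E j ≠ E j₀ then W j else 1 := by
    rw [← Finset.prod_filter]
    exact (Finset.prod_subtype _ (by simp) _).symm
  rw [h1, ← Finset.prod_mul_distrib]
  refine Finset.prod_congr rfl fun j _ => ?_
  by_cases h : E j = E j₀ <;> simp [h]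

/-- the elimination step -/
lemma elim_stepI [Fintype J] [DecidableEq J] [Countable Q] [Module.Finite ℤ Q] {R : Rel μ Z Q}
    {g : J → Z → ℝ} {B : J → (κ → ℤ) →+ Q} {E : J → Finset ι} {D : KS κ ι}
    (hS : St D R g E B) (j₀ : J) (hE : 2 ≤ (E j₀).card)
    [Nonempty {j : J // j ≠ j₀}]
    (hgm : ∀ j, Measurable (g j)) (hg1 : ∀ j z, |g j z| ≤ 1)
    (hnext : ∀ (K' : Kernel Z (Om {j : J // j ≠ j₀} Q Q))
      (hK : EqKer R.aZ (B j₀) (fun j : {j : J // j ≠ j₀} => B j) K')
      (hinv : ∀ i ∈ stab R (g j₀), ∀ᵐ z ∂(R.ν), K' (R.aZ.S i z) = K' z)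
      (t : (κ → ℤ) →+ stab R (g j₀)) (v : J → (κ → ℤ) →+ Q) (c : κ → ℕ),
      St D (relI R g B j₀ hK hinv) (newgI R g B j₀ E c) (newEI j₀ E) (newBI R g B j₀ E D t v) →
      ∀ᵐ x ∂μ, Cvg fun m => ∫ w, ∏ j', newgI R g B j₀ E c j'
        ((relI R g B j₀ hK hinv).aZ.S (newBI R g B j₀ E D t v j' (toZ m)) w)
          ∂((relI R g B j₀ hK hinv).K x)) :
    ∀ᵐ x ∂μ, Cvg fun m => ∫ z, ∏ j, g j (R.aZ.S (B j (toZ m)) z) ∂(R.K x) := by
  have hprob := R.prob
  have hmk := R.markov
  obtain ⟨t, v, P1, P2, P3⟩ := hS.choices j₀ hE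
  set B' : {j : J // j ≠ j₀} → (κ → ℤ) →+ Q := fun j => B j with hB'
  set g' : {j : J // j ≠ j₀} → Z → ℝ := fun j => g j with hg'
  have hmain : RCv R (B j₀) (wtg R B' g') (g j₀) := by
    refine rel_master_inv R (B j₀) B' g' (fun j => hgm j) (fun j => hg1 j) (g j₀)
      (memLp_of_bdd (hgm j₀) (hg1 j₀)) ?_
    intro K' hK hv hs hinv
    have hmk' := hK.markov
    -- the relations
    have hz : ∀ᵐ z ∂(R.ν), ∀ (j : J) (θ : Q), ∀ i ∈ stab R (g j),
        g j (R.aZ.S (θ + i) z) = g j (R.aZ.S θ z) := ae_all_iff.2 fun j => stab_all'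
    have hω1 : ∀ᵐ z ∂(R.ν), ∀ᵐ ω ∂(K' z), ∀ (j : {j : J // j ≠ j₀}) (q : Q),
        ∀ u : triv R, ω j q (0 + (u : Q)) = ω j (q + (u : Q)) 0 := by
      simp only [ae_all_iff]
      intro j q u
      exact hv _ u.2 j _ 0
    have hω2 : ∀ᵐ z ∂(R.ν), ∀ᵐ ω ∂(K' z), ∀ (j : {j : J // j ≠ j₀}) (q : Q),
        ∀ i : stab R (g j), ω j (q + (i : Q)) 0 = ω j q 0 := by
      simp only [ae_all_iff]
      intro j q i
      exact hs j _ i.2 q 0
    have hall : ∀ᵐ x ∂μ, ∀ c : κ → ℕ, Cvg fun m => ∫ w, ∏ j', newgI R g B j₀ E c j'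
        ((relI R g B j₀ hK hinv).aZ.S (newBI R g B j₀ E D t v j' (toZ m)) w)
          ∂((relI R g B j₀ hK hinv).K x) :=
      ae_all_iff.2 fun c => hnext K' hK hinv t v c (hS.ext hE hv hs P1 P2 P3 c)
    filter_upwards [hall, R.ae (hz.and (hω1.and hω2)), R.ae (dual_shift hK)] with x hx hxv hxd
    refine Cvg.of_cosets D.hN fun c => (hx c).congr fun p => ?_
    have hint : Integrable (fun w => ∏ j', newgI R g B j₀ E c j'
        ((relI R g B j₀ hK hinv).aZ.S (newBI R g B j₀ E D t v j' (toZ p)) w))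
          ((R.K x) ⊗ₘ K') := by
      refine Integrable.of_bound ?_ 1 ?_
      · exact (Finset.measurable_fun_prod _ fun j' _ => (measurable_newgI hgm c j').comp
          ((relI R g B j₀ hK hinv).aZ.mp _).measurable).aestronglyMeasurable
      · exact Eventually.of_forall fun w => by
          rw [Real.norm_eq_abs]
          exact abs_prod_le_one _ _ fun j' => abs_newgI_le hg1 c j' _
    have hKx : (relI R g B j₀ hK hinv).K x = (R.K x) ⊗ₘ K' := kk_apply _ _ x
    rw [hKx, Measure.integral_compProd hint]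
    unfold Tm
    refine integral_congr_ae ?_
    filter_upwards [hxv, hxd] with z hz hzd
    rw [hzd (toZ (D.N • p + c)), ← integral_mul_const]
    refine integral_congr_ae ?_
    filter_upwards [hz.2.1, hz.2.2] with ω hω1 hω2
    rw [← key_identityI hE P1 P2 P3 c p z ω hz.1 (fun j q u hu => hω1 j q ⟨u, hu⟩)
      (fun j q i hi => hω2 j q ⟨i, hi⟩)]
    unfold wtg
    rw [← Finset.prod_mul_distrib]
  filter_upwards [hmain] with x hx
  refine hx.congr fun m => ?_
  unfold Tm
  refine integral_congr_ae (Eventually.of_forall fun z => ?_)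
  simp only
  rw [Fintype.prod_eq_mul_prod_subtype_ne _ j₀]
  rfl

instance {R : Rel μ Z Q} {g : Z → ℝ} [Module.Finite ℤ Q] : Module.Finite ℤ (stab R g) :=
  Module.Finite.of_injective (stab R g).subtype.toIntLinearMap Subtype.val_injective

/-- Convergence for families with invariances, inductive form. -/
theorem inv_aux [Fintype ι] (D : KS κ ι) :
    ∀ (k a : ℕ) (_ : 2 ≤ a) (_ : Fintype.card ι + 1 ≤ a + k) (n : ℕ)
      (Z : Type) [MeasurableSpace Z] (Q : Type) [AddCommGroup Q] [Countable Q]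
      [Module.Finite ℤ Q] (R : Rel μ Z Q)
      (J : Type) [Fintype J] [DecidableEq J] (E : J → Finset ι)
      (B : J → (κ → ℤ) →+ Q) (g : J → Z → ℝ)
      (_ : ∀ j, Measurable (g j)) (_ : ∀ j z, |g j z| ≤ 1) (_ : St D R g E B)
      (_ : ∀ j, a ≤ (E j).card) (_ : (Finset.univ.filter fun j => (E j).card = a).card ≤ n),
      ∀ᵐ x ∂μ, Cvg fun m => ∫ z, ∏ j, g j (R.aZ.S (B j (toZ m)) z) ∂(R.K x) := by
  intro k
  induction k with
  | zero =>
    intro a h2 ha n Z _ Q _ _ _ R J _ _ E B g hgm hg1 hS hE hn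
    have hJ : IsEmpty J := by
      refine ⟨fun j => ?_⟩
      have h1 := hE j
      have h2 := Finset.card_le_univ (E j)
      omega
    have hmk := R.markov
    refine Eventually.of_forall fun x => ?_
    exact (Cvg.const 1).congr fun m => by simp
  | succ k ihk =>
    intro a h2 ha n
    induction n with
    | zero =>
      intro Z _ Q _ _ _ R J _ _ E B g hgm hg1 hS hE hn
      refine ihk (a + 1) (by omega) (by omega) _ Z Q R J E B g hgm hg1 hS (fun j => ?_) le_rfl
      have h1 := hE j
      rcases Nat.eq_or_lt_of_le h1 with h2 | h2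
      · exfalso
        have h3 : j ∈ Finset.univ.filter fun j => (E j).card = a := by
          simp [h2.symm]
        rw [Nat.le_zero, Finset.card_eq_zero] at hn
        rw [hn] at h3
        simp at h3
      · exact h2
    | succ n ihn =>
      intro Z _ Q _ _ _ R J _ _ E B g hgm hg1 hS hE hn
      by_cases hcount : (Finset.univ.filter fun j => (E j).card = a).card ≤ n
      · exact ihn Z Q R J E B g hgm hg1 hS hE hcount
      push Not at hcount
      have hpos : 0 < (Finset.univ.filter fun j => (E j).card = a).card := by omega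
      obtain ⟨j₀, hj₀⟩ := Finset.card_pos.1 hpos
      simp only [Finset.mem_filter, Finset.mem_univ, true_and] at hj₀
      rcases isEmpty_or_nonempty {j : J // j ≠ j₀} with hemp | hne
      · have h1 := single_case R (B j₀) (hgm j₀) (hg1 j₀)
        filter_upwards [h1] with x hx
        refine hx.congr fun m => ?_
        refine integral_congr_ae (Eventually.of_forall fun z => ?_)
        simp only
        rw [Fintype.prod_eq_mul_prod_subtype_ne _ j₀]
        simp
      · refine elim_stepI hS j₀ (by omega) hgm hg1 fun K' hK hinv t v c hS' => ?_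
        have hcardE : ∀ j' : {j : {j : J // j ≠ j₀} // E j ≠ E j₀}, a < (E j₀ ∪ E j'.1).card := by
          intro j'
          by_contra hcon
          push Not at hcon
          have h1 : E j₀ = E j₀ ∪ E j'.1 :=
            Finset.eq_of_subset_of_card_le Finset.subset_union_left (by rw [hj₀]; exact hcon)
          have h2 : E j'.1 = E j₀ ∪ E j'.1 :=
            Finset.eq_of_subset_of_card_le Finset.subset_union_right
              (hcon.trans (hE _))
          exact j'.2 (h2.trans h1.symm)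
        refine ihn (Z × Om {j : J // j ≠ j₀} Q Q) ((κ → ℤ) × (stab R (g j₀)) × Q)
          (relI R g B j₀ hK hinv)
          ({j : J // j ≠ j₀} ⊕ {j : {j : J // j ≠ j₀} // E j ≠ E j₀}) (newEI j₀ E)
          (newBI R g B j₀ E D t v) (newgI R g B j₀ E c) (measurable_newgI hgm c)
          (abs_newgI_le hg1 c) hS' ?_ ?_
        · rintro (j | j)
          · exact hE j
          · exact (hcardE j).le
        · -- counting
          have hsub : (Finset.univ.filter fun j' : {j : J // j ≠ j₀} ⊕
              {j : {j : J // j ≠ j₀} // E j ≠ E j₀} => (newEI j₀ E j').card = a).card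
              ≤ ((Finset.univ.filter fun j => (E j).card = a).erase j₀).card := by
            refine Finset.card_le_card_of_injOn
              (fun j' => Sum.elim (fun j : {j : J // j ≠ j₀} => (j : J)) (fun _ => j₀) j') ?_ ?_
            · rintro (j | j) hj
              · have h1 : (E j).card = a := (Finset.mem_filter.1 (Finset.mem_coe.1 hj)).2
                simp [h1, j.2]
              · exfalso
                have h1 : (E j₀ ∪ E j.1).card = a := (Finset.mem_filter.1 (Finset.mem_coe.1 hj)).2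
                have := hcardE j
                omega
            · rintro (j | j) hj (j' | j') hj' h
              · simp only [Sum.elim_inl] at h
                exact congrArg Sum.inl (Subtype.ext h)
              · exfalso
                have h1 : (E j₀ ∪ E j'.1).card = a := (Finset.mem_filter.1 (Finset.mem_coe.1 hj')).2
                have := hcardE j'
                omega
              · exfalso
                have h1 : (E j₀ ∪ E j.1).card = a := (Finset.mem_filter.1 (Finset.mem_coe.1 hj)).2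
                have := hcardE j
                omega
              · exfalso
                have h1 : (E j₀ ∪ E j.1).card = a := (Finset.mem_filter.1 (Finset.mem_coe.1 hj)).2
                have := hcardE j
                omega
          refine hsub.trans ?_
          rw [Finset.card_erase_of_mem (by simp [hj₀])]
          omega

/-- Convergence for families with invariances. -/
theorem inv_conv [Fintype ι] (D : KS κ ι) [Countable Q] [Module.Finite ℤ Q] {R : Rel μ Z Q}
    [Fintype J] [DecidableEq J] {E : J → Finset ι} {B : J → (κ → ℤ) →+ Q} {g : J → Z → ℝ}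
    (hS : St D R g E B) (hE : ∀ j, 2 ≤ (E j).card)
    (hgm : ∀ j, Measurable (g j)) (hg1 : ∀ j z, |g j z| ≤ 1) :
    ∀ᵐ x ∂μ, Cvg fun m => ∫ z, ∏ j, g j (R.aZ.S (B j (toZ m)) z) ∂(R.K x) :=
  inv_aux D (Fintype.card ι + 1) 2 le_rfl (by omega) _ Z Q R J E B g hgm hg1 hS hE le_rfl

end Pool.Agent.Lib.Pf720ae
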