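import Pool.Agent.Lib.Pf720ae.Inv

/-!
Extension of families with invariances.
-/

set_option autoImplicit false
set_option linter.unusedSectionVars false

open MeasureTheory Filter Topology ProbabilityTheory Finset
open scoped ENNReal NNReal

namespace Pool.Agent.Lib.Pf720ae

variable {κ : Type} [Fintype κ] [DecidableEq κ]
variable {X : Type} [MeasurableSpace X] {μ : Measure X} [IsProbabilityMeasure μ]
variable {ι : Type} [DecidableEq ι]
variable {Z : Type} [MeasurableSpace Z] {Q : Type} [AddCommGroup Q] {J : Type}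

lemma stab_mul {R : Rel μ Z Q} {f f' : Z → ℝ} {q : Q} (h : q ∈ stab R f) (h' : q ∈ stab R f') :
    q ∈ stab R (fun z => f z * f' z) := by
  have h1 : ∀ᵐ z ∂(R.ν), f (R.aZ.S q z) * f' (R.aZ.S q z) = f z * f' z := by
    filter_upwards [mem_stab.1 h, mem_stab.1 h'] with z h1 h2
    rw [h1, h2]
  exact h1

lemma stab_one {R : Rel μ Z Q} {q : Q} : q ∈ stab R (fun _ => 1) :=
  mem_stab.2 (Eventually.of_forall fun _ => rfl)

lemma ae_fst {Ω : Type} [MeasurableSpace Ω] {ν : Measure Z} [IsProbabilityMeasure ν]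
    {K' : Kernel Z Ω} [IsMarkovKernel K'] {P : Z → Prop} (h : ∀ᵐ z ∂ν, P z) :
    ∀ᵐ w ∂(ν ⊗ₘ K'), P w.1 := by
  have h1 : (ν ⊗ₘ K').map Prod.fst = ν := Measure.fst_compProd ν K'
  rw [← h1] at h
  exact ae_of_ae_map measurable_fst.aemeasurable h

section ext

variable (R : Rel μ Z Q) (g : J → Z → ℝ) (B : J → (κ → ℤ) →+ Q) (j₀ : J)

/-- the acting group on the extension -/
abbrev QI : Type := (κ → ℤ) × (stab R (g j₀)) × Q

/-- the homomorphism to the old group -/
def fI : ((κ → ℤ) × (stab R (g j₀)) × Q) →+ Q :=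
  (B j₀).coprod ((stab R (g j₀)).subtype.coprod (AddMonoidHom.id Q))

lemma fI_apply (q : (κ → ℤ) × (stab R (g j₀)) × Q) :
    fI R g B j₀ q = B j₀ q.1 + ((q.2.1 : Q) + q.2.2) := rfl

/-- the action on the records -/
def tI (q : (κ → ℤ) × (stab R (g j₀)) × Q) (ω : Om {j : J // j ≠ j₀} Q Q) :
    Om {j : J // j ≠ j₀} Q Q :=
  shP (fun j : {j : J // j ≠ j₀} => B j) q.1 (shG q.2.2 ω)

lemma measurable_tI (q : (κ → ℤ) × (stab R (g j₀)) × Q) : Measurable (tI R g B j₀ q) :=
  (measurable_shP _ _).comp (measurable_shG _)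

lemma ker_tI {K' : Kernel Z (Om {j : J // j ≠ j₀} Q Q)}
    (hK : EqKer R.aZ (B j₀) (fun j : {j : J // j ≠ j₀} => B j) K')
    (hinv : ∀ i ∈ stab R (g j₀), ∀ᵐ z ∂(R.ν), K' (R.aZ.S i z) = K' z)
    (q : (κ → ℤ) × (stab R (g j₀)) × Q) :
    ∀ᵐ z ∂(R.ν), K' (R.aZ.S (fI R g B j₀ q) z) = (K' z).map (tI R g B j₀ q) := by
  have h1 := hK.eqPG q.1 q.2.2
  have h2 := (R.aZ.mp (B j₀ q.1 + q.2.2)).quasiMeasurePreserving.ae (hinv q.2.1 q.2.1.2)
  filter_upwards [h1, h2] with z hz1 hz2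
  have e : fI R g B j₀ q = (q.2.1 : Q) + (B j₀ q.1 + q.2.2) := by
    rw [fI_apply]
    abel
  rw [e, R.aZ.add, hz2, hz1]
  rfl

/-- the extended system -/
noncomputable def relI {K' : Kernel Z (Om {j : J // j ≠ j₀} Q Q)}
    (hK : EqKer R.aZ (B j₀) (fun j : {j : J // j ≠ j₀} => B j) K')
    (hinv : ∀ i ∈ stab R (g j₀), ∀ᵐ z ∂(R.ν), K' (R.aZ.S i z) = K' z) :
    Rel μ (Z × Om {j : J // j ≠ j₀} Q Q) ((κ → ℤ) × (stab R (g j₀)) × Q) :=
  have := hK.markov
  relExtG R (fI R g B j₀) K' (tI R g B j₀) (measurable_tI R g B j₀)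
    (fun ω => by
      show shP _ 0 (shG 0 ω) = ω
      rw [shG_zero, shP_zero])
    (fun a b ω => by
      show shP _ (a.1 + b.1) (shG (a.2.2 + b.2.2) ω) = shP _ a.1 (shG a.2.2 (shP _ b.1 (shG b.2.2 ω)))
      rw [shG_add, shP_add, shP_shG b.1 a.2.2])
    (ker_tI R g B j₀ hK hinv)

variable {R g B j₀}

variable {K' : Kernel Z (Om {j : J // j ≠ j₀} Q Q)}
    {hK : EqKer R.aZ (B j₀) (fun j : {j : J // j ≠ j₀} => B j) K'}
    {hinv : ∀ i ∈ stab R (g j₀), ∀ᵐ z ∂(R.ν), K' (R.aZ.S i z) = K' z}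

lemma relI_S (q : (κ → ℤ) × (stab R (g j₀)) × Q) (w : Z × Om {j : J // j ≠ j₀} Q Q) :
    (relI R g B j₀ hK hinv).aZ.S q w = (R.aZ.S (fI R g B j₀ q) w.1, tI R g B j₀ q w.2) := rfl

lemma mem_triv_relI {q : (κ → ℤ) × (stab R (g j₀)) × Q} :
    q ∈ triv (relI R g B j₀ hK hinv) ↔ fI R g B j₀ q ∈ triv R := Iff.rfl

lemma stab_F [Countable Q] (j : J) (c : Q) {q : (κ → ℤ) × (stab R (g j₀)) × Q}
    (h : fI R g B j₀ q ∈ stab R (g j)) :
    q ∈ stab (relI R g B j₀ hK hinv) (fun w => g j (R.aZ.S c w.1)) := by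
  have hprob := R.prob
  have hmk := hK.markov
  have h1 : ∀ᵐ z ∂(R.ν), g j (R.aZ.S c (R.aZ.S (fI R g B j₀ q) z)) = g j (R.aZ.S c z) := by
    filter_upwards [stab_all h] with z hz
    rw [← R.aZ.add, hz]
  exact ae_fst (K' := K') h1

lemma stab_G [Countable Q]
    (hv : ∀ v, (∀ x, R.aX.S v x = x) → ∀ (j : {j : J // j ≠ j₀}) q γ,
      ∀ᵐ z ∂(R.ν), ∀ᵐ ω ∂(K' z), ω j q (γ + v) = ω j (q + v) γ)
    (hs : ∀ (j : {j : J // j ≠ j₀}), ∀ i ∈ stab R (g j), ∀ q γ, ∀ᵐ z ∂(R.ν), ∀ᵐ ω ∂(K' z),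
        ω j (q + i) γ = ω j q γ)
    (j : {j : J // j ≠ j₀}) (c : Q) {q : (κ → ℤ) × (stab R (g j₀)) × Q}
    (h1 : q.2.2 ∈ triv R) (h2 : B j q.1 + q.2.2 ∈ stab R (g j)) :
    q ∈ stab (relI R g B j₀ hK hinv)
      (fun w : Z × Om {j : J // j ≠ j₀} Q Q => ((w.2 j c 0 : Ic) : ℝ)) := by
  have hprob := R.prob
  have hmk := hK.markov
  have h3 : ∀ᵐ w ∂(R.ν ⊗ₘ K'), ((w.2 j (c + B j q.1) (0 + q.2.2) : Ic) : ℝ)
      = ((w.2 j c 0 : Ic) : ℝ) := by
    refine Measure.ae_compProd_of_ae_ae ?_ ?_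
    · exact measurableSet_eq_fun (by fun_prop) (by fun_prop)
    · filter_upwards [hv _ h1 j (c + B j q.1) 0, hs j _ h2 c 0] with z hz1 hz2
      filter_upwards [hz1, hz2] with ω hω1 hω2
      rw [hω1, add_assoc, hω2]
  exact h3

variable (E : J → Finset ι) (D : KS κ ι)

variable (R g B j₀) in
/-- new functions -/
noncomputable def newgI (c : κ → ℕ) :
    {j : J // j ≠ j₀} ⊕ {j : {j : J // j ≠ j₀} // E j ≠ E j₀} →
      Z × Om {j : J // j ≠ j₀} Q Q → ℝ :=
  Sum.elim
    (fun j w => g j (R.aZ.S (B j (toZ c)) w.1) *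
      (if E j = E j₀ then ((w.2 j (B j (toZ c)) 0 : Ic) : ℝ) else 1))
    (fun j w => ((w.2 j.1 (B j.1 (toZ c)) 0 : Ic) : ℝ))

variable (j₀) in
/-- new labels -/
def newEI : {j : J // j ≠ j₀} ⊕ {j : {j : J // j ≠ j₀} // E j ≠ E j₀} → Finset ι :=
  Sum.elim (fun j => E j) fun j => E j₀ ∪ E j.1

variable (R g B j₀) in
/-- new positions -/
def newBI (t : (κ → ℤ) →+ stab R (g j₀)) (v : J → (κ → ℤ) →+ Q) :
    {j : J // j ≠ j₀} ⊕ {j : {j : J // j ≠ j₀} // E j ≠ E j₀} →
      (κ → ℤ) →+ ((κ → ℤ) × (stab R (g j₀)) × Q) :=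
  Sum.elim
    (fun j => if E j = E j₀ then (D.sg (E j₀)).prod (t.prod (v j))
      else (D.N • AddMonoidHom.id _).prod (AddMonoidHom.prod 0 (D.N • (B j - B j₀))))
    (fun _ => (D.N • AddMonoidHom.id _).prod (AddMonoidHom.prod 0 0))

variable {E D}

lemma measurable_newgI (hgm : ∀ j, Measurable (g j)) (c : κ → ℕ)
    (j' : {j : J // j ≠ j₀} ⊕ {j : {j : J // j ≠ j₀} // E j ≠ E j₀}) :
    Measurable (newgI R g B j₀ E c j') := by
  have hev : ∀ j : {j : J // j ≠ j₀}, Measurable fun w : Z × Om {j : J // j ≠ j₀} Q Q =>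
      ((w.2 j (B j (toZ c)) 0 : Ic) : ℝ) := by
    intro j
    fun_prop
  rcases j' with (j | j)
  · refine Measurable.mul ((hgm _).comp ((R.aZ.mp _).measurable.comp measurable_fst)) ?_
    split_ifs
    · exact hev j
    · exact measurable_const
  · exact hev j.1

lemma abs_newgI_le (hg1 : ∀ j z, |g j z| ≤ 1) (c : κ → ℕ)
    (j' : {j : J // j ≠ j₀} ⊕ {j : {j : J // j ≠ j₀} // E j ≠ E j₀})
    (w : Z × Om {j : J // j ≠ j₀} Q Q) :
    |newgI R g B j₀ E c j' w| ≤ 1 := by
  rcases j' with (j | j)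
  · show |g j (R.aZ.S (B j (toZ c)) w.1) *
      (if E j = E j₀ then ((w.2 j (B j (toZ c)) 0 : Ic) : ℝ) else 1)| ≤ 1
    rw [abs_mul]
    refine mul_le_one₀ (hg1 _ _) (abs_nonneg _) ?_
    split_ifs
    · exact abs_Ic _
    · simp
  · exact abs_Ic _

/-- the stabiliser of a new function of the first kind, not merged -/
lemma stab_new_ne [Countable Q] (c : κ → ℕ) (j : {j : J // j ≠ j₀}) (hj : E j ≠ E j₀)
    {q : (κ → ℤ) × (stab R (g j₀)) × Q} (h : fI R g B j₀ q ∈ stab R (g j)) :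
    q ∈ stab (relI R g B j₀ hK hinv) (newgI R g B j₀ E c (Sum.inl j)) := by
  have e : newgI R g B j₀ E c (Sum.inl j) = fun w => g j (R.aZ.S (B j (toZ c)) w.1) := by
    funext w
    show g j (R.aZ.S (B j (toZ c)) w.1) *
      (if E j = E j₀ then ((w.2 j (B j (toZ c)) 0 : Ic) : ℝ) else 1) = _
    rw [if_neg hj, mul_one]
  rw [e]
  exact stab_F (j : J) (B j (toZ c)) h

/-- the stabiliser of a new function of the first kind, merged -/
lemma stab_new_eq [Countable Q]
    (hv : ∀ v, (∀ x, R.aX.S v x = x) → ∀ (j : {j : J // j ≠ j₀}) q γ,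
      ∀ᵐ z ∂(R.ν), ∀ᵐ ω ∂(K' z), ω j q (γ + v) = ω j (q + v) γ)
    (hs : ∀ (j : {j : J // j ≠ j₀}), ∀ i ∈ stab R (g j), ∀ q γ, ∀ᵐ z ∂(R.ν), ∀ᵐ ω ∂(K' z),
        ω j (q + i) γ = ω j q γ)
    (c : κ → ℕ) (j : {j : J // j ≠ j₀}) (hj : E j = E j₀)
    {q : (κ → ℤ) × (stab R (g j₀)) × Q} (h : fI R g B j₀ q ∈ stab R (g j))
    (h1 : q.2.2 ∈ triv R) (h2 : B j q.1 + q.2.2 ∈ stab R (g j)) :
    q ∈ stab (relI R g B j₀ hK hinv) (newgI R g B j₀ E c (Sum.inl j)) := by
  have e : newgI R g B j₀ E c (Sum.inl j) = fun w => g j (R.aZ.S (B j (toZ c)) w.1) *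
      ((w.2 j (B j (toZ c)) 0 : Ic) : ℝ) := by
    funext w
    show g j (R.aZ.S (B j (toZ c)) w.1) *
      (if E j = E j₀ then ((w.2 j (B j (toZ c)) 0 : Ic) : ℝ) else 1) = _
    rw [if_pos hj]
  rw [e]
  exact stab_mul (stab_F (j : J) (B j (toZ c)) h) (stab_G hv hs j (B j (toZ c)) h1 h2)

/-- the new family -/
lemma St.ext [Countable Q] (hS : St D R g E B) (hE : 2 ≤ (E j₀).card)
    (hv : ∀ v, (∀ x, R.aX.S v x = x) → ∀ (j : {j : J // j ≠ j₀}) q γ,
      ∀ᵐ z ∂(R.ν), ∀ᵐ ω ∂(K' z), ω j q (γ + v) = ω j (q + v) γ)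
    (hs : ∀ (j : {j : J // j ≠ j₀}), ∀ i ∈ stab R (g j), ∀ q γ, ∀ᵐ z ∂(R.ν), ∀ᵐ ω ∂(K' z),
        ω j (q + i) γ = ω j q γ)
    {t : (κ → ℤ) →+ stab R (g j₀)} {v : J → (κ → ℤ) →+ Q}
    (P1 : ∀ j, E j = E j₀ → ∀ p, B j (D.sg (E j₀) p) - B j₀ (D.sg (E j₀) p) - (t p : Q)
        ∈ stab R (g j))
    (P2 : ∀ j, E j = E j₀ → ∀ p, v j p ∈ triv R)
    (P3 : ∀ j, E j = E j₀ → ∀ p, B j (D.kr (E j₀) p) - v j p ∈ stab R (g j)) (c : κ → ℕ) :
    St D (relI R g B j₀ hK hinv) (newgI R g B j₀ E c) (newEI j₀ E) (newBI R g B j₀ E D t v) := by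
  have hsum : ∀ p, D.kr (E j₀) p = D.N • p - D.sg (E j₀) p := by
    intro p
    rw [D.sum (E j₀) hE p]
    abel
  constructor
  · rintro (j | j) k hk
    · have hk' : k ∈ D.Kr (E j) := hk
      by_cases hj : E j = E j₀
      · -- merged
        have e : newBI R g B j₀ E D t v (Sum.inl j) k = (D.sg (E j₀) k, t k, v j k) := by
          show (if E j = E j₀ then (D.sg (E j₀)).prod (t.prod (v j)) else _) k = _
          rw [if_pos hj]
          rfl
        have hsgK : D.sg (E j₀) k ∈ D.Kr (E j) := by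
          have e1 : D.sg (E j₀) k = D.N • k - D.kr (E j₀) k := by
            rw [hsum]; abel
          rw [e1]
          refine AddSubgroup.sub_mem _ (AddSubgroup.nsmul_mem _ hk' _) ?_
          rw [hj]
          exact D.mkr _ hE _
        obtain ⟨v₁, hv₁, hv₂⟩ := hS.h1 j _ hsgK
        refine ⟨(0, 0, v j k + v₁), ?_, ?_⟩
        · rw [mem_triv_relI, fI_apply]
          simp only [map_zero, ZeroMemClass.coe_zero, zero_add]
          exact AddSubgroup.add_mem _ (P2 j hj k) hv₁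
        · rw [e]
          have e2 : ((D.sg (E j₀) k, t k, v j k) : (κ → ℤ) × (stab R (g j₀)) × Q)
              - (0, 0, v j k + v₁) = (D.sg (E j₀) k, t k, -v₁) := by
            simp only [Prod.mk_sub_mk, sub_zero]
            congr 2
            abel
          rw [e2]
          refine stab_new_eq hv hs c j hj ?_ ?_ ?_
          · rw [fI_apply]
            have e3 : B j₀ (D.sg (E j₀) k) + ((t k : Q) + -v₁)
                = (B j (D.sg (E j₀) k) - v₁)
                  - (B j (D.sg (E j₀) k) - B j₀ (D.sg (E j₀) k) - (t k : Q)) := by abel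
            simp only
            rw [e3]
            exact AddSubgroup.sub_mem _ hv₂ (P1 j hj k)
          · exact AddSubgroup.neg_mem _ hv₁
          · show B j (D.sg (E j₀) k) + -v₁ ∈ stab R (g j)
            rw [← sub_eq_add_neg]
            exact hv₂
      · -- not merged
        have e : newBI R g B j₀ E D t v (Sum.inl j) k = (D.N • k, 0, D.N • (B j k - B j₀ k)) := by
          show (if E j = E j₀ then _ else (D.N • AddMonoidHom.id _).prod
            (AddMonoidHom.prod 0 (D.N • (B j - B j₀)))) k = _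
          rw [if_neg hj]
          rfl
        obtain ⟨v₁, hv₁, hv₂⟩ := hS.h1 j _ hk'
        refine ⟨(D.N • k, 0, D.N • (v₁ - B j₀ k)), ?_, ?_⟩
        · rw [mem_triv_relI, fI_apply]
          have e3 : B j₀ (D.N • k) + (((0 : stab R (g j₀)) : Q) + D.N • (v₁ - B j₀ k))
              = D.N • v₁ := by
            rw [map_nsmul, smul_sub, ZeroMemClass.coe_zero]
            abel
          simp only
          rw [e3]
          exact AddSubgroup.nsmul_mem _ hv₁ _
        · rw [e]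
          refine stab_new_ne c j hj ?_
          rw [fI_apply]
          have e3 : B j₀ (((D.N • k, 0, D.N • (B j k - B j₀ k)) : (κ → ℤ) × (stab R (g j₀)) × Q)
              - (D.N • k, 0, D.N • (v₁ - B j₀ k))).1
              + ((((((D.N • k, 0, D.N • (B j k - B j₀ k)) : (κ → ℤ) × (stab R (g j₀)) × Q)
              - (D.N • k, 0, D.N • (v₁ - B j₀ k))).2.1 : stab R (g j₀)) : Q)
              + (((D.N • k, 0, D.N • (B j k - B j₀ k)) : (κ → ℤ) × (stab R (g j₀)) × Q)
              - (D.N • k, 0, D.N • (v₁ - B j₀ k))).2.2) = D.N • (B j k - v₁) := by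
            simp only [Prod.mk_sub_mk, sub_self, map_zero, ZeroMemClass.coe_zero, zero_add,
              smul_sub]
            abel
          rw [e3]
          exact AddSubgroup.nsmul_mem _ hv₂ _
    · have hk' : k ∈ D.Kr (E j₀ ∪ E j.1) := hk
      have e : newBI R g B j₀ E D t v (Sum.inr j) k = (D.N • k, 0, 0) := rfl
      obtain ⟨k₀, hk₀, k₁, hk₁, rfl⟩ := D.un _ _ _ hk'
      obtain ⟨v₀, hv₀, hv₀'⟩ := hS.h1 j₀ _ hk₀
      obtain ⟨v₁, hv₁, hv₁'⟩ := hS.h1 j.1 _ hk₁
      refine ⟨(D.N • k₀, -(D.N • ⟨_, hv₀'⟩), D.N • v₁), ?_, ?_⟩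
      · rw [mem_triv_relI, fI_apply]
        have e3 : B j₀ (D.N • k₀) + (((-(D.N • (⟨_, hv₀'⟩ : stab R (g j₀))) : stab R (g j₀)) : Q)
            + D.N • v₁) = D.N • (v₀ + v₁) := by
          rw [map_nsmul, NegMemClass.coe_neg, AddSubgroup.coe_nsmul]
          simp only [smul_sub, smul_add]
          abel
        simp only
        rw [e3]
        exact AddSubgroup.nsmul_mem _ (AddSubgroup.add_mem _ hv₀ hv₁) _
      · rw [e]
        refine stab_G hv hs j.1 _ ?_ ?_
        · show (0 : Q) - D.N • v₁ ∈ triv R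
          rw [zero_sub]
          exact AddSubgroup.neg_mem _ (AddSubgroup.nsmul_mem _ hv₁ _)
        · show B j.1 (D.N • (k₀ + k₁) - D.N • k₀) + (0 - D.N • v₁) ∈ stab R (g j.1)
          have e3 : B j.1 (D.N • (k₀ + k₁) - D.N • k₀) + (0 - D.N • v₁)
              = D.N • (B j.1 k₁ - v₁) := by
            rw [map_sub, map_nsmul, map_nsmul, map_add]
            simp only [smul_sub, smul_add]
            abel
          rw [e3]
          exact AddSubgroup.nsmul_mem _ hv₁' _
  · intro F σ hσ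
    obtain ⟨β, hβ⟩ := hS.h2 F σ hσ
    by_cases hF : E j₀ ⊆ F
    · have hb : β - B j₀ σ ∈ stab R (g j₀) := by
        have h := (stab R (g j₀)).neg_mem (hβ j₀ hF)
        rwa [neg_sub] at h
      refine ⟨(D.N • σ, D.N • ⟨_, hb⟩, 0), ?_⟩
      rintro (j | j) hjF
      · have hjF' : E j ⊆ F := hjF
        by_cases hj : E j = E j₀
        · have e : newBI R g B j₀ E D t v (Sum.inl j) σ = (D.sg (E j₀) σ, t σ, v j σ) := by
            show (if E j = E j₀ then (D.sg (E j₀)).prod (t.prod (v j)) else _) σ = _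
            rw [if_pos hj]
            rfl
          rw [e]
          refine stab_new_eq hv hs c j hj ?_ ?_ ?_
          · rw [fI_apply]
            have e3 : B j₀ (D.sg (E j₀) σ - D.N • σ)
                + (((t σ : Q) - D.N • (β - B j₀ σ)) + (v j σ - 0))
                = D.N • (B j σ - β) - (B j (D.sg (E j₀) σ) - B j₀ (D.sg (E j₀) σ) - (t σ : Q))
                  - (B j (D.kr (E j₀) σ) - v j σ) := by
              rw [hsum]
              simp only [map_sub, map_nsmul, smul_sub]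
              abel
            show B j₀ (D.sg (E j₀) σ - D.N • σ)
                + (((t σ : Q) - D.N • (β - B j₀ σ)) + (v j σ - 0)) ∈ stab R (g j)
            rw [e3]
            exact AddSubgroup.sub_mem _ (AddSubgroup.sub_mem _
              (AddSubgroup.nsmul_mem _ (hβ j hjF') _) (P1 j hj σ)) (P3 j hj σ)
          · show v j σ - 0 ∈ triv R
            rw [sub_zero]
            exact P2 j hj σ
          · show B j (D.sg (E j₀) σ - D.N • σ) + (v j σ - 0) ∈ stab R (g j)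
            have e3 : B j (D.sg (E j₀) σ - D.N • σ) + (v j σ - 0)
                = -(B j (D.kr (E j₀) σ) - v j σ) := by
              rw [hsum]
              simp only [map_sub, map_nsmul]
              abel
            rw [e3]
            exact AddSubgroup.neg_mem _ (P3 j hj σ)
        · have e : newBI R g B j₀ E D t v (Sum.inl j) σ
              = (D.N • σ, 0, D.N • (B j σ - B j₀ σ)) := by
            show (if E j = E j₀ then _ else (D.N • AddMonoidHom.id _).prod
              (AddMonoidHom.prod 0 (D.N • (B j - B j₀)))) σ = _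
            rw [if_neg hj]
            rfl
          rw [e]
          refine stab_new_ne c j hj ?_
          rw [fI_apply]
          show B j₀ (D.N • σ - D.N • σ) + ((((0 : stab R (g j₀)) : Q) - D.N • (β - B j₀ σ))
            + (D.N • (B j σ - B j₀ σ) - 0)) ∈ stab R (g j)
          have e3 : B j₀ (D.N • σ - D.N • σ) + ((((0 : stab R (g j₀)) : Q) - D.N • (β - B j₀ σ))
            + (D.N • (B j σ - B j₀ σ) - 0)) = D.N • (B j σ - β) := by
            rw [sub_self, map_zero, ZeroMemClass.coe_zero]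
            simp only [smul_sub]
            abel
          rw [e3]
          exact AddSubgroup.nsmul_mem _ (hβ j hjF') _
      · have e : newBI R g B j₀ E D t v (Sum.inr j) σ = (D.N • σ, 0, 0) := rfl
        rw [e]
        refine stab_G hv hs j.1 _ ?_ ?_
        · show (0 : Q) - 0 ∈ triv R
          rw [sub_self]
          exact AddSubgroup.zero_mem _
        · show B j.1 (D.N • σ - D.N • σ) + (0 - 0) ∈ stab R (g j.1)
          rw [sub_self, sub_self, map_zero, add_zero]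
          exact AddSubgroup.zero_mem _
    · refine ⟨(D.N • σ, 0, D.N • (β - B j₀ σ)), ?_⟩
      rintro (j | j) hjF
      · have hjF' : E j ⊆ F := hjF
        by_cases hj : E j = E j₀
        · exact absurd (hj ▸ hjF') hF
        · have e : newBI R g B j₀ E D t v (Sum.inl j) σ
              = (D.N • σ, 0, D.N • (B j σ - B j₀ σ)) := by
            show (if E j = E j₀ then _ else (D.N • AddMonoidHom.id _).prod
              (AddMonoidHom.prod 0 (D.N • (B j - B j₀)))) σ = _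
            rw [if_neg hj]
            rfl
          rw [e]
          refine stab_new_ne c j hj ?_
          rw [fI_apply]
          show B j₀ (D.N • σ - D.N • σ) + ((((0 : stab R (g j₀)) : Q) - ((0 : stab R (g j₀)) : Q))
            + (D.N • (B j σ - B j₀ σ) - D.N • (β - B j₀ σ))) ∈ stab R (g j)
          have e3 : B j₀ (D.N • σ - D.N • σ)
            + ((((0 : stab R (g j₀)) : Q) - ((0 : stab R (g j₀)) : Q))
            + (D.N • (B j σ - B j₀ σ) - D.N • (β - B j₀ σ))) = D.N • (B j σ - β) := by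
            rw [sub_self, map_zero, ZeroMemClass.coe_zero]
            simp only [smul_sub]
            abel
          rw [e3]
          exact AddSubgroup.nsmul_mem _ (hβ j hjF') _
      · exact absurd (Finset.subset_union_left.trans hjF) hF

end ext

end Pool.Agent.Lib.Pf720ae
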