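import Pool.Agent.Lib.Pf720ae.Uni3

/-!
The relative master theorem with invariance of the kernels under the stabiliser of the main
function.
-/

set_option autoImplicit false
set_option linter.unusedSectionVars false

open MeasureTheory Filter Topology ProbabilityTheory Finset
open scoped ENNReal NNReal

namespace Pool.Agent.Lib.Pf720ae

variable {κ : Type} [Fintype κ] [DecidableEq κ]
variable {κ' : Type} [Fintype κ'] [DecidableEq κ']

lemma sum_box_inl (M : κ ⊕ κ' → ℕ) (Φ : (κ → ℕ) → ℝ) :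
    ∑ m ∈ box M, Φ (fun l => m (Sum.inl l))
      = (∏ l, (M (Sum.inr l) : ℝ)) * ∑ m ∈ box (fun l => M (Sum.inl l)), Φ m := by
  have h1 : ∑ m ∈ box M, Φ (fun l => m (Sum.inl l))
      = ∑ m ∈ box (fun l => M (Sum.inl l)), ∑ _m' ∈ box (fun l => M (Sum.inr l)), Φ m := by
    rw [← Finset.sum_product']
    refine Finset.sum_bij' (fun m _ => ((fun l => m (Sum.inl l)), fun l => m (Sum.inr l)))
      (fun p _ => Sum.elim p.1 p.2) ?_ ?_ ?_ ?_ ?_
    · intro m hm
      rw [mem_box] at hm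
      simp only [Finset.mem_product, mem_box]
      exact ⟨fun l => hm _, fun l => hm _⟩
    · rintro p hp
      simp only [Finset.mem_product, mem_box] at hp
      rw [mem_box]
      rintro (l | l)
      · exact hp.1 l
      · exact hp.2 l
    · intro m _
      funext l
      rcases l with (l | l) <;> rfl
    · intro p _
      rfl
    · intro m _
      rfl
  rw [h1, Finset.mul_sum]
  refine Finset.sum_congr rfl fun m _ => ?_
  rw [Finset.sum_const, card_box, nsmul_eq_mul]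
  push_cast
  rfl

lemma avg_inl {M : κ ⊕ κ' → ℕ} (hM : ∀ l, 0 < M l) (Φ : (κ → ℕ) → ℝ) :
    avg M (fun m => Φ (fun l => m (Sum.inl l))) = avg (fun l => M (Sum.inl l)) Φ := by
  unfold avg
  rw [sum_box_inl, Fintype.prod_sum_type]
  have h1 : (∏ l, (M (Sum.inr l : κ ⊕ κ') : ℝ)) ≠ 0 :=
    Finset.prod_ne_zero_iff.2 fun l _ => by exact_mod_cast (hM _).ne'
  have h2 : (∏ l, (M (Sum.inl l : κ ⊕ κ') : ℝ)) ≠ 0 :=
    Finset.prod_ne_zero_iff.2 fun l _ => by exact_mod_cast (hM _).ne'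
  field_simp

lemma Cvg.of_inl {Φ : (κ → ℕ) → ℝ} (h : Cvg Φ) :
    Cvg fun m : κ ⊕ κ' → ℕ => Φ (fun l => m (Sum.inl l)) := by
  obtain ⟨L, hL⟩ := h
  refine ⟨L, ?_⟩
  have h1 : Tendsto (fun M : κ ⊕ κ' → ℕ => fun l => M (Sum.inl l)) atTop atTop := by
    rw [tendsto_atTop]
    intro b
    filter_upwards [eventually_ge_atTop (Sum.elim b fun _ => 0)] with M hM l
    exact hM (Sum.inl l)
  refine (hL.comp h1).congr' ?_
  filter_upwards [eventually_pos] with M hM
  exact (avg_inl hM Φ).symm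

lemma Cvg.to_inl {Φ : (κ → ℕ) → ℝ} (h : Cvg fun m : κ ⊕ κ' → ℕ => Φ (fun l => m (Sum.inl l))) :
    Cvg Φ := by
  obtain ⟨L, hL⟩ := h
  refine ⟨L, ?_⟩
  have h2 : Tendsto (fun M : κ ⊕ κ' → ℕ => avg (fun l => M (Sum.inl l)) Φ) atTop (𝓝 L) := by
    refine hL.congr' ?_
    filter_upwards [eventually_pos] with M hM
    exact avg_inl hM Φ
  rw [tendsto_def] at h2 ⊢
  intro s hs
  obtain ⟨b, hb⟩ := mem_atTop_sets.1 (h2 s hs)
  refine mem_atTop_sets.2 ⟨fun l => b (Sum.inl l), fun M hM => ?_⟩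
  have h3 := hb (Sum.elim M fun l => b (Sum.inr l)) (by
    rintro (l | l)
    · exact hM l
    · exact le_rfl)
  exact h3

variable {X : Type} [MeasurableSpace X] {μ : Measure X} [IsProbabilityMeasure μ]
variable {Z : Type} [MeasurableSpace Z] {Q : Type} [AddCommGroup Q]
variable {J : Type} [Fintype J] [DecidableEq J]

variable (κ κ') in
/-- restriction to the left parameters -/
def resL : (κ ⊕ κ' → ℤ) →+ (κ → ℤ) where
  toFun m l := m (Sum.inl l)
  map_zero' := rfl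
  map_add' _ _ := rfl

variable (κ κ') in
/-- restriction to the right parameters -/
def resR : (κ ⊕ κ' → ℤ) →+ (κ' → ℤ) where
  toFun m l := m (Sum.inr l)
  map_zero' := rfl
  map_add' _ _ := rfl

lemma stab_all [Countable Q] {R : Rel μ Z Q} {g : Z → ℝ} {i : Q} (hi : i ∈ stab R g) :
    ∀ᵐ z ∂(R.ν), ∀ θ : Q, g (R.aZ.S (θ + i) z) = g (R.aZ.S θ z) := by
  rw [ae_all_iff]
  intro θ
  have h1 := (R.aZ.mp θ).quasiMeasurePreserving.ae hi
  filter_upwards [h1] with z hz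
  rw [add_comm, R.aZ.add, hz]

lemma stab_all' [Countable Q] {R : Rel μ Z Q} {g : Z → ℝ} :
    ∀ᵐ z ∂(R.ν), ∀ θ : Q, ∀ i ∈ stab R g, g (R.aZ.S (θ + i) z) = g (R.aZ.S θ z) := by
  have h1 : ∀ᵐ z ∂(R.ν), ∀ i : stab R g, ∀ θ : Q, g (R.aZ.S (θ + (i : Q)) z) = g (R.aZ.S θ z) :=
    ae_all_iff.2 fun i => stab_all i.2
  filter_upwards [h1] with z hz θ i hi
  exact hz ⟨i, hi⟩ θ

/-- The relative master theorem with additional invariance. -/
theorem rel_master_inv [Nonempty J] [Countable Q] [Module.Finite ℤ Q] (R : Rel μ Z Q)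
    (B₀ : (κ → ℤ) →+ Q) (B : J → (κ → ℤ) →+ Q) (g : J → Z → ℝ)
    (hgm : ∀ j, Measurable (g j)) (hg1 : ∀ j z, |g j z| ≤ 1)
    (g₀ : Z → ℝ) (hg₀ : MemLp g₀ 2 R.ν)
    (hD : ∀ K' : Kernel Z (Om J Q Q), EqKer R.aZ B₀ B K' →
      (∀ v, (∀ x, R.aX.S v x = x) → ∀ j q γ, ∀ᵐ z ∂(R.ν), ∀ᵐ ω ∂(K' z),
        ω j q (γ + v) = ω j (q + v) γ) →
      (∀ j, ∀ i ∈ stab R (g j), ∀ q γ, ∀ᵐ z ∂(R.ν), ∀ᵐ ω ∂(K' z),
        ω j (q + i) γ = ω j q γ) →
      (∀ i ∈ stab R g₀, ∀ᵐ z ∂(R.ν), K' (R.aZ.S i z) = K' z) →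
      RCv R B₀ (wtg R B g) (dual K')) : RCv R B₀ (wtg R B g) g₀ := by
  classical
  -- generators of the stabiliser
  obtain ⟨k', s, hs⟩ := Submodule.fg_iff_exists_fin_generating_family.1
    (IsNoetherian.noetherian (AddSubgroup.toIntSubmodule (stab R g₀)))
  have hs1 : ∀ n, lin s n ∈ stab R g₀ := by
    intro n
    have h1 : lin s n ∈ Submodule.span ℤ (Set.range s) := by
      rw [Submodule.mem_span_range_iff_exists_fun]
      exact ⟨n, rfl⟩
    rw [hs] at h1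
    exact h1
  have hs2 : ∀ i ∈ stab R g₀, ∃ n, lin s n = i := by
    intro i hi
    have h1 : i ∈ Submodule.span ℤ (Set.range s) := by
      rw [hs]
      exact hi
    rw [Submodule.mem_span_range_iff_exists_fun] at h1
    obtain ⟨c, hc⟩ := h1
    exact ⟨c, hc⟩
  -- the enlarged parameters
  set Bh₀ : (κ ⊕ Fin k' → ℤ) →+ Q := B₀.comp (resL κ (Fin k')) + (lin s).comp (resR κ (Fin k'))
    with hBh₀
  set Bh : J → (κ ⊕ Fin k' → ℤ) →+ Q := fun j => (B j).comp (resL κ (Fin k')) with hBh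
  have hprob := R.prob
  have hmk := R.markov
  -- comparison of the functionals
  have hcmp : ∀ φ : Z → ℝ, (∀ᵐ z ∂(R.ν), ∀ θ : Q, ∀ i ∈ stab R g₀,
      φ (R.aZ.S (θ + i) z) = φ (R.aZ.S θ z)) →
      ∀ᵐ x ∂μ, ∀ m : κ ⊕ Fin k' → ℕ, Tm R Bh₀ (wtg R Bh g) m φ x
        = Tm R B₀ (wtg R B g) (fun l => m (Sum.inl l)) φ x := by
    intro φ hφ
    filter_upwards [R.ae hφ] with x hx m
    unfold Tm
    refine integral_congr_ae ?_
    filter_upwards [hx] with z hz
    have e1 : Bh₀ (toZ m) = B₀ (toZ fun l => m (Sum.inl l)) + lin s (toZ fun l => m (Sum.inr l)) :=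
      rfl
    rw [e1, hz _ _ (hs1 _)]
    rfl
  have hmain : RCv R Bh₀ (wtg R Bh g) g₀ := by
    refine rel_master R Bh₀ Bh g hgm hg1 ?_ g₀ hg₀
    intro K' hK hv hi
    have hmk' := hK.markov
    have e0 : ∀ r : κ → ℤ, Bh₀ (Sum.elim r 0) = B₀ r := by
      intro r
      show B₀ r + lin s 0 = B₀ r
      rw [map_zero, add_zero]
    have hK2 : EqKer R.aZ B₀ B K' := by
      refine ⟨hK.markov, fun r => ?_, hK.eqG, hK.tr⟩
      have h1 := hK.eqP (Sum.elim r 0)
      rw [e0] at h1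
      exact h1
    have hinv : ∀ i ∈ stab R g₀, ∀ᵐ z ∂(R.ν), K' (R.aZ.S i z) = K' z := by
      intro i hi
      obtain ⟨n, rfl⟩ := hs2 i hi
      have h1 := hK.eqP (Sum.elim 0 n)
      have e1 : Bh₀ (Sum.elim 0 n) = lin s n := by
        show B₀ 0 + lin s n = lin s n
        rw [map_zero, zero_add]
      rw [e1] at h1
      filter_upwards [h1] with z hz
      rw [hz]
      have e2 : (shP Bh (Sum.elim 0 n) : Om J Q Q → Om J Q Q) = id := by
        funext ω i g γ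
        show ω i (g + B i 0) γ = ω i g γ
        rw [map_zero, add_zero]
      rw [e2, Measure.map_id]
    have h1 := hD K' hK2 hv hi hinv
    have h2 : ∀ᵐ z ∂(R.ν), ∀ θ : Q, ∀ i ∈ stab R g₀,
        dual K' (R.aZ.S (θ + i) z) = dual K' (R.aZ.S θ z) := by
      have h3 : ∀ᵐ z ∂(R.ν), ∀ i : stab R g₀, ∀ θ : Q,
          dual K' (R.aZ.S (θ + (i : Q)) z) = dual K' (R.aZ.S θ z) := by
        rw [ae_all_iff]
        intro i
        rw [ae_all_iff]
        intro θ
        have h4 := (R.aZ.mp θ).quasiMeasurePreserving.ae (hinv i i.2)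
        filter_upwards [h4] with z hz
        unfold dual
        rw [add_comm, R.aZ.add, hz]
      filter_upwards [h3] with z hz θ i hi
      exact hz ⟨i, hi⟩ θ
    filter_upwards [h1, hcmp _ h2] with x hx1 hx2
    refine (Cvg.of_inl (κ' := Fin k') hx1).congr fun m => ?_
    rw [hx2]
  filter_upwards [hmain, hcmp _ stab_all'] with x hx1 hx2
  refine Cvg.to_inl (κ' := Fin k') (hx1.congr fun m => ?_)
  rw [hx2]

end Pool.Agent.Lib.Pf720ae
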