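import Mathlib

/-!
Limits of measures on a product, with a fixed first marginal, and the limiting kernel.
-/

set_option autoImplicit false
set_option linter.unusedSectionVars false

open MeasureTheory Filter Topology ProbabilityTheory
open scoped ENNReal NNReal BoundedContinuousFunction

namespace Pool.Agent.Lib.Pf720ae

variable {Y Ω : Type} [TopologicalSpace Y] [CompactSpace Y] [T2Space Y]
  [SecondCountableTopology Y] [MeasurableSpace Y] [BorelSpace Y]
  [TopologicalSpace Ω] [CompactSpace Ω] [T2Space Ω]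
  [SecondCountableTopology Ω] [MeasurableSpace Ω] [BorelSpace Ω] [StandardBorelSpace Ω]
  [Nonempty Ω]

/-- equivariance of the disintegration kernel -/
lemma condKernel_equivariant (ν : Measure (Y × Ω)) [IsProbabilityMeasure ν]
    (s : Y ≃ₜ Y) {t : Ω → Ω} (ht : Measurable t)
    (hν : ν.map (fun z => (s z.1, t z.2)) = ν) :
    ∀ᵐ y ∂ν.fst, ν.condKernel (s y) = (ν.condKernel y).map t := by
  have hsm : Measurable s := s.continuous.measurable
  have hsm' : Measurable s.symm := s.symm.continuous.measurable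
  have hst : Measurable (fun z : Y × Ω => (s z.1, t z.2)) :=
    (hsm.comp measurable_fst).prodMk (ht.comp measurable_snd)
  have hfst : ν.fst.map s = ν.fst := by
    conv_rhs => rw [← hν]
    unfold Measure.fst
    rw [Measure.map_map hsm measurable_fst, Measure.map_map measurable_fst hst]
    rfl
  set K := ν.condKernel with hK
  set K' : Kernel Y Ω := (K.comap s.symm hsm').map t with hK'
  have hK'app : ∀ y, K' y = (K (s.symm y)).map t := by
    intro y
    rw [hK', Kernel.map_apply _ ht, Kernel.comap_apply]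
  have : IsMarkovKernel K' := Kernel.IsMarkovKernel.map _ ht
  have hdis : ν = ν.fst ⊗ₘ K' := by
    ext B hB
    rw [Measure.compProd_apply hB]
    conv_rhs => rw [← hfst]
    rw [lintegral_map (Kernel.measurable_kernel_prodMk_left hB) hsm]
    conv_lhs => rw [← hν]
    rw [Measure.map_apply hst hB]
    conv_lhs => rw [← ν.disintegrate ν.condKernel]
    rw [Measure.compProd_apply (hst hB)]
    refine lintegral_congr fun y => ?_
    rw [hK'app, Homeomorph.symm_apply_apply, Measure.map_apply ht (measurable_prodMk_left hB)]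
    rfl
  have huniq := eq_condKernel_of_measure_eq_compProd K' hdis
  have hmp : MeasurePreserving s ν.fst ν.fst := ⟨hsm, hfst⟩
  have h2 := hmp.quasiMeasurePreserving.ae huniq
  filter_upwards [h2] with y hy
  rw [← hy, hK'app, Homeomorph.symm_apply_apply]

/-- The limit lemma. -/
theorem exists_limit_kernel (ρ : ℕ → Measure (Y × Ω)) [∀ n, IsProbabilityMeasure (ρ n)]
    (μY : Measure Y) [IsProbabilityMeasure μY] (hfst : ∀ n, (ρ n).fst = μY) (𝒰 : Ultrafilter ℕ) :
    ∃ K : Kernel Y Ω, IsMarkovKernel K ∧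
      (∀ φ : Y → ℝ, Measurable φ → Integrable φ μY → ∀ a : C(Ω, ℝ), (∀ ω, |a ω| ≤ 1) →
        Tendsto (fun n => ∫ z, φ z.1 * a z.2 ∂(ρ n)) 𝒰
          (𝓝 (∫ y, φ y * ∫ ω, a ω ∂(K y) ∂μY))) ∧
      (∀ (s : Y ≃ₜ Y) (t : Ω → Ω), Continuous t →
        (∀ ψ : (Y × Ω) →ᵇ ℝ,
          Tendsto (fun n => ∫ z, ψ (s z.1, t z.2) ∂(ρ n) - ∫ z, ψ z ∂(ρ n)) 𝒰 (𝓝 0)) →
        ∀ᵐ y ∂μY, K (s y) = (K y).map t) := by
  classical
  let ρ' : ℕ → ProbabilityMeasure (Y × Ω) := fun n => ⟨ρ n, inferInstance⟩
  obtain ⟨ν, -, hν⟩ := isCompact_univ.ultrafilter_le_nhds' (𝒰.map ρ') univ_mem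
  have hν' : Tendsto ρ' 𝒰 (𝓝 ν) := hν
  rw [ProbabilityMeasure.tendsto_iff_forall_integral_tendsto] at hν'
  have hlim : ∀ ψ : (Y × Ω) →ᵇ ℝ, Tendsto (fun n => ∫ z, ψ z ∂(ρ n)) 𝒰
      (𝓝 (∫ z, ψ z ∂(ν : Measure (Y × Ω)))) := hν'
  -- first marginal
  have hνfst : (ν : Measure (Y × Ω)).fst = μY := by
    refine ext_of_forall_integral_eq_of_IsFiniteMeasure fun f => ?_
    have h1 := hlim (f.compContinuous ⟨Prod.fst, continuous_fst⟩)
    have h2 : ∀ n, ∫ z, (f.compContinuous ⟨Prod.fst, continuous_fst⟩) z ∂(ρ n)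
        = ∫ y, f y ∂μY := by
      intro n
      rw [← hfst n]
      unfold Measure.fst
      rw [integral_map measurable_fst.aemeasurable f.continuous.aestronglyMeasurable]
      rfl
    simp_rw [h2] at h1
    have h3 := tendsto_nhds_unique tendsto_const_nhds h1
    rw [h3]
    unfold Measure.fst
    rw [integral_map measurable_fst.aemeasurable f.continuous.aestronglyMeasurable]
    rfl
  refine ⟨(ν : Measure (Y × Ω)).condKernel, inferInstance, ?_, ?_⟩
  · intro φ hφm hφ a ha
    -- integrability and identification of the limit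
    have haint : ∀ (σ : Measure (Y × Ω)) [IsProbabilityMeasure σ], σ.fst = μY →
        ∀ f : Y → ℝ, Measurable f → Integrable f μY → Integrable (fun z => f z.1 * a z.2) σ := by
      intro σ _ hσ f hfm hf
      have h1 : Integrable (fun z : Y × Ω => f z.1) σ := by
        have : Integrable f (σ.map Prod.fst) := by
          have : σ.map Prod.fst = μY := hσ
          rwa [this]
        exact this.comp_measurable measurable_fst
      refine h1.mul_bdd (c := 1) (a.continuous.comp continuous_snd).aestronglyMeasurable ?_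
      exact Eventually.of_forall fun z => by simpa using ha z.2
    have hid : ∫ y, φ y * ∫ ω, a ω ∂((ν : Measure (Y × Ω)).condKernel y) ∂μY
        = ∫ z, φ z.1 * a z.2 ∂(ν : Measure (Y × Ω)) := by
      have h1 := haint (ν : Measure (Y × Ω)) hνfst φ hφm hφ
      have h2 := Measure.integral_compProd (μ := (ν : Measure (Y × Ω)).fst)
        (κ := (ν : Measure (Y × Ω)).condKernel) (f := fun z : Y × Ω => φ z.1 * a z.2)
        (by rw [(ν : Measure (Y × Ω)).disintegrate]; exact h1)
      rw [(ν : Measure (Y × Ω)).disintegrate] at h2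
      rw [h2, hνfst]
      refine integral_congr_ae (Eventually.of_forall fun y => ?_)
      simp only
      rw [integral_const_mul]
    rw [hid]
    rw [Metric.tendsto_nhds]
    intro ε hε
    obtain ⟨g, hg, hgint⟩ := hφ.exists_boundedContinuous_integral_sub_le (ε := ε / 4) (by positivity)
    have hbound : ∀ (σ : Measure (Y × Ω)) [IsProbabilityMeasure σ], σ.fst = μY →
        |∫ z, φ z.1 * a z.2 ∂σ - ∫ z, g z.1 * a z.2 ∂σ| ≤ ε / 4 := by
      intro σ _ hσ
      have h1 := haint σ hσ φ hφm hφ
      have h2 := haint σ hσ g g.continuous.measurable hgint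
      rw [← integral_sub h1 h2]
      have h3 : ∫ z, ‖φ z.1 - g z.1‖ ∂σ = ∫ y, ‖φ y - g y‖ ∂μY := by
        rw [← hσ]
        unfold Measure.fst
        rw [integral_map measurable_fst.aemeasurable]
        exact ((hφm.sub g.continuous.measurable).norm).aestronglyMeasurable
      have h4 : Integrable (fun z : Y × Ω => ‖φ z.1 - g z.1‖) σ := by
        have : Integrable (fun y => ‖φ y - g y‖) (σ.map Prod.fst) := by
          have h : σ.map Prod.fst = μY := hσ
          rw [h]; exact (hφ.sub hgint).norm
        exact this.comp_measurable measurable_fst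
      calc |∫ z, (φ z.1 * a z.2 - g z.1 * a z.2) ∂σ|
          ≤ ∫ z, |φ z.1 * a z.2 - g z.1 * a z.2| ∂σ := abs_integral_le_integral_abs
        _ ≤ ∫ z, ‖φ z.1 - g z.1‖ ∂σ := by
            refine integral_mono (h1.sub h2).abs h4 fun z => ?_
            simp only
            rw [← sub_mul, abs_mul, Real.norm_eq_abs]
            exact mul_le_of_le_one_right (abs_nonneg _) (ha _)
        _ ≤ ε / 4 := by rw [h3]; exact hg
    have hgl := hlim (BoundedContinuousFunction.mkOfCompact
      ⟨fun z : Y × Ω => g z.1 * a z.2, by fun_prop⟩)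
    have hgl' := (Metric.tendsto_nhds.1 hgl) (ε / 4) (by positivity)
    filter_upwards [hgl'] with n hn
    have e1 := hbound (ρ n) (hfst n)
    have e2 := hbound (ν : Measure (Y × Ω)) hνfst
    rw [Real.dist_eq] at hn ⊢
    have hn' : |∫ z, g z.1 * a z.2 ∂(ρ n) - ∫ z, g z.1 * a z.2 ∂(ν : Measure (Y × Ω))|
        < ε / 4 := hn
    rw [abs_lt] at hn' ⊢
    rw [abs_le] at e1 e2
    constructor <;> linarith [e1.1, e1.2, e2.1, e2.2, hn'.1, hn'.2]
  · intro s t ht hψ
    have hst : Measurable (fun z : Y × Ω => (s z.1, t z.2)) :=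
      (s.continuous.measurable.comp measurable_fst).prodMk (ht.measurable.comp measurable_snd)
    have hstc : Continuous (fun z : Y × Ω => (s z.1, t z.2)) := by fun_prop
    have hinv : (ν : Measure (Y × Ω)).map (fun z => (s z.1, t z.2)) = ν := by
      have : IsProbabilityMeasure ((ν : Measure (Y × Ω)).map (fun z => (s z.1, t z.2))) :=
        Measure.isProbabilityMeasure_map hst.aemeasurable
      refine ext_of_forall_integral_eq_of_IsFiniteMeasure fun ψ => ?_
      rw [integral_map hst.aemeasurable ψ.continuous.aestronglyMeasurable]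
      have h1 := hlim (ψ.compContinuous ⟨fun z => (s z.1, t z.2), hstc⟩)
      have h2 := hlim ψ
      have h3 := h1.sub h2
      have h4 := tendsto_nhds_unique (hψ ψ) h3
      have h5 : ∫ z, (ψ.compContinuous ⟨fun z => (s z.1, t z.2), hstc⟩) z
          ∂(ν : Measure (Y × Ω)) = ∫ z, ψ (s z.1, t z.2) ∂(ν : Measure (Y × Ω)) := rfl
      rw [h5] at h4
      linarith
    have h := condKernel_equivariant (ν : Measure (Y × Ω)) s ht.measurable hinv
    rwa [hνfst] at h

end Pool.Agent.Lib.Pf720ae
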