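import Pool.Agent.Lib.Pf720ae.Elim

/-!
The master theorem: convergence for all square integrable main functions follows from convergence
for dual functions.
-/

set_option autoImplicit false
set_option linter.unusedSectionVars false

open MeasureTheory Filter Topology ProbabilityTheory Finset
open scoped ENNReal NNReal

namespace Pool.Agent.Lib.Pf720ae

variable {κ : Type} [Fintype κ] [DecidableEq κ]

lemma avg_comm (M M' : κ → ℕ) (F : (κ → ℕ) → (κ → ℕ) → ℝ) :
    avg M (fun m => avg M' fun h => F m h) = avg M' fun h => avg M fun m => F m h := by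
  unfold avg
  simp only [Finset.mul_sum]
  rw [Finset.sum_comm]
  refine Finset.sum_congr rfl fun _ _ => Finset.sum_congr rfl fun _ _ => ?_
  ring

variable {J Λ Γ : Type} [AddCommGroup Γ] [AddCommGroup Λ] [Fintype J] [DecidableEq J]
  [DecidableEq Λ]
variable {X : Type} [MeasurableSpace X] {μ : Measure X}
variable {act : MAct Γ X μ} {A₀ : (κ → ℤ) →+ Γ} {A : J → (κ → ℤ) →+ Λ}

variable (act A₀) in
/-- the orbit maps -/
def orb (m : κ → ℕ) (x : X) : X := act.S (A₀ (toZ m)) x

lemma orb_zero (x : X) : orb act A₀ 0 x = x := by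
  unfold orb; rw [toZ_zero, map_zero, act.zero]

lemma orb_add (m n : κ → ℕ) (x : X) : orb act A₀ (m + n) x = orb act A₀ m (orb act A₀ n x) := by
  unfold orb; rw [toZ_add, map_add, act.add]

lemma orb_mp (m : κ → ℕ) : MeasurePreserving (orb act A₀ m) μ μ := act.mp _

lemma pointwise_bound [Nonempty J] (φ ψ : X → ℝ) {R : ℝ} (hR : ∀ x, |ψ x| ≤ R) (H : ℕ)
    {N : ℕ} (hN : 0 < N) {M : κ → ℕ} (hM : ∀ l, N ≤ M l) (a : J → Λ → ℝ)
    (ha : ∀ i g, |a i g| ≤ 1) (x : X) :
    |avg M fun m => φ (orb act A₀ m x) * ∏ i, a i (A i (toZ m))|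
      ≤ (avg M fun m => Lam act A₀ A ψ H (orb act A₀ m x))
        + (avg M fun m => |φ (orb act A₀ m x) - ψ (orb act A₀ m x)|)
        + (∑ _l : κ, 2 * R * ((H : ℝ) + 1)) / N := by
  have hR0 : 0 ≤ R := (abs_nonneg _).trans (hR x)
  have hMpos : ∀ l, 0 < M l := fun l => lt_of_lt_of_le hN (hM l)
  set Φ : (κ → ℤ) → ℝ := fun p => ψ (act.S (A₀ p) x) * ∏ i, a i (A i p) with hΦ
  have hΦR : ∀ p, |Φ p| ≤ R := by
    intro p
    simp only [hΦ]
    rw [abs_mul]
    exact (mul_le_of_le_one_right (abs_nonneg _) (abs_prod_le_one _ _ fun i => ha i _)).trans (hR _)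
  -- first step: replace `φ` by `ψ`
  have s1 : |(avg M fun m => φ (orb act A₀ m x) * ∏ i, a i (A i (toZ m)))
      - avg M fun m => Φ (toZ m)| ≤ avg M fun m => |φ (orb act A₀ m x) - ψ (orb act A₀ m x)| := by
    rw [← avg_sub]
    refine (abs_avg_le _ _).trans (avg_mono M fun m => ?_)
    simp only [hΦ, orb]
    rw [← sub_mul, abs_mul]
    exact mul_le_of_le_one_right (abs_nonneg _) (abs_prod_le_one _ _ fun i => ha i _)
  -- second step: smoothing
  have s2 : |avgb H (fun h => avg M fun m => Φ (toZ m + h)) - avg M fun m => Φ (toZ m)|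
      ≤ (∑ _l : κ, 2 * R * ((H : ℝ) + 1)) / N := by
    have e : (avg M fun m => Φ (toZ m)) = avgb (κ := κ) H fun _ => avg M fun m => Φ (toZ m) :=
      (avgb_const H _).symm
    rw [e]
    unfold avgb
    rw [← avg_sub]
    refine (abs_avg_le _ _).trans ?_
    have hpos : ∀ l : κ, 0 < H + 1 := fun _ => Nat.succ_pos _
    rw [← avg_const (M := fun _ : κ => H + 1) hpos ((∑ _l : κ, 2 * R * ((H : ℝ) + 1)) / N)]
    refine avg_mono' _ fun h hh => ?_
    rw [mem_box] at hh
    have h1 := avg_shift M h (fun m => Φ (toZ m)) (fun m => hΦR _) hMpos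
    simp only [toZ_add] at h1
    refine h1.trans ?_
    rw [Finset.sum_div]
    refine Finset.sum_le_sum fun l _ => ?_
    have h2 : (N : ℝ) ≤ M l := by exact_mod_cast hM l
    have h3 : (0 : ℝ) < N := by exact_mod_cast hN
    have h4 : (h l : ℝ) ≤ (H : ℝ) + 1 := by exact_mod_cast (hh l).le
    gcongr
  -- third step
  have s3 : |avgb H (fun h => avg M fun m => Φ (toZ m + h))|
      ≤ avg M fun m => Lam act A₀ A ψ H (orb act A₀ m x) := by
    unfold avgb
    rw [← avg_comm M (fun _ => H + 1) (fun m h => Φ (toZ m + toZ h))]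
    refine (abs_avg_le _ _).trans (avg_mono M fun m => ?_)
    have h1 := abs_avgb_le_Lam (act := act) (A₀ := A₀) (A := A) ψ H (orb act A₀ m x)
      (fun i g => a i (A i (toZ m) + g)) (fun i g => ha _ _)
    refine le_trans (le_of_eq ?_) h1
    unfold avgb
    congr 2
    funext h
    simp only [hΦ, orb]
    rw [add_comm (toZ m) (toZ h), map_add, act.add]
    congr 1
    refine Finset.prod_congr rfl fun i _ => ?_
    rw [map_add, add_comm]
  have t1 := abs_sub_abs_le_abs_sub (avg M fun m => φ (orb act A₀ m x) * ∏ i, a i (A i (toZ m)))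
    (avg M fun m => Φ (toZ m))
  have t2 := abs_sub_abs_le_abs_sub (avg M fun m => Φ (toZ m))
    (avgb H (fun h => avg M fun m => Φ (toZ m + h)))
  rw [abs_sub_comm] at s2
  linarith

/-- truncation of a real function -/
noncomputable def tr (φ : X → ℝ) (K : ℕ) (x : X) : ℝ := max (-(K : ℝ)) (min (φ x) K)

lemma abs_tr_le (φ : X → ℝ) (K : ℕ) (x : X) : |tr φ K x| ≤ K := by
  unfold tr
  have hK : (0 : ℝ) ≤ K := Nat.cast_nonneg K
  rw [abs_le]
  exact ⟨le_max_left _ _, max_le (by linarith) (min_le_right _ _)⟩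

lemma measurable_tr {φ : X → ℝ} (hφ : Measurable φ) (K : ℕ) : Measurable (tr φ K) :=
  measurable_const.max (hφ.min measurable_const)

/-- the tail -/
noncomputable def tl (φ : X → ℝ) (K : ℕ) (x : X) : ℝ := if (K : ℝ) < |φ x| then φ x ^ 2 else 0

lemma sub_tr (φ : X → ℝ) (K : ℕ) (x : X) :
    K * |φ x - tr φ K x| ≤ tl φ K x ∧ |φ x - tr φ K x| ^ 2 ≤ tl φ K x := by
  unfold tr tl
  have hK : (0 : ℝ) ≤ K := Nat.cast_nonneg K
  by_cases h : (K : ℝ) < |φ x|
  · rw [if_pos h]
    rcases le_total 0 (φ x) with h0 | h0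
    · rw [abs_of_nonneg h0] at h
      rw [min_eq_right h.le, max_eq_right (by linarith), abs_of_nonneg (by linarith)]
      constructor <;> nlinarith
    · rw [abs_of_nonpos h0] at h
      rw [min_eq_left (by linarith), max_eq_left (by linarith), abs_of_nonpos (by linarith)]
      constructor <;> nlinarith
  · rw [if_neg h]
    push Not at h
    have h' := abs_le.1 h
    rw [min_eq_left h'.2, max_eq_right h'.1]
    simp

lemma tl_tendsto {φ : X → ℝ} (hφm : Measurable φ) (hφ : MemLp φ 2 μ) :
    Tendsto (fun K : ℕ => ∫ x, tl φ K x ∂μ) atTop (𝓝 0) := by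
  have hsq : Integrable (fun x => φ x ^ 2) μ := hφ.integrable_sq
  have h := tendsto_integral_of_dominated_convergence (μ := μ)
    (F := fun (K : ℕ) x => tl φ K x) (f := fun _ => (0 : ℝ)) (fun x => φ x ^ 2)
    (fun K => by
      unfold tl
      exact (Measurable.ite (measurableSet_lt measurable_const (continuous_abs.measurable.comp hφm))
        (hφm.pow_const 2) measurable_const).aestronglyMeasurable)
    hsq
    (fun K => Eventually.of_forall fun x => by
      unfold tl
      split_ifs
      · rw [Real.norm_eq_abs, abs_of_nonneg (sq_nonneg _)]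
      · simp [sq_nonneg])
    (Eventually.of_forall fun x => by
      obtain ⟨K, hK⟩ := exists_nat_ge |φ x|
      refine tendsto_const_nhds.congr' ?_
      filter_upwards [eventually_ge_atTop K] with K' hK'
      unfold tl
      rw [if_neg]
      push Not
      exact hK.trans (by exact_mod_cast hK'))
  simpa using h

lemma integrable_tl {φ : X → ℝ} (hφm : Measurable φ) (hφ : MemLp φ 2 μ) (K : ℕ) :
    Integrable (tl φ K) μ := by
  refine hφ.integrable_sq.mono' ?_ ?_
  · unfold tl
    exact (Measurable.ite (measurableSet_lt measurable_const (continuous_abs.measurable.comp hφm))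
        (hφm.pow_const 2) measurable_const).aestronglyMeasurable
  · refine Eventually.of_forall fun x => ?_
    unfold tl
    split_ifs
    · rw [Real.norm_eq_abs, abs_of_nonneg (sq_nonneg _)]
    · simp [sq_nonneg]

lemma integrable_Lam [IsProbabilityMeasure μ] [Nonempty J] {φ : X → ℝ} (hφm : Measurable φ)
    (hφ : Integrable φ μ) (H : ℕ) : Integrable (Lam act A₀ A φ H) μ := by
  have h1 : ∀ x, |Lam act A₀ A φ H x| ≤ avgb H fun h => |φ (act.S (A₀ h) x)| := by
    intro x
    rw [abs_of_nonneg (Lam_nonneg φ H x)]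
    have h2 := Lam_le_add (act := act) (A₀ := A₀) (A := A) φ (fun _ => 0) H x
    have h3 : Lam act A₀ A (fun _ => 0) H x ≤ 0 := Lam_le le_rfl (by simp) H x
    simp only [sub_zero] at h2
    linarith
  have h2 : Integrable (fun x => avgb H fun h => |φ (act.S (A₀ h) x)|) μ := by
    unfold avgb avg
    refine Integrable.const_mul ?_ _
    exact integrable_finsetSum _ fun h _ =>
      ((act.mp _).integrable_comp_of_integrable hφ).abs
  exact h2.mono' (measurable_Lam hφm H).aestronglyMeasurable
    (Eventually.of_forall fun x => by rw [Real.norm_eq_abs]; exact h1 x)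

lemma integral_Lam_tr_le [IsProbabilityMeasure μ] [Nonempty J] {φ ψ : X → ℝ}
    (hφm : Measurable φ) (hφ : Integrable φ μ) (hψm : Measurable ψ) (hψ : Integrable ψ μ)
    (H : ℕ) : ∫ x, Lam act A₀ A ψ H x ∂μ
      ≤ ∫ x, Lam act A₀ A φ H x ∂μ + ∫ x, |φ x - ψ x| ∂μ := by
  have hd : Integrable (fun x => |ψ x - φ x|) μ := (hψ.sub hφ).abs
  have hdm : Measurable (fun x => |ψ x - φ x|) := continuous_abs.measurable.comp (hψm.sub hφm)
  have h2 : Integrable (fun x => avgb (κ := κ) H fun h => |ψ (act.S (A₀ h) x) - φ (act.S (A₀ h) x)|) μ := by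
    unfold avgb avg
    refine Integrable.const_mul ?_ _
    exact integrable_finsetSum _ fun h _ =>
      (act.mp (A₀ (toZ h))).integrable_comp_of_integrable hd
  have h3 : ∫ x, avgb (κ := κ) H (fun h => |ψ (act.S (A₀ h) x) - φ (act.S (A₀ h) x)|) ∂μ
      = ∫ x, |φ x - ψ x| ∂μ := by
    unfold avgb avg
    rw [integral_const_mul, integral_finsetSum]
    · have : ∀ h ∈ box (fun _ : κ => H + 1),
          ∫ x, |ψ (act.S (A₀ (toZ h)) x) - φ (act.S (A₀ (toZ h)) x)| ∂μ = ∫ x, |φ x - ψ x| ∂μ := by
        intro h _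
        rw [act.integral_comp (A₀ (toZ h)) (f := fun x => |ψ x - φ x|) hdm]
        simp_rw [abs_sub_comm]
      rw [Finset.sum_congr rfl this]
      exact avgb_const (κ := κ) H _
    · intro h _
      exact (act.mp (A₀ (toZ h))).integrable_comp_of_integrable hd
  rw [← h3, ← integral_add (integrable_Lam hφm hφ H) h2]
  exact integral_mono (integrable_Lam hψm hψ H) ((integrable_Lam hφm hφ H).add h2)
    fun x => Lam_le_add ψ φ H x

end Pool.Agent.Lib.Pf720ae
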