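import Pool.Agent.Lib.Pf720ae.Master

/-!
The master theorem, conclusion.
-/

set_option autoImplicit false
set_option linter.unusedSectionVars false

open MeasureTheory Filter Topology ProbabilityTheory Finset
open scoped ENNReal NNReal

namespace Pool.Agent.Lib.Pf720ae

variable {κ : Type} [Fintype κ] [DecidableEq κ]
variable {J Λ Γ : Type} [AddCommGroup Γ] [AddCommGroup Λ] [Fintype J] [DecidableEq J]
  [DecidableEq Λ]
variable {X : Type} [MeasurableSpace X] {μ : Measure X}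
variable {act : MAct Γ X μ} {A₀ : (κ → ℤ) →+ Γ} {A : J → (κ → ℤ) →+ Λ}

variable (act A₀ A) in
/-- the good set at level `ε` -/
def good (φ : X → ℝ) (ε : ℝ) (x : X) : Prop :=
  ∃ N : ℕ, ∀ M : κ → ℕ, (∀ l, N ≤ M l) → ∀ a : J → Λ → ℝ, (∀ i g, |a i g| ≤ 1) →
    |avg M fun m => φ (orb act A₀ m x) * ∏ i, a i (A i (toZ m))| ≤ ε

lemma good_of_NS [Nonempty J] (φ ψ : X → ℝ) {R : ℝ} (hR : ∀ x, |ψ x| ≤ R) (H : ℕ)
    {ε : ℝ} (hε : 0 < ε) (x : X)
    (h : NS (orb act A₀) (fun x => ENNReal.ofReal (Lam act A₀ A ψ H x)) x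
      + NS (orb act A₀) (fun x => ENNReal.ofReal |φ x - ψ x|) x ≤ ENNReal.ofReal (ε / 2)) :
    good act A₀ A φ ε x := by
  set C : ℝ := ∑ _l : κ, 2 * R * ((H : ℝ) + 1) with hC
  have hR0 : 0 ≤ R := (abs_nonneg _).trans (hR x)
  have hC0 : 0 ≤ C := by positivity
  obtain ⟨N, hN⟩ := exists_nat_gt (2 * C / ε)
  have hNpos : 0 < N := by
    rcases Nat.eq_zero_or_pos N with h0 | h0
    · subst h0
      exfalso
      have : 0 ≤ 2 * C / ε := by positivity
      simp at hN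
      linarith
    · exact h0
  have hNr : (0 : ℝ) < N := by exact_mod_cast hNpos
  refine ⟨N, fun M hM a ha => ?_⟩
  have hMpos : ∀ l, 0 < M l := fun l => lt_of_lt_of_le hNpos (hM l)
  have h1 := pointwise_bound (act := act) (A₀ := A₀) (A := A) φ ψ hR H hNpos hM a ha x
  have h2 := ofReal_avg_le_NS (U := orb act A₀) hMpos (fun x => Lam act A₀ A ψ H x)
    (fun x => Lam_nonneg ψ H x) x
  have h3 := ofReal_avg_le_NS (U := orb act A₀) hMpos (fun x => |φ x - ψ x|)
    (fun x => abs_nonneg _) x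
  have h4 : (avg M fun m => Lam act A₀ A ψ H (orb act A₀ m x))
      + (avg M fun m => |φ (orb act A₀ m x) - ψ (orb act A₀ m x)|) ≤ ε / 2 := by
    rw [← ENNReal.ofReal_le_ofReal_iff (by positivity), ENNReal.ofReal_add
      (avg_nonneg M fun m => Lam_nonneg ψ H _) (avg_nonneg M fun m => abs_nonneg _)]
    exact (add_le_add h2 h3).trans h
  have h5 : C / N ≤ ε / 2 := by
    rw [div_le_iff₀ hNr]
    rw [div_lt_iff₀ hε] at hN
    linarith
  linarith

lemma markov_sq {f : X → ℝ≥0∞} (hf : Measurable f) {t : ℝ≥0∞} (ht : t ≠ 0) (ht' : t ≠ ∞) :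
    μ {x | t ≤ f x} ≤ (∫⁻ x, (f x) ^ 2 ∂μ) / t ^ 2 := by
  have h1 : {x | t ≤ f x} ⊆ {x | t ^ 2 ≤ (f x) ^ 2} := by
    intro x hx
    have hx' : t ≤ f x := hx
    show t ^ 2 ≤ (f x) ^ 2
    exact pow_le_pow_left' hx' 2
  refine (measure_mono h1).trans ?_
  exact meas_ge_le_lintegral_div (hf.pow_const 2).aemeasurable (by positivity) (by finiteness)

lemma measure_not_good_le [IsProbabilityMeasure μ] [Nonempty J] {φ : X → ℝ}
    (hφm : Measurable φ) (hφ : MemLp φ 2 μ) {ε : ℝ} (hε : 0 < ε) (K H : ℕ) :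
    μ {x | ¬ good act A₀ A φ ε x} ≤ (4 ^ (Fintype.card κ) / (ENNReal.ofReal (ε / 4)) ^ 2) *
      ENNReal.ofReal (K * ∫ x, Lam act A₀ A φ H x ∂μ + 2 * ∫ x, tl φ K x ∂μ) := by
  set ψ := tr φ K with hψ
  have hψm : Measurable ψ := measurable_tr hφm K
  have hψK : ∀ x, |ψ x| ≤ K := abs_tr_le φ K
  have hψi : Integrable ψ μ := Integrable.of_bound hψm.aestronglyMeasurable K
    (Eventually.of_forall fun x => by rw [Real.norm_eq_abs]; exact hψK x)
  have hφi : Integrable φ μ := hφ.integrable (by norm_num)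
  set t := ENNReal.ofReal (ε / 4) with ht
  have ht0 : t ≠ 0 := (ENNReal.ofReal_pos.2 (by positivity)).ne'
  have httop : t ≠ ∞ := ENNReal.ofReal_ne_top
  set g1 : X → ℝ≥0∞ := fun x => ENNReal.ofReal (Lam act A₀ A ψ H x) with hg1
  set g2 : X → ℝ≥0∞ := fun x => ENNReal.ofReal |φ x - ψ x| with hg2
  have hg1m : Measurable g1 := (measurable_Lam hψm H).ennreal_ofReal
  have hg2m : Measurable g2 := (continuous_abs.measurable.comp (hφm.sub hψm)).ennreal_ofReal
  set N1 := NS (orb act A₀) g1 with hN1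
  set N2 := NS (orb act A₀) g2 with hN2
  have hUm : ∀ m, Measurable (orb act A₀ m) := fun m => (act.mp _).measurable
  have hN1m : Measurable N1 := measurable_NS hUm hg1m
  have hN2m : Measurable N2 := measurable_NS hUm hg2m
  have hsub : {x | ¬ good act A₀ A φ ε x} ⊆ {x | t ≤ N1 x} ∪ {x | t ≤ N2 x} := by
    intro x hx
    by_contra hcon
    simp only [Set.mem_union, Set.mem_ofPred_eq, not_or, not_le] at hcon
    apply hx
    refine good_of_NS φ ψ hψK H hε x ?_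
    have e : ENNReal.ofReal (ε / 2) = t + t := by
      rw [ht, ← ENNReal.ofReal_add (by positivity) (by positivity)]
      congr 1; ring
    rw [e]
    exact add_le_add hcon.1.le hcon.2.le
  have b1 : ∫⁻ x, (N1 x) ^ 2 ∂μ ≤ 4 ^ (Fintype.card κ) *
      ENNReal.ofReal (K * ∫ x, Lam act A₀ A φ H x ∂μ + ∫ x, tl φ K x ∂μ) := by
    refine (lintegral_NS_sq (fun x => orb_zero x) orb_add orb_mp hg1m).trans ?_
    gcongr
    have e1 : ∀ x, (g1 x) ^ 2 ≤ ENNReal.ofReal (K * Lam act A₀ A ψ H x) := by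
      intro x
      simp only [hg1]
      rw [← ENNReal.ofReal_pow (Lam_nonneg ψ H x)]
      apply ENNReal.ofReal_le_ofReal
      rw [sq]
      exact mul_le_mul_of_nonneg_right (Lam_le (Nat.cast_nonneg K) hψK H x) (Lam_nonneg ψ H x)
    calc ∫⁻ x, (g1 x) ^ 2 ∂μ ≤ ∫⁻ x, ENNReal.ofReal (K * Lam act A₀ A ψ H x) ∂μ :=
          lintegral_mono e1
      _ = ENNReal.ofReal (∫ x, K * Lam act A₀ A ψ H x ∂μ) := by
          rw [ofReal_integral_eq_lintegral_ofReal ((integrable_Lam hψm hψi H).const_mul _)]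
          exact Eventually.of_forall fun x => mul_nonneg (Nat.cast_nonneg K) (Lam_nonneg ψ H x)
      _ ≤ ENNReal.ofReal (K * ∫ x, Lam act A₀ A φ H x ∂μ + ∫ x, tl φ K x ∂μ) := by
          apply ENNReal.ofReal_le_ofReal
          rw [integral_const_mul]
          have i1 := integral_Lam_tr_le (act := act) (A₀ := A₀) (A := A) hφm hφi hψm hψi H
          have i2 : K * ∫ x, |φ x - ψ x| ∂μ ≤ ∫ x, tl φ K x ∂μ := by
            rw [← integral_const_mul]
            exact integral_mono ((hφi.sub hψi).abs.const_mul _) (integrable_tl hφm hφ K)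
              fun x => (sub_tr φ K x).1
          have i3 := mul_le_mul_of_nonneg_left i1 (Nat.cast_nonneg (α := ℝ) K)
          linarith
  have b2 : ∫⁻ x, (N2 x) ^ 2 ∂μ ≤ 4 ^ (Fintype.card κ) * ENNReal.ofReal (∫ x, tl φ K x ∂μ) := by
    refine (lintegral_NS_sq (fun x => orb_zero x) orb_add orb_mp hg2m).trans ?_
    gcongr
    rw [ofReal_integral_eq_lintegral_ofReal (integrable_tl hφm hφ K)]
    · refine lintegral_mono fun x => ?_
      simp only [hg2]
      rw [← ENNReal.ofReal_pow (abs_nonneg _)]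
      exact ENNReal.ofReal_le_ofReal (sub_tr φ K x).2
    · refine Eventually.of_forall fun x => ?_
      exact le_trans (by positivity) (sub_tr φ K x).2
  have htlnn : 0 ≤ ∫ x, tl φ K x ∂μ := integral_nonneg fun x =>
    le_trans (by positivity) (sub_tr φ K x).2
  have hLnn : 0 ≤ ∫ x, Lam act A₀ A φ H x ∂μ := integral_nonneg fun x => Lam_nonneg φ H x
  calc μ {x | ¬ good act A₀ A φ ε x} ≤ μ {x | t ≤ N1 x} + μ {x | t ≤ N2 x} :=
        (measure_mono hsub).trans (measure_union_le _ _)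
    _ ≤ (∫⁻ x, (N1 x) ^ 2 ∂μ) / t ^ 2 + (∫⁻ x, (N2 x) ^ 2 ∂μ) / t ^ 2 :=
        add_le_add (markov_sq hN1m ht0 httop) (markov_sq hN2m ht0 httop)
    _ ≤ (4 ^ (Fintype.card κ) *
      ENNReal.ofReal (K * ∫ x, Lam act A₀ A φ H x ∂μ + ∫ x, tl φ K x ∂μ)) / t ^ 2
        + (4 ^ (Fintype.card κ) * ENNReal.ofReal (∫ x, tl φ K x ∂μ)) / t ^ 2 := by gcongr
    _ = (4 ^ (Fintype.card κ) / t ^ 2) *
      ENNReal.ofReal (K * ∫ x, Lam act A₀ A φ H x ∂μ + 2 * ∫ x, tl φ K x ∂μ) := by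
        have e : K * ∫ x, Lam act A₀ A φ H x ∂μ + 2 * ∫ x, tl φ K x ∂μ
            = (K * ∫ x, Lam act A₀ A φ H x ∂μ + ∫ x, tl φ K x ∂μ) + ∫ x, tl φ K x ∂μ := by ring
        have key : ∀ a b c : ℝ≥0∞, (c * a) / t ^ 2 + (c * b) / t ^ 2 = (c / t ^ 2) * (a + b) := by
          intro a b c
          rw [mul_add, ENNReal.mul_div_right_comm, ENNReal.mul_div_right_comm]
        have hnn : 0 ≤ K * ∫ x, Lam act A₀ A φ H x ∂μ + ∫ x, tl φ K x ∂μ := by positivity
        rw [key, e, ENNReal.ofReal_add (p := K * ∫ x, Lam act A₀ A φ H x ∂μ + ∫ x, tl φ K x ∂μ)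
          hnn htlnn]

theorem uniform [Nonempty J] [Countable Γ] [Countable Λ] [IsProbabilityMeasure μ]
    {φ : X → ℝ} (hφm : Measurable φ) (hφ : MemLp φ 2 μ)
    (horth : ∀ K : Kernel X (Om J Λ Γ), EqKer act A₀ A K → ∫ x, φ x * dual K x ∂μ = 0) :
    ∀ᵐ x ∂μ, ∀ ε > 0, good act A₀ A φ ε x := by
  have hlim := Lam_tendsto (act := act) (A₀ := A₀) (A := A) hφm (hφ.integrable (by norm_num))
    horth (hyperfilter ℕ) Nat.hyperfilter_le_atTop
  have hone : ∀ ε > 0, ∀ᵐ x ∂μ, good act A₀ A φ ε x := by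
    intro ε hε
    rw [ae_iff]
    set C : ℝ≥0∞ := 4 ^ (Fintype.card κ) / (ENNReal.ofReal (ε / 4)) ^ 2 with hC
    have hCtop : C ≠ ∞ := by
      refine ENNReal.div_ne_top (by finiteness) ?_
      have : ENNReal.ofReal (ε / 4) ≠ 0 := (ENNReal.ofReal_pos.2 (by positivity)).ne'
      positivity
    -- first let `H` go to infinity
    have h1 : ∀ K : ℕ, μ {x | ¬ good act A₀ A φ ε x} ≤ C * ENNReal.ofReal (2 * ∫ x, tl φ K x ∂μ) := by
      intro K
      have h2 : Tendsto (fun H => C * ENNReal.ofReal (K * ∫ x, Lam act A₀ A φ H x ∂μ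
          + 2 * ∫ x, tl φ K x ∂μ)) (hyperfilter ℕ : Ultrafilter ℕ)
          (𝓝 (C * ENNReal.ofReal (K * 0 + 2 * ∫ x, tl φ K x ∂μ))) := by
        refine ENNReal.Tendsto.const_mul ?_ (Or.inr hCtop)
        exact ENNReal.tendsto_ofReal ((hlim.const_mul (K : ℝ)).add_const _)
      rw [mul_zero, zero_add] at h2
      exact ge_of_tendsto' h2 fun H => measure_not_good_le hφm hφ hε K H
    have h3 : Tendsto (fun K : ℕ => C * ENNReal.ofReal (2 * ∫ x, tl φ K x ∂μ)) atTop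
        (𝓝 (C * ENNReal.ofReal (2 * 0))) := by
      refine ENNReal.Tendsto.const_mul ?_ (Or.inr hCtop)
      exact ENNReal.tendsto_ofReal ((tl_tendsto hφm hφ).const_mul 2)
    rw [mul_zero, ENNReal.ofReal_zero, mul_zero] at h3
    exact le_antisymm (ge_of_tendsto' h3 h1) zero_le
  have hall : ∀ᵐ x ∂μ, ∀ n : ℕ, good act A₀ A φ (1 / ((n : ℝ) + 1)) x :=
    ae_all_iff.2 fun n => hone _ (by positivity)
  filter_upwards [hall] with x hx ε hε
  obtain ⟨n, hn⟩ := exists_nat_one_div_lt hε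
  obtain ⟨N, hN⟩ := hx n
  exact ⟨N, fun M hM a ha => (hN M hM a ha).trans hn.le⟩

lemma measurable_dual (K : Kernel X (Om J Λ Γ)) [Countable Γ] [Countable Λ]  :
    Measurable (dual K) := by
  have h : StronglyMeasurable (fun ω : Om J Λ Γ => ∏ i, ((ω i 0 0 : Ic) : ℝ)) :=
    (cprod (J := J) (Λ := Λ) (Γ := Γ)).continuous.stronglyMeasurable
  exact (StronglyMeasurable.integral_kernel (κ := K) h).measurable

lemma abs_dual_le (K : Kernel X (Om J Λ Γ)) [IsMarkovKernel K] (x : X) : |dual K x| ≤ 1 := by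
  unfold dual
  calc |∫ ω, ∏ i, ((ω i 0 0 : Ic) : ℝ) ∂(K x)| ≤ ∫ ω, |∏ i, ((ω i 0 0 : Ic) : ℝ)| ∂(K x) :=
        abs_integral_le_integral_abs
    _ ≤ ∫ _ω, (1 : ℝ) ∂(K x) := by
        refine integral_mono_of_nonneg (Eventually.of_forall fun x => abs_nonneg _)
          (integrable_const _) (Eventually.of_forall fun ω => ?_)
        exact abs_prod_le_one _ _ fun i => abs_Ic _
    _ = 1 := by simp

/-- The master theorem. -/
theorem master [Nonempty J] [Countable Γ] [Countable Λ] [IsProbabilityMeasure μ]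
    (act : MAct Γ X μ) (A₀ : (κ → ℤ) →+ Γ) (A : J → (κ → ℤ) →+ Λ)
    (W : X → Set ((κ → ℕ) → ℝ))
    (hW : ∀ x, ∀ w ∈ W x, ∃ a : J → Λ → ℝ, (∀ i g, |a i g| ≤ 1) ∧
      ∀ m, w m = ∏ i, a i (A i (toZ m)))
    (hD : ∀ K : Kernel X (Om J Λ Γ), EqKer act A₀ A K → Cv μ (orb act A₀) W (dual K))
    (φ : X → ℝ) (hφ : MemLp φ 2 μ) : Cv μ (orb act A₀) W φ := by
  refine principle (fun x => orb_zero x) orb_add orb_mp ?_ ?_ φ hφ
  · intro x w hw m
    obtain ⟨a, ha, h⟩ := hW x w hw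
    rw [h m]
    exact abs_prod_le_one _ _ fun i => ha i _
  · intro φ hφm hφ horth
    have h1 := uniform (act := act) (A₀ := A₀) (A := A) hφm hφ (fun K hK => by
      have := hK.markov
      exact horth _ (measurable_dual K) (fun x => abs_dual_le K x) (hD K hK))
    filter_upwards [h1] with x hx w hw
    obtain ⟨a, ha, h⟩ := hW x w hw
    refine ⟨0, ?_⟩
    rw [Metric.tendsto_nhds]
    intro ε hε
    obtain ⟨N, hN⟩ := hx (ε / 2) (by positivity)
    filter_upwards [eventually_ge N] with M hM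
    have h2 := hN M hM a ha
    rw [Real.dist_eq, sub_zero]
    have h3 : (fun m => φ (orb act A₀ m x) * w m)
        = fun m => φ (orb act A₀ m x) * ∏ i, a i (A i (toZ m)) := by
      funext m; rw [h m]
    rw [h3]
    linarith

end Pool.Agent.Lib.Pf720ae
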