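import Pool.Agent.Lib.Pf720ae.Avg

/-!
Maximal ergodic theorem for one measure preserving map, and the `L²` maximal inequality.
-/

set_option autoImplicit false
set_option linter.unusedSectionVars false

open MeasureTheory Filter Topology Finset
open scoped ENNReal NNReal

namespace Pool.Agent.Lib.Pf720ae

section hopf

variable {X : Type} [MeasurableSpace X] {μ : Measure X} {T : X → X}

/-- running maximum of Birkhoff sums -/
noncomputable def mx (T : X → X) (g : X → ℝ) : ℕ → X → ℝ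
  | 0 => fun _ => 0
  | n + 1 => fun x => max 0 (g x + mx T g n (T x))

lemma mx_nonneg (g : X → ℝ) (n : ℕ) (x : X) : 0 ≤ mx T g n x := by
  cases n with
  | zero => exact le_rfl
  | succ n => exact le_max_left _ _

lemma mx_le_succ (g : X → ℝ) (n : ℕ) (x : X) : mx T g n x ≤ mx T g (n + 1) x := by
  induction n generalizing x with
  | zero => exact mx_nonneg g 1 x
  | succ n ih =>
    show max 0 (g x + mx T g n (T x)) ≤ max 0 (g x + mx T g (n + 1) (T x))
    exact max_le_max le_rfl (by linarith [ih (T x)])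

lemma mx_mono (g : X → ℝ) (x : X) : Monotone fun n => mx T g n x :=
  monotone_nat_of_le_succ fun n => mx_le_succ g n x

lemma mx_exists (g : X → ℝ) (n : ℕ) (x : X) : ∃ k, mx T g n x = birkhoffSum T g k x := by
  induction n generalizing x with
  | zero => exact ⟨0, by simp [mx]⟩
  | succ n ih =>
    rcases le_total (g x + mx T g n (T x)) 0 with h | h
    · exact ⟨0, by simp [mx, h]⟩
    · obtain ⟨k, hk⟩ := ih (T x)
      refine ⟨k + 1, ?_⟩
      rw [birkhoffSum_succ', ← hk]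
      exact max_eq_right h

lemma le_mx (g : X → ℝ) (k : ℕ) (x : X) : birkhoffSum T g k x ≤ mx T g k x := by
  induction k generalizing x with
  | zero => simp [mx]
  | succ n ih =>
    rw [birkhoffSum_succ']
    exact (add_le_add le_rfl (ih (T x))).trans (le_max_right _ _)

lemma measurable_mx (hT : Measurable T) {g : X → ℝ} (hg : Measurable g) (n : ℕ) :
    Measurable (mx T g n) := by
  induction n with
  | zero => exact measurable_const
  | succ n ih => exact measurable_const.max (hg.add (ih.comp hT))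

lemma mx_bound {g : X → ℝ} {K : ℝ} (hK : ∀ x, |g x| ≤ K) (n : ℕ) (x : X) :
    |mx T g n x| ≤ n * K := by
  have hK0 : 0 ≤ K := (abs_nonneg _).trans (hK x)
  rw [abs_of_nonneg (mx_nonneg g n x)]
  induction n generalizing x with
  | zero => simp [mx]
  | succ n ih =>
    refine max_le (by positivity) ?_
    have h1 := (le_abs_self _).trans (hK x)
    have h2 := ih (T x)
    push_cast
    linarith

/-- Maximal ergodic theorem for bounded functions. -/
lemma hopf [IsFiniteMeasure μ] (hT : MeasurePreserving T μ μ) {g : X → ℝ} (hg : Measurable g)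
    {K : ℝ} (hK : ∀ x, |g x| ≤ K) (n : ℕ) :
    0 ≤ ∫ x in {x | 0 < mx T g n x}, g x ∂μ := by
  have hTm := hT.measurable
  have hmeas := measurable_mx hTm hg n
  have hint : Integrable (mx T g n) μ :=
    Integrable.of_bound hmeas.aestronglyMeasurable (n * K)
      (Eventually.of_forall fun x => by simpa using mx_bound hK n x)
  have hintT : Integrable (fun x => mx T g n (T x)) μ :=
    Integrable.of_bound (hmeas.comp hTm).aestronglyMeasurable (n * K)
      (Eventually.of_forall fun x => by simpa using mx_bound hK n (T x))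
  have hgint : Integrable g μ :=
    Integrable.of_bound hg.aestronglyMeasurable K
      (Eventually.of_forall fun x => by simpa using hK x)
  have hset : MeasurableSet {x | 0 < mx T g n x} := measurableSet_lt measurable_const hmeas
  have heq : ∫ x, mx T g n (T x) ∂μ = ∫ x, mx T g n x ∂μ := by
    conv_rhs => rw [← hT.map_eq]
    rw [integral_map hTm.aemeasurable hmeas.aestronglyMeasurable]
  have key : ∫ x, (mx T g n x - mx T g n (T x)) ∂μ
      ≤ ∫ x, ({x | 0 < mx T g n x}.indicator g) x ∂μ := by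
    refine integral_mono (hint.sub hintT) (hgint.indicator hset) fun x => ?_
    by_cases hx : 0 < mx T g n x
    · rw [Set.indicator_of_mem (by exact hx)]
      cases n with
      | zero => simp [mx] at hx
      | succ n =>
        have h1 : mx T g (n + 1) x = g x + mx T g n (T x) := by
          have : mx T g (n + 1) x = max 0 (g x + mx T g n (T x)) := rfl
          rw [this] at hx ⊢
          exact max_eq_right ((lt_max_iff.1 hx).resolve_left (lt_irrefl _)).le
        have h2 := mx_le_succ (T := T) g n (T x)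
        show mx T g (n + 1) x - mx T g (n + 1) (T x) ≤ g x
        linarith
    · rw [Set.indicator_of_notMem (by exact hx)]
      have h1 : mx T g n x = 0 := le_antisymm (not_lt.1 hx) (mx_nonneg g n x)
      have h2 := mx_nonneg (T := T) g n (T x)
      show mx T g n x - mx T g n (T x) ≤ 0
      linarith
  rw [integral_sub hint hintT, heq, sub_self] at key
  rwa [integral_indicator hset] at key

/-- ergodic averages of `[0,∞]`-valued functions -/
noncomputable def Am (T : X → X) (g : X → ℝ≥0∞) (n : ℕ) (x : X) : ℝ≥0∞ :=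
  ((n : ℝ≥0∞) + 1)⁻¹ * ∑ i ∈ range (n + 1), g (T^[i] x)

/-- the maximal function -/
noncomputable def Mx (T : X → X) (g : X → ℝ≥0∞) (x : X) : ℝ≥0∞ := ⨆ n, Am T g n x

lemma measurable_Am (hT : Measurable T) {g : X → ℝ≥0∞} (hg : Measurable g) (n : ℕ) :
    Measurable (Am T g n) := by
  unfold Am
  exact (Finset.measurable_fun_sum _ fun i _ => hg.comp (hT.iterate i)).const_mul _

lemma measurable_Mx (hT : Measurable T) {g : X → ℝ≥0∞} (hg : Measurable g) :
    Measurable (Mx T g) :=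
  Measurable.iSup fun n => measurable_Am hT hg n

lemma Am_mono {g h : X → ℝ≥0∞} (hgh : ∀ x, g x ≤ h x) (n : ℕ) (x : X) :
    Am T g n x ≤ Am T h n x := by
  unfold Am
  gcongr
  exact hgh _

lemma Mx_mono {g h : X → ℝ≥0∞} (hgh : ∀ x, g x ≤ h x) (x : X) :
    Mx T g x ≤ Mx T h x :=
  iSup_mono fun n => Am_mono hgh n x

lemma Am_le_const {g : X → ℝ≥0∞} {K : ℝ≥0∞} (hK : ∀ x, g x ≤ K) (n : ℕ) (x : X) :
    Am T g n x ≤ K := by
  unfold Am
  have h0 : ((n : ℝ≥0∞) + 1) ≠ 0 := by simp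
  have h1 : ((n : ℝ≥0∞) + 1) ≠ ∞ := by finiteness
  calc ((n : ℝ≥0∞) + 1)⁻¹ * ∑ i ∈ range (n + 1), g (T^[i] x)
      ≤ ((n : ℝ≥0∞) + 1)⁻¹ * ∑ i ∈ range (n + 1), K := by
        gcongr; exact hK _
    _ = K := by
        rw [Finset.sum_const, card_range, nsmul_eq_mul, ← mul_assoc]
        push_cast
        rw [ENNReal.inv_mul_cancel h0 h1, one_mul]

lemma Mx_le_const {g : X → ℝ≥0∞} {K : ℝ≥0∞} (hK : ∀ x, g x ≤ K) (x : X) :
    Mx T g x ≤ K :=
  iSup_le fun n => Am_le_const hK n x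

/-- weak type inequality -/
lemma weak_type [IsFiniteMeasure μ] (hT : MeasurePreserving T μ μ) {g : X → ℝ≥0}
    (hg : Measurable g) {K : ℝ≥0} (hK : ∀ x, g x ≤ K) (t : ℝ≥0) :
    t * μ {x | (t : ℝ≥0∞) < Mx T (fun x => (g x : ℝ≥0∞)) x}
      ≤ ∫⁻ x in {x | (t : ℝ≥0∞) < Mx T (fun x => (g x : ℝ≥0∞)) x}, g x ∂μ := by
  set G : X → ℝ := fun x => (g x : ℝ) - t with hG
  have hGm : Measurable G := hg.coe_nnreal_real.sub_const _
  have hGK : ∀ x, |G x| ≤ K + t := by
    intro x
    have h1 : (g x : ℝ) ≤ K := by exact_mod_cast hK x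
    have h2 : (0 : ℝ) ≤ g x := (g x).2
    have h3 : (0 : ℝ) ≤ t := t.2
    rw [abs_le]; constructor <;> simp only [hG] <;> linarith
  -- identify the sets
  have hset : {x | (t : ℝ≥0∞) < Mx T (fun x => (g x : ℝ≥0∞)) x}
      = ⋃ n, {x | 0 < mx T G n x} := by
    have hAm : ∀ n x, (t : ℝ≥0∞) < Am T (fun x => (g x : ℝ≥0∞)) n x
        ↔ 0 < birkhoffSum T G (n + 1) x := by
      intro n x
      have h1 : Am T (fun x => (g x : ℝ≥0∞)) n x
          = (((n : ℝ≥0) + 1)⁻¹ * ∑ i ∈ range (n + 1), g (T^[i] x) : ℝ≥0) := by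
        unfold Am
        rw [ENNReal.coe_mul, ENNReal.coe_inv (by positivity)]
        push_cast
        rfl
      rw [h1, ENNReal.coe_lt_coe, ← NNReal.coe_lt_coe]
      have h2 : birkhoffSum T G (n + 1) x
          = (∑ i ∈ range (n + 1), (g (T^[i] x) : ℝ)) - (n + 1) * t := by
        simp only [birkhoffSum, hG, Finset.sum_sub_distrib, Finset.sum_const, card_range,
          nsmul_eq_mul]
        push_cast; ring
      rw [h2]
      push_cast
      have hn : (0 : ℝ) < n + 1 := by positivity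
      rw [lt_inv_mul_iff₀ hn, sub_pos]
    ext x
    simp only [Set.mem_ofPred_eq, Set.mem_iUnion, Mx, lt_iSup_iff]
    constructor
    · rintro ⟨n, hn⟩
      rw [hAm] at hn
      exact ⟨n + 1, hn.trans_le (le_mx G (n + 1) x)⟩
    · rintro ⟨n, hn⟩
      obtain ⟨k, hk⟩ := mx_exists (T := T) G n x
      rw [hk] at hn
      cases k with
      | zero => simp at hn
      | succ k => exact ⟨k, (hAm k x).2 hn⟩
  rw [hset]
  have hmono : Monotone fun n => {x | 0 < mx T G n x} := by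
    intro a b hab x hx
    exact lt_of_lt_of_le hx (mx_mono G x hab)
  rw [hmono.measure_iUnion, ENNReal.mul_iSup]
  refine iSup_le fun n => ?_
  have hopfn := hopf hT hGm hGK n
  set E := {x | 0 < mx T G n x} with hE
  have hEm : MeasurableSet E := measurableSet_lt measurable_const (measurable_mx hT.measurable hGm n)
  have hgint : Integrable (fun x => (g x : ℝ)) μ :=
    Integrable.of_bound hg.coe_nnreal_real.aestronglyMeasurable (K : ℝ)
      (Eventually.of_forall fun x => by simpa using hK x)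
  have h1 : (t : ℝ) * μ.real E ≤ ∫ x in E, (g x : ℝ) ∂μ := by
    have : ∫ x in E, G x ∂μ = ∫ x in E, (g x : ℝ) ∂μ - t * μ.real E := by
      simp only [hG]
      rw [integral_sub hgint.integrableOn (integrable_const _)]
      simp [mul_comm]
    linarith
  have h2 : ENNReal.ofReal (∫ x in E, (g x : ℝ) ∂μ) = ∫⁻ x in E, g x ∂μ := by
    rw [ofReal_integral_eq_lintegral_ofReal hgint.integrableOn
      (Eventually.of_forall fun x => (g x).2)]
    simp
  calc (t : ℝ≥0∞) * μ E = ENNReal.ofReal (t * μ.real E) := by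
        rw [ENNReal.ofReal_mul (NNReal.coe_nonneg t), measureReal_def,
          ENNReal.ofReal_toReal (measure_ne_top _ _)]
        simp
    _ ≤ ENNReal.ofReal (∫ x in E, (g x : ℝ) ∂μ) := ENNReal.ofReal_le_ofReal h1
    _ = ∫⁻ x in E, g x ∂μ := h2
    _ ≤ ∫⁻ x in ⋃ n, {x | 0 < mx T G n x}, g x ∂μ :=
        lintegral_mono_set (Set.subset_iUnion (fun n => {x | 0 < mx T G n x}) n)

/-- `L²` maximal inequality, bounded case. -/
lemma strong_bdd [IsFiniteMeasure μ] (hT : MeasurePreserving T μ μ) {g : X → ℝ≥0}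
    (hg : Measurable g) {K : ℝ≥0} (hK : ∀ x, g x ≤ K) :
    ∫⁻ x, (Mx T (fun x => (g x : ℝ≥0∞)) x) ^ 2 ∂μ ≤ 4 * ∫⁻ x, (g x : ℝ≥0∞) ^ 2 ∂μ := by
  set F : X → ℝ≥0∞ := Mx T (fun x => (g x : ℝ≥0∞)) with hF
  have hgE : Measurable fun x => (g x : ℝ≥0∞) := hg.coe_nnreal_ennreal
  have hFm : Measurable F := measurable_Mx hT.measurable hgE
  have hFK : ∀ x, F x ≤ K := Mx_le_const fun x => by exact_mod_cast hK x
  have hFtop : ∀ x, F x ≠ ∞ := fun x => ((hFK x).trans_lt ENNReal.coe_lt_top).ne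
  set f : X → ℝ := fun x => (F x).toReal with hf
  have hfm : Measurable f := hFm.ennreal_toReal
  have hfnn : ∀ x, 0 ≤ f x := fun x => ENNReal.toReal_nonneg
  have hof : ∀ x, ENNReal.ofReal (f x) = F x := fun x => ENNReal.ofReal_toReal (hFtop x)
  have h1 := lintegral_rpow_eq_lintegral_meas_lt_mul μ (f := f)
    (Eventually.of_forall hfnn) hfm.aemeasurable (p := 2) (by norm_num)
  have h2 : ∫⁻ x, ENNReal.ofReal (f x ^ (2 : ℝ)) ∂μ = ∫⁻ x, F x ^ 2 ∂μ := by
    refine lintegral_congr fun x => ?_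
    rw [Real.rpow_two, ENNReal.ofReal_pow (hfnn x), hof]
  rw [h2] at h1
  -- the other side
  set ρ : Measure X := μ.withDensity (fun x => (g x : ℝ≥0∞)) with hρ
  have h3 := lintegral_eq_lintegral_meas_lt ρ (f := f)
    (Eventually.of_forall hfnn) hfm.aemeasurable
  have h4 : ∫⁻ x, ENNReal.ofReal (f x) ∂ρ = ∫⁻ x, (g x : ℝ≥0∞) * F x ∂μ := by
    rw [hρ, lintegral_withDensity_eq_lintegral_mul _ hgE hfm.ennreal_ofReal]
    refine lintegral_congr fun x => ?_
    simp [hof]
  rw [h4] at h3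
  have h5 : ∫⁻ t in Set.Ioi (0 : ℝ), μ {a | t < f a} * ENNReal.ofReal (t ^ ((2 : ℝ) - 1))
      ≤ ∫⁻ t in Set.Ioi (0 : ℝ), ρ {a | t < f a} := by
    refine setLIntegral_mono' measurableSet_Ioi fun t ht => ?_
    have ht0 : (0 : ℝ) ≤ t := le_of_lt ht
    have hset : {a | t < f a} = {x | ((Real.toNNReal t : ℝ≥0) : ℝ≥0∞) < F x} := by
      ext x
      show t < f x ↔ ENNReal.ofReal t < F x
      rw [← hof x]
      rw [ENNReal.ofReal_lt_ofReal_iff_of_nonneg ht0]
    have h6 := weak_type hT hg hK (Real.toNNReal t)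
    have h7 : ρ {a | t < f a} = ∫⁻ x in {a | t < f a}, g x ∂μ := by
      rw [hρ, withDensity_apply _ (measurableSet_lt measurable_const hfm)]
    rw [h7, hset, mul_comm]
    have h8 : ENNReal.ofReal (t ^ ((2 : ℝ) - 1)) = ((Real.toNNReal t : ℝ≥0) : ℝ≥0∞) := by
      have : (2 : ℝ) - 1 = 1 := by norm_num
      rw [this, Real.rpow_one]; rfl
    rw [h8]
    exact h6
  have h9 : ∫⁻ x, F x ^ 2 ∂μ ≤ 2 * ∫⁻ x, (g x : ℝ≥0∞) * F x ∂μ := by
    rw [h1, h3]
    have : ENNReal.ofReal 2 = 2 := by simp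
    rw [this]
    gcongr
  have h10 : ∫⁻ x, (g x : ℝ≥0∞) * F x ∂μ
      ≤ (∫⁻ x, (g x : ℝ≥0∞) ^ 2 ∂μ) ^ (1 / 2 : ℝ) * (∫⁻ x, F x ^ 2 ∂μ) ^ (1 / 2 : ℝ) := by
    have := ENNReal.lintegral_mul_le_Lp_mul_Lq μ Real.HolderConjugate.two_two
      hgE.aemeasurable hFm.aemeasurable
    simpa using this
  set I := ∫⁻ x, F x ^ 2 ∂μ with hI
  set A := ∫⁻ x, (g x : ℝ≥0∞) ^ 2 ∂μ with hA
  have hItop : I ≠ ∞ := by
    have : I ≤ ∫⁻ _x, (K : ℝ≥0∞) ^ 2 ∂μ := lintegral_mono fun x => by
      gcongr; exact hFK x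
    refine ne_top_of_le_ne_top ?_ this
    rw [lintegral_const]
    finiteness
  have h11 : I ≤ 2 * (A ^ (1 / 2 : ℝ) * I ^ (1 / 2 : ℝ)) := h9.trans (by gcongr)
  by_cases hI0 : I = 0
  · rw [hI0]; exact zero_le
  have hIh0 : I ^ (1 / 2 : ℝ) ≠ 0 := by
    simp [ENNReal.rpow_eq_zero_iff, hI0, hItop]
  have hIhtop : I ^ (1 / 2 : ℝ) ≠ ∞ := by
    simp [ENNReal.rpow_eq_top_iff, hI0, hItop]
  have h12 : I = I ^ (1 / 2 : ℝ) * I ^ (1 / 2 : ℝ) := by
    rw [← ENNReal.rpow_add _ _ hI0 hItop]; norm_num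
  have h13 : I ^ (1 / 2 : ℝ) ≤ 2 * A ^ (1 / 2 : ℝ) := by
    have h14 : I ^ (1 / 2 : ℝ) * I ^ (1 / 2 : ℝ) ≤ (2 * A ^ (1 / 2 : ℝ)) * I ^ (1 / 2 : ℝ) := by
      rw [← h12, mul_assoc]; exact h11
    exact (ENNReal.mul_le_mul_iff_left hIh0 hIhtop).1 h14
  calc I = I ^ (1 / 2 : ℝ) * I ^ (1 / 2 : ℝ) := h12
    _ ≤ (2 * A ^ (1 / 2 : ℝ)) * (2 * A ^ (1 / 2 : ℝ)) := by gcongr
    _ = 4 * (A ^ (1 / 2 : ℝ) * A ^ (1 / 2 : ℝ)) := by ring
    _ = 4 * A := by
        congr 1
        rw [← ENNReal.rpow_add_of_nonneg _ _ (by norm_num) (by norm_num)]; norm_num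

end hopf

end Pool.Agent.Lib.Pf720ae
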