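import Pool.Agent.Lib.Pf720ae.Adm

/-!
Convergence for admissible families.
-/

set_option autoImplicit false
set_option linter.unusedSectionVars false

open MeasureTheory Filter Topology ProbabilityTheory Finset
open scoped ENNReal NNReal

namespace Pool.Agent.Lib.Pf720ae

variable {κ : Type} [Fintype κ] [DecidableEq κ]
variable {X : Type} [MeasurableSpace X] {μ : Measure X} [IsProbabilityMeasure μ]
variable {Z : Type} [MeasurableSpace Z] {Q : Type} [AddCommGroup Q]
variable {ι : Type} [DecidableEq ι] {Γ₀ : Type} [AddCommGroup Γ₀] {J : Type}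

section step

variable {N : ℕ} {s : Γ₀ →+ (κ → ℤ)} {π : Finset ι → Γ₀ →+ Γ₀} {R : Rel μ Z Q}
  {b : Γ₀ →+ Q} {E : J → Finset ι} {t : J → (κ → ℤ) →+ Γ₀} {B : J → (κ → ℤ) →+ Q}
  {g : J → Z → ℝ}

variable (R E B g) in
/-- new functions -/
noncomputable def newg (j₀ : J) (c : κ → ℕ) :
    {j : J // j ≠ j₀} ⊕ J2 E j₀ → Z × Om {j : J // j ≠ j₀} Q Q → ℝ :=
  Sum.elim
    (fun j w => g j (R.aZ.S (B j (toZ c)) w.1) *
      (if E j₀ ⊆ E j then ((w.2 j (B j (toZ c)) 0 : Ic) : ℝ) else 1))
    (fun j w => ((w.2 j.1 (B j.1 (toZ c)) 0 : Ic) : ℝ))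

lemma measurable_newg (hgm : ∀ j, Measurable (g j)) (j₀ : J) (c : κ → ℕ)
    (j' : {j : J // j ≠ j₀} ⊕ J2 E j₀) : Measurable (newg R E B g j₀ c j') := by
  have hev : ∀ j : {j : J // j ≠ j₀}, Measurable fun w : Z × Om {j : J // j ≠ j₀} Q Q =>
      ((w.2 j (B j (toZ c)) 0 : Ic) : ℝ) := by
    intro j
    fun_prop
  rcases j' with (j | j)
  · refine Measurable.mul ((hgm _).comp ((R.aZ.mp _).measurable.comp measurable_fst)) ?_
    split_ifs
    · exact hev j
    · exact measurable_const
  · exact hev j.1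

lemma abs_newg_le (hg1 : ∀ j z, |g j z| ≤ 1) (j₀ : J) (c : κ → ℕ)
    (j' : {j : J // j ≠ j₀} ⊕ J2 E j₀) (w : Z × Om {j : J // j ≠ j₀} Q Q) :
    |newg R E B g j₀ c j' w| ≤ 1 := by
  rcases j' with (j | j)
  · show |g j (R.aZ.S (B j (toZ c)) w.1) *
      (if E j₀ ⊆ E j then ((w.2 j (B j (toZ c)) 0 : Ic) : ℝ) else 1)| ≤ 1
    rw [abs_mul]
    refine mul_le_one₀ (hg1 _ _) (abs_nonneg _) ?_
    split_ifs
    · exact abs_Ic _
    · simp
  · exact abs_Ic _

/-- the pointwise identity behind the elimination -/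
lemma key_identity [Fintype J] [DecidableEq J]
    (hπ : ∀ E F γ, π (E ∪ F) γ = π E (π F γ)) (hA : Adm N s π R b E t B) (j₀ : J)
    {K' : Kernel Z (Om {j : J // j ≠ j₀} Q Q)}
    (hK : EqKer R.aZ (B j₀) (fun j : {j : J // j ≠ j₀} => B j) K') (c p : κ → ℕ) (z : Z)
    (ω : Om {j : J // j ≠ j₀} Q Q)
    (hω : ∀ j : {j : J // j ≠ j₀},
      ω j (B j (toZ c) + b (t j (toZ p))) (0 + (N • B j (toZ p) - b (t j (toZ p))))
        = ω j (B j (toZ c) + b (t j (toZ p)) + (N • B j (toZ p) - b (t j (toZ p)))) 0) :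
    ∏ j : {j : J // j ≠ j₀}, (((ω j (B j (toZ (N • p + c))) 0 : Ic) : ℝ)
        * g j (R.aZ.S (B j (toZ (N • p + c))) z))
      = ∏ j', newg R E B g j₀ c j' ((relExt R hK).aZ.S (newB N s π b E t B j₀ j' (toZ p)) (z, ω)) := by
  have hcast : toZ (N • p + c) = N • toZ p + toZ c := by
    funext l
    simp [toZ]
  have hb : ∀ j m, b (t j m) = B j (s (t j m)) := by
    intro j m
    have := hA.h3 j (t j m)
    rw [hA.h1] at this
    exact this.symm
  have hb' : ∀ j m, b (π (E j) (t j m)) = B j (s (π (E j) (t j m))) := fun j m =>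
    (hA.h3 j (t j m)).symm
  set W : {j : J // j ≠ j₀} → ℝ := fun j => ((ω j (B j (toZ (N • p + c))) 0 : Ic) : ℝ) with hW
  set G : {j : J // j ≠ j₀} → ℝ := fun j => g j (R.aZ.S (B j (toZ (N • p + c))) z) with hG
  have hWval : ∀ j : {j : J // j ≠ j₀},
      ω j (B j (toZ c) + B j (s (t j (toZ p)))) (0 + (N • B j (toZ p) - b (t j (toZ p))))
        = ω j (B j (toZ (N • p + c))) 0 := by
    intro j
    rw [← hb, hω]
    congr 1
    rw [hcast, map_add, map_nsmul]
    abel
  have hinr : ∀ j : J2 E j₀, newg R E B g j₀ c (Sum.inr j)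
      ((relExt R hK).aZ.S (newB N s π b E t B j₀ (Sum.inr j) (toZ p)) (z, ω)) = W j.1 := by
    intro j
    show ((ω j.1 (B j.1 (toZ c) + B j.1 (s (t j.1 (toZ p))))
      (0 + (N • B j.1 (toZ p) - b (t j.1 (toZ p)))) : Ic) : ℝ) = W j.1
    rw [hWval]
  have hinl : ∀ j : {j : J // j ≠ j₀}, newg R E B g j₀ c (Sum.inl j)
      ((relExt R hK).aZ.S (newB N s π b E t B j₀ (Sum.inl j) (toZ p)) (z, ω))
        = G j * (if E j₀ ⊆ E j then W j else 1) := by
    intro j
    show g j (R.aZ.S (B j (toZ c)) (R.aZ.S (B j₀ (s (π (E j₀) (t j (toZ p))))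
        + (N • B j (toZ p) - b (π (E j₀) (t j (toZ p))))) z)) *
      (if E j₀ ⊆ E j then ((ω j (B j (toZ c) + B j (s (π (E j₀) (t j (toZ p)))))
        (0 + (N • B j (toZ p) - b (π (E j₀) (t j (toZ p))))) : Ic) : ℝ) else 1) = _
    congr 1
    · simp only [hG]
      rw [← R.aZ.add, hA.h3, hcast, map_add, map_nsmul]
      congr 2
      abel
    · by_cases h : E j₀ ⊆ E j
      · rw [if_pos h, if_pos h]
        have h1 : π (E j₀) (t j (toZ p)) = t j (toZ p) := by
          conv_lhs => rw [← hA.h1 j, ← hπ, Finset.union_eq_right.2 h, hA.h1]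
        rw [h1, hWval]
      · rw [if_neg h, if_neg h]
  rw [Fintype.prod_sum_type]
  simp only [hinl, hinr]
  rw [Finset.prod_mul_distrib, Finset.prod_mul_distrib, mul_comm (∏ j, W j), mul_assoc]
  congr 1
  have h1 : ∏ j : J2 E j₀, W j.1 = ∏ j : {j : J // j ≠ j₀}, if ¬ E j₀ ⊆ E j then W j else 1 := by
    rw [← Finset.prod_filter]
    exact (Finset.prod_subtype _ (by simp) _).symm
  rw [h1, ← Finset.prod_mul_distrib]
  refine Finset.prod_congr rfl fun j _ => ?_
  by_cases h : E j₀ ⊆ E j <;> simp [h]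

/-- the elimination step -/
lemma elim_step [Fintype J] [DecidableEq J] [Countable Q] (hN : 0 < N)
    (hπ : ∀ E F γ, π (E ∪ F) γ = π E (π F γ)) (hA : Adm N s π R b E t B) (j₀ : J)
    [Nonempty {j : J // j ≠ j₀}]
    (hgm : ∀ j, Measurable (g j)) (hg1 : ∀ j z, |g j z| ≤ 1)
    (hnext : ∀ (K' : Kernel Z (Om {j : J // j ≠ j₀} Q Q))
      (hK : EqKer R.aZ (B j₀) (fun j : {j : J // j ≠ j₀} => B j) K') (c : κ → ℕ),
      ∀ᵐ x ∂μ, Cvg fun m => ∫ w, ∏ j', newg R E B g j₀ c j'
        ((relExt R hK).aZ.S (newB N s π b E t B j₀ j' (toZ m)) w) ∂((relExt R hK).K x)) :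
    ∀ᵐ x ∂μ, Cvg fun m => ∫ z, ∏ j, g j (R.aZ.S (B j (toZ m)) z) ∂(R.K x) := by
  have hprob := R.prob
  have hmk := R.markov
  set B' : {j : J // j ≠ j₀} → (κ → ℤ) →+ Q := fun j => B j with hB'
  set g' : {j : J // j ≠ j₀} → Z → ℝ := fun j => g j with hg'
  have hmain : RCv R (B j₀) (wtg R B' g') (g j₀) := by
    refine rel_master R (B j₀) B' g' (fun j => hgm j) (fun j => hg1 j) ?_ (g j₀)
      (memLp_of_bdd (hgm j₀) (hg1 j₀))
    intro K' hK hv _
    have hmk' := hK.markov
    -- the vertical relations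
    have hvert : ∀ᵐ z ∂(R.ν), ∀ᵐ ω ∂(K' z), ∀ (j : {j : J // j ≠ j₀}) (c p : κ → ℕ),
        ω j (B j (toZ c) + b (t j (toZ p))) (0 + (N • B j (toZ p) - b (t j (toZ p))))
        = ω j (B j (toZ c) + b (t j (toZ p)) + (N • B j (toZ p) - b (t j (toZ p)))) 0 := by
      simp only [ae_all_iff]
      intro j c p
      exact hv _ (hA.h4 j (toZ p)) j _ 0
    have hall : ∀ᵐ x ∂μ, ∀ c : κ → ℕ, Cvg fun m => ∫ w, ∏ j', newg R E B g j₀ c j'
        ((relExt R hK).aZ.S (newB N s π b E t B j₀ j' (toZ m)) w) ∂((relExt R hK).K x) :=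
      ae_all_iff.2 fun c => hnext K' hK c
    filter_upwards [hall, R.ae hvert, R.ae (dual_shift hK)] with x hx hxv hxd
    refine Cvg.of_cosets hN fun c => (hx c).congr fun p => ?_
    have hint : Integrable (fun w => ∏ j', newg R E B g j₀ c j'
        ((relExt R hK).aZ.S (newB N s π b E t B j₀ j' (toZ p)) w)) ((R.K x) ⊗ₘ K') := by
      refine Integrable.of_bound ?_ 1 ?_
      · exact (Finset.measurable_fun_prod _ fun j' _ => (measurable_newg hgm j₀ c j').comp
          ((relExt R hK).aZ.mp _).measurable).aestronglyMeasurable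
      · exact Eventually.of_forall fun w => by
          rw [Real.norm_eq_abs]
          exact abs_prod_le_one _ _ fun j' => abs_newg_le hg1 j₀ c j' _
    have hKx : (relExt R hK).K x = (R.K x) ⊗ₘ K' := kk_apply _ _ x
    rw [hKx, Measure.integral_compProd hint]
    unfold Tm
    refine integral_congr_ae ?_
    filter_upwards [hxv, hxd] with z hz hzd
    rw [hzd (toZ (N • p + c)), ← integral_mul_const]
    refine integral_congr_ae ?_
    filter_upwards [hz] with ω hω
    rw [← key_identity hπ hA j₀ hK c p z ω (fun j => hω j c p)]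
    unfold wtg
    rw [← Finset.prod_mul_distrib]
  filter_upwards [hmain] with x hx
  refine hx.congr fun m => ?_
  unfold Tm
  refine integral_congr_ae (Eventually.of_forall fun z => ?_)
  simp only
  rw [Fintype.prod_eq_mul_prod_subtype_ne _ j₀]
  rfl

end step

/-- The single function case. -/
lemma single_case (R : Rel μ Z Q) (B : (κ → ℤ) →+ Q) {f : Z → ℝ} (hf : Measurable f)
    (hf1 : ∀ z, |f z| ≤ 1) :
    ∀ᵐ x ∂μ, Cvg fun m => ∫ z, f (R.aZ.S (B (toZ m)) z) ∂(R.K x) := by
  have hmk := R.markov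
  have hm : Measurable fun x => ∫ z, f z ∂(R.K x) :=
    (StronglyMeasurable.integral_kernel (κ := R.K) (f := f) hf.stronglyMeasurable).measurable
  have h1 := dz (R.aX.comap B) hm fun x => abs_integral_le_of_bdd _ hf1
  filter_upwards [h1, ae_all_iff.2 fun m : κ → ℕ => R.eqv (B (toZ m))] with x hx hx2
  refine hx.congr fun m => ?_
  show ∫ z, f z ∂(R.K (R.aX.S (B (toZ m)) x)) = _
  rw [hx2 m, integral_map (R.aZ.mp _).measurable.aemeasurable hf.aestronglyMeasurable]

/-- Convergence for admissible families, inductive form. -/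
theorem rab_aux [Fintype ι] {N : ℕ} (hN : 0 < N) (s : Γ₀ →+ (κ → ℤ))
    (π : Finset ι → Γ₀ →+ Γ₀) (hπ : ∀ E F γ, π (E ∪ F) γ = π E (π F γ)) :
    ∀ (k a : ℕ) (_ : Fintype.card ι + 1 ≤ a + k) (n : ℕ)
      (Z : Type) [MeasurableSpace Z] (Q : Type) [AddCommGroup Q] [Countable Q] (R : Rel μ Z Q)
      (b : Γ₀ →+ Q) (J : Type) [Fintype J] [DecidableEq J] (E : J → Finset ι)
      (t : J → (κ → ℤ) →+ Γ₀) (B : J → (κ → ℤ) →+ Q) (g : J → Z → ℝ)
      (_ : ∀ j, Measurable (g j)) (_ : ∀ j z, |g j z| ≤ 1) (_ : Adm N s π R b E t B)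
      (_ : ∀ j, a ≤ (E j).card) (_ : (Finset.univ.filter fun j => (E j).card = a).card ≤ n),
      ∀ᵐ x ∂μ, Cvg fun m => ∫ z, ∏ j, g j (R.aZ.S (B j (toZ m)) z) ∂(R.K x) := by
  intro k
  induction k with
  | zero =>
    intro a ha n Z _ Q _ _ R b J _ _ E t B g hgm hg1 hA hE hn
    have hJ : IsEmpty J := by
      refine ⟨fun j => ?_⟩
      have h1 := hE j
      have h2 := Finset.card_le_univ (E j)
      omega
    have hmk := R.markov
    refine Eventually.of_forall fun x => ?_
    exact (Cvg.const 1).congr fun m => by simp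
  | succ k ihk =>
    intro a ha n
    induction n with
    | zero =>
      intro Z _ Q _ _ R b J _ _ E t B g hgm hg1 hA hE hn
      refine ihk (a + 1) (by omega) _ Z Q R b J E t B g hgm hg1 hA (fun j => ?_) le_rfl
      have h1 := hE j
      rcases Nat.eq_or_lt_of_le h1 with h2 | h2
      · exfalso
        have h3 : j ∈ Finset.univ.filter fun j => (E j).card = a := by
          simp [h2.symm]
        rw [Nat.le_zero, Finset.card_eq_zero] at hn
        rw [hn] at h3
        simp at h3
      · exact h2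
    | succ n ihn =>
      intro Z _ Q _ _ R b J _ _ E t B g hgm hg1 hA hE hn
      by_cases hcount : (Finset.univ.filter fun j => (E j).card = a).card ≤ n
      · exact ihn Z Q R b J E t B g hgm hg1 hA hE hcount
      push Not at hcount
      have hpos : 0 < (Finset.univ.filter fun j => (E j).card = a).card := by omega
      obtain ⟨j₀, hj₀⟩ := Finset.card_pos.1 hpos
      simp only [Finset.mem_filter, Finset.mem_univ, true_and] at hj₀
      rcases isEmpty_or_nonempty {j : J // j ≠ j₀} with hemp | hne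
      · have h1 := single_case R (B j₀) (hgm j₀) (hg1 j₀)
        filter_upwards [h1] with x hx
        refine hx.congr fun m => ?_
        refine integral_congr_ae (Eventually.of_forall fun z => ?_)
        simp only
        rw [Fintype.prod_eq_mul_prod_subtype_ne _ j₀]
        simp
      · refine elim_step hN hπ hA j₀ hgm hg1 fun K' hK c => ?_
        have hcardE : ∀ j' : J2 E j₀, a < (E j₀ ∪ E j'.1).card := by
          intro j'
          by_contra hcon
          push Not at hcon
          have h1 : E j₀ = E j₀ ∪ E j'.1 :=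
            Finset.eq_of_subset_of_card_le Finset.subset_union_left (by rw [hj₀]; exact hcon)
          have h2 : E j'.1 = E j₀ ∪ E j'.1 :=
            Finset.eq_of_subset_of_card_le Finset.subset_union_right
              (hcon.trans (hE _))
          exact j'.2 (by rw [h2]; exact Finset.subset_union_left)
        refine ihn (Z × Om {j : J // j ≠ j₀} Q Q) ((κ → ℤ) × Q) (relExt R hK)
          (newb N s π b E j₀) ({j : J // j ≠ j₀} ⊕ J2 E j₀) (newE E j₀) (newt π E t j₀)
          (newB N s π b E t B j₀) (newg R E B g j₀ c) (measurable_newg hgm j₀ c)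
          (abs_newg_le hg1 j₀ c) (adm_ext hπ hA j₀ hK) ?_ ?_
        · rintro (j | j)
          · exact hE j
          · exact (hcardE j).le
        · -- counting
          have hsub : (Finset.univ.filter fun j' : {j : J // j ≠ j₀} ⊕ J2 E j₀ =>
              (newE E j₀ j').card = a).card
              ≤ ((Finset.univ.filter fun j => (E j).card = a).erase j₀).card := by
            refine Finset.card_le_card_of_injOn
              (fun j' => Sum.elim (fun j : {j : J // j ≠ j₀} => (j : J)) (fun _ => j₀) j') ?_ ?_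
            · rintro (j | j) hj
              · have h1 : (E j).card = a := (Finset.mem_filter.1 (Finset.mem_coe.1 hj)).2
                simp [h1, j.2]
              · exfalso
                have h1 : (E j₀ ∪ E j.1).card = a := (Finset.mem_filter.1 (Finset.mem_coe.1 hj)).2
                have := hcardE j
                omega
            · rintro (j | j) hj (j' | j') hj' h
              · simp only [Sum.elim_inl] at h
                exact congrArg Sum.inl (Subtype.ext h)
              · exfalso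
                have h1 : (E j₀ ∪ E j'.1).card = a := (Finset.mem_filter.1 (Finset.mem_coe.1 hj')).2
                have := hcardE j'
                omega
              · exfalso
                have h1 : (E j₀ ∪ E j.1).card = a := (Finset.mem_filter.1 (Finset.mem_coe.1 hj)).2
                have := hcardE j
                omega
              · exfalso
                have h1 : (E j₀ ∪ E j.1).card = a := (Finset.mem_filter.1 (Finset.mem_coe.1 hj)).2
                have := hcardE j
                omega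
          refine hsub.trans ?_
          rw [Finset.card_erase_of_mem (by simp [hj₀])]
          omega

/-- Convergence for admissible families. -/
theorem rab [Fintype ι] {N : ℕ} (hN : 0 < N) {s : Γ₀ →+ (κ → ℤ)}
    {π : Finset ι → Γ₀ →+ Γ₀} (hπ : ∀ E F γ, π (E ∪ F) γ = π E (π F γ)) [Countable Q]
    {R : Rel μ Z Q} {b : Γ₀ →+ Q} [Fintype J] [DecidableEq J] {E : J → Finset ι}
    {t : J → (κ → ℤ) →+ Γ₀} {B : J → (κ → ℤ) →+ Q} (hA : Adm N s π R b E t B) {g : J → Z → ℝ}
    (hgm : ∀ j, Measurable (g j)) (hg1 : ∀ j z, |g j z| ≤ 1) :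
    ∀ᵐ x ∂μ, Cvg fun m => ∫ z, ∏ j, g j (R.aZ.S (B j (toZ m)) z) ∂(R.K x) :=
  rab_aux hN s π hπ (Fintype.card ι + 1) 0 (by omega) _ Z Q R b J E t B g hgm hg1 hA
    (fun _ => Nat.zero_le _) le_rfl

end Pool.Agent.Lib.Pf720ae
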