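import Pool.Agent.Lib.Pf720ae.RelMaster3
import Pool.Agent.Lib.Pf720ae.Coset

/-!
Extension of a relative system along an equivariant kernel.
-/

set_option autoImplicit false
set_option linter.unusedSectionVars false

open MeasureTheory Filter Topology ProbabilityTheory Finset
open scoped ENNReal NNReal

namespace Pool.Agent.Lib.Pf720ae

variable {κ : Type} [Fintype κ] [DecidableEq κ]
variable {X : Type} [MeasurableSpace X] {μ : Measure X} [IsProbabilityMeasure μ]
variable {Z : Type} [MeasurableSpace Z] {Q : Type} [AddCommGroup Q]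
variable {J : Type}
variable {R : Rel μ Z Q} {B₀ : (κ → ℤ) →+ Q} {B : J → (κ → ℤ) →+ Q}

/-- composition of a kernel with a kernel over the fibre -/
noncomputable def kk {Ω : Type} [MeasurableSpace Ω] (K : Kernel X Z) (K' : Kernel Z Ω) :
    Kernel X (Z × Ω) := K ⊗ₖ Kernel.prodMkLeft X K'

lemma kk_apply {Ω : Type} [MeasurableSpace Ω] (K : Kernel X Z) (K' : Kernel Z Ω)
    [IsMarkovKernel K] [IsMarkovKernel K'] (x : X) : kk K K' x = (K x) ⊗ₘ K' := by
  ext s hs
  unfold kk
  rw [Kernel.compProd_apply hs, Measure.compProd_apply hs]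
  rfl

instance {Ω : Type} [MeasurableSpace Ω] (K : Kernel X Z) (K' : Kernel Z Ω)
    [IsMarkovKernel K] [IsMarkovKernel K'] : IsMarkovKernel (kk K K') := by
  unfold kk; infer_instance

lemma kk_comp {Ω : Type} [MeasurableSpace Ω] (K : Kernel X Z) (K' : Kernel Z Ω)
    [IsMarkovKernel K] [IsMarkovKernel K'] : (K ∘ₘ μ) ⊗ₘ K' = (kk K K') ∘ₘ μ := by
  ext s hs
  rw [Measure.compProd_apply hs, Measure.lintegral_bind K.measurable.aemeasurable
    (Kernel.measurable_kernel_prodMk_left hs).aemeasurable,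
    Measure.bind_apply hs (kk K K').measurable.aemeasurable]
  refine lintegral_congr fun x => ?_
  rw [kk_apply, Measure.compProd_apply hs]

/-- the homomorphism `(r, γ) ↦ B₀ r + γ` -/
def fP (B₀ : (κ → ℤ) →+ Q) : (κ → ℤ) × Q →+ Q := B₀.coprod (AddMonoidHom.id Q)

lemma fP_apply (B₀ : (κ → ℤ) →+ Q) (r : κ → ℤ) (γ : Q) : fP B₀ (r, γ) = B₀ r + γ := rfl

lemma measurable_shP (A : J → (κ → ℤ) →+ Q) (r : κ → ℤ) :
    Measurable (shP A r : Om J Q Q → Om J Q Q) :=
  measurable_pi_iff.2 fun i => measurable_pi_iff.2 fun g =>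
        measurable_pi_iff.2 fun γ => by unfold shP; fun_prop

lemma measurable_shG (γ₀ : Q) :
    Measurable (shG γ₀ : Om J Q Q → Om J Q Q) :=
  measurable_pi_iff.2 fun i => measurable_pi_iff.2 fun g =>
        measurable_pi_iff.2 fun γ => by unfold shG; fun_prop

/-- joint equivariance -/
lemma EqKer.eqPG {K' : Kernel Z (Om J Q Q)} (hK : EqKer R.aZ B₀ B K') (r : κ → ℤ) (γ : Q) :
    ∀ᵐ z ∂(R.ν), K' (R.aZ.S (B₀ r + γ) z) = (K' z).map (fun ω => shP B r (shG γ ω)) := by
  have h1 := (R.aZ.mp γ).quasiMeasurePreserving.ae (hK.eqP r)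
  filter_upwards [h1, hK.eqG γ] with z hz1 hz2
  rw [R.aZ.add, hz1, hz2, Measure.map_map (measurable_shP B r) (measurable_shG γ)]
  rfl

/-- the extended relative system -/
noncomputable def relExt (R : Rel μ Z Q) {K' : Kernel Z (Om J Q Q)}
    (hK : EqKer R.aZ B₀ B K') : Rel μ (Z × Om J Q Q) ((κ → ℤ) × Q) :=
  have hp : IsProbabilityMeasure R.ν := R.prob
  have hm : IsMarkovKernel R.K := R.markov
  have hm' : IsMarkovKernel K' := hK.markov
  { ν := R.ν ⊗ₘ K'
    K := kk R.K K'
    markov := inferInstance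
    hν := by
      rw [← kk_comp, ← R.hν]
    aX := R.aX.comap (fP B₀)
    aZ := extAct hK
    p := fun w => R.p w.1
    pm := R.pm.comp measurable_fst
    pS := by
      intro q w
      show R.p (R.aZ.S (B₀ q.1 + q.2) w.1) = R.aX.S (B₀ q.1 + q.2) (R.p w.1)
      rw [R.pS]
    fib := by
      intro f hf
      filter_upwards [R.fib f hf] with x hx
      have h1 : (kk R.K K' x).map Prod.fst = R.K x := by
        rw [kk_apply]
        exact Measure.fst_compProd (R.K x) K'
      rw [← h1] at hx
      exact ae_of_ae_map measurable_fst.aemeasurable hx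
    eqv := by
      intro q
      filter_upwards [R.eqv (B₀ q.1 + q.2), R.ae (hK.eqPG q.1 q.2)] with x hx1 hx2
      have hS : Measurable (fun w : Z × Om J Q Q =>
          (R.aZ.S (B₀ q.1 + q.2) w.1, shP B q.1 (shG q.2 w.2))) :=
        ((R.aZ.mp _).measurable.comp measurable_fst).prodMk
          (((measurable_shP B q.1).comp (measurable_shG q.2)).comp measurable_snd)
      show kk R.K K' (R.aX.S (B₀ q.1 + q.2) x) = (kk R.K K' x).map (fun w : Z × Om J Q Q =>
          (R.aZ.S (B₀ q.1 + q.2) w.1, shP B q.1 (shG q.2 w.2)))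
      ext s hs
      rw [Measure.map_apply hS hs, kk_apply, kk_apply, Measure.compProd_apply hs,
        Measure.compProd_apply (hS hs), hx1,
        lintegral_map (Kernel.measurable_kernel_prodMk_left hs) (R.aZ.mp _).measurable]
      refine lintegral_congr_ae ?_
      filter_upwards [hx2] with z hz
      have hc : Measurable (fun ω : Om J Q Q => shP B q.1 (shG q.2 ω)) :=
        (measurable_shP B q.1).comp (measurable_shG q.2)
      rw [hz, Measure.map_apply hc (measurable_prodMk_left hs)]
      rfl }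

end Pool.Agent.Lib.Pf720ae
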