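import Pool.Agent.Lib.Pf720ae.Rel

/-!
The relative master theorem, first part.
-/

set_option autoImplicit false
set_option linter.unusedSectionVars false

open MeasureTheory Filter Topology ProbabilityTheory Finset
open scoped ENNReal NNReal

namespace Pool.Agent.Lib.Pf720ae

variable {κ : Type} [Fintype κ] [DecidableEq κ]
variable {X : Type} [MeasurableSpace X] {μ : Measure X} [IsProbabilityMeasure μ]
variable {Z : Type} [MeasurableSpace Z] {Q : Type} [AddCommGroup Q]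
variable {J : Type} [Fintype J] [DecidableEq J]

lemma integral_ν {R : Rel μ Z Q} {f : Z → ℝ} (hf : Integrable f R.ν) :
    ∫ z, f z ∂(R.ν) = ∫ x, ∫ z, f z ∂(R.K x) ∂μ := by
  have hf' := hf
  rw [R.hν, Measure.comp_eq_comp_const_apply] at hf'
  rw [R.hν, Measure.comp_eq_comp_const_apply]
  have h := Kernel.integral_comp hf'
  simpa using h

lemma integrable_int_ν {R : Rel μ Z Q} {f : Z → ℝ} (hfm : Measurable f) (hf : Integrable f R.ν) :
    Integrable (fun x => ∫ z, f z ∂(R.K x)) μ := by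
  have hf' := hf
  rw [R.hν] at hf'
  have h := Measure.integrable_integral_norm_of_integrable_comp hf'
  refine h.mono' ?_ ?_
  · exact (StronglyMeasurable.integral_kernel (κ := R.K) (f := f)
      hfm.stronglyMeasurable).aestronglyMeasurable
  · exact Eventually.of_forall fun x => norm_integral_le_integral_norm _

/-- the stabiliser of a function -/
def stab (R : Rel μ Z Q) (g : Z → ℝ) : AddSubgroup Q where
  carrier := {q | ∀ᵐ z ∂(R.ν), g (R.aZ.S q z) = g z}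
  zero_mem' := by
    have h3 : ∀ᵐ z ∂(R.ν), g (R.aZ.S 0 z) = g z :=
      Eventually.of_forall fun z => by rw [R.aZ.zero]
    exact h3
  add_mem' := by
    intro a b ha hb
    have h1 := (R.aZ.mp b).quasiMeasurePreserving.ae ha
    have h2 : ∀ᵐ z ∂(R.ν), g (R.aZ.S b z) = g z := hb
    have h3 : ∀ᵐ z ∂(R.ν), g (R.aZ.S (a + b) z) = g z := by
      filter_upwards [h1, h2] with z h1 h2
      rw [R.aZ.add, h1, h2]
    exact h3
  neg_mem' := by
    intro a ha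
    have h1 := (R.aZ.mp (-a)).quasiMeasurePreserving.ae ha
    have h3 : ∀ᵐ z ∂(R.ν), g (R.aZ.S (-a) z) = g z := by
      filter_upwards [h1] with z h1
      rw [← R.aZ.add, add_neg_cancel, R.aZ.zero] at h1
      exact h1.symm
    exact h3

lemma mem_stab {R : Rel μ Z Q} {g : Z → ℝ} {q : Q} :
    q ∈ stab R g ↔ ∀ᵐ z ∂(R.ν), g (R.aZ.S q z) = g z := Iff.rfl

section defs

variable (R : Rel μ Z Q) (B₀ : (κ → ℤ) →+ Q) (B : J → (κ → ℤ) →+ Q) (g : J → Z → ℝ)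

/-- the product weight -/
def wtg (m : κ → ℕ) (z : Z) : ℝ := ∏ j, g j (R.aZ.S (B j (toZ m)) z)

/-- the shifted summand -/
def rsm (φ : Z → ℝ) (m : κ → ℕ) (h : κ → ℤ) (z : Z) : ℝ :=
  φ (R.aZ.S (B₀ h) z) * ∏ j, g j (R.aZ.S (B j h + (B j (toZ m) - B₀ (toZ m))) z)

/-- the short average on the fibre -/
noncomputable def rPsi (φ : Z → ℝ) (H : ℕ) (m : κ → ℕ) (x : X) : ℝ :=
  avgb H fun h => ∫ z, rsm R B₀ B g φ m h z ∂(R.K x)

/-- the supremum over shifts -/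
noncomputable def rLam (e : ℕ → κ → ℕ) (φ : Z → ℝ) (H : ℕ) (x : X) : ℝ :=
  ⨆ n : ℕ, |rPsi R B₀ B g φ H (e n) x|

end defs

variable {R : Rel μ Z Q} {B₀ : (κ → ℤ) →+ Q} {B : J → (κ → ℤ) →+ Q} {g : J → Z → ℝ}

lemma measurable_wtg (hgm : ∀ j, Measurable (g j)) (m : κ → ℕ) : Measurable (wtg R B g m) :=
  Finset.measurable_fun_prod _ fun j _ => (hgm j).comp (R.aZ.mp _).measurable

lemma abs_wtg_le (hg1 : ∀ j z, |g j z| ≤ 1) (m : κ → ℕ) (z : Z) : |wtg R B g m z| ≤ 1 :=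
  abs_prod_le_one _ _ fun _ => hg1 _ _

lemma measurable_rsm (hgm : ∀ j, Measurable (g j)) {φ : Z → ℝ} (hφ : Measurable φ)
    (m : κ → ℕ) (h : κ → ℤ) : Measurable (rsm R B₀ B g φ m h) :=
  (hφ.comp (R.aZ.mp _).measurable).mul
    (Finset.measurable_fun_prod _ fun j _ => (hgm j).comp (R.aZ.mp _).measurable)

lemma abs_rsm_le (hg1 : ∀ j z, |g j z| ≤ 1) (φ : Z → ℝ) (m : κ → ℕ) (h : κ → ℤ) (z : Z) :
    |rsm R B₀ B g φ m h z| ≤ |φ (R.aZ.S (B₀ h) z)| := by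
  unfold rsm
  rw [abs_mul]
  exact mul_le_of_le_one_right (abs_nonneg _) (abs_prod_le_one _ _ fun _ => hg1 _ _)

lemma abs_integral_le_of_bdd {α : Type} [MeasurableSpace α] (ρ : Measure α)
    [IsProbabilityMeasure ρ] {f : α → ℝ} {k : ℝ} (h : ∀ a, |f a| ≤ k) : |∫ a, f a ∂ρ| ≤ k := by
  calc |∫ a, f a ∂ρ| ≤ ∫ a, |f a| ∂ρ := abs_integral_le_integral_abs
    _ ≤ ∫ _a, k ∂ρ := by
        refine integral_mono_of_nonneg (Eventually.of_forall fun x => abs_nonneg _)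
          (integrable_const _) (Eventually.of_forall fun ω => h ω)
    _ = k := by simp

lemma abs_rPsi_le (hg1 : ∀ j z, |g j z| ≤ 1) {φ : Z → ℝ} {k : ℝ} (hk : 0 ≤ k)
    (hφ : ∀ z, |φ z| ≤ k) (H : ℕ) (m : κ → ℕ) (x : X) : |rPsi R B₀ B g φ H m x| ≤ k := by
  have := R.markov
  exact abs_avgb_le_of_le H hk fun h =>
    abs_integral_le_of_bdd _ fun z => (abs_rsm_le hg1 φ m h z).trans (hφ _)

lemma measurable_rPsi (hgm : ∀ j, Measurable (g j)) {φ : Z → ℝ} (hφ : Measurable φ)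
    (H : ℕ) (m : κ → ℕ) : Measurable (rPsi R B₀ B g φ H m) := by
  unfold rPsi avgb avg
  refine (Finset.measurable_fun_sum _ fun h _ => ?_).const_mul _
  exact (StronglyMeasurable.integral_kernel (κ := R.K)
    (measurable_rsm hgm hφ m _).stronglyMeasurable).measurable

section lam

variable {e : ℕ → κ → ℕ}

lemma bdd_rPsi (hg1 : ∀ j z, |g j z| ≤ 1) {φ : Z → ℝ} {k : ℝ} (hk : 0 ≤ k)
    (hφ : ∀ z, |φ z| ≤ k) (H : ℕ) (x : X) :
    BddAbove (Set.range fun n : ℕ => |rPsi R B₀ B g φ H (e n) x|) :=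
  ⟨k, by rintro _ ⟨n, rfl⟩; exact abs_rPsi_le hg1 hk hφ H _ x⟩

lemma le_rLam (he : Function.Surjective e) (hg1 : ∀ j z, |g j z| ≤ 1) {φ : Z → ℝ} {k : ℝ}
    (hk : 0 ≤ k) (hφ : ∀ z, |φ z| ≤ k) (H : ℕ) (m : κ → ℕ) (x : X) :
    |rPsi R B₀ B g φ H m x| ≤ rLam R B₀ B g e φ H x := by
  obtain ⟨n, rfl⟩ := he m
  exact le_ciSup (bdd_rPsi hg1 hk hφ H x) n

lemma rLam_nonneg (φ : Z → ℝ) (H : ℕ) (x : X) : 0 ≤ rLam R B₀ B g e φ H x :=
  Real.iSup_nonneg fun _ => abs_nonneg _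

lemma rLam_le (hg1 : ∀ j z, |g j z| ≤ 1) {φ : Z → ℝ} {k : ℝ} (hk : 0 ≤ k)
    (hφ : ∀ z, |φ z| ≤ k) (H : ℕ) (x : X) : rLam R B₀ B g e φ H x ≤ k :=
  ciSup_le fun _ => abs_rPsi_le hg1 hk hφ H _ x

lemma measurable_rLam (hgm : ∀ j, Measurable (g j)) {φ : Z → ℝ} (hφ : Measurable φ)
    (H : ℕ) : Measurable (rLam R B₀ B g e φ H) := by
  unfold rLam
  exact Measurable.iSup fun n => continuous_abs.measurable.comp (measurable_rPsi hgm hφ H _)

lemma exists_sel (hgm : ∀ j, Measurable (g j))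
    {φ : Z → ℝ} (hφm : Measurable φ) (H : ℕ) :
    ∃ sel : X → ℕ, Measurable sel ∧ ∀ x, rLam R B₀ B g e φ H x - 1 / ((H : ℝ) + 1)
      ≤ |rPsi R B₀ B g φ H (e (sel x)) x| := by
  classical
  have hex : ∀ x, ∃ n, rLam R B₀ B g e φ H x - 1 / ((H : ℝ) + 1)
      ≤ |rPsi R B₀ B g φ H (e n) x| := by
    intro x
    have hpos : (0 : ℝ) < 1 / ((H : ℝ) + 1) := by positivity
    have h1 : rLam R B₀ B g e φ H x - 1 / ((H : ℝ) + 1) < ⨆ n : ℕ, |rPsi R B₀ B g φ H (e n) x| := by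
      show _ < rLam R B₀ B g e φ H x
      linarith
    obtain ⟨n, hn⟩ := exists_lt_of_lt_ciSup h1
    exact ⟨n, hn.le⟩
  refine ⟨fun x => Nat.find (hex x), ?_, fun x => Nat.find_spec (hex x)⟩
  refine measurable_find hex fun n => ?_
  exact measurableSet_le ((measurable_rLam hgm hφm H).sub_const _)
    (continuous_abs.measurable.comp (measurable_rPsi hgm hφm H _))

/-- the choice function -/
noncomputable def rch (R : Rel μ Z Q) (B₀ : (κ → ℤ) →+ Q) (B : J → (κ → ℤ) →+ Q)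
    (g : J → Z → ℝ) (hg1 : ∀ j z, |g j z| ≤ 1) (e : ℕ → κ → ℕ) (j₀ : J) (sel : X → ℕ)
    (s : X → ℝ) (hs : ∀ x, |s x| ≤ 1) (z : Z) (j : J) (q : Q) : Ic :=
  ⟨(if j = j₀ then s (R.p z) else 1) *
    g j (R.aZ.S (q + (B j (toZ (e (sel (R.p z)))) - B₀ (toZ (e (sel (R.p z)))))) z), by
      have h1 : |(if j = j₀ then s (R.p z) else 1) *
          g j (R.aZ.S (q + (B j (toZ (e (sel (R.p z)))) - B₀ (toZ (e (sel (R.p z)))))) z)| ≤ 1 := by
        rw [abs_mul]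
        refine mul_le_one₀ ?_ (abs_nonneg _) (hg1 _ _)
        split_ifs
        · exact hs _
        · simp
      exact abs_le.1 h1⟩

lemma measurable_rch (hgm : ∀ j, Measurable (g j)) (hg1 : ∀ j z, |g j z| ≤ 1) (j₀ : J)
    {sel : X → ℕ} (hsel : Measurable sel) {s : X → ℝ} (hsm : Measurable s)
    (hs : ∀ x, |s x| ≤ 1) (j : J) (q : Q) :
    Measurable fun z => rch R B₀ B g hg1 e j₀ sel s hs z j q := by
  refine Measurable.subtype_mk ?_
  refine Measurable.mul ?_ ?_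
  · split_ifs
    · exact hsm.comp R.pm
    · exact measurable_const
  · have h1 : Measurable fun p : Z × ℕ =>
        g j (R.aZ.S (q + (B j (toZ (e p.2)) - B₀ (toZ (e p.2)))) p.1) :=
      measurable_from_prod_countable_left fun n =>
        (hgm j).comp (R.aZ.mp (q + (B j (toZ (e n)) - B₀ (toZ (e n))))).measurable
    exact h1.comp (measurable_id.prodMk (hsel.comp R.pm))

lemma prod_rch (hg1 : ∀ j z, |g j z| ≤ 1) (j₀ : J)
    {sel : X → ℕ} {s : X → ℝ} (hs : ∀ x, |s x| ≤ 1) (h : κ → ℤ) (z : Z) :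
    ∏ j, ((rch R B₀ B g hg1 e j₀ sel s hs z j (B j h) : Ic) : ℝ)
      = s (R.p z) * ∏ j, g j (R.aZ.S (B j h + (B j (toZ (e (sel (R.p z))))
        - B₀ (toZ (e (sel (R.p z)))))) z) := by
  unfold rch
  simp only
  rw [Finset.prod_mul_distrib, Finset.prod_ite_eq' Finset.univ j₀]
  simp

/-- the choice function satisfies the vertical relation -/
lemma rch_vert (hg1 : ∀ j z, |g j z| ≤ 1) (j₀ : J)
    {sel : X → ℕ} {s : X → ℝ} (hs : ∀ x, |s x| ≤ 1) (v : Q) (hv : ∀ x, R.aX.S v x = x)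
    (h : κ → ℤ) (z : Z) (j : J) (q γ : Q) :
    rec R.aZ B₀ B (rch R B₀ B g hg1 e j₀ sel s hs) h z j q (γ + v)
      = rec R.aZ B₀ B (rch R B₀ B g hg1 e j₀ sel s hs) h z j (q + v) γ := by
  refine Subtype.ext ?_
  have h1 : R.p (R.aZ.S (γ + v - B₀ h) z) = R.p (R.aZ.S (γ - B₀ h) z) := by
    rw [R.pS, R.pS]
    have : γ + v - B₀ h = v + (γ - B₀ h) := by abel
    rw [this, R.aX.add, hv]
  show (if j = j₀ then s (R.p (R.aZ.S (γ + v - B₀ h) z)) else 1) *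
      g j (R.aZ.S (B j h + q + (B j (toZ (e (sel (R.p (R.aZ.S (γ + v - B₀ h) z)))))
        - B₀ (toZ (e (sel (R.p (R.aZ.S (γ + v - B₀ h) z))))))) (R.aZ.S (γ + v - B₀ h) z))
    = (if j = j₀ then s (R.p (R.aZ.S (γ - B₀ h) z)) else 1) *
      g j (R.aZ.S (B j h + (q + v) + (B j (toZ (e (sel (R.p (R.aZ.S (γ - B₀ h) z)))))
        - B₀ (toZ (e (sel (R.p (R.aZ.S (γ - B₀ h) z))))))) (R.aZ.S (γ - B₀ h) z))
  rw [h1]
  congr 2
  rw [← R.aZ.add, ← R.aZ.add]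
  congr 1
  abel

/-- the choice function is invariant under the stabilisers -/
lemma rch_inv [Countable Q] (hg1 : ∀ j z, |g j z| ≤ 1) (j₀ : J)
    {sel : X → ℕ} {s : X → ℝ} (hs : ∀ x, |s x| ≤ 1) (j : J) (i : Q) (hi : i ∈ stab R (g j))
    (h : κ → ℤ) (q γ : Q) :
    ∀ᵐ z ∂(R.ν), rec R.aZ B₀ B (rch R B₀ B g hg1 e j₀ sel s hs) h z j (q + i) γ
      = rec R.aZ B₀ B (rch R B₀ B g hg1 e j₀ sel s hs) h z j q γ := by
  have h1 : ∀ᵐ z ∂(R.ν), ∀ θ : Q, g j (R.aZ.S i (R.aZ.S θ z)) = g j (R.aZ.S θ z) :=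
    ae_all_iff.2 fun θ => (R.aZ.mp θ).quasiMeasurePreserving.ae hi
  filter_upwards [h1] with z hz
  refine Subtype.ext ?_
  show (if j = j₀ then s (R.p (R.aZ.S (γ - B₀ h) z)) else 1) *
      g j (R.aZ.S (B j h + (q + i) + (B j (toZ (e (sel (R.p (R.aZ.S (γ - B₀ h) z)))))
        - B₀ (toZ (e (sel (R.p (R.aZ.S (γ - B₀ h) z))))))) (R.aZ.S (γ - B₀ h) z))
    = (if j = j₀ then s (R.p (R.aZ.S (γ - B₀ h) z)) else 1) *
      g j (R.aZ.S (B j h + q + (B j (toZ (e (sel (R.p (R.aZ.S (γ - B₀ h) z)))))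
        - B₀ (toZ (e (sel (R.p (R.aZ.S (γ - B₀ h) z))))))) (R.aZ.S (γ - B₀ h) z))
  congr 1
  rw [← R.aZ.add, ← R.aZ.add]
  conv_rhs => rw [← hz, ← R.aZ.add]
  congr 2
  abel

end lam

end Pool.Agent.Lib.Pf720ae
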