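import Pool.Agent.Lib.Pf720ae.RelMaster

/-!
The relative master theorem, second part.
-/

set_option autoImplicit false
set_option linter.unusedSectionVars false

open MeasureTheory Filter Topology ProbabilityTheory Finset
open scoped ENNReal NNReal

namespace Pool.Agent.Lib.Pf720ae

variable {κ : Type} [Fintype κ] [DecidableEq κ]
variable {X : Type} [MeasurableSpace X] {μ : Measure X} [IsProbabilityMeasure μ]
variable {Z : Type} [MeasurableSpace Z] {Q : Type} [AddCommGroup Q]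
variable {J : Type} [Fintype J] [DecidableEq J]
variable {R : Rel μ Z Q} {B₀ : (κ → ℤ) →+ Q} {B : J → (κ → ℤ) →+ Q} {g : J → Z → ℝ}
variable {e : ℕ → κ → ℕ}

lemma avg_integral {α : Type} [MeasurableSpace α] {ρ : Measure α} (M : κ → ℕ)
    {f : (κ → ℕ) → α → ℝ} (hf : ∀ m, Integrable (f m) ρ) :
    Integrable (fun x => avg M fun m => f m x) ρ ∧
      ∫ x, avg M (fun m => f m x) ∂ρ = avg M fun m => ∫ x, f m x ∂ρ := by
  unfold avg
  refine ⟨(integrable_finsetSum _ fun m _ => hf m).const_mul _, ?_⟩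
  rw [integral_const_mul, integral_finsetSum _ fun m _ => hf m]

lemma rint (hgm : ∀ j, Measurable (g j)) (hg1 : ∀ j z, |g j z| ≤ 1) (j₀ : J)
    {sel : X → ℕ} (hsel : Measurable sel) {s : X → ℝ} (hsm : Measurable s)
    (hs : ∀ x, |s x| ≤ 1) {φ : Z → ℝ} (hφm : Measurable φ) (hφ : Integrable φ R.ν) (H : ℕ) :
    Integrable (fun x => s x * rPsi R B₀ B g φ H (e (sel x)) x) μ ∧
    ∫ x, s x * rPsi R B₀ B g φ H (e (sel x)) x ∂μ
      = avgb H fun h => ∫ z, φ z * (cprod : C(Om J Q Q, ℝ))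
          (rec R.aZ B₀ B (rch R B₀ B g hg1 e j₀ sel s hs) h z) ∂(R.ν) := by
  have hmk := R.markov
  set c := rch R B₀ B g hg1 e j₀ sel s hs with hc
  have hcm : ∀ j q, Measurable fun z => c z j q := fun j q =>
    measurable_rch hgm hg1 j₀ hsel hsm hs j q
  set W : (κ → ℤ) → Z → ℝ := fun h z => φ (R.aZ.S (B₀ h) z) * ∏ j, ((c z j (B j h) : Ic) : ℝ)
    with hW
  have hWm : ∀ h, Measurable (W h) := fun h =>
    (hφm.comp (R.aZ.mp _).measurable).mul
      (Finset.measurable_fun_prod _ fun j _ => measurable_subtype_coe.comp (hcm j _))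
  have hWi : ∀ h, Integrable (W h) R.ν := by
    intro h
    refine Integrable.mul_bdd (c := 1) ((R.aZ.mp _).integrable_comp_of_integrable hφ)
      (Finset.measurable_fun_prod _ fun j _ =>
        measurable_subtype_coe.comp (hcm j _)).aestronglyMeasurable ?_
    refine Eventually.of_forall fun x => ?_
    rw [Real.norm_eq_abs]
    exact abs_prod_le_one _ _ fun i => abs_Ic _
  have hkey : ∀ᵐ x ∂μ, ∀ h, s x * ∫ z, rsm R B₀ B g φ (e (sel x)) h z ∂(R.K x)
      = ∫ z, W h z ∂(R.K x) := by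
    filter_upwards [R.fib s hsm, R.fib (fun x => (sel x : ℝ))
      ((measurable_from_top (f := fun n : ℕ => (n : ℝ))).comp hsel)] with x hx hx' h
    rw [← integral_const_mul]
    refine integral_congr_ae ?_
    filter_upwards [hx, hx'] with z hz hz'
    have hz2 : sel (R.p z) = sel x := by exact_mod_cast hz'
    simp only [hW, hc]
    rw [prod_rch, hz, hz2]
    unfold rsm
    ring
  have hkey2 : (fun x => s x * rPsi R B₀ B g φ H (e (sel x)) x)
      =ᵐ[μ] fun x => avgb H fun h => ∫ z, W h z ∂(R.K x) := by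
    filter_upwards [hkey] with x hx
    unfold rPsi avgb
    rw [← avg_smul]
    congr 1
    funext h
    exact hx _
  have hI := avg_integral (ρ := μ) (fun _ : κ => H + 1)
    (f := fun m x => ∫ z, W (toZ m) z ∂(R.K x)) fun m => integrable_int_ν (hWm _) (hWi _)
  refine ⟨hI.1.congr hkey2.symm, ?_⟩
  rw [integral_congr_ae hkey2]
  have h2 : ∫ x, avgb H (fun h => ∫ z, W h z ∂(R.K x)) ∂μ
      = avgb H fun h => ∫ x, ∫ z, W h z ∂(R.K x) ∂μ := hI.2
  rw [h2]
  congr 1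
  funext h
  rw [← integral_ν (hWi h), ← R.aZ.integral_comp (-(B₀ h)) (hWm h)]
  refine integral_congr_ae (Eventually.of_forall fun x => ?_)
  simp only [hW, cprod, ContinuousMap.coe_mk, rec]
  rw [← R.aZ.add, add_neg_cancel, R.aZ.zero]
  simp

lemma rint_sub [Countable Q] (hgm : ∀ j, Measurable (g j)) (hg1 : ∀ j z, |g j z| ≤ 1) (j₀ : J)
    {sel : X → ℕ} (hsel : Measurable sel) {s : X → ℝ} (hsm : Measurable s)
    (hs : ∀ x, |s x| ≤ 1) {φ ψ : Z → ℝ} (hφm : Measurable φ) (hφ : Integrable φ R.ν)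
    (hψm : Measurable ψ) (hψ : Integrable ψ R.ν) (H : ℕ) :
    ∫ x, s x * rPsi R B₀ B g ψ H (e (sel x)) x ∂μ
      ≤ ∫ x, s x * rPsi R B₀ B g φ H (e (sel x)) x ∂μ + ∫ z, |φ z - ψ z| ∂(R.ν) := by
  rw [(rint hgm hg1 j₀ hsel hsm hs hφm hφ H).2, (rint hgm hg1 j₀ hsel hsm hs hψm hψ H).2]
  rw [← avgb_const (κ := κ) H (∫ z, |φ z - ψ z| ∂(R.ν)), ← avgb_add]
  refine avgb_mono H fun h => ?_
  set C : Z → ℝ := fun z => (cprod : C(Om J Q Q, ℝ))
    (rec R.aZ B₀ B (rch R B₀ B g hg1 e j₀ sel s hs) h z) with hC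
  have hCm : Measurable C := (cprod (J := J) (Λ := Q) (Γ := Q)).continuous.measurable.comp
    (measurable_rec _ _ _ (fun j q => measurable_rch hgm hg1 j₀ hsel hsm hs j q) h)
  have hC1 : ∀ z, |C z| ≤ 1 := fun z => abs_prod_le_one _ _ fun i => abs_Ic _
  have i1 : Integrable (fun z => φ z * C z) R.ν := hφ.mul_bdd (c := 1) hCm.aestronglyMeasurable
    (Eventually.of_forall fun z => by rw [Real.norm_eq_abs]; exact hC1 z)
  have i2 : Integrable (fun z => ψ z * C z) R.ν := hψ.mul_bdd (c := 1) hCm.aestronglyMeasurable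
    (Eventually.of_forall fun z => by rw [Real.norm_eq_abs]; exact hC1 z)
  have i3 : Integrable (fun z => |φ z - ψ z|) R.ν := (hφ.sub hψ).abs
  show ∫ z, ψ z * C z ∂(R.ν) ≤ ∫ z, φ z * C z ∂(R.ν) + ∫ z, |φ z - ψ z| ∂(R.ν)
  rw [← integral_add i1 i3]
  refine integral_mono i2 (i1.add i3) fun z => ?_
  show ψ z * C z ≤ φ z * C z + |φ z - ψ z|
  have h1 : (ψ z - φ z) * C z ≤ |φ z - ψ z| := by
    refine (le_abs_self _).trans ?_
    rw [abs_mul, abs_sub_comm]
    exact mul_le_of_le_one_right (abs_nonneg _) (hC1 z)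
  linarith

/-- the selection inequality -/
lemma exists_choice [Countable Q] (hgm : ∀ j, Measurable (g j)) (hg1 : ∀ j z, |g j z| ≤ 1) (j₀ : J)
    {φ ψ : Z → ℝ} (hφm : Measurable φ) (hφ : Integrable φ R.ν)
    (hψm : Measurable ψ) {k : ℝ} (hk : 0 ≤ k) (hψk : ∀ z, |ψ z| ≤ k) (H : ℕ) :
    ∃ c : Z → J → Q → Ic, (∀ j q, Measurable fun z => c z j q) ∧
      (∀ v, (∀ x, R.aX.S v x = x) → ∀ h z j q γ,
        rec R.aZ B₀ B c h z j q (γ + v) = rec R.aZ B₀ B c h z j (q + v) γ) ∧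
      (∀ j, ∀ i ∈ stab R (g j), ∀ h q γ, ∀ᵐ z ∂(R.ν),
        rec R.aZ B₀ B c h z j (q + i) γ = rec R.aZ B₀ B c h z j q γ) ∧
      ∫ x, rLam R B₀ B g e ψ H x ∂μ
        ≤ 1 / ((H : ℝ) + 1) + (avgb H fun h => ∫ z, φ z * (cprod : C(Om J Q Q, ℝ))
          (rec R.aZ B₀ B c h z) ∂(R.ν)) + ∫ z, |φ z - ψ z| ∂(R.ν) := by
  have hmk := R.markov
  have hprob := R.prob
  have hψ : Integrable ψ R.ν := Integrable.of_bound hψm.aestronglyMeasurable k
    (Eventually.of_forall fun z => by rw [Real.norm_eq_abs]; exact hψk z)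
  obtain ⟨sel, hsel, hselp⟩ := exists_sel (R := R) (B₀ := B₀) (B := B) (e := e) hgm hψm H
  have hPm : Measurable fun x => rPsi R B₀ B g ψ H (e (sel x)) x := by
    have h1 : Measurable fun p : X × ℕ => rPsi R B₀ B g ψ H (e p.2) p.1 :=
      measurable_from_prod_countable_left fun n => measurable_rPsi hgm hψm H (e n)
    exact h1.comp (measurable_id.prodMk hsel)
  set s : X → ℝ := fun x => if 0 ≤ rPsi R B₀ B g ψ H (e (sel x)) x then 1 else -1 with hsdef
  have hsm : Measurable s := Measurable.ite (measurableSet_le measurable_const hPm)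
    measurable_const measurable_const
  have hs : ∀ x, |s x| ≤ 1 := by
    intro x
    simp only [hsdef]
    split_ifs <;> simp
  have habs : ∀ x, |rPsi R B₀ B g ψ H (e (sel x)) x| = s x * rPsi R B₀ B g ψ H (e (sel x)) x := by
    intro x
    simp only [hsdef]
    split_ifs with h
    · rw [abs_of_nonneg h, one_mul]
    · rw [abs_of_neg (lt_of_not_ge h)]; ring
  refine ⟨rch R B₀ B g hg1 e j₀ sel s hs, fun j q => measurable_rch hgm hg1 j₀ hsel hsm hs j q,
    fun v hv h z j q γ => rch_vert hg1 j₀ hs v hv h z j q γ,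
    fun j i hi h q γ => rch_inv hg1 j₀ hs j i hi h q γ, ?_⟩
  have h1 := rint (R := R) (B₀ := B₀) (B := B) (e := e) hgm hg1 j₀ hsel hsm hs hφm hφ H
  have h2 := rint (R := R) (B₀ := B₀) (B := B) (e := e) hgm hg1 j₀ hsel hsm hs hψm hψ H
  have h3 := rint_sub (R := R) (B₀ := B₀) (B := B) (e := e) hgm hg1 j₀ hsel hsm hs hφm hφ hψm hψ H
  rw [← h1.2]
  have h4 : ∫ x, rLam R B₀ B g e ψ H x ∂μ ≤ ∫ x, (1 / ((H : ℝ) + 1)
      + s x * rPsi R B₀ B g ψ H (e (sel x)) x) ∂μ := by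
    refine integral_mono ?_ ((integrable_const _).add h2.1) fun x => ?_
    · exact Integrable.of_bound (measurable_rLam hgm hψm H).aestronglyMeasurable k
        (Eventually.of_forall fun x => by
          rw [Real.norm_eq_abs, abs_of_nonneg (rLam_nonneg _ _ _)]
          exact rLam_le hg1 hk hψk H x)
    · have h5 := hselp x
      rw [habs] at h5
      linarith
  rw [integral_add (integrable_const _) h2.1] at h4
  simp only [integral_const, probReal_univ, smul_eq_mul, one_mul] at h4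
  linarith

/-- the limit of the choices -/
lemma exists_limsup [Nonempty J] [Countable Q] (hgm : ∀ j, Measurable (g j))
    (hg1 : ∀ j z, |g j z| ≤ 1) {φ ψ : Z → ℝ} (hφm : Measurable φ) (hφ : Integrable φ R.ν)
    (horth : ∀ K' : Kernel Z (Om J Q Q), EqKer R.aZ B₀ B K' →
      (∀ v, (∀ x, R.aX.S v x = x) → ∀ j q γ, ∀ᵐ z ∂(R.ν), ∀ᵐ ω ∂(K' z),
        ω j q (γ + v) = ω j (q + v) γ) →
      (∀ j, ∀ i ∈ stab R (g j), ∀ q γ, ∀ᵐ z ∂(R.ν), ∀ᵐ ω ∂(K' z),
        ω j (q + i) γ = ω j q γ) → ∫ z, φ z * dual K' z ∂(R.ν) = 0)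
    (hψm : Measurable ψ) {k : ℝ} (hk : 0 ≤ k) (hψk : ∀ z, |ψ z| ≤ k)
    (𝒰 : Ultrafilter ℕ) (h𝒰 : (𝒰 : Filter ℕ) ≤ atTop) :
    ∃ t : ℕ → ℝ, Tendsto t 𝒰 (𝓝 0) ∧ ∀ H, ∫ x, rLam R B₀ B g e ψ H x ∂μ
      ≤ t H + ∫ z, |φ z - ψ z| ∂(R.ν) := by
  have hprob := R.prob
  obtain ⟨j₀⟩ := (inferInstance : Nonempty J)
  choose c hcm hcv hcs hci using fun H : ℕ =>
    exists_choice (R := R) (B₀ := B₀) (B := B) (e := e) hgm hg1 j₀ hφm hφ hψm hk hψk H
  obtain ⟨K, hK1, hK2, hK3, hK4, hK5⟩ := core R.aZ B₀ B hφm hφ c hcm 𝒰 h𝒰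
  have h1 := hK4 cprod (fun ω => abs_prod_le_one _ _ fun i => abs_Ic _)
  have h2 : ∫ x, φ x * ∫ ω, (cprod : C(Om J Q Q, ℝ)) ω ∂(K x) ∂(R.ν) = 0 := by
    refine horth K ⟨hK1, hK2, hK3, fun e he i g γ => coord_eq_of_core hK5 i g (γ + e) g γ
      fun H h => Eventually.of_forall fun x => rec_triv (c H) h x i g γ e he⟩ ?_ ?_
    · intro v hv j q γ
      exact coord_eq_of_core hK5 j q (γ + v) (q + v) γ fun H h =>
        Eventually.of_forall fun z => hcv H v hv h z j q γ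
    · intro j i hi q γ
      exact coord_eq_of_core hK5 j (q + i) γ q γ fun H h => hcs H j i hi h q γ
  rw [h2] at h1
  have h5 : Tendsto (fun H : ℕ => 1 / ((H : ℝ) + 1)) 𝒰 (𝓝 0) :=
    tendsto_one_div_add_atTop_nhds_zero_nat.mono_left h𝒰
  refine ⟨_, by simpa using h5.add h1, fun H => hci H⟩

end Pool.Agent.Lib.Pf720ae
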