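import Pool.Agent.Lib.Pf720ae.RelMaster2

/-!
The relative master theorem, conclusion.
-/

set_option autoImplicit false
set_option linter.unusedSectionVars false

open MeasureTheory Filter Topology ProbabilityTheory Finset
open scoped ENNReal NNReal

namespace Pool.Agent.Lib.Pf720ae

variable {κ : Type} [Fintype κ] [DecidableEq κ]
variable {X : Type} [MeasurableSpace X] {μ : Measure X} [IsProbabilityMeasure μ]
variable {Z : Type} [MeasurableSpace Z] {Q : Type} [AddCommGroup Q]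
variable {J : Type} [Fintype J] [DecidableEq J]
variable {R : Rel μ Z Q} {B₀ : (κ → ℤ) →+ Q} {B : J → (κ → ℤ) →+ Q} {g : J → Z → ℝ}
variable {e : ℕ → κ → ℕ}

lemma Tm_shift [Countable Q] (hgm : ∀ j, Measurable (g j)) {ψ : Z → ℝ} (hψm : Measurable ψ) :
    ∀ᵐ x ∂μ, ∀ (m h : κ → ℕ), Tm R B₀ (wtg R B g) (m + h) ψ x
      = ∫ z, rsm R B₀ B g ψ m (toZ h) z ∂(R.K (orb R.aX B₀ m x)) := by
  filter_upwards [ae_all_iff.2 fun m : κ → ℕ => R.eqv (B₀ (toZ m))] with x hx m h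
  unfold orb
  rw [hx m, integral_map (R.aZ.mp _).measurable.aemeasurable
    (measurable_rsm hgm hψm m _).aestronglyMeasurable]
  unfold Tm
  refine integral_congr_ae (Eventually.of_forall fun z => ?_)
  simp only [wtg, rsm]
  rw [← R.aZ.add, toZ_add, map_add, add_comm (B₀ (toZ m))]
  congr 1
  refine Finset.prod_congr rfl fun j _ => ?_
  rw [← R.aZ.add, map_add]
  congr 2
  abel

lemma abs_Tm_le (hg1 : ∀ j z, |g j z| ≤ 1) {ψ : Z → ℝ} {k : ℝ} (hψk : ∀ z, |ψ z| ≤ k)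
    (m : κ → ℕ) (x : X) : |Tm R B₀ (wtg R B g) m ψ x| ≤ k := by
  have := R.markov
  refine abs_integral_le_of_bdd _ fun z => ?_
  rw [abs_mul]
  exact (mul_le_of_le_one_right (abs_nonneg _) (abs_wtg_le hg1 _ _)).trans (hψk _)

lemma rel_bound (he : Function.Surjective e) (hg1 : ∀ j z, |g j z| ≤ 1) {ψ : Z → ℝ} {k : ℝ}
    (hk : 0 ≤ k) (hψk : ∀ z, |ψ z| ≤ k) {x : X}
    (hsh : ∀ (m h : κ → ℕ), Tm R B₀ (wtg R B g) (m + h) ψ x
      = ∫ z, rsm R B₀ B g ψ m (toZ h) z ∂(R.K (orb R.aX B₀ m x)))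
    (H : ℕ) {N : ℕ} (hN : 0 < N) {M : κ → ℕ} (hM : ∀ l, N ≤ M l) :
    |avg M fun m => Tm R B₀ (wtg R B g) m ψ x|
      ≤ (avg M fun m => rLam R B₀ B g e ψ H (orb R.aX B₀ m x))
        + (∑ _l : κ, 2 * k * ((H : ℝ) + 1)) / N := by
  have hMpos : ∀ l, 0 < M l := fun l => lt_of_lt_of_le hN (hM l)
  set Φ : (κ → ℕ) → ℝ := fun m => Tm R B₀ (wtg R B g) m ψ x with hΦ
  have hΦR : ∀ p, |Φ p| ≤ k := fun p => abs_Tm_le hg1 hψk p x
  have hpos : ∀ l : κ, 0 < H + 1 := fun _ => Nat.succ_pos _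
  have s2 : |avg (fun _ => H + 1) (fun h => avg M fun m => Φ (m + h)) - avg M Φ|
      ≤ (∑ _l : κ, 2 * k * ((H : ℝ) + 1)) / N := by
    rw [← avg_const (M := fun _ : κ => H + 1) hpos (avg M Φ), ← avg_sub]
    refine (abs_avg_le _ _).trans ?_
    rw [← avg_const (M := fun _ : κ => H + 1) hpos ((∑ _l : κ, 2 * k * ((H : ℝ) + 1)) / N)]
    refine avg_mono' _ fun h hh => ?_
    rw [mem_box] at hh
    have h1 := avg_shift M h Φ hΦR hMpos
    refine h1.trans ?_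
    rw [Finset.sum_div]
    refine Finset.sum_le_sum fun l _ => ?_
    have h2 : (N : ℝ) ≤ M l := by exact_mod_cast hM l
    have h3 : (0 : ℝ) < N := by exact_mod_cast hN
    have h4 : (h l : ℝ) ≤ (H : ℝ) + 1 := by exact_mod_cast (hh l).le
    gcongr
  have s3 : |avg (fun _ => H + 1) (fun h => avg M fun m => Φ (m + h))|
      ≤ avg M fun m => rLam R B₀ B g e ψ H (orb R.aX B₀ m x) := by
    rw [← avg_comm M (fun _ => H + 1) (fun m h => Φ (m + h))]
    refine (abs_avg_le _ _).trans (avg_mono M fun m => ?_)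
    refine le_trans (le_of_eq ?_) (le_rLam he hg1 hk hψk H m (orb R.aX B₀ m x))
    unfold rPsi avgb
    congr 2
    funext h
    exact hsh m h
  have t2 := abs_sub_abs_le_abs_sub (avg M Φ)
    (avg (fun _ => H + 1) (fun h => avg M fun m => Φ (m + h)))
  rw [abs_sub_comm] at s2
  linarith

variable (R B₀ B g) in
/-- good points at level `ε` -/
def rgood (φ : Z → ℝ) (ε : ℝ) (x : X) : Prop :=
  ∃ N : ℕ, ∀ M : κ → ℕ, (∀ l, N ≤ M l) → |avg M fun m => Tm R B₀ (wtg R B g) m φ x| ≤ ε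

lemma rgood_of_NS (he : Function.Surjective e) (hg1 : ∀ j z, |g j z| ≤ 1) {φ ψ : Z → ℝ} {k : ℝ}
    (hk : 0 ≤ k) (hψk : ∀ z, |ψ z| ≤ k) {x : X}
    (hsh : ∀ (m h : κ → ℕ), Tm R B₀ (wtg R B g) (m + h) ψ x
      = ∫ z, rsm R B₀ B g ψ m (toZ h) z ∂(R.K (orb R.aX B₀ m x)))
    (hsub : ∀ m, ENNReal.ofReal |Tm R B₀ (wtg R B g) m φ x - Tm R B₀ (wtg R B g) m ψ x|
      ≤ EE R (fun z => φ z - ψ z) (orb R.aX B₀ m x)) (H : ℕ)
    {ε : ℝ} (hε : 0 < ε)
    (h : NS (orb R.aX B₀) (fun x => ENNReal.ofReal (rLam R B₀ B g e ψ H x)) x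
      + NS (orb R.aX B₀) (EE R (fun z => φ z - ψ z)) x ≤ ENNReal.ofReal (ε / 2)) :
    rgood R B₀ B g φ ε x := by
  set C : ℝ := ∑ _l : κ, 2 * k * ((H : ℝ) + 1) with hC
  have hC0 : 0 ≤ C := by positivity
  obtain ⟨N, hN⟩ := exists_nat_gt (2 * C / ε)
  have hNpos : 0 < N := by
    rcases Nat.eq_zero_or_pos N with h0 | h0
    · subst h0
      exfalso
      have : 0 ≤ 2 * C / ε := by positivity
      simp at hN
      linarith
    · exact h0
  have hNr : (0 : ℝ) < N := by exact_mod_cast hNpos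
  refine ⟨N, fun M hM => ?_⟩
  have hMpos : ∀ l, 0 < M l := fun l => lt_of_lt_of_le hNpos (hM l)
  have h1 := rel_bound he hg1 hk hψk hsh H hNpos hM
  have h2 := ofReal_avg_le_NS (U := orb R.aX B₀) hMpos (fun x => rLam R B₀ B g e ψ H x)
    (fun x => rLam_nonneg ψ H x) x
  have h3 := ofReal_avg_le_NS' (U := orb R.aX B₀) hMpos
    (fun m => |Tm R B₀ (wtg R B g) m φ x - Tm R B₀ (wtg R B g) m ψ x|)
    (fun x => abs_nonneg _) (EE R (fun z => φ z - ψ z)) x hsub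
  have h4 : (avg M fun m => rLam R B₀ B g e ψ H (orb R.aX B₀ m x))
      + (avg M fun m => |Tm R B₀ (wtg R B g) m φ x - Tm R B₀ (wtg R B g) m ψ x|) ≤ ε / 2 := by
    rw [← ENNReal.ofReal_le_ofReal_iff (by positivity), ENNReal.ofReal_add
      (avg_nonneg M fun m => rLam_nonneg ψ H _) (avg_nonneg M fun m => abs_nonneg _)]
    exact (add_le_add h2 h3).trans h
  have h5 : C / N ≤ ε / 2 := by
    rw [div_le_iff₀ hNr]
    rw [div_lt_iff₀ hε] at hN
    linarith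
  have h6 : |(avg M fun m => Tm R B₀ (wtg R B g) m φ x) - avg M fun m => Tm R B₀ (wtg R B g) m ψ x|
      ≤ avg M fun m => |Tm R B₀ (wtg R B g) m φ x - Tm R B₀ (wtg R B g) m ψ x| := by
    rw [← avg_sub]
    exact abs_avg_le _ _
  have h7 := abs_sub_abs_le_abs_sub (avg M fun m => Tm R B₀ (wtg R B g) m φ x)
    (avg M fun m => Tm R B₀ (wtg R B g) m ψ x)
  linarith

lemma measure_not_rgood_le [Countable Q] (he : Function.Surjective e)
    (hgm : ∀ j, Measurable (g j)) (hg1 : ∀ j z, |g j z| ≤ 1) {φ : Z → ℝ}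
    (hφm : Measurable φ) (hφ : MemLp φ 2 R.ν) {ε : ℝ} (hε : 0 < ε) (k H : ℕ) {t : ℝ}
    (ht : ∫ x, rLam R B₀ B g e (tr φ k) H x ∂μ ≤ t + ∫ z, |φ z - tr φ k z| ∂(R.ν)) :
    μ {x | ¬ rgood R B₀ B g φ ε x} ≤ (4 ^ (Fintype.card κ) / (ENNReal.ofReal (ε / 4)) ^ 2) *
      ENNReal.ofReal (k * t + 2 * ∫ z, tl φ k z ∂(R.ν)) := by
  have hprob := R.prob
  set ψ := tr φ k with hψ
  have hψm : Measurable ψ := measurable_tr hφm k
  have hψK : ∀ x, |ψ x| ≤ k := abs_tr_le φ k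
  have hψL : MemLp ψ 2 R.ν := MemLp.of_bound hψm.aestronglyMeasurable k
    (Eventually.of_forall fun x => by rw [Real.norm_eq_abs]; exact hψK x)
  have hψi : Integrable ψ R.ν := hψL.integrable (by norm_num)
  have hφi : Integrable φ R.ν := hφ.integrable (by norm_num)
  have hk : (0 : ℝ) ≤ k := Nat.cast_nonneg k
  set a := ENNReal.ofReal (ε / 4) with ha
  have ha0 : a ≠ 0 := (ENNReal.ofReal_pos.2 (by positivity)).ne'
  have hatop : a ≠ ∞ := ENNReal.ofReal_ne_top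
  have hLm : Measurable (rLam R B₀ B g e ψ H) := measurable_rLam hgm hψm H
  have hLi : Integrable (rLam R B₀ B g e ψ H) μ := Integrable.of_bound hLm.aestronglyMeasurable k
        (Eventually.of_forall fun x => by
          rw [Real.norm_eq_abs, abs_of_nonneg (rLam_nonneg _ _ _)]
          exact rLam_le hg1 hk hψK H x)
  set g1 : X → ℝ≥0∞ := fun x => ENNReal.ofReal (rLam R B₀ B g e ψ H x) with hg1'
  set g2 : X → ℝ≥0∞ := EE R (fun z => φ z - ψ z) with hg2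
  have hg1m : Measurable g1 := hLm.ennreal_ofReal
  have hg2m : Measurable g2 := measurable_EE (hφm.sub hψm)
  set N1 := NS (orb R.aX B₀) g1 with hN1
  set N2 := NS (orb R.aX B₀) g2 with hN2
  have hUm : ∀ m, Measurable (orb R.aX B₀ m) := fun m => (R.aX.mp _).measurable
  have hN1m : Measurable N1 := measurable_NS hUm hg1m
  have hN2m : Measurable N2 := measurable_NS hUm hg2m
  have hA := Tm_shift (R := R) (B₀ := B₀) (B := B) hgm hψm
  have hA' := abs_Tm_sub_le (R := R) (B₀ := B₀) (wt := wtg R B g) (measurable_wtg hgm)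
    (abs_wtg_le hg1) hφm hφ hψm hψL
  set bad := {x | ¬ ((∀ (m h : κ → ℕ), Tm R B₀ (wtg R B g) (m + h) ψ x
      = ∫ z, rsm R B₀ B g ψ m (toZ h) z ∂(R.K (orb R.aX B₀ m x))) ∧
      ∀ m, ENNReal.ofReal |Tm R B₀ (wtg R B g) m φ x - Tm R B₀ (wtg R B g) m ψ x|
      ≤ EE R (fun z => φ z - ψ z) (orb R.aX B₀ m x))} with hbad
  have hbad0 : μ bad = 0 := by
    have : ∀ᵐ x ∂μ, ((∀ (m h : κ → ℕ), Tm R B₀ (wtg R B g) (m + h) ψ x
      = ∫ z, rsm R B₀ B g ψ m (toZ h) z ∂(R.K (orb R.aX B₀ m x))) ∧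
      ∀ m, ENNReal.ofReal |Tm R B₀ (wtg R B g) m φ x - Tm R B₀ (wtg R B g) m ψ x|
      ≤ EE R (fun z => φ z - ψ z) (orb R.aX B₀ m x)) := by
      filter_upwards [hA, hA'] with x h1 h2 using ⟨h1, h2⟩
    exact this
  have hsub : {x | ¬ rgood R B₀ B g φ ε x} ⊆ bad ∪ ({x | a ≤ N1 x} ∪ {x | a ≤ N2 x}) := by
    intro x hx
    by_contra hcon
    simp only [Set.mem_union, hbad, Set.mem_ofPred_eq, not_or, not_le, not_not] at hcon
    apply hx
    refine rgood_of_NS he hg1 hk hψK hcon.1.1 hcon.1.2 H hε ?_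
    have e : ENNReal.ofReal (ε / 2) = a + a := by
      rw [ha, ← ENNReal.ofReal_add (by positivity) (by positivity)]
      congr 1; ring
    rw [e]
    exact add_le_add hcon.2.1.le hcon.2.2.le
  have htlnn : 0 ≤ ∫ x, tl φ k x ∂(R.ν) := integral_nonneg fun x =>
    le_trans (by positivity) (sub_tr φ k x).2
  have b1 : ∫⁻ x, (N1 x) ^ 2 ∂μ ≤ 4 ^ (Fintype.card κ) *
      ENNReal.ofReal (k * t + ∫ z, tl φ k z ∂(R.ν)) := by
    refine (lintegral_NS_sq (fun x => orb_zero x) orb_add orb_mp hg1m).trans ?_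
    gcongr
    have e1 : ∀ x, (g1 x) ^ 2 ≤ ENNReal.ofReal (k * rLam R B₀ B g e ψ H x) := by
      intro x
      simp only [hg1']
      rw [← ENNReal.ofReal_pow (rLam_nonneg ψ H x)]
      apply ENNReal.ofReal_le_ofReal
      rw [sq]
      exact mul_le_mul_of_nonneg_right (rLam_le hg1 hk hψK H x) (rLam_nonneg ψ H x)
    calc ∫⁻ x, (g1 x) ^ 2 ∂μ ≤ ∫⁻ x, ENNReal.ofReal (k * rLam R B₀ B g e ψ H x) ∂μ :=
          lintegral_mono e1
      _ = ENNReal.ofReal (∫ x, k * rLam R B₀ B g e ψ H x ∂μ) := by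
          rw [ofReal_integral_eq_lintegral_ofReal (hLi.const_mul _)]
          exact Eventually.of_forall fun x => mul_nonneg hk (rLam_nonneg ψ H x)
      _ ≤ ENNReal.ofReal (k * t + ∫ z, tl φ k z ∂(R.ν)) := by
          apply ENNReal.ofReal_le_ofReal
          rw [integral_const_mul]
          have i2 : k * ∫ x, |φ x - ψ x| ∂(R.ν) ≤ ∫ x, tl φ k x ∂(R.ν) := by
            rw [← integral_const_mul]
            exact integral_mono ((hφi.sub hψi).abs.const_mul _) (integrable_tl hφm hφ k)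
              fun x => (sub_tr φ k x).1
          have i3 := mul_le_mul_of_nonneg_left ht hk
          linarith
  have b2 : ∫⁻ x, (N2 x) ^ 2 ∂μ ≤ 4 ^ (Fintype.card κ) *
      ENNReal.ofReal (∫ z, tl φ k z ∂(R.ν)) := by
    refine (lintegral_NS_sq (fun x => orb_zero x) orb_add orb_mp hg2m).trans ?_
    gcongr
    refine (lintegral_EE_sq (hφm.sub hψm)).trans ?_
    rw [ofReal_integral_eq_lintegral_ofReal (integrable_tl hφm hφ k)]
    · refine lintegral_mono fun x => ?_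
      rw [Real.enorm_eq_ofReal_abs, ← ENNReal.ofReal_pow (abs_nonneg _)]
      exact ENNReal.ofReal_le_ofReal (sub_tr φ k x).2
    · refine Eventually.of_forall fun x => ?_
      exact le_trans (by positivity) (sub_tr φ k x).2
  have hLnn : 0 ≤ k * t + ∫ z, tl φ k z ∂(R.ν) := by
    have i1 : 0 ≤ ∫ x, rLam R B₀ B g e ψ H x ∂μ := integral_nonneg fun x => rLam_nonneg ψ H x
    have i2 : k * ∫ x, |φ x - ψ x| ∂(R.ν) ≤ ∫ x, tl φ k x ∂(R.ν) := by
      rw [← integral_const_mul]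
      exact integral_mono ((hφi.sub hψi).abs.const_mul _) (integrable_tl hφm hφ k)
        fun x => (sub_tr φ k x).1
    have i3 := mul_le_mul_of_nonneg_left (i1.trans ht) hk
    linarith
  calc μ {x | ¬ rgood R B₀ B g φ ε x}
      ≤ μ bad + (μ {x | a ≤ N1 x} + μ {x | a ≤ N2 x}) :=
        (measure_mono hsub).trans ((measure_union_le _ _).trans
          (add_le_add le_rfl (measure_union_le _ _)))
    _ = μ {x | a ≤ N1 x} + μ {x | a ≤ N2 x} := by rw [hbad0, zero_add]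
    _ ≤ (∫⁻ x, (N1 x) ^ 2 ∂μ) / a ^ 2 + (∫⁻ x, (N2 x) ^ 2 ∂μ) / a ^ 2 :=
        add_le_add (markov_sq hN1m ha0 hatop) (markov_sq hN2m ha0 hatop)
    _ ≤ (4 ^ (Fintype.card κ) *
      ENNReal.ofReal (k * t + ∫ z, tl φ k z ∂(R.ν))) / a ^ 2
        + (4 ^ (Fintype.card κ) * ENNReal.ofReal (∫ z, tl φ k z ∂(R.ν))) / a ^ 2 := by gcongr
    _ = (4 ^ (Fintype.card κ) / a ^ 2) *
      ENNReal.ofReal (k * t + 2 * ∫ z, tl φ k z ∂(R.ν)) := by
        have e : k * t + 2 * ∫ z, tl φ k z ∂(R.ν)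
            = (k * t + ∫ z, tl φ k z ∂(R.ν)) + ∫ z, tl φ k z ∂(R.ν) := by ring
        have key : ∀ a' b c : ℝ≥0∞, (c * a') / a ^ 2 + (c * b) / a ^ 2 = (c / a ^ 2) * (a' + b) := by
          intro a' b c
          rw [mul_add, ENNReal.mul_div_right_comm, ENNReal.mul_div_right_comm]
        rw [key, e, ENNReal.ofReal_add (p := k * t + ∫ z, tl φ k z ∂(R.ν)) hLnn htlnn]

lemma rel_uniform [Nonempty J] [Countable Q]
    (hgm : ∀ j, Measurable (g j)) (hg1 : ∀ j z, |g j z| ≤ 1) {φ : Z → ℝ}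
    (hφm : Measurable φ) (hφ : MemLp φ 2 R.ν)
    (horth : ∀ K' : Kernel Z (Om J Q Q), EqKer R.aZ B₀ B K' →
      (∀ v, (∀ x, R.aX.S v x = x) → ∀ j q γ, ∀ᵐ z ∂(R.ν), ∀ᵐ ω ∂(K' z),
        ω j q (γ + v) = ω j (q + v) γ) →
      (∀ j, ∀ i ∈ stab R (g j), ∀ q γ, ∀ᵐ z ∂(R.ν), ∀ᵐ ω ∂(K' z),
        ω j (q + i) γ = ω j q γ) → ∫ z, φ z * dual K' z ∂(R.ν) = 0) :
    ∀ᵐ x ∂μ, ∀ ε > 0, rgood R B₀ B g φ ε x := by
  have hprob := R.prob
  obtain ⟨e, he⟩ := exists_surjective_nat (κ → ℕ)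
  have hφi : Integrable φ R.ν := hφ.integrable (by norm_num)
  have hone : ∀ ε > 0, ∀ᵐ x ∂μ, rgood R B₀ B g φ ε x := by
    intro ε hε
    rw [ae_iff]
    set C : ℝ≥0∞ := 4 ^ (Fintype.card κ) / (ENNReal.ofReal (ε / 4)) ^ 2 with hC
    have hCtop : C ≠ ∞ := by
      refine ENNReal.div_ne_top (by finiteness) ?_
      have : ENNReal.ofReal (ε / 4) ≠ 0 := (ENNReal.ofReal_pos.2 (by positivity)).ne'
      positivity
    have h1 : ∀ k : ℕ, μ {x | ¬ rgood R B₀ B g φ ε x}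
        ≤ C * ENNReal.ofReal (2 * ∫ x, tl φ k x ∂(R.ν)) := by
      intro k
      obtain ⟨t, ht, ht'⟩ := exists_limsup (R := R) (B₀ := B₀) (B := B) (e := e) hgm hg1 hφm hφi
        horth (measurable_tr hφm k) (Nat.cast_nonneg k) (abs_tr_le φ k) (hyperfilter ℕ)
        Nat.hyperfilter_le_atTop
      have h2 : Tendsto (fun H => C * ENNReal.ofReal (k * t H
          + 2 * ∫ x, tl φ k x ∂(R.ν))) (hyperfilter ℕ : Ultrafilter ℕ)
          (𝓝 (C * ENNReal.ofReal (k * 0 + 2 * ∫ x, tl φ k x ∂(R.ν)))) := by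
        refine ENNReal.Tendsto.const_mul ?_ (Or.inr hCtop)
        exact ENNReal.tendsto_ofReal ((ht.const_mul (k : ℝ)).add_const _)
      rw [mul_zero, zero_add] at h2
      exact ge_of_tendsto' h2 fun H => measure_not_rgood_le he hgm hg1 hφm hφ hε k H (ht' H)
    have h3 : Tendsto (fun k : ℕ => C * ENNReal.ofReal (2 * ∫ x, tl φ k x ∂(R.ν))) atTop
        (𝓝 (C * ENNReal.ofReal (2 * 0))) := by
      refine ENNReal.Tendsto.const_mul ?_ (Or.inr hCtop)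
      exact ENNReal.tendsto_ofReal ((tl_tendsto hφm hφ).const_mul 2)
    rw [mul_zero, ENNReal.ofReal_zero, mul_zero] at h3
    exact le_antisymm (ge_of_tendsto' h3 h1) zero_le
  have hall : ∀ᵐ x ∂μ, ∀ n : ℕ, rgood R B₀ B g φ (1 / ((n : ℝ) + 1)) x :=
    ae_all_iff.2 fun n => hone _ (by positivity)
  filter_upwards [hall] with x hx ε hε
  obtain ⟨n, hn⟩ := exists_nat_one_div_lt hε
  obtain ⟨N, hN⟩ := hx n
  exact ⟨N, fun M hM => (hN M hM).trans hn.le⟩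

/-- The relative master theorem. -/
theorem rel_master [Nonempty J] [Countable Q] (R : Rel μ Z Q) (B₀ : (κ → ℤ) →+ Q)
    (B : J → (κ → ℤ) →+ Q) (g : J → Z → ℝ)
    (hgm : ∀ j, Measurable (g j)) (hg1 : ∀ j z, |g j z| ≤ 1)
    (hD : ∀ K' : Kernel Z (Om J Q Q), EqKer R.aZ B₀ B K' →
      (∀ v, (∀ x, R.aX.S v x = x) → ∀ j q γ, ∀ᵐ z ∂(R.ν), ∀ᵐ ω ∂(K' z),
        ω j q (γ + v) = ω j (q + v) γ) →
      (∀ j, ∀ i ∈ stab R (g j), ∀ q γ, ∀ᵐ z ∂(R.ν), ∀ᵐ ω ∂(K' z),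
        ω j (q + i) γ = ω j q γ) → RCv R B₀ (wtg R B g) (dual K'))
    (φ : Z → ℝ) (hφ : MemLp φ 2 R.ν) : RCv R B₀ (wtg R B g) φ := by
  classical
  refine rel_principle (measurable_wtg hgm) (abs_wtg_le hg1) ?_ φ hφ
  intro φ hφm hφ horth
  have h1 := rel_uniform (R := R) (B₀ := B₀) (B := B) hgm hg1 hφm hφ (fun K hK hv hs => by
    have := hK.markov
    exact horth _ (measurable_dual K) (fun x => abs_dual_le K x) (hD K hK hv hs))
  filter_upwards [h1] with x hx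
  refine ⟨0, ?_⟩
  rw [Metric.tendsto_nhds]
  intro ε hε
  obtain ⟨N, hN⟩ := hx (ε / 2) (by positivity)
  filter_upwards [eventually_ge N] with M hM
  have h2 := hN M hM
  rw [Real.dist_eq, sub_zero]
  linarith

end Pool.Agent.Lib.Pf720ae
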