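import Pool.Agent.Lib.Pf720ae.Ext

/-!
Theorem A, action form.
-/

set_option autoImplicit false
set_option linter.unusedSectionVars false

open MeasureTheory Filter Topology ProbabilityTheory Finset
open scoped ENNReal NNReal

namespace Pool.Agent.Lib.Pf720ae

variable {κ : Type} [Fintype κ] [DecidableEq κ]

lemma memLp_of_bdd {X : Type} [MeasurableSpace X] {μ : Measure X} [IsProbabilityMeasure μ]
    {f : X → ℝ} (hf : Measurable f) (h : ∀ x, |f x| ≤ 1) : MemLp f 2 μ :=
  MemLp.of_bound hf.aestronglyMeasurable 1
    (Eventually.of_forall fun x => by rw [Real.norm_eq_abs]; exact h x)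

/-- Theorem A in action form. -/
theorem thmA {Γ : Type} [AddCommGroup Γ] [Countable Γ] (s : Γ →+ (κ → ℤ)) :
    ∀ (n : ℕ) (A : Fin n → (κ → ℤ) →+ Γ) (_ : ∀ i γ, A i (s γ) = γ)
      (X : Type) [MeasurableSpace X] (μ : Measure X) [IsProbabilityMeasure μ]
      (act : MAct Γ X μ) (F : Fin n → X → ℝ) (_ : ∀ i, Measurable (F i))
      (_ : ∀ i x, |F i x| ≤ 1),
      ∀ᵐ x ∂μ, Cvg fun m => ∏ i, F i (act.S (A i (toZ m)) x) := by
  classical
  intro n
  induction n with
  | zero =>
    intro A _ X _ μ _ act F _ _
    refine Eventually.of_forall fun x => ?_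
    exact (Cvg.const 1).congr fun m => by simp
  | succ n ih =>
    intro A hA X _ μ _ act F hFm hF
    set A' : Option (Fin n) → (κ → ℤ) →+ Γ := fun o => Option.elim o 0 fun i => A i.succ with hA'
    set w : X → (κ → ℕ) → ℝ := fun x m => ∏ i : Fin n, F i.succ (act.S (A i.succ (toZ m)) x)
      with hw
    have hm := master act (A 0) A' (fun x => {w x}) ?_ ?_ (F 0) (memLp_of_bdd (hFm 0) (hF 0))
    · filter_upwards [hm] with x hx
      refine (hx (w x) rfl).congr fun m => ?_
      rw [Fin.prod_univ_succ]
      rfl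
    · intro x w' hw'
      rw [Set.mem_singleton_iff] at hw'
      subst hw'
      refine ⟨fun o g => Option.elim o 1 fun i => F i.succ (act.S g x), ?_, ?_⟩
      · rintro (_ | i) g
        · simp
        · exact hF _ _
      · intro m
        rw [Fintype.prod_option]
        simp [hw, hA']
    · intro K hK
      have := hK.markov
      set act' : MAct Γ (X × Om (Option (Fin n)) Γ Γ) (μ ⊗ₘ K) :=
        (extAct hK).comap ((AddMonoidHom.inl (κ → ℤ) Γ).comp s) with hact'
      set g : Fin n → X × Om (Option (Fin n)) Γ Γ → ℝ :=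
        fun i z => ((z.2 (some i) 0 0 : Ic) : ℝ) * F i.succ z.1 with hg
      have hgm : ∀ i, Measurable (g i) := by
        intro i
        refine Measurable.mul ?_ ((hFm _).comp measurable_fst)
        fun_prop
      have hg1 : ∀ i z, |g i z| ≤ 1 := by
        intro i z
        simp only [hg]
        rw [abs_mul]
        exact mul_le_one₀ (abs_Ic _) (abs_nonneg _) (hF _ _)
      have hih := ih (fun i => A i.succ) (fun i γ => hA i.succ γ) _ (μ ⊗ₘ K) act' g hgm hg1
      have hS1 : ∀ (γ : Γ) z, (act'.S γ z).1 = act.S γ z.1 := by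
        intro γ z
        show act.S (A 0 (s γ) + 0) z.1 = act.S γ z.1
        rw [hA, add_zero]
      have hS2 : ∀ (γ : Γ) z (i : Fin n), (act'.S γ z).2 (some i) 0 0 = z.2 (some i) γ 0 := by
        intro γ z i
        show z.2 (some i) (0 + A' (some i) (s γ)) (0 + 0) = z.2 (some i) γ 0
        rw [zero_add, zero_add]
        show z.2 (some i) (A i.succ (s γ)) 0 = z.2 (some i) γ 0
        rw [hA]
      set G : (κ → ℕ) → X × Om (Option (Fin n)) Γ Γ → ℝ := fun m z =>
        ((z.2 none 0 0 : Ic) : ℝ) * ∏ i, g i (act'.S (A i.succ (toZ m)) z) with hG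
      have hGm : ∀ m, Measurable (G m) := by
        intro m
        refine Measurable.mul (by fun_prop) ?_
        exact Finset.measurable_fun_prod _ fun i _ => (hgm i).comp (act'.mp _).measurable
      have hG1 : ∀ m z, |G m z| ≤ 1 := by
        intro m z
        simp only [hG]
        rw [abs_mul]
        exact mul_le_one₀ (abs_Ic _) (abs_nonneg _) (abs_prod_le_one _ _ fun i => hg1 _ _)
      have hGc : ∀ᵐ z ∂(μ ⊗ₘ K), Cvg fun m => G m z := by
        filter_upwards [hih] with z hz
        exact hz.smul _
      have hfin := Cvg_integral G hGm hG1 hGc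
      filter_upwards [hfin, dual_shift hK] with x hx hd w' hw'
      rw [Set.mem_singleton_iff] at hw'
      subst hw'
      refine hx.congr fun m => ?_
      rw [orb, hd (toZ m), ← integral_mul_const]
      refine integral_congr_ae (Eventually.of_forall fun ω => ?_)
      simp only [hG, hg, hw]
      rw [Fintype.prod_option, mul_assoc, ← Finset.prod_mul_distrib]
      simp only [hS1, hS2, hA', Option.elim, AddMonoidHom.zero_apply]

end Pool.Agent.Lib.Pf720ae
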