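import Pool.Agent.Lib.Pf720ae.UniKer

/-!
The unified theorem: data and the case of dual functions.
-/

set_option autoImplicit false
set_option linter.unusedSectionVars false

open MeasureTheory Filter Topology ProbabilityTheory Finset
open scoped ENNReal NNReal

namespace Pool.Agent.Lib.Pf720ae

variable {κ : Type} [Fintype κ] [DecidableEq κ]
variable {X : Type} [MeasurableSpace X] {μ : Measure X} [IsProbabilityMeasure μ]
variable {r : ℕ}

/-- coordinate projections -/
def cp (E : Finset (Fin r)) : (Fin r → ℤ) →+ (Fin r → ℤ) where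
  toFun γ α := if α ∈ E then 0 else γ α
  map_zero' := by funext α; simp
  map_add' a b := by
    funext α
    by_cases h : α ∈ E <;> simp [h]

lemma cp_apply (E : Finset (Fin r)) (γ : Fin r → ℤ) (α : Fin r) :
    cp E γ α = if α ∈ E then 0 else γ α := rfl

lemma cp_union (E F : Finset (Fin r)) (γ : Fin r → ℤ) : cp (E ∪ F) γ = cp E (cp F γ) := by
  funext α
  simp only [cp_apply, Finset.mem_union]
  by_cases h : α ∈ E <;> by_cases h' : α ∈ F <;> simp [h, h']

lemma cp_univ (γ : Fin r → ℤ) : cp Finset.univ γ = 0 := by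
  funext α
  simp [cp_apply]

lemma cp_idem (E : Finset (Fin r)) (γ : Fin r → ℤ) : cp E (cp E γ) = cp E γ := by
  rw [← cp_union, Finset.union_self]

lemma cp_sub (E : Finset (Fin r)) (γ : Fin r → ℤ) : cp E (γ - cp E γ) = 0 := by
  rw [map_sub, cp_idem, sub_self]

variable {J : Type} [Fintype J] [DecidableEq J]

/-- the data of the unified theorem -/
structure Dat (J : Type) (κ : Type) [Fintype κ] (r : ℕ) {X : Type} [MeasurableSpace X]
    (μ : Measure X) where
  /-- the actions -/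
  aS : J → MAct (κ → ℤ) X μ
  /-- the common directions -/
  aR : MAct (Fin r → ℤ) X μ
  comm : ∀ j m γ x, (aS j).S m (aR.S γ x) = aR.S γ ((aS j).S m x)
  /-- the vectors -/
  v : (Fin r → ℤ) →+ (κ → ℤ)
  /-- the labels: directions which are not moved -/
  E : J → Finset (Fin r)
  hv : ∀ j γ x, (aS j).S (v γ) x = aR.S (cp (E j) γ) x

namespace Dat

variable (D : Dat J κ r μ)

/-- the combined actions -/
def act (j : J) : MAct ((κ → ℤ) × (Fin r → ℤ)) X μ where
  S q x := (D.aS j).S q.1 (D.aR.S q.2 x)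
  zero x := by
    rw [Prod.fst_zero, Prod.snd_zero, (D.aR).zero, (D.aS j).zero]
  add a b x := by
    rw [Prod.fst_add, Prod.snd_add, (D.aR).add, (D.aS j).add, ← D.comm j b.1 a.2]
  mp q := ((D.aS j).mp q.1).comp (D.aR.mp q.2)

/-- the kernels of the actions -/
def K (i : J) : AddSubgroup (κ → ℤ) where
  carrier := {m | ∀ x, (D.aS i).S m x = x}
  zero_mem' := fun x => (D.aS i).zero x
  add_mem' := by
    intro a b ha hb x
    rw [(D.aS i).add, hb, ha]
  neg_mem' := by
    intro a ha x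
    have h := (D.aS i).add (-a) a x
    rw [neg_add_cancel, (D.aS i).zero, ha] at h
    exact h.symm

lemma mem_K {i : J} {m : κ → ℤ} : m ∈ D.K i ↔ ∀ x, (D.aS i).S m x = x := Iff.rfl

/-- the group of records -/
abbrev Lm : Type := (i : J) → (κ → ℤ) ⧸ D.K i

/-- the positions in the group of records -/
def A (j i : J) : (κ → ℤ) →+ D.Lm :=
  if i = j then 0 else (AddMonoidHom.single _ i).comp (QuotientAddGroup.mk' (D.K i))

lemma A_self (j : J) : D.A j j = 0 := if_pos rfl

lemma A_of_ne {j i : J} (h : i ≠ j) :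
    D.A j i = (AddMonoidHom.single _ i).comp (QuotientAddGroup.mk' (D.K i)) := if_neg h

lemma A_eq_of_sub {j i : J} {m m' : κ → ℤ} (h : i ≠ j → m - m' ∈ D.K i) :
    D.A j i m = D.A j i m' := by
  by_cases hij : i = j
  · subst hij
    rw [A_self]
    rfl
  · rw [D.A_of_ne hij]
    simp only [AddMonoidHom.comp_apply]
    congr 1
    rw [QuotientAddGroup.mk'_apply, QuotientAddGroup.mk'_apply, QuotientAddGroup.eq]
    have := (D.K i).neg_mem (h hij)
    rw [neg_sub] at this
    rwa [neg_add_eq_sub]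

/-- the base point embedding -/
def A₀ (κ : Type) (r : ℕ) : (κ → ℤ) →+ (κ → ℤ) × (Fin r → ℤ) := AddMonoidHom.inl _ _

/-- the record spaces -/
abbrev Rec : Type := Om J D.Lm ((κ → ℤ) × (Fin r → ℤ))

/-- the acting group on the product -/
abbrev Qd : Type := (Fin r → ℤ) × ((j : J) → D.K j)

/-- the action on one record -/
def tau (j : J) (q : D.Qd) (ω : D.Rec) : D.Rec :=
  shP (D.A j) (D.v (cp (D.E j) q.1) + (q.2 j : κ → ℤ)) (shG (0, q.1 - cp (D.E j) q.1) ω)

lemma measurable_shP' {Λ Γ : Type} [AddCommGroup Λ] [AddCommGroup Γ] (A : J → (κ → ℤ) →+ Λ)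
    (a : κ → ℤ) : Measurable (shP A a : Om J Λ Γ → Om J Λ Γ) :=
  measurable_pi_iff.2 fun i => measurable_pi_iff.2 fun g =>
        measurable_pi_iff.2 fun γ => by unfold shP; fun_prop

lemma measurable_shG' {Λ Γ : Type} [AddCommGroup Λ] [AddCommGroup Γ] (γ₀ : Γ) :
    Measurable (shG γ₀ : Om J Λ Γ → Om J Λ Γ) :=
  measurable_pi_iff.2 fun i => measurable_pi_iff.2 fun g =>
        measurable_pi_iff.2 fun γ => by unfold shG; fun_prop

lemma measurable_tau (j : J) (q : D.Qd) : Measurable (D.tau j q) :=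
  (measurable_shP' _ _).comp (measurable_shG' _)

lemma tau_zero (j : J) (ω : D.Rec) : D.tau j 0 ω = ω := by
  unfold tau
  simp only [Prod.fst_zero, map_zero, Prod.snd_zero, Pi.zero_apply, ZeroMemClass.coe_zero,
    add_zero, sub_zero]
  rw [shP_zero]
  exact shG_zero ω

lemma tau_add (j : J) (a b : D.Qd) (ω : D.Rec) :
    D.tau j (a + b) ω = D.tau j a (D.tau j b ω) := by
  unfold tau
  have e1 : D.v (cp (D.E j) (a + b).1) + (((a + b).2 j : D.K j) : κ → ℤ)
      = (D.v (cp (D.E j) a.1) + (a.2 j : κ → ℤ)) + (D.v (cp (D.E j) b.1) + (b.2 j : κ → ℤ)) := by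
    simp only [Prod.fst_add, Prod.snd_add, map_add, Pi.add_apply, AddSubgroup.coe_add]
    abel
  have e2 : ((0 : κ → ℤ), (a + b).1 - cp (D.E j) (a + b).1)
      = ((0 : κ → ℤ), a.1 - cp (D.E j) a.1) + ((0 : κ → ℤ), b.1 - cp (D.E j) b.1) := by
    simp only [Prod.fst_add, map_add, Prod.mk_add_mk, add_zero]
    congr 1
    abel
  rw [e1, e2, shG_add, shP_add, shP_shG]

/-- equivariance of the kernels under the common group -/
lemma ker_tau (j : J) {Kj : Kernel X D.Rec} (hK : EqKer (D.act j) (A₀ κ r) (D.A j) Kj)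
    (q : D.Qd) : ∀ᵐ x ∂μ, Kj (D.aR.S q.1 x) = (Kj x).map (D.tau j q) := by
  have h1 := hK.eqP (D.v (cp (D.E j) q.1) + (q.2 j : κ → ℤ))
  have h2 := hK.eqG (0, q.1 - cp (D.E j) q.1)
  have h3 := ((D.act j).mp (0, q.1 - cp (D.E j) q.1)).quasiMeasurePreserving.ae h1
  filter_upwards [h3, h2] with x hx1 hx2
  have e : (D.act j).S (A₀ κ r (D.v (cp (D.E j) q.1) + (q.2 j : κ → ℤ)))
      ((D.act j).S (0, q.1 - cp (D.E j) q.1) x) = D.aR.S q.1 x := by
    show (D.aS j).S (D.v (cp (D.E j) q.1) + (q.2 j : κ → ℤ)) (D.aR.S 0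
      ((D.aS j).S 0 (D.aR.S (q.1 - cp (D.E j) q.1) x))) = D.aR.S q.1 x
    rw [D.aR.zero, (D.aS j).zero, (D.aS j).add, (q.2 j).2, D.hv, cp_idem, ← D.aR.add]
    congr 1
    abel
  rw [← e, hx1, hx2, Measure.map_map (measurable_shP' _ _) (measurable_shG' _)]
  rfl

end Dat

end Pool.Agent.Lib.Pf720ae
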