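import Pool.Agent.Lib.Pf720ae.Uni

/-!
The unified theorem: the case of dual functions, and the induction.
-/

set_option autoImplicit false
set_option linter.unusedSectionVars false

open MeasureTheory Filter Topology ProbabilityTheory Finset
open scoped ENNReal NNReal

namespace Pool.Agent.Lib.Pf720ae

variable {κ : Type} [Fintype κ] [DecidableEq κ]
variable {X : Type} [MeasurableSpace X] {μ : Measure X} [IsProbabilityMeasure μ]
variable {r : ℕ} {J : Type} [Fintype J] [DecidableEq J]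

namespace Dat

instance (D : Dat J κ r μ) : Countable D.Lm := by
  have : ∀ i, Countable ((κ → ℤ) ⧸ D.K i) := fun i =>
    (QuotientAddGroup.mk_surjective (s := D.K i)).countable
  infer_instance

/-- labels of pairs -/
def lab (D : Dat J κ r μ) (j i : J) : Finset (Fin r) :=
  if i = j then Finset.univ else D.E j ∪ D.E i

lemma cp_lab (D : Dat J κ r μ) (j i : J) (γ : Fin r → ℤ) :
    cp (D.E j) (cp (D.lab j i) γ) = cp (D.lab j i) γ := by
  rw [← cp_union]
  congr 2
  unfold lab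
  split_ifs
  · simp
  · rw [← Finset.union_assoc, Finset.union_self]

/-- choice of positions for the pairs -/
structure Pos (D : Dat J κ r μ) (N : ℕ) where
  /-- common part -/
  th : J → J → (κ → ℤ) →+ (Fin r → ℤ)
  /-- kernel part -/
  kp : (j : J) → J → (κ → ℤ) →+ D.K j
  h1 : ∀ j i p, cp (D.lab j i) (th j i p) = th j i p
  h2 : ∀ j i γ, th j i (D.v γ) = N • cp (D.lab j i) γ
  h3 : ∀ j i γ, kp j i (D.v (cp (D.lab j i) γ)) = 0
  h4 : ∀ j i p, i ≠ j → N • p - (D.v (th j i p) + (kp j i p : κ → ℤ)) ∈ D.K i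

variable {D : Dat J κ r μ} {N : ℕ}

/-- the positions -/
def posB (P : D.Pos N) (ji : J × J) : (κ → ℤ) →+ D.Qd :=
  AddMonoidHom.prod (P.th ji.1 ji.2)
    ((AddMonoidHom.single (fun j => D.K j) ji.1).comp (P.kp ji.1 ji.2))

/-- the base point map -/
def posb (D : Dat J κ r μ) (N : ℕ) : (Fin r → ℤ) →+ D.Qd :=
  AddMonoidHom.prod (N • AddMonoidHom.id _) 0

/-- the product system -/
noncomputable def prel (D : Dat J κ r μ) (Ks : J → Kernel X D.Rec)
    (hK : ∀ j, EqKer (D.act j) (A₀ κ r) (D.A j) (Ks j)) [∀ j, IsMarkovKernel (Ks j)] :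
    Rel μ (X × (J → D.Rec)) D.Qd :=
  relExtG (relId D.aR) (AddMonoidHom.fst _ _) (kpi Ks) (fun q ω j => D.tau j q (ω j))
    (fun q => measurable_pi_iff.2 fun j => (D.measurable_tau j q).comp (measurable_pi_apply j))
    (fun ω => funext fun j => D.tau_zero j (ω j))
    (fun a b ω => funext fun j => D.tau_add j a b (ω j))
    (fun q => by
      filter_upwards [ae_all_iff.2 fun j => D.ker_tau j (hK j) q] with x hx
      exact kpi_map (fun j => D.measurable_tau j q) hx)

lemma adm_pos (P : D.Pos N) (Ks : J → Kernel X D.Rec)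
    (hK : ∀ j, EqKer (D.act j) (A₀ κ r) (D.A j) (Ks j)) [∀ j, IsMarkovKernel (Ks j)] :
    Adm N D.v (fun E : Finset (Fin r) => cp E) (D.prel Ks hK) (posb D N)
      (fun ji : J × J => D.lab ji.1 ji.2) (fun ji => P.th ji.1 ji.2) (fun ji => posB P ji) := by
  constructor
  · intro ji m
    exact P.h1 _ _ _
  · intro ji γ
    exact P.h2 _ _ _
  · intro ji γ
    show (P.th ji.1 ji.2 (D.v (cp (D.lab ji.1 ji.2) γ)),
      AddMonoidHom.single (fun j => D.K j) ji.1 (P.kp ji.1 ji.2 (D.v (cp (D.lab ji.1 ji.2) γ))))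
      = (N • cp (D.lab ji.1 ji.2) γ, (0 : (j : J) → D.K j))
    rw [P.h2, P.h3, map_zero, cp_idem]
  · intro ji m
    rw [mem_triv]
    intro x
    show D.aR.S (N • P.th ji.1 ji.2 m - N • P.th ji.1 ji.2 m) x = x
    rw [sub_self, D.aR.zero]

/-- the case of dual functions -/
lemma all_dual (hN : 0 < N) (P : D.Pos N) (Ks : J → Kernel X D.Rec)
    (hK : ∀ j, EqKer (D.act j) (A₀ κ r) (D.A j) (Ks j)) :
    ∀ᵐ x ∂μ, Cvg fun m => ∏ j, dual (Ks j) ((D.aS j).S (toZ m) x) := by
  have hmk : ∀ j, IsMarkovKernel (Ks j) := fun j => (hK j).markov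
  -- coordinate functions
  set g : (κ → ℕ) → J × J → X × (J → D.Rec) → ℝ := fun c ji w =>
    ((w.2 ji.1 ji.2 (D.A ji.1 ji.2 (toZ c)) 0 : Ic) : ℝ) with hg
  have hgm : ∀ c ji, Measurable (g c ji) := by
    intro c ji
    simp only [hg]
    fun_prop
  have hg1 : ∀ c ji w, |g c ji w| ≤ 1 := fun c ji w => abs_Ic _
  have hrab : ∀ᵐ x ∂μ, ∀ c : κ → ℕ, Cvg fun m => ∫ w, ∏ ji, g c ji
      ((D.prel Ks hK).aZ.S (posB P ji (toZ m)) w) ∂((D.prel Ks hK).K x) :=
    ae_all_iff.2 fun c => rab hN (fun E F γ => cp_union E F γ) (adm_pos P Ks hK) (hgm c) (hg1 c)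
  filter_upwards [hrab, ae_all_iff.2 fun j => dual_shift (hK j)] with x hx hd
  refine Cvg.of_cosets hN fun c => (hx c).congr fun p => ?_
  have hcast : toZ (N • p + c) = N • toZ p + toZ c := by
    funext l
    simp [toZ]
  -- pointwise identity
  have hpt : ∀ w : X × (J → D.Rec), (∏ ji, g c ji ((D.prel Ks hK).aZ.S (posB P ji (toZ p)) w))
      = ∏ j, ∏ i, ((w.2 j i (D.A j i (toZ (N • p + c))) 0 : Ic) : ℝ) := by
    intro w
    rw [Fintype.prod_prod_type]
    refine Finset.prod_congr rfl fun j _ => Finset.prod_congr rfl fun i _ => ?_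
    show ((w.2 j i (D.A j i (toZ c) + D.A j i (D.v (cp (D.E j) (P.th j i (toZ p)))
      + (((AddMonoidHom.single (fun j => D.K j) j (P.kp j i (toZ p))) j : D.K j) : κ → ℤ)))
      (0 + (0, P.th j i (toZ p) - cp (D.E j) (P.th j i (toZ p)))) : Ic) : ℝ) = _
    have e1 : cp (D.E j) (P.th j i (toZ p)) = P.th j i (toZ p) := by
      rw [← P.h1, cp_lab]
    have e2 : ((AddMonoidHom.single (fun j => D.K j) j (P.kp j i (toZ p))) j : D.K j)
        = P.kp j i (toZ p) := by
      simp
    rw [e1, e2, sub_self, hcast, map_add (D.A j i) (N • toZ p)]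
    have e3 : D.A j i (N • toZ p) = D.A j i (D.v (P.th j i (toZ p)) + (P.kp j i (toZ p) : κ → ℤ)) :=
      D.A_eq_of_sub fun h => P.h4 j i _ h
    rw [e3, add_comm (D.A j i (toZ c))]
    congr 2
  simp only [hpt]
  have hmk2 : IsMarkovKernel (relId (μ := μ) D.aR).K := (relId D.aR).markov
  have hKx : (D.prel Ks hK).K x = (Kernel.id x) ⊗ₘ (kpi Ks) := kk_apply _ _ x
  set G : X × (J → D.Rec) → ℝ := fun w =>
    ∏ j, ∏ i, ((w.2 j i (D.A j i (toZ (N • p + c))) 0 : Ic) : ℝ) with hG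
  have hGm : Measurable G := by
    refine Finset.measurable_fun_prod _ fun j _ => Finset.measurable_fun_prod _ fun i _ => ?_
    fun_prop
  have hG1 : ∀ w, |G w| ≤ 1 := fun w => abs_prod_le_one _ _ fun j =>
    abs_prod_le_one _ _ fun i => abs_Ic _
  have hint : Integrable G ((Kernel.id x) ⊗ₘ (kpi Ks)) :=
    Integrable.of_bound hGm.aestronglyMeasurable 1
      (Eventually.of_forall fun w => by rw [Real.norm_eq_abs]; exact hG1 w)
  rw [hKx, Measure.integral_compProd hint, Kernel.id_apply, integral_dirac']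
  · simp only [hG]
    rw [kpi_apply]
    have h2 := integral_fintype_prod_eq_prod (𝕜 := ℝ) (μ := fun j => Ks j x)
      (fun (j : J) (ω : D.Rec) => ∏ i, ((ω i (D.A j i (toZ (N • p + c))) 0 : Ic) : ℝ))
    rw [h2]
    refine Finset.prod_congr rfl fun j _ => ?_
    rw [← hd j (toZ (N • p + c))]
    congr 1
    show (D.aS j).S (toZ (N • p + c)) (D.aR.S 0 x) = _
    rw [D.aR.zero]
  · exact StronglyMeasurable.integral_kernel_prod_right' hGm.stronglyMeasurable

end Dat

end Pool.Agent.Lib.Pf720ae
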