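import Pool.Agent.Lib.Pf720ae.Uni2

/-!
The unified theorem for bounded real functions.
-/

set_option autoImplicit false
set_option linter.unusedSectionVars false

open MeasureTheory Filter Topology ProbabilityTheory Finset
open scoped ENNReal NNReal

namespace Pool.Agent.Lib.Pf720ae

variable {κ : Type} [Fintype κ] [DecidableEq κ]
variable {X : Type} [MeasurableSpace X] {μ : Measure X} [IsProbabilityMeasure μ]
variable {r : ℕ} {J : Type} [Fintype J] [DecidableEq J]

/-- linear extension from the basis -/
def lin {G : Type} [AddCommGroup G] (f : κ → G) : (κ → ℤ) →+ G where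
  toFun p := ∑ l, p l • f l
  map_zero' := by simp
  map_add' p q := by simp [add_smul, Finset.sum_add_distrib]

lemma lin_apply {G : Type} [AddCommGroup G] (f : κ → G) (p : κ → ℤ) :
    lin f p = ∑ l, p l • f l := rfl

namespace Dat

variable {D : Dat J κ r μ} {N : ℕ}

/-- The unified theorem, bounded real functions. -/
theorem uni_real (hN : 0 < N) (P : D.Pos N) (F : J → X → ℝ) (hFm : ∀ j, Measurable (F j))
    (hF1 : ∀ j x, |F j x| ≤ 1) :
    ∀ᵐ x ∂μ, Cvg fun m => ∏ j, F j ((D.aS j).S (toZ m) x) := by
  classical
  have key : ∀ (U : Finset J) (F : J → X → ℝ) (_ : ∀ j, Measurable (F j))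
      (_ : ∀ j x, |F j x| ≤ 1)
      (_ : ∀ j ∉ U, ∃ K : Kernel X D.Rec, EqKer (D.act j) (A₀ κ r) (D.A j) K ∧ F j = dual K),
      ∀ᵐ x ∂μ, Cvg fun m => ∏ j, F j ((D.aS j).S (toZ m) x) := by
    intro U
    induction U using Finset.induction_on with
    | empty =>
      intro F _ _ hd
      choose Ks hK hFK using fun j => hd j (Finset.notMem_empty j)
      have h := all_dual hN P Ks hK
      filter_upwards [h] with x hx
      refine hx.congr fun m => Finset.prod_congr rfl fun j _ => ?_
      rw [hFK j]
    | insert j U hjU ih =>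
      intro F hFm hF1 hd
      have hne : Nonempty J := ⟨j⟩
      set W : X → Set ((κ → ℕ) → ℝ) := fun x =>
        {fun m => ∏ i ∈ Finset.univ.erase j, F i ((D.aS i).S (toZ m) x)} with hWdef
      have horb : ∀ (m : κ → ℕ) (x : X), orb (D.act j) (A₀ κ r) m x = (D.aS j).S (toZ m) x := by
        intro m x
        show (D.aS j).S (toZ m) (D.aR.S 0 x) = _
        rw [D.aR.zero]
      have hmain := master (D.act j) (A₀ κ r) (D.A j) W ?_ ?_ (F j) (memLp_of_bdd (hFm j) (hF1 j))
      · filter_upwards [hmain] with x hx
        refine (hx _ rfl).congr fun m => ?_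
        rw [horb, Finset.mul_prod_erase Finset.univ (fun i => F i ((D.aS i).S (toZ m) x))
          (Finset.mem_univ j)]
      · intro x w hw
        rw [hWdef, Set.mem_singleton_iff] at hw
        subst hw
        refine ⟨fun i g => if i = j then 1 else F i ((D.aS i).S (Quotient.out (g i)) x), ?_, ?_⟩
        · intro i g
          dsimp only
          split_ifs
          · simp
          · exact hF1 _ _
        · intro m
          dsimp only
          rw [← Finset.mul_prod_erase Finset.univ _ (Finset.mem_univ j), if_pos rfl, one_mul]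
          refine Finset.prod_congr rfl fun i hi => ?_
          have hij : i ≠ j := Finset.ne_of_mem_erase hi
          rw [if_neg hij]
          congr 1
          have e1 : (D.A j i (toZ m)) i = (QuotientAddGroup.mk' (D.K i)) (toZ m) := by
            rw [D.A_of_ne hij]
            simp
          have e2 : toZ m - Quotient.out ((D.A j i (toZ m)) i) ∈ D.K i := by
            rw [e1]
            have h3 : (QuotientAddGroup.mk' (D.K i)) (Quotient.out
              ((QuotientAddGroup.mk' (D.K i)) (toZ m))) = (QuotientAddGroup.mk' (D.K i)) (toZ m) :=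
              Quotient.out_eq _
            rw [QuotientAddGroup.mk'_apply, QuotientAddGroup.mk'_apply, QuotientAddGroup.eq] at h3
            rwa [neg_add_eq_sub] at h3
          have e3 : toZ m = (toZ m - Quotient.out ((D.A j i (toZ m)) i))
              + Quotient.out ((D.A j i (toZ m)) i) := by abel
          conv_lhs => rw [e3, (D.aS i).add]
          exact e2 _
      · intro K hK
        have hmk := hK.markov
        have h1 := ih (Function.update F j (dual K)) ?_ ?_ ?_
        · filter_upwards [h1] with x hx w hw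
          rw [hWdef, Set.mem_singleton_iff] at hw
          subst hw
          refine hx.congr fun m => ?_
          rw [horb, ← Finset.mul_prod_erase Finset.univ _ (Finset.mem_univ j),
            Function.update_self]
          congr 1
          refine Finset.prod_congr rfl fun i hi => ?_
          rw [Function.update_of_ne (Finset.ne_of_mem_erase hi)]
        · intro i
          by_cases hij : i = j
          · subst hij
            rw [Function.update_self]
            exact measurable_dual K
          · rw [Function.update_of_ne hij]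
            exact hFm i
        · intro i x
          by_cases hij : i = j
          · subst hij
            rw [Function.update_self]
            exact abs_dual_le K x
          · rw [Function.update_of_ne hij]
            exact hF1 i x
        · intro i hi
          by_cases hij : i = j
          · subst hij
            exact ⟨K, hK, by rw [Function.update_self]⟩
          · rw [Function.update_of_ne hij]
            exact hd i (by simp [hij, hi])
  exact key Finset.univ F hFm hF1 fun j hj => absurd (Finset.mem_univ j) hj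

/-- existence of positions from finite index -/
theorem exists_pos {N₁ : ℕ} (hN₁ : 0 < N₁) (ρ : (κ → ℤ) →+ (Fin r → ℤ))
    (hρ : ∀ γ, ρ (D.v γ) = N₁ • γ)
    (hfin : ∀ i j, i ≠ j → (D.v.range ⊔ D.K i ⊔ D.K j).FiniteIndex) :
    ∃ N, 0 < N ∧ Nonempty (D.Pos N) := by
  classical
  -- a common multiple of the indices
  obtain ⟨N₀, hN₀, hidx⟩ : ∃ N₀ : ℕ, 0 < N₀ ∧ ∀ i j, i ≠ j → ∀ p : κ → ℤ,
      N₀ • p ∈ D.v.range ⊔ D.K i ⊔ D.K j := by
    refine ⟨∏ q : J × J, (if q.1 ≠ q.2 then (D.v.range ⊔ D.K q.1 ⊔ D.K q.2).index else 1), ?_, ?_⟩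
    · refine Finset.prod_pos fun q _ => ?_
      split_ifs with h
      · exact Nat.pos_of_ne_zero (hfin q.1 q.2 h).index_ne_zero
      · exact one_pos
    · intro i j hij p
      obtain ⟨t, ht⟩ := Finset.dvd_prod_of_mem (fun q : J × J =>
        (if q.1 ≠ q.2 then (D.v.range ⊔ D.K q.1 ⊔ D.K q.2).index else 1))
        (Finset.mem_univ (i, j))
      rw [ht, mul_comm, mul_smul]
      refine AddSubgroup.nsmul_mem _ ?_ _
      simp only [ne_eq, hij, not_false_eq_true, if_true]
      exact AddSubgroup.nsmul_index_mem (D.v.range ⊔ D.K i ⊔ D.K j) p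
  -- decomposition of the basis vectors
  have hdec : ∀ (j i : J) (l : κ), ∃ (γ : Fin r → ℤ) (a : D.K j) (b : D.K i), i ≠ j →
      N₀ • (Pi.single l (1 : ℤ) : κ → ℤ) = D.v γ + a + b := by
    intro j i l
    by_cases hij : i = j
    · exact ⟨0, 0, 0, fun h => absurd hij h⟩
    · have h := hidx j i (Ne.symm hij) (Pi.single l 1)
      obtain ⟨y, hy, b, hb, hyb⟩ := AddSubgroup.mem_sup.1 h
      obtain ⟨z, hz, a, ha, hza⟩ := AddSubgroup.mem_sup.1 hy
      obtain ⟨γ, rfl⟩ := hz
      exact ⟨γ, ⟨a, ha⟩, ⟨b, hb⟩, fun _ => by rw [← hyb, ← hza]⟩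
  choose γ a b hγ using hdec
  have hsum : ∀ (j i : J) (_ : i ≠ j) (p : κ → ℤ), N₀ • p
      = D.v (lin (γ j i) p) + (lin (a j i) p : κ → ℤ) + (lin (b j i) p : κ → ℤ) := by
    intro j i hij p
    have e1 : (p : κ → ℤ) = ∑ l, p l • (Pi.single l (1 : ℤ) : κ → ℤ) := by
      funext q
      simp [Finset.sum_apply, Pi.single_apply]
    rw [lin_apply, lin_apply, lin_apply, map_sum, AddSubgroup.val_finsetSum,
      AddSubgroup.val_finsetSum, ← Finset.sum_add_distrib, ← Finset.sum_add_distrib]
    conv_lhs => rw [e1, Finset.smul_sum]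
    refine Finset.sum_congr rfl fun l _ => ?_
    rw [map_zsmul, AddSubgroup.coe_zsmul, AddSubgroup.coe_zsmul, ← smul_add, ← smul_add,
      ← hγ j i l hij, smul_comm]
  -- the vectors outside the labels are in the kernels
  have hker : ∀ (j : J) (g : Fin r → ℤ), cp (D.E j) g = 0 → D.v g ∈ D.K j := by
    intro j g hg x
    rw [D.hv, hg, D.aR.zero]
  -- the auxiliary maps
  set τ : (κ → ℤ) →+ (κ → ℤ) := N₁ • AddMonoidHom.id _ - D.v.comp ρ with hτ
  have hτv : ∀ g, τ (D.v g) = 0 := by
    intro g
    simp only [hτ, AddMonoidHom.sub_apply, AddMonoidHom.nsmul_apply, AddMonoidHom.id_apply,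
      AddMonoidHom.comp_apply]
    rw [hρ, map_nsmul, sub_self]
  set G : J → J → (κ → ℤ) →+ (Fin r → ℤ) := fun j i => N₀ • ρ + (lin (γ j i)).comp τ with hG
  have hGv : ∀ j i g, G j i (D.v g) = (N₁ * N₀) • g := by
    intro j i g
    simp only [hG, AddMonoidHom.add_apply, AddMonoidHom.nsmul_apply, AddMonoidHom.comp_apply]
    rw [hτv, map_zero, add_zero, hρ, smul_smul, mul_comm]
  -- kernel valued part
  set kq : (j : J) → J → (κ → ℤ) →+ D.K j := fun j i =>
    { toFun := fun p => ⟨D.v (G j i p - cp (D.E j) (G j i p)), hker j _ (cp_sub _ _)⟩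
        + lin (a j i) (τ p)
      map_zero' := by
        ext1
        simp
      map_add' := fun p q => by
        ext1
        simp only [map_add, AddSubgroup.coe_add]
        rw [show G j i p + G j i q - (cp (D.E j) (G j i p) + cp (D.E j) (G j i q))
          = (G j i p - cp (D.E j) (G j i p)) + (G j i q - cp (D.E j) (G j i q)) by abel, map_add]
        abel } with hkq
  have hkq_apply : ∀ j i p, ((kq j i p : D.K j) : κ → ℤ)
      = D.v (G j i p - cp (D.E j) (G j i p)) + (lin (a j i) (τ p) : κ → ℤ) := fun j i p => rfl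
  refine ⟨N₁ * N₀, Nat.mul_pos hN₁ hN₀, ⟨⟨fun j i => (cp (D.lab j i)).comp (G j i),
    fun j i => if i = j then 0 else kq j i, ?_, ?_, ?_, ?_⟩⟩⟩
  · intro j i p
    exact cp_idem _ _
  · intro j i g
    simp only [AddMonoidHom.comp_apply]
    rw [hGv, map_nsmul]
  · intro j i g
    by_cases hij : i = j
    · rw [if_pos hij]
      rfl
    · rw [if_neg hij]
      ext1
      rw [hkq_apply, hGv, map_nsmul, cp_lab, sub_self, map_zero, hτv, map_zero]
      simp
  · intro j i p hij
    rw [if_neg hij, hkq_apply]
    simp only [AddMonoidHom.comp_apply]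
    have hlab : D.lab j i = D.E i ∪ D.E j := by
      unfold lab
      rw [if_neg hij, Finset.union_comm]
    have e1 : (N₁ * N₀) • p = N₀ • τ p + D.v (N₀ • ρ p) := by
      simp only [hτ, AddMonoidHom.sub_apply, AddMonoidHom.nsmul_apply, AddMonoidHom.id_apply,
        AddMonoidHom.comp_apply]
      rw [smul_sub, map_nsmul, sub_add_cancel, smul_smul, mul_comm]
    have e2 : G j i p = N₀ • ρ p + lin (γ j i) (τ p) := rfl
    have e3 : (N₁ * N₀) • p - (D.v (cp (D.lab j i) (G j i p))
        + (D.v (G j i p - cp (D.E j) (G j i p)) + (lin (a j i) (τ p) : κ → ℤ)))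
        = D.v (cp (D.E j) (G j i p) - cp (D.E i) (cp (D.E j) (G j i p)))
          + (lin (b j i) (τ p) : κ → ℤ) := by
      rw [e1, hsum j i hij (τ p), hlab, cp_union]
      simp only [map_sub]
      have e4 : D.v (G j i p) = D.v (N₀ • ρ p) + D.v (lin (γ j i) (τ p)) := by rw [e2, map_add]
      rw [e4]
      abel
    rw [e3]
    refine (D.K i).add_mem (hker i _ ?_) (lin (b j i) (τ p)).2
    exact cp_sub _ _

end Dat

end Pool.Agent.Lib.Pf720ae
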