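import Pool.Agent.Lib.Pf720ae.Lift

/-!
General extension of a relative system, and product kernels.
-/

set_option autoImplicit false
set_option linter.unusedSectionVars false

open MeasureTheory Filter Topology ProbabilityTheory Finset
open scoped ENNReal NNReal

namespace Pool.Agent.Lib.Pf720ae

variable {X : Type} [MeasurableSpace X] {μ : Measure X} [IsProbabilityMeasure μ]
variable {Z : Type} [MeasurableSpace Z] {Q Q₂ : Type} [AddCommGroup Q] [AddCommGroup Q₂]
variable {Ω : Type} [MeasurableSpace Ω]

/-- general extended relative system -/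
noncomputable def relExtG (R : Rel μ Z Q) (f : Q₂ →+ Q) (K' : Kernel Z Ω) [IsMarkovKernel K']
    (τ : Q₂ → Ω → Ω) (hτm : ∀ q, Measurable (τ q)) (hτ0 : ∀ ω, τ 0 ω = ω)
    (hτa : ∀ a b ω, τ (a + b) ω = τ a (τ b ω))
    (hK' : ∀ q, ∀ᵐ z ∂(R.ν), K' (R.aZ.S (f q) z) = (K' z).map (τ q)) :
    Rel μ (Z × Ω) Q₂ :=
  have hp : IsProbabilityMeasure R.ν := R.prob
  have hm : IsMarkovKernel R.K := R.markov
  { ν := R.ν ⊗ₘ K'
    K := kk R.K K'
    markov := inferInstance
    hν := by
      rw [← kk_comp, ← R.hν]
    aX := R.aX.comap f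
    aZ :=
      { S := fun q w => (R.aZ.S (f q) w.1, τ q w.2)
        zero := fun w => by rw [map_zero, R.aZ.zero, hτ0]
        add := fun a b w => by rw [map_add, R.aZ.add, hτa]
        mp := fun q => mp_ext (R.aZ.mp _) (hτm q) (hK' q) }
    p := fun w => R.p w.1
    pm := R.pm.comp measurable_fst
    pS := by
      intro q w
      show R.p (R.aZ.S (f q) w.1) = R.aX.S (f q) (R.p w.1)
      rw [R.pS]
    fib := by
      intro g hg
      filter_upwards [R.fib g hg] with x hx
      have h1 : (kk R.K K' x).map Prod.fst = R.K x := by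
        rw [kk_apply]
        exact Measure.fst_compProd (R.K x) K'
      rw [← h1] at hx
      exact ae_of_ae_map measurable_fst.aemeasurable hx
    eqv := by
      intro q
      filter_upwards [R.eqv (f q), R.ae (hK' q)] with x hx1 hx2
      have hS : Measurable (fun w : Z × Ω => (R.aZ.S (f q) w.1, τ q w.2)) :=
        ((R.aZ.mp _).measurable.comp measurable_fst).prodMk ((hτm q).comp measurable_snd)
      show kk R.K K' (R.aX.S (f q) x) = (kk R.K K' x).map (fun w : Z × Ω =>
          (R.aZ.S (f q) w.1, τ q w.2))
      ext s hs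
      rw [Measure.map_apply hS hs, kk_apply, kk_apply, Measure.compProd_apply hs,
        Measure.compProd_apply (hS hs), hx1,
        lintegral_map (Kernel.measurable_kernel_prodMk_left hs) (R.aZ.mp _).measurable]
      refine lintegral_congr_ae ?_
      filter_upwards [hx2] with z hz
      rw [hz, Measure.map_apply (hτm q) (measurable_prodMk_left hs)]
      rfl }

section pi

variable {J : Type} [Fintype J]

/-- product of Markov kernels -/
noncomputable def kpi (K : J → Kernel X Ω) [∀ j, IsMarkovKernel (K j)] : Kernel X (J → Ω) where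
  toFun x := Measure.pi fun j => K j x
  measurable' := by
    refine Measurable.measure_of_isPiSystem_of_isProbabilityMeasure generateFrom_pi.symm
      isPiSystem_pi ?_
    rintro s ⟨t, ht, rfl⟩
    simp only [Measure.pi_pi]
    refine Finset.measurable_fun_prod _ fun j _ => ?_
    exact Kernel.measurable_coe (K j) (ht j (Set.mem_univ j))

lemma kpi_apply (K : J → Kernel X Ω) [∀ j, IsMarkovKernel (K j)] (x : X) :
    kpi K x = Measure.pi fun j => K j x := rfl

instance (K : J → Kernel X Ω) [∀ j, IsMarkovKernel (K j)] : IsMarkovKernel (kpi K) :=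
  ⟨fun x => by rw [kpi_apply]; infer_instance⟩

lemma kpi_map {K : J → Kernel X Ω} [∀ j, IsMarkovKernel (K j)] {x y : X} {τ : J → Ω → Ω}
    (hτ : ∀ j, Measurable (τ j)) (h : ∀ j, K j y = (K j x).map (τ j)) :
    kpi K y = (kpi K x).map fun ω j => τ j (ω j) := by
  rw [kpi_apply, kpi_apply, Measure.pi_map_pi fun j => (hτ j).aemeasurable]
  congr 1
  funext j
  exact h j

end pi

end Pool.Agent.Lib.Pf720ae
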