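import Pool.Agent.Lib.Pf720ae.Core

/-!
Sign choices: the vertex lemma and the measurable choice of a maximiser.
-/

set_option autoImplicit false
set_option linter.unusedSectionVars false

open MeasureTheory Filter Topology Finset

namespace Pool.Agent.Lib.Pf720ae

section vertex

variable {ι J Λ : Type} [Fintype J] [DecidableEq J] [DecidableEq Λ]

/-- the multi-affine form -/
noncomputable def mform (B : Finset ι) (v : ι → ℝ) (p : J → ι → Λ) (a : J × Λ → ℝ) : ℝ :=
  ∑ h ∈ B, v h * ∏ i, a (i, p i h)

lemma mform_update (B : Finset ι) (v : ι → ℝ) (p : J → ι → Λ) (a : J × Λ → ℝ) (q : J × Λ)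
    (t : ℝ) : mform B v p (Function.update a q t)
      = (1 + t) / 2 * mform B v p (Function.update a q 1)
        + (1 - t) / 2 * mform B v p (Function.update a q (-1)) := by
  unfold mform
  rw [Finset.mul_sum, Finset.mul_sum, ← Finset.sum_add_distrib]
  refine Finset.sum_congr rfl fun h _ => ?_
  have key : ∀ s : ℝ, ∏ i, Function.update a q s (i, p i h)
      = Function.update a q s (q.1, p q.1 h) * ∏ i ∈ Finset.univ.erase q.1, a (i, p i h) := by
    intro s
    rw [← Finset.mul_prod_erase Finset.univ _ (Finset.mem_univ q.1)]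
    congr 1
    refine Finset.prod_congr rfl fun i hi => ?_
    rw [Function.update_of_ne]
    intro hcon
    exact (Finset.ne_of_mem_erase hi) (congrArg Prod.fst hcon)
  rw [key, key, key]
  by_cases hq : p q.1 h = q.2
  · have : (q.1, p q.1 h) = q := by rw [hq]
    rw [this]
    simp only [Function.update_self]
    ring
  · have : (q.1, p q.1 h) ≠ q := by
      intro hcon
      exact hq (congrArg Prod.snd hcon)
    simp only [Function.update_of_ne this]
    ring

/-- moving finitely many values to the extreme points does not decrease the form -/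
lemma exists_extreme (B : Finset ι) (v : ι → ℝ) (p : J → ι → Λ) (T : Finset (J × Λ)) :
    ∀ a : J × Λ → ℝ, (∀ q, |a q| ≤ 1) → ∃ a' : J × Λ → ℝ, (∀ q, |a' q| ≤ 1) ∧
      (∀ q ∈ T, a' q = 1 ∨ a' q = -1) ∧ mform B v p a ≤ mform B v p a' := by
  induction T using Finset.induction_on with
  | empty => exact fun a ha => ⟨a, ha, by simp, le_rfl⟩
  | insert q T hq ih =>
    intro a ha
    obtain ⟨a₁, h1, h2, h3⟩ := ih a ha
    -- choose the better of the two extreme values
    have hb : ∃ s : ℝ, (s = 1 ∨ s = -1) ∧ mform B v p a₁ ≤ mform B v p (Function.update a₁ q s) := by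
      have e := mform_update B v p a₁ q (a₁ q)
      rw [Function.update_eq_self] at e
      have hq1 := abs_le.1 (h1 q)
      by_cases hc : mform B v p (Function.update a₁ q 1) ≤ mform B v p (Function.update a₁ q (-1))
      · refine ⟨-1, Or.inr rfl, ?_⟩
        rw [e]
        nlinarith
      · refine ⟨1, Or.inl rfl, ?_⟩
        rw [e]
        push Not at hc
        nlinarith
    obtain ⟨s, hs, hle⟩ := hb
    refine ⟨Function.update a₁ q s, ?_, ?_, h3.trans hle⟩
    · intro q'
      by_cases hqq : q' = q
      · subst hqq
        rw [Function.update_self]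
        rcases hs with rfl | rfl <;> simp
      · rw [Function.update_of_ne hqq]; exact h1 q'
    · intro q' hq'
      by_cases hqq : q' = q
      · subst hqq
        rw [Function.update_self]; exact hs
      · rw [Function.update_of_ne hqq]
        exact h2 q' ((Finset.mem_insert.1 hq').resolve_left hqq)

/-- sign function of a finite set -/
def sv (c : J → Finset Λ) (i : J) (g : Λ) : Ic :=
  if g ∈ c i then ⟨-1, by norm_num, by norm_num⟩ else ⟨1, by norm_num, by norm_num⟩

lemma sv_val (c : J → Finset Λ) (i : J) (g : Λ) :
    ((sv c i g : Ic) : ℝ) = if g ∈ c i then -1 else 1 := by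
  unfold sv; split_ifs <;> rfl

/-- the candidates -/
def cand (B : Finset ι) (p : J → ι → Λ) : Finset (J → Finset Λ) :=
  Fintype.piFinset fun i => (B.image (p i)).powerset

lemma cand_nonempty (B : Finset ι) (p : J → ι → Λ) : (cand B p).Nonempty :=
  ⟨fun _ => ∅, by simp [cand]⟩

/-- vertex lemma -/
lemma vertex (B : Finset ι) (v : ι → ℝ) (p : J → ι → Λ) (a : J → Λ → ℝ)
    (ha : ∀ i g, |a i g| ≤ 1) :
    ∃ c ∈ cand B p, ∑ h ∈ B, v h * ∏ i, a i (p i h) ≤ ∑ h ∈ B, v h * ∏ i, ((sv c i (p i h) : Ic) : ℝ) := by
  obtain ⟨a', h1, h2, h3⟩ := exists_extreme B v p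
    (Finset.univ.biUnion fun i : J => (B.image (p i)).image fun g => (i, g))
    (fun q => a q.1 q.2) (fun q => ha _ _)
  refine ⟨fun i => (B.image (p i)).filter fun g => a' (i, g) = -1, ?_, ?_⟩
  · unfold cand
    rw [Fintype.mem_piFinset]
    intro i
    rw [Finset.mem_powerset]
    exact Finset.filter_subset _ _
  · refine h3.trans (le_of_eq ?_)
    unfold mform
    refine Finset.sum_congr rfl fun h hh => ?_
    congr 1
    refine Finset.prod_congr rfl fun i _ => ?_
    rw [sv_val]
    have hmem : p i h ∈ B.image (p i) := Finset.mem_image_of_mem _ hh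
    have h4 := h2 (i, p i h) (by
      rw [Finset.mem_biUnion]
      exact ⟨i, Finset.mem_univ _, Finset.mem_image_of_mem _ hmem⟩)
    rcases h4 with h5 | h5
    · have : p i h ∉ (B.image (p i)).filter fun g => a' (i, g) = -1 := by
        rw [Finset.mem_filter, h5]
        norm_num
      rw [if_neg this, h5]
    · have : p i h ∈ (B.image (p i)).filter fun g => a' (i, g) = -1 := by
        rw [Finset.mem_filter, h5]
        exact ⟨hmem, rfl⟩
      rw [if_pos this, h5]

end vertex

section argmax

variable {X : Type} [MeasurableSpace X]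

lemma exists_measurable_argmax {C : Type} [DecidableEq C] (s : Finset C) (hs : s.Nonempty)
    (F : C → X → ℝ) (hF : ∀ c, Measurable (F c)) :
    ∃ sel : X → C, (∀ c₀, MeasurableSet {x | sel x = c₀}) ∧ (∀ x, sel x ∈ s) ∧
      ∀ x, ∀ c ∈ s, F c x ≤ F (sel x) x := by
  induction hs using Finset.Nonempty.cons_induction with
  | singleton a =>
    refine ⟨fun _ => a, ?_, by simp, by simp⟩
    intro c₀
    by_cases h : a = c₀ <;> simp [h]
  | cons a s ha hs ih =>
    obtain ⟨sel, h1, h2, h3⟩ := ih
    have hm : Measurable fun x => F (sel x) x := by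
      have : (fun x => F (sel x) x) = fun x => ∑ c ∈ s, if sel x = c then F c x else 0 := by
        funext x
        rw [Finset.sum_ite_eq]
        simp [h2 x]
      rw [this]
      exact Finset.measurable_fun_sum _ fun c _ => Measurable.ite (h1 c) (hF c) measurable_const
    have hset : MeasurableSet {x | F (sel x) x < F a x} := measurableSet_lt hm (hF a)
    classical
    refine ⟨fun x => if F (sel x) x < F a x then a else sel x, ?_, ?_, ?_⟩
    · intro c₀
      have : {x | (if F (sel x) x < F a x then a else sel x) = c₀}
          = ({x | F (sel x) x < F a x} ∩ {_x | a = c₀})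
            ∪ ({x | F (sel x) x < F a x}ᶜ ∩ {x | sel x = c₀}) := by
        ext x
        simp only [Set.mem_ofPred_eq, Set.mem_union, Set.mem_inter_iff, Set.mem_compl_iff]
        by_cases h : F (sel x) x < F a x <;> simp [h]
      rw [this]
      exact (hset.inter (MeasurableSet.const _)).union (hset.compl.inter (h1 c₀))
    · intro x
      by_cases h : F (sel x) x < F a x
      · simp [h]
      · simp [h, h2 x]
    · intro x c hc
      rw [Finset.mem_cons] at hc
      by_cases h : F (sel x) x < F a x
      · simp only [h, if_true]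
        rcases hc with rfl | hc
        · exact le_rfl
        · exact (h3 x c hc).trans h.le
      · simp only [h, if_false]
        rcases hc with rfl | hc
        · exact not_lt.1 h
        · exact h3 x c hc

end argmax

end Pool.Agent.Lib.Pf720ae
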